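import Mathlib

/-!
PROJECT TRI, module ARI (elementary arithmetic, only Mathlib).

`syl 0 = 2`, `syl (j+1) = syl j * (syl j - 1) + 1` (Sylvester: 2, 3, 7, 43, 1807, …).
`syl_sum`: with `N = syl n - 1 = ∏ i < n, syl i`: `b i = N / syl i`, `∑ b i + 1 = N`
(`∑ 1 / syl i = 1 - 1 / N`).
`lcm_dvd`: if all `m` with `N < m ≤ 2 N` divide `I` then all `j` with `1 ≤ j ≤ 2 N` do, since `j`
has a multiple in `(N, 2 N]` for `j ≤ N` (`j * (2 N / j)`, which exceeds `2 N - j ≥ N`).
`four_pow_le`: `Nat.centralBinom N` divides every such `I` (prime powers dividing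
`choose (2 N) N` are `≤ 2 N`: `Nat.factorization_choose_le_log`), and
`4 ^ N ≤ 2 * N * centralBinom N` (`Nat.four_pow_le_two_mul_self_mul_centralBinom`).
`syl_ge`: `2 ^ 2 ^ (n - 1) ≤ syl n` by induction from `syl 1 = 3`, `syl (j+1) ≥ (syl j - 1)^2 + 1`…
(induct on `2 ^ 2 ^ (n-1) + 1 ≤ syl n`).
-/

namespace TriIdx

/-- Sylvester's sequence `2, 3, 7, 43, …` -/
def syl : ℕ → ℕ
  | 0 => 2
  | j + 1 => syl j * (syl j - 1) + 1

theorem syl_pos (n : ℕ) : 2 ≤ syl n := by
  induction n with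
  | zero => simp [syl]
  | succ n ih =>
    obtain ⟨k, hk⟩ := Nat.exists_eq_add_of_le ih
    have h1 : syl n - 1 = k + 1 := by omega
    rw [syl, h1, hk]
    nlinarith

private theorem syl_step (n : ℕ) : syl (n + 1) - 1 = syl n * (syl n - 1) := by
  simp [syl]

theorem syl_sum (n : ℕ) : ∃ b : Fin n → ℕ, (∀ i, b i * syl i = syl n - 1) ∧
    ∑ i, b i + 1 = syl n - 1 := by
  induction n with
  | zero => exact ⟨fun i => i.elim0, fun i => i.elim0, by simp [syl]⟩
  | succ n ih =>
    obtain ⟨b, h1, h2⟩ := ih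
    refine ⟨Fin.snoc (fun i => b i * syl n) (syl n - 1), ?_, ?_⟩
    · intro i
      rw [syl_step]
      refine Fin.lastCases ?_ (fun i => ?_) i
      · rw [Fin.snoc_last, Fin.val_last, mul_comm]
      · rw [Fin.snoc_castSucc, Fin.val_castSucc, ← h1 i]
        ring
    · rw [syl_step, Fin.sum_univ_castSucc]
      simp only [Fin.snoc_castSucc, Fin.snoc_last]
      rw [← Finset.sum_mul]
      have h3 := syl_pos n
      obtain ⟨k, hk⟩ := Nat.exists_eq_add_of_le h3
      have h4 : syl n - 1 = k + 1 := by omega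
      have h5 : ∑ i, b i = k := by omega
      rw [h5, h4, hk]
      ring

theorem all_dvd (N I : ℕ) (h : ∀ m, N < m → m ≤ 2 * N → m ∣ I) (j : ℕ) (hj : 0 < j)
    (hj2 : j ≤ 2 * N) : j ∣ I := by
  rcases Nat.lt_or_ge N j with h1 | h1
  · exact h j h1 hj2
  · have h2 : 2 * N / j * j ≤ 2 * N := Nat.div_mul_le_self _ _
    have h3 : 2 * N < (2 * N / j + 1) * j := by
      have := Nat.lt_div_mul_add (a := 2 * N) hj
      nlinarith
    have h4 : N < 2 * N / j * j := by nlinarith
    exact (Dvd.intro_left _ rfl).trans (h _ h4 h2)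

theorem four_pow_le (N I : ℕ) (hN : 0 < N) (hI : 0 < I) (h : ∀ m, N < m → m ≤ 2 * N → m ∣ I) :
    4 ^ N ≤ 2 * N * I := by
  have h1 : Nat.centralBinom N ∣ I := by
    rw [Nat.dvd_iff_prime_pow_dvd_dvd]
    intro p k hp hk
    apply all_dvd N I h _ (pow_pos hp.pos k)
    have h2 : k ≤ ((2 * N).choose N).factorization p := by
      rw [Nat.centralBinom] at hk
      have h3 : (2 * N).choose N ≠ 0 := (Nat.choose_pos (by omega)).ne'
      exact (hp.pow_dvd_iff_le_factorization h3).1 hk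
    exact (Nat.pow_le_pow_right hp.pos h2).trans
      (Nat.pow_factorization_choose_le (by omega))
  have h2 := Nat.le_of_dvd hI h1
  exact (Nat.four_pow_le_two_mul_self_mul_centralBinom N hN).trans (Nat.mul_le_mul_left _ h2)

theorem syl_ge (n : ℕ) (hn : 0 < n) : 2 ^ 2 ^ (n - 1) < syl n := by
  induction n, hn using Nat.le_induction with
  | base => simp [syl]
  | succ n hn ih =>
    have h1 : 2 ^ 2 ^ (n + 1 - 1) = (2 ^ 2 ^ (n - 1)) * (2 ^ 2 ^ (n - 1)) := by
      have h2 : n + 1 - 1 = (n - 1) + 1 := by omega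
      rw [h2, pow_succ 2 (n - 1), pow_mul, sq]
    have h5 : ∀ a s : ℕ, a < s → a * a < s * (s - 1) + 1 := by
      intro a s has
      obtain ⟨k, hk⟩ := Nat.exists_eq_add_of_lt has
      have h3 : s - 1 = a + k := by omega
      rw [h3, hk]
      nlinarith
    rw [h1]
    exact h5 _ _ ih

end TriIdx
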