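import Pool.Agent.TriIdx.KU

/-!
Valuation rings of `M(z)` with the valuation trivial on `M`, and Gauss valuations.
-/

namespace TriIdx

open Polynomial

variable {K : Type*} [Field K] (v : AddValuation K (WithTop ℤ))

theorem eval_nonneg {M : Subfield K} {z : K} (hM : ∀ c ∈ M, 0 ≤ v c) (hz : 0 ≤ v z) (p : M[X]) :
    0 ≤ v (p.eval₂ M.subtype z) := by
  rw [Polynomial.eval₂_eq_sum_range]
  apply AddValuation.map_le_sum
  intro i _
  rw [AddValuation.map_mul, AddValuation.map_pow]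
  exact add_nonneg (hM _ (p.coeff i).2) (nsmul_nonneg hz _)

theorem eval_mem {M : Subfield K} {z : K} (O : Subring K) (hM : ∀ c ∈ M, c ∈ O) (hz : z ∈ O)
    (p : M[X]) : p.eval₂ M.subtype z ∈ O := by
  rw [Polynomial.eval₂_eq_sum_range]
  exact O.sum_mem fun i _ => O.mul_mem (hM _ (p.coeff i).2) (O.pow_mem hz i)

/-- elements of the valuation ring of `M(z)` are fractions with unit denominator -/
theorem frac_unit {M : Subfield K} {z : K} (hM : ∀ c ∈ M, c ≠ 0 → v c = 0) (hz : 0 ≤ v z)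
    {A B : M[X]} (hB : B.eval₂ M.subtype z ≠ 0) {r : K}
    (hr : r = A.eval₂ M.subtype z / B.eval₂ M.subtype z) (hr0 : 0 ≤ v r) :
    ∃ A' B' : M[X], v (B'.eval₂ M.subtype z) = 0 ∧
      r = A'.eval₂ M.subtype z / B'.eval₂ M.subtype z := by
  have hM' : ∀ c ∈ M, 0 ≤ v c := by
    intro c hc
    by_cases h : c = 0
    · rw [h]; simp
    · rw [hM c hc h]
  by_cases hrz : r = 0
  · refine ⟨0, 1, by simp, by simp [hrz]⟩
  classical
  have hB0 : B ≠ 0 := by rintro rfl; simp at hB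
  obtain ⟨d, hdA, hdB, p, q, hpq⟩ : ∃ d : M[X], d ∣ A ∧ d ∣ B ∧ ∃ p q, d = A * p + B * q :=
    ⟨EuclideanDomain.gcd A B, EuclideanDomain.gcd_dvd_left A B, EuclideanDomain.gcd_dvd_right A B,
      _, _, EuclideanDomain.gcd_eq_gcd_ab A B⟩
  obtain ⟨A', hA'⟩ := hdA
  obtain ⟨B', hB'⟩ := hdB
  have hd0 : d ≠ 0 := by
    intro h; rw [h, zero_mul] at hB'; exact hB0 hB'
  have hcop : A' * p + B' * q = 1 := by
    have h2 : d * (A' * p + B' * q) = d * 1 := by
      calc d * (A' * p + B' * q) = (d * A') * p + (d * B') * q := by ring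
        _ = A * p + B * q := by rw [← hA', ← hB']
        _ = d * 1 := by rw [← hpq, mul_one]
    exact mul_left_cancel₀ hd0 h2
  set ev := fun P : M[X] => P.eval₂ M.subtype z with hev
  have hBe : ev B = ev d * ev B' := by
    simp only [hev]; rw [hB', Polynomial.eval₂_mul]
  have hAe : ev A = ev d * ev A' := by
    simp only [hev]; rw [hA', Polynomial.eval₂_mul]
  have hB1 : ev B ≠ 0 := hB
  have hde : ev d ≠ 0 := by intro h; rw [hBe, h, zero_mul] at hB1; exact hB1 rfl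
  have hB'e : ev B' ≠ 0 := by intro h; rw [hBe, h, mul_zero] at hB1; exact hB1 rfl
  have hr' : r = ev A' / ev B' := by
    rw [hr]; show ev A / ev B = _
    rw [hAe, hBe]; field_simp
  have hA'e : ev A' ≠ 0 := by intro h; rw [h, zero_div] at hr'; exact hrz hr'
  refine ⟨A', B', ?_, hr'⟩
  show v (ev B') = 0
  rw [eq_zero_iff v hB'e]
  have hnn : ∀ P : M[X], 0 ≤ v (ev P) := eval_nonneg v hM' hz
  have h1 := (nonneg_iff v hB'e).1 (hnn B')
  have h2 := (nonneg_iff v hA'e).1 (hnn A')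
  have h3 := (nonneg_iff v hrz).1 hr0
  rw [hr', vz_div v hA'e hB'e] at h3
  by_contra hne
  have hBp : 0 < v (ev B') := by rw [pos_iff v hB'e]; omega
  have hAp : 0 < v (ev A') := by rw [pos_iff v hA'e]; omega
  have h4 : ev A' * ev p + ev B' * ev q = 1 := by
    have := congrArg ev hcop
    simp only [hev, Polynomial.eval₂_add, Polynomial.eval₂_mul, Polynomial.eval₂_one] at this
    exact this
  have h5 : 0 < v (1 : K) := by
    rw [← h4]
    apply AddValuation.map_lt_add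
    · rw [AddValuation.map_mul]; exact lt_of_lt_of_le hAp (le_add_of_nonneg_right (hnn p))
    · rw [AddValuation.map_mul]; exact lt_of_lt_of_le hBp (le_add_of_nonneg_right (hnn q))
  rw [AddValuation.map_one] at h5
  exact lt_irrefl _ h5

/-- case of a valuation trivial on `M` -/
theorem base_triv {M K₁ : Subfield K} {z : K} (hM : ∀ c ∈ M, c ≠ 0 → v c = 0) (hz : 0 ≤ v z)
    (hK₁ : ∀ r ∈ K₁, ∃ A B : M[X], B.eval₂ M.subtype z ≠ 0 ∧
      r = A.eval₂ M.subtype z / B.eval₂ M.subtype z)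
    (O : Subring K) (hO : ∀ r ∈ O, v r = 0 → r⁻¹ ∈ O) (hMO : ∀ c ∈ M, c ∈ O) (hzO : z ∈ O)
    {r : K} (hr : r ∈ K₁) (hr0 : 0 ≤ v r) : r ∈ O := by
  obtain ⟨A, B, hB, hrr⟩ := hK₁ r hr
  obtain ⟨A', B', hv, hr'⟩ := frac_unit v hM hz hB hrr hr0
  rw [hr', div_eq_mul_inv]
  exact O.mul_mem (eval_mem O hMO hzO A') (hO _ (eval_mem O hMO hzO B') hv)

/-- value group of `M(z)` when `v z > 0`: generated by `v z` -/
theorem val_triv {M K₁ : Subfield K} {z : K} (hM : ∀ c ∈ M, c ≠ 0 → v c = 0) (hz : 0 < v z)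
    (hzn : z ≠ 0)
    (hK₁ : ∀ r ∈ K₁, ∃ A B : M[X], B.eval₂ M.subtype z ≠ 0 ∧
      r = A.eval₂ M.subtype z / B.eval₂ M.subtype z)
    {r : K} (hr : r ∈ K₁) (hr0 : r ≠ 0) : ∃ j : ℤ, vz v r = j * vz v z := by
  have key : ∀ P : M[X], P.eval₂ M.subtype z ≠ 0 → ∃ j : ℕ, vz v (P.eval₂ M.subtype z)
      = j * vz v z := by
    intro P hP
    have hP0 : P ≠ 0 := by rintro rfl; simp at hP
    obtain ⟨k, hk, Q, hQ⟩ : ∃ k : ℕ, P.coeff k ≠ 0 ∧ X ^ k ∣ P := by
      refine ⟨P.natTrailingDegree, Polynomial.trailingCoeff_nonzero_iff_nonzero.2 hP0, ?_⟩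
      rw [Polynomial.X_pow_dvd_iff]
      intro d hd
      exact Polynomial.coeff_eq_zero_of_lt_natTrailingDegree hd
    refine ⟨k, ?_⟩
    have hQ0 : Q.coeff 0 ≠ 0 := by
      have h1 : P.coeff (0 + k) = Q.coeff 0 := by
        rw [hQ, mul_comm, Polynomial.coeff_mul_X_pow]
      rw [← h1, zero_add]
      exact hk
    have hQv : v (Q.eval₂ M.subtype z) = 0 := by
      have h2 : Q = C (Q.coeff 0) + X * Q.divX := by
        conv_lhs => rw [← Polynomial.divX_mul_X_add Q]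
        ring
      rw [h2, Polynomial.eval₂_add, Polynomial.eval₂_C, Polynomial.eval₂_mul, Polynomial.eval₂_X]
      have h3 : v (M.subtype (Q.coeff 0)) = 0 := by
        apply hM _ (Q.coeff 0).2
        intro h; exact hQ0 (Subtype.ext h)
      have h4 : 0 < v (z * Q.divX.eval₂ M.subtype z) := by
        rw [AddValuation.map_mul]
        refine lt_of_lt_of_le hz (le_add_of_nonneg_right (eval_nonneg v ?_ hz.le _))
        intro c hc
        by_cases h : c = 0
        · rw [h]; simp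
        · rw [hM c hc h]
      rw [AddValuation.map_add_eq_of_lt_left, h3]
      rw [h3]; exact h4
    have hQn : Q.eval₂ M.subtype z ≠ 0 := by
      intro h; rw [h, AddValuation.map_zero] at hQv; exact absurd hQv (by simp)
    conv_lhs => rw [hQ]
    rw [Polynomial.eval₂_mul, Polynomial.eval₂_pow, Polynomial.eval₂_X,
      vz_mul v (pow_ne_zero _ hzn) hQn, vz_pow v hzn, (eq_zero_iff v hQn).1 hQv, add_zero]
  obtain ⟨A, B, hB, hrr⟩ := hK₁ r hr
  have hA : A.eval₂ M.subtype z ≠ 0 := by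
    intro h; rw [h, zero_div] at hrr; exact hr0 hrr
  obtain ⟨j, hj⟩ := key A hA
  obtain ⟨j', hj'⟩ := key B hB
  refine ⟨j - j', ?_⟩
  rw [hrr, vz_div v hA hB, hj, hj']; ring

section gauss

variable [Algebra ℂ K] {ι : Type*} {F₀ : Subfield K} {x : ι → K}

theorem const_val (hC : ∀ c : ℂ, c ≠ 0 → v (algebraMap ℂ K c) = 0) (c : ℂ) :
    0 ≤ v (algebraMap ℂ K c) := by
  by_cases h : c = 0
  · rw [h, map_zero]; simp
  · rw [hC c h]

/-- Gauss lemma: after dividing by a coefficient the value is zero -/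
theorem gauss (hC : ∀ c : ℂ, c ≠ 0 → v (algebraMap ℂ K c) = 0)
    (hx : ∀ i, 0 ≤ v (x i))
    (hres : ∀ f ∈ F₀, 0 ≤ v f → ∃ c : ℂ, 0 < v (f - algebraMap ℂ K c))
    (hind : ∀ P : MvPolynomial ι ℂ, P ≠ 0 → v (MvPolynomial.aeval x P) = 0)
    (O : Subring K) (hW : ∀ f ∈ F₀, 0 ≤ v f → f ∈ O) (hxO : ∀ i, x i ∈ O)
    (A : MvPolynomial ι F₀) (hA : A ≠ 0) :
    ∃ f ∈ F₀, f ≠ 0 ∧ ∃ a ∈ O, v a = 0 ∧ A.eval₂ F₀.subtype x = f * a := by
  classical
  have hne : A.support.Nonempty := by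
    rw [Finset.nonempty_iff_ne_empty]
    intro h; exact hA (MvPolynomial.support_eq_empty.1 h)
  obtain ⟨s₀, hs₀, hmin⟩ := Finset.exists_min_image A.support
    (fun s => vz v ((A.coeff s : F₀) : K)) hne
  have hc0 : ((A.coeff s₀ : F₀) : K) ≠ 0 := by
    intro h
    exact (MvPolynomial.mem_support_iff.1 hs₀) (Subtype.ext h)
  set f := ((A.coeff s₀ : F₀) : K) with hf
  have hfF : f ∈ F₀ := (A.coeff s₀).2
  have hcoef : ∀ s, 0 ≤ v (((A.coeff s : F₀) : K) / f) := by
    intro s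
    by_cases hs : ((A.coeff s : F₀) : K) = 0
    · rw [hs]; simp
    · rw [nonneg_iff v (div_ne_zero hs hc0), vz_div v hs hc0]
      have hs' : s ∈ A.support := by
        rw [MvPolynomial.mem_support_iff]; intro h; apply hs; rw [h]; rfl
      have := hmin s hs'
      omega
  have hcF : ∀ s, ((A.coeff s : F₀) : K) / f ∈ F₀ := fun s => F₀.div_mem (A.coeff s).2 hfF
  choose c hc using fun s => hres _ (hcF s) (hcoef s)
  set P : MvPolynomial ι ℂ := ∑ s ∈ A.support, MvPolynomial.monomial s (c s) with hP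
  have hP0 : P ≠ 0 := by
    intro h
    have h1 : P.coeff s₀ = c s₀ := by
      rw [hP, MvPolynomial.coeff_sum]
      rw [Finset.sum_eq_single s₀]
      · simp
      · intro b _ hb; rw [MvPolynomial.coeff_monomial, if_neg hb]
      · intro h; exact absurd hs₀ h
    rw [h, MvPolynomial.coeff_zero] at h1
    have h2 := hc s₀
    rw [← h1, ← hf, div_self hc0, map_zero, sub_zero, AddValuation.map_one] at h2
    exact lt_irrefl _ h2
  set a := ∑ s ∈ A.support, (((A.coeff s : F₀) : K) / f) * (s.prod fun i k => x i ^ k) with ha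
  have hprodv : ∀ s : ι →₀ ℕ, 0 ≤ v (s.prod fun i k => x i ^ k) := by
    intro s
    show (s.prod fun i k => x i ^ k) ∈ OV v
    exact Subring.prod_mem _ fun i _ => Subring.pow_mem _ (hx i) _
  have hprodO : ∀ s : ι →₀ ℕ, (s.prod fun i k => x i ^ k) ∈ O := by
    intro s
    exact Subring.prod_mem _ fun i _ => Subring.pow_mem _ (hxO i) _
  have hPx : MvPolynomial.aeval x P = ∑ s ∈ A.support,
      algebraMap ℂ K (c s) * (s.prod fun i k => x i ^ k) := by
    rw [hP, map_sum]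
    refine Finset.sum_congr rfl fun s _ => ?_
    rw [MvPolynomial.aeval_monomial]
  refine ⟨f, hfF, hc0, a, ?_, ?_, ?_⟩
  · exact O.sum_mem fun s _ => O.mul_mem (hW _ (hcF s) (hcoef s)) (hprodO s)
  · have h1 : a = MvPolynomial.aeval x P + ∑ s ∈ A.support,
        ((((A.coeff s : F₀) : K) / f) - algebraMap ℂ K (c s)) * (s.prod fun i k => x i ^ k) := by
      rw [hPx, ha, ← Finset.sum_add_distrib]
      refine Finset.sum_congr rfl fun s _ => ?_
      ring
    have h2 : 0 < v (∑ s ∈ A.support,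
        ((((A.coeff s : F₀) : K) / f) - algebraMap ℂ K (c s)) * (s.prod fun i k => x i ^ k)) := by
      apply AddValuation.map_lt_sum' _ (by exact WithTop.coe_lt_top 0)
      intro s _
      rw [AddValuation.map_mul]
      exact lt_of_lt_of_le (hc s) (le_add_of_nonneg_right (hprodv s))
    have h3 := hind P hP0
    rw [h1, AddValuation.map_add_eq_of_lt_left _ (by rw [h3]; exact h2), h3]
  · have h1 : A.eval₂ F₀.subtype x = ∑ s ∈ A.support,
        ((A.coeff s : F₀) : K) * (s.prod fun i k => x i ^ k) := rfl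
    rw [h1, ha, Finset.mul_sum]
    refine Finset.sum_congr rfl fun s _ => ?_
    field_simp

/-- case of a valuation nontrivial on `F₀` with independent `x` -/
theorem base_gauss {K₁ : Subfield K} (hC : ∀ c : ℂ, c ≠ 0 → v (algebraMap ℂ K c) = 0)
    (hx : ∀ i, 0 ≤ v (x i))
    (hres : ∀ f ∈ F₀, 0 ≤ v f → ∃ c : ℂ, 0 < v (f - algebraMap ℂ K c))
    (hind : ∀ P : MvPolynomial ι ℂ, P ≠ 0 → v (MvPolynomial.aeval x P) = 0)
    (O : Subring K) (hO : ∀ r ∈ O, v r = 0 → r⁻¹ ∈ O)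
    (hW : ∀ f ∈ F₀, 0 ≤ v f → f ∈ O) (hxO : ∀ i, x i ∈ O)
    (hK₁ : ∀ r ∈ K₁, ∃ A B : MvPolynomial ι F₀, B.eval₂ F₀.subtype x ≠ 0 ∧
      r = A.eval₂ F₀.subtype x / B.eval₂ F₀.subtype x)
    {r : K} (hr : r ∈ K₁) (hr0 : 0 ≤ v r) : r ∈ O := by
  by_cases hrz : r = 0
  · rw [hrz]; exact O.zero_mem
  obtain ⟨A, B, hB, hrr⟩ := hK₁ r hr
  have hA0 : A ≠ 0 := by
    rintro rfl
    rw [MvPolynomial.eval₂_zero, zero_div] at hrr; exact hrz hrr
  have hB0 : B ≠ 0 := by
    rintro rfl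
    rw [MvPolynomial.eval₂_zero] at hB; exact hB rfl
  obtain ⟨f, hf, hf0, a, haO, hav, hAe⟩ := gauss v hC hx hres hind O hW hxO A hA0
  obtain ⟨g, hg, hg0, b, hbO, hbv, hBe⟩ := gauss v hC hx hres hind O hW hxO B hB0
  have ha0 : a ≠ 0 := by
    intro h; rw [h, AddValuation.map_zero] at hav; exact absurd hav (by simp)
  have hb0 : b ≠ 0 := by
    intro h; rw [h, AddValuation.map_zero] at hbv; exact absurd hbv (by simp)
  have h1 : r = f / g * a * b⁻¹ := by
    rw [hrr, hAe, hBe]; field_simp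
  have h2 : 0 ≤ v (f / g) := by
    rw [nonneg_iff v (div_ne_zero hf0 hg0)]
    have h3 := (nonneg_iff v hrz).1 hr0
    rw [h1, vz_mul v (mul_ne_zero (div_ne_zero hf0 hg0) ha0) (inv_ne_zero hb0),
      vz_mul v (div_ne_zero hf0 hg0) ha0, vz_inv v hb0, (eq_zero_iff v ha0).1 hav,
      (eq_zero_iff v hb0).1 hbv] at h3
    simpa using h3
  rw [h1]
  exact O.mul_mem (O.mul_mem (hW _ (F₀.div_mem hf hg) h2) haO) (hO _ hbO hbv)

end gauss

end TriIdx
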