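import Pool.Agent.TriIdx.Log

/-!
Canonicity: the pluricanonical form has nonnegative order at every discrete valuation.
-/

namespace TriIdx

variable {K : Type*} [Field K] [Algebra ℂ K] (v : AddValuation K (WithTop ℤ))

omit [Algebra ℂ K] in
theorem pos_right {N x : ℤ} (hN : 0 ≤ N) (h : 0 < N * x) : 0 < x := by
  by_contra hc
  push Not at hc
  have := mul_nonpos_of_nonneg_of_nonpos hN hc
  omega

theorem det_cons {n : ℕ} (D₀ : Derivation ℂ K K) (E : Fin n → Derivation ℂ K K) (r : K)
    (y : Fin n → K) (hr : ∀ i, E i r = 0) :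
    (jac (Fin.cons D₀ E : Fin (n + 1) → Derivation ℂ K K) (Fin.cons r y : Fin (n + 1) → K)).det
      = D₀ r * (jac E y).det := by
  rw [Matrix.det_succ_column_zero, Fin.sum_univ_succ]
  have h0 : ∑ i : Fin n, (-1) ^ ((i.succ : Fin (n + 1)) : ℕ) *
      jac (Fin.cons D₀ E : Fin (n + 1) → Derivation ℂ K K) (Fin.cons r y : Fin (n + 1) → K)
        i.succ 0 *
      ((jac (Fin.cons D₀ E : Fin (n + 1) → Derivation ℂ K K)
        (Fin.cons r y : Fin (n + 1) → K)).submatrix i.succ.succAbove Fin.succ).det = 0 := by
    refine Finset.sum_eq_zero fun i _ => ?_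
    have : jac (Fin.cons D₀ E : Fin (n + 1) → Derivation ℂ K K) (Fin.cons r y : Fin (n + 1) → K)
        i.succ 0 = 0 := by
      simp [jac, hr]
    rw [this]; ring
  rw [h0, add_zero]
  have h1 : (jac (Fin.cons D₀ E : Fin (n + 1) → Derivation ℂ K K)
        (Fin.cons r y : Fin (n + 1) → K)).submatrix (Fin.succAbove 0) Fin.succ = jac E y := by
    ext i j
    simp [jac]
  rw [h1]
  simp [jac]

section
variable {n : ℕ} (E : Fin n → Derivation ℂ K K) (x : Fin n → K)
  (hEx : ∀ i j, E i (x j) = if i = j then 1 else 0)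

include hEx in
theorem jac_x : jac E x = 1 := by
  ext i j
  simp [jac, hEx, Matrix.one_apply]

include hEx in
theorem det_jac_update (j : Fin n) (t : K) : (jac E (Function.update x j t)).det = E j t := by
  have : jac E (Function.update x j t) = (1 : Matrix (Fin n) (Fin n) K).updateCol j
      (fun i => E i t) := by
    ext i l
    by_cases hl : l = j
    · subst hl; simp [jac]
    · simp [jac, hl, hEx, Matrix.one_apply]
  rw [this, ← Matrix.cramer_apply, Matrix.cramer_one]
  rfl

variable {a b : Fin n → ℕ} {N : ℕ} (ha : ∀ i, 0 < a i) (hab : ∀ i, b i * a i = N)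
  (hsum : ∑ i, b i + 1 = N)

include hEx ha in
theorem E_tau (j : Fin n) : E j (1 + ∑ i, x i ^ a i) = a j * x j ^ (a j - 1) := by
  rw [map_add, map_sum, Derivation.map_one_eq_zero, zero_add, Finset.sum_eq_single j]
  · rw [Derivation.leibniz_pow, hEx]; simp
  · intro i _ hij
    rw [Derivation.leibniz_pow, hEx, if_neg (Ne.symm hij)]; simp
  · simp

include hEx ha in
/-- value of the logarithmic determinant with `τ` in place of `x_j` -/
theorem ljac_tau (hC : ∀ c : ℂ, c ≠ 0 → v (algebraMap ℂ K c) = 0) (hx : ∀ i, x i ≠ 0)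
    (hτ : (1 + ∑ i, x i ^ a i : K) ≠ 0) (j : Fin n) :
    v (ljac E (Function.update x j (1 + ∑ i, x i ^ a i))).det
      = ((a j * vz v (x j) - vz v (1 + ∑ i, x i ^ a i : K) - ∑ i, vz v (x i) : ℤ) : WithTop ℤ) := by
  set τ : K := 1 + ∑ i, x i ^ a i with hτd
  have hne : ∀ i, Function.update x j τ i ≠ 0 := by
    intro i
    by_cases h : i = j
    · subst h; simpa using hτ
    · rw [Function.update_of_ne h]; exact hx i
  have h1 := det_jac_eq E (Function.update x j τ) hne
  rw [det_jac_update E x hEx, hτd, E_tau E x hEx ha, ← hτd, prod_update] at h1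
  have hP : (∏ i ∈ Finset.univ.erase j, x i) ≠ 0 := Finset.prod_ne_zero_iff.2 fun i _ => hx i
  have haj : (a j : K) ≠ 0 := by
    have := int_val v hC (a j : ℤ) (by have := ha j; omega)
    intro h
    rw [Int.cast_natCast, h, AddValuation.map_zero] at this
    exact absurd this (by simp)
  have hajv : vz v (a j : K) = 0 := by
    rw [← eq_zero_iff v haj]
    have := int_val v hC (a j : ℤ) (by have := ha j; omega)
    rwa [Int.cast_natCast] at this
  have h2 : (ljac E (Function.update x j τ)).det
      = (a j * x j ^ (a j - 1)) / (τ * ∏ i ∈ Finset.univ.erase j, x i) := by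
    rw [h1]; field_simp
  have hnum : (a j : K) * x j ^ (a j - 1) ≠ 0 := mul_ne_zero haj (pow_ne_zero _ (hx j))
  have hden : τ * ∏ i ∈ Finset.univ.erase j, x i ≠ 0 := mul_ne_zero hτ hP
  rw [h2, v_eq v (div_ne_zero hnum hden)]
  congr 1
  rw [vz_div v hnum hden, vz_mul v haj (pow_ne_zero _ (hx j)), vz_pow v (hx j), hajv,
    vz_mul v hτ hP, vz_prod v _ _ fun i _ => hx i]
  have h3 : ∑ i, vz v (x i) = vz v (x j) + ∑ i ∈ Finset.univ.erase j, vz v (x i) :=
    (Finset.add_sum_erase Finset.univ (fun i => vz v (x i)) (Finset.mem_univ j)).symm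
  rw [h3]
  have h4 : ((a j - 1 : ℕ) : ℤ) = a j - 1 := by have := ha j; omega
  rw [h4]; ring

include hab hsum in
theorem arith_min {e : Fin n → ℤ} {ν : ℤ} (hmin : ∀ i, ν ≤ a i * e i) :
    (N - 1 : ℤ) * ν ≤ N * ∑ i, e i := by
  have h1 : ∀ i, (b i : ℤ) * ν ≤ N * e i := by
    intro i
    have h2 := hmin i
    have h3 : (N : ℤ) = b i * a i := by rw [← hab i]; push_cast; ring
    rw [h3, mul_assoc]
    exact mul_le_mul_of_nonneg_left h2 (by positivity)
  have h4 : (N - 1 : ℤ) = ∑ i, (b i : ℤ) := by
    rw [← hsum]; push_cast; ring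
  rw [h4, Finset.sum_mul, Finset.mul_sum]
  exact Finset.sum_le_sum fun i _ => h1 i

include hEx ha hab hsum in
/-- the canonicity estimate -/
theorem canon (hC : ∀ c : ℂ, c ≠ 0 → v (algebraMap ℂ K c) = 0) {π : K}
    (hπ : v π = ((1 : ℤ) : WithTop ℤ)) (hx : ∀ i, x i ≠ 0)
    (hτ : (1 + ∑ i, x i ^ a i : K) ≠ 0) {m : ℕ} (hm : N < m) {ρ : ℤ}
    (hρ : vz v (1 + ∑ i, x i ^ a i : K) = m * ρ) (D₀ : Derivation ℂ K K)
    {r : K} (hr : 0 ≤ v r) (hrE : ∀ i, E i r = 0) (hrD : v (D₀ r) = 0) :
    ∃ y : Fin (n + 1) → K, (∀ j, 0 ≤ v (y j)) ∧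
      v (jac (Fin.cons D₀ E : Fin (n + 1) → Derivation ℂ K K) y).det
        ≤ ((-((m - 1 : ℤ) * ρ) : ℤ) : WithTop ℤ) := by
  set τ : K := 1 + ∑ i, x i ^ a i with hτd
  have hN : 0 < N := by omega
  -- a helper: passing from n to n+1
  have lift : ∀ y : Fin n → K, (∀ j, 0 ≤ v (y j)) → ∀ k : ℤ,
      v (jac E y).det ≤ (k : WithTop ℤ) → ∃ y : Fin (n + 1) → K, (∀ j, 0 ≤ v (y j)) ∧
      v (jac (Fin.cons D₀ E : Fin (n + 1) → Derivation ℂ K K) y).det ≤ (k : WithTop ℤ) := by
    intro y hy k hk
    refine ⟨Fin.cons r y, ?_, ?_⟩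
    · intro j
      refine Fin.cases ?_ (fun i => ?_) j
      · simpa using hr
      · simpa using hy i
    · rw [det_cons D₀ E r y hrE, AddValuation.map_mul, hrD, zero_add]
      exact hk
  by_cases hreg : vz v τ = 0 ∧ ∀ i, 0 ≤ vz v (x i)
  · obtain ⟨h0, hx0⟩ := hreg
    have hρ0 : ρ = 0 := by
      have hm0 : (m : ℤ) ≠ 0 := by omega
      rw [h0] at hρ
      exact (mul_eq_zero.1 hρ.symm).resolve_left hm0
    apply lift x (fun j => (nonneg_iff v (hx j)).2 (hx0 j))
    rw [jac_x E x hEx, Matrix.det_one, AddValuation.map_one, hρ0]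
    simp
  · have hne : (Finset.univ : Finset (Fin n)).Nonempty := by
      by_contra hemp
      rw [Finset.not_nonempty_iff_eq_empty] at hemp
      apply hreg
      constructor
      · have : τ = 1 := by rw [hτd, hemp]; simp
        rw [this]; simp
      · intro i
        have := Finset.mem_univ i
        rw [hemp] at this
        exact absurd this (Finset.notMem_empty i)
    obtain ⟨j, -, hj⟩ := Finset.exists_min_image Finset.univ (fun i => a i * vz v (x i)) hne
    set ν : ℤ := a j * vz v (x j) with hν
    have hmin : ∀ i, ν ≤ a i * vz v (x i) := fun i => hj i (Finset.mem_univ i)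
    have har := arith_min hab hsum hmin
    have hxa : ∀ i, v (x i ^ a i) = ((a i * vz v (x i) : ℤ) : WithTop ℤ) := by
      intro i
      rw [v_eq v (pow_ne_zero _ (hx i)), vz_pow v (hx i)]
    -- key inequality
    have key : 0 < ∑ i, vz v (x i) - ν + ρ := by
      rcases lt_trichotomy (vz v τ) 0 with hneg | hz | hpos
      · -- ν ≤ vz τ < 0
        have h1 : ν ≤ vz v τ := by
          have h2 : ((min 0 ν : ℤ) : WithTop ℤ) ≤ v τ := by
            rw [hτd]
            apply AddValuation.map_le_add
            · rw [AddValuation.map_one]; exact_mod_cast min_le_left 0 ν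
            · apply AddValuation.map_le_sum
              intro i _
              rw [hxa i]
              exact WithTop.coe_le_coe.2 (le_trans (min_le_right 0 ν) (hmin i))
          rw [le_v_iff v hτ] at h2
          rcases min_le_iff.1 h2 with h | h
          · omega
          · exact h
        rw [hρ] at h1 hneg
        have hρneg : ρ < 0 := by
          by_contra hc
          push Not at hc
          have : 0 ≤ (m : ℤ) * ρ := by positivity
          omega
        have h3 : (0 : ℤ) < N * (∑ i, vz v (x i) - ν + ρ) := by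
          have h5 : (N : ℤ) < m := by exact_mod_cast hm
          have h4 : (N : ℤ) * (∑ i, vz v (x i) - ν + ρ) = (N * ∑ i, vz v (x i) - (N - 1) * ν)
              + (m * ρ - ν) + (m - N) * (-ρ) := by ring
          rw [h4]
          have h6 : 0 < ((m : ℤ) - N) * (-ρ) := mul_pos (by omega) (by omega)
          linarith
        exact pos_right (by positivity) h3
      · have hρ0 : ρ = 0 := by
          have hm0 : (m : ℤ) ≠ 0 := by omega
          rw [hz] at hρ
          exact (mul_eq_zero.1 hρ.symm).resolve_left hm0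
        have hνneg : ν < 0 := by
          by_contra hc
          push Not at hc
          apply hreg
          refine ⟨hz, fun i => ?_⟩
          have h1 := le_trans hc (hmin i)
          have h2 : (0 : ℤ) < a i := by exact_mod_cast ha i
          by_contra hc2
          push Not at hc2
          nlinarith
        have h3 : (0 : ℤ) < N * (∑ i, vz v (x i) - ν + ρ) := by
          rw [hρ0]
          linarith
        exact pos_right (by positivity) h3
      · have hνle : ν ≤ 0 := by
          by_contra hc
          push Not at hc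
          have h1 : 0 < v (∑ i, x i ^ a i) := by
            apply AddValuation.map_lt_sum' _ (WithTop.coe_lt_top 0)
            intro i _
            rw [hxa i]
            exact_mod_cast lt_of_lt_of_le hc (hmin i)
          have h2 : v τ = v 1 := by
            rw [hτd]
            apply AddValuation.map_add_eq_of_lt_left
            rw [AddValuation.map_one]; exact h1
          rw [AddValuation.map_one, eq_zero_iff v hτ] at h2
          omega
        rw [hρ] at hpos
        have hρpos : 0 < ρ := pos_right (by positivity) hpos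
        have h3 : (0 : ℤ) ≤ N * (∑ i, vz v (x i) - ν) := by linarith
        have h4 : 0 ≤ ∑ i, vz v (x i) - ν := by
          by_contra hc
          push Not at hc
          have : (N : ℤ) * (∑ i, vz v (x i) - ν) < 0 :=
            mul_neg_of_pos_of_neg (by exact_mod_cast hN) hc
          omega
        omega
    have hun : ∀ i, Function.update x j τ i ≠ 0 := by
      intro i
      by_cases h : i = j
      · subst h; simpa using hτ
      · rw [Function.update_of_ne h]; exact hx i
    obtain ⟨y, hy, hyd⟩ := log_lemma v hC hπ E (Function.update x j τ) hun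
    apply lift y hy
    refine le_trans hyd ?_
    rw [hτd, ljac_tau v E x hEx ha hC hx hτ j, ← hτd, ← WithTop.coe_add]
    apply WithTop.coe_le_coe.2
    rw [hρ]
    have : (a j : ℤ) * vz v (x j) = ν := hν.symm
    linarith

end

end TriIdx
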