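import Pool.Agent.TriIdx.Chart0

/-!
Prime divisors of the model lie in the charts; upper bound for the order.
-/

namespace TriIdx

section

variable {K : Type} [Field K] [Algebra ℂ K] {n m N : ℕ} (G : Geo K n m N)
  {v : AddValuation K (WithTop ℤ)} (V : VP G v)

theorem not_rindep_one {z : Fin n → K} (i : Fin n) (hi : z i = 1) : ¬ Rindep v z := by
  intro h
  have h9 := h (MvPolynomial.X i - 1) (by
    intro h
    have h10 := congrArg (MvPolynomial.eval (fun _ => (0 : ℂ))) h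
    simp at h10)
  rw [map_sub, MvPolynomial.aeval_X, map_one, hi, sub_self, AddValuation.map_zero] at h9
  exact absurd h9 (by simp)

/-- no prime divisor in the third chart -/
theorem no_chart3 (hC : ∀ c : ℂ, c ≠ 0 → v (algebraMap ℂ K c) = 0) {p : Fin n}
    (hp : vz v (G.x p) < 0)
    (hτ : m * (G.a p * vz v (G.x p)) < (2 * N : ℤ) * vz v G.τ)
    (hmin : ∀ j, G.a p * vz v (G.x p) ≤ G.a j * vz v (G.x j))
    (α₀ : Option (Option (Fin n))) (hα₀ : vz v (G.fa α₀) = m * (G.a p * vz v (G.x p)))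
    (c : K) (hc : 0 ≤ v c) (e : Fin n → K)
    (hE : ∀ w : Fin n → OA v hC, (∃ i, (w i : K) = c) → ∀ l, AR v hC w (e l))
    (s : Fin n → Option (Option (Fin n)))
    (hs : Rindep v (fun l => G.fa (s l) / G.fa α₀ * e l)) : False := by
  classical
  have hxp := G.hx p
  have hN := G.Npos
  have hm := G.mpos
  have hap := G.ha p
  have hm2 := G.hm2
  obtain ⟨i₁, hi₁⟩ : ∃ i₁ : Fin n, i₁ ≠ p := by
    have h2 := G.hn
    have : Nontrivial (Fin n) := Fin.nontrivial_iff_two_le.2 h2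
    exact exists_ne p
  set r : Fin n → K := fun j => G.x j ^ G.a j / G.x p ^ G.a p with hr
  have hrp : r p = 1 := div_self (pow_ne_zero _ hxp)
  have hr0 : ∀ j, 0 ≤ v (r j) := by
    intro j
    show 0 ≤ v (G.x j ^ G.a j / G.x p ^ G.a p)
    rw [nonneg_iff v (div_ne_zero (pow_ne_zero _ (G.hx j)) (pow_ne_zero _ hxp)),
      vz_div v (pow_ne_zero _ (G.hx j)) (pow_ne_zero _ hxp), vz_pow v (G.hx j), vz_pow v hxp]
    have := hmin j
    linarith
  set q : Fin n → K := fun j => if j = p then c else if j = i₁ then 1 else r j with hq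
  have hqp : q p = c := by simp [hq]
  have hq1 : q i₁ = 1 := by simp [hq, hi₁]
  have hqr : ∀ j, j ≠ p → j ≠ i₁ → q j = r j := by
    intro j h1 h2
    simp [hq, h1, h2]
  have hq0 : ∀ j, 0 ≤ v (q j) := by
    intro j
    by_cases h1 : j = p
    · rw [h1, hqp]; exact hc
    · by_cases h2 : j = i₁
      · rw [h2, hq1]; simp
      · rw [hqr j h1 h2]; exact hr0 j
  have hgen : ∀ j, j ≠ i₁ → AR v hC (fun i => ⟨q i, hq0 i⟩) (r j) := by
    intro j hj
    by_cases h1 : j = p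
    · rw [h1, hrp]; exact AR.one
    · have h3 := AR.gen (v := v) (hC := hC) (w := fun i => (⟨q i, hq0 i⟩ : OA v hC)) j
      have h4 : q j = r j := hqr j h1 hj
      rw [← h4]; exact h3
  have hvx : vz v (G.x p ^ G.a p) < 0 := by
    rw [vz_pow v hxp]
    exact mul_neg_of_pos_of_neg (by exact_mod_cast hap) hp
  have hpos1 : 0 < v (1 / G.x p ^ G.a p) := by
    rw [one_div, pos_iff v (inv_ne_zero (pow_ne_zero _ hxp)), vz_inv v (pow_ne_zero _ hxp)]
    linarith
  have hpos2 : 0 < v (G.τ / G.x p ^ G.a p) := by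
    rw [pos_iff v (div_ne_zero (tau_ne G) (pow_ne_zero _ hxp)),
      vz_div v (tau_ne G) (pow_ne_zero _ hxp)]
    rw [vz_pow v hxp] at hvx ⊢
    have h1 : (2 * N : ℤ) * (G.a p * vz v (G.x p)) ≤ m * (G.a p * vz v (G.x p)) := by
      apply mul_le_mul_of_nonpos_right _ hvx.le
      exact_mod_cast hm2
    have h2 : (2 * N : ℤ) * (G.a p * vz v (G.x p)) < (2 * N : ℤ) * vz v G.τ := by linarith
    have h3 := lt_of_mul_lt_mul_left h2 (by positivity)
    linarith
  have hsum : ∑ j, r j = (G.τ / G.x p ^ G.a p) - 1 / G.x p ^ G.a p := by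
    rw [tau_eq, hr, ← Finset.sum_div]
    ring
  have hrAll : ∀ j, AR v hC (fun i => ⟨q i, hq0 i⟩) (r j) := by
    intro j
    by_cases hj : j = i₁
    · subst hj
      apply AR.congr (b := - ∑ i ∈ Finset.univ.erase j, r i)
      · exact AR.neg (AR.sum _ _ fun i hi => hgen i (Finset.ne_of_mem_erase hi))
      · rw [sub_neg_eq_add, Finset.add_sum_erase Finset.univ r (Finset.mem_univ j), hsum]
        rw [sub_eq_add_neg]
        apply AddValuation.map_lt_add v hpos2
        rw [AddValuation.map_neg]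
        exact hpos1
    · exact hgen j hj
  have hT := T1' v hC hs q hq0 (fun l => by
    refine AR.mul ?_ (hE _ ⟨p, hqp⟩ l)
    refine ar_ratio G (pow_ne_zero _ hxp : G.x p ^ (G.a p * m) ≠ 0) α₀ (s l) ?_
      (fun α => ar_chart3 G hp hτ hrAll α)
    rw [hα₀, vz_pow v hxp]; push_cast; ring)
  exact not_rindep_one i₁ hq1 hT

/-- values of the coordinates at infinity -/
theorem w_nonneg {u : K} (hu : u ≠ 0) (hut : vz v G.τ = m * vz v (u * G.t)) {j : Fin n}
    (hj : (2 * N : ℤ) * vz v G.τ ≤ m * (G.a j * vz v (G.x j))) :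
    0 ≤ v (G.x j * ((u * G.t)⁻¹) ^ (2 * G.b j)) := by
  have hn : u * G.t ≠ 0 := mul_ne_zero hu G.t_ne
  have hni := inv_ne_zero hn
  rw [nonneg_iff v (mul_ne_zero (G.hx j) (pow_ne_zero _ hni)), vz_mul v (G.hx j)
    (pow_ne_zero _ hni), vz_pow v hni, vz_inv v hn]
  rw [hut] at hj
  have hm : (0 : ℤ) < m := by have := G.mpos; omega
  have ha : (0 : ℤ) < G.a j := by exact_mod_cast G.ha j
  have hab : (G.b j : ℤ) * G.a j = N := by exact_mod_cast G.hab j
  set T := vz v (u * G.t)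
  have h1 : (m : ℤ) * ((2 * N : ℤ) * T) ≤ m * (G.a j * vz v (G.x j)) := by linarith
  have h2 := le_of_mul_le_mul_left h1 hm
  rw [← hab] at h2
  have h3 : (G.a j : ℤ) * (2 * G.b j * T) ≤ G.a j * vz v (G.x j) := by linarith
  have h4 := le_of_mul_le_mul_left h3 ha
  push_cast
  linarith

/-- the general relation at infinity -/
theorem rel_inf' {u κ : K} (hu : u ≠ 0) (hκ : κ * (u * G.t) ^ m = G.τ) :
    ∑ i, (G.x i * ((u * G.t)⁻¹) ^ (2 * G.b i)) ^ G.a i
      = κ * ((u * G.t)⁻¹) ^ (2 * N - m) - ((u * G.t)⁻¹) ^ (2 * N) := by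
  have hut : u * G.t ≠ 0 := mul_ne_zero hu G.t_ne
  generalize u * G.t = q at hut hκ
  have h0 : ∀ i, (G.x i * (q⁻¹) ^ (2 * G.b i)) ^ G.a i = G.x i ^ G.a i * (q⁻¹) ^ (2 * N) := by
    intro i
    rw [mul_pow, ← pow_mul]
    congr 2
    have h := G.hab i
    rw [mul_assoc, h]
  rw [Finset.sum_congr rfl fun i _ => h0 i, ← Finset.sum_mul]
  have h1 : ∑ i, G.x i ^ G.a i = κ * q ^ m - 1 := by rw [hκ, tau_eq]; ring
  rw [h1]
  have h2 : 2 * N = m + (2 * N - m) := by have := G.hm2; omega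
  have h3 : q ^ m * (q⁻¹) ^ (2 * N) = (q⁻¹) ^ (2 * N - m) := by
    conv_lhs => rw [h2]
    rw [pow_add, ← mul_assoc, ← mul_pow, mul_inv_cancel₀ hut, one_pow, one_mul]
  rw [sub_mul, one_mul, mul_assoc, h3]

/-- no prime divisor at infinity if the valuation is nontrivial on `F₀` -/
theorem no_chart2 (hC : ∀ c : ℂ, c ≠ 0 → v (algebraMap ℂ K c) = 0) {u κ : K} (hu : u ≠ 0)
    (hκ : κ * (u * G.t) ^ m = G.τ) (hκv : v κ = 0)
    (hκc : ∃ c : ℂ, 0 < v (κ - algebraMap ℂ K c)) (hτ : vz v G.τ < 0)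
    (hj : ∀ j, (2 * N : ℤ) * vz v G.τ ≤ m * (G.a j * vz v (G.x j)))
    (α₀ : Option (Option (Fin n))) (hα₀ : vz v (G.fa α₀) = (2 * N : ℤ) * vz v G.τ)
    (e : Fin n → K) (hE : ∀ l, ∃ c : ℂ, 0 < v (e l - algebraMap ℂ K c))
    (s : Fin n → Option (Option (Fin n)))
    (hs : Rindep v (fun l => G.fa (s l) / G.fa α₀ * e l)) : False := by
  classical
  have hm : (0 : ℤ) < m := by have := G.mpos; omega
  have hutn : u * G.t ≠ 0 := mul_ne_zero hu G.t_ne
  have hκ0 : κ ≠ 0 := ne_zero_of_v_zero hκv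
  have hut : vz v G.τ = m * vz v (u * G.t) := by
    rw [← hκ, vz_mul v hκ0 (pow_ne_zero _ hutn), vz_pow v hutn, (eq_zero_iff v hκ0).1 hκv,
      zero_add]
  have hspos : 0 < v (u * G.t)⁻¹ := by
    rw [pos_iff v (inv_ne_zero hutn), vz_inv v hutn]
    rw [hut] at hτ
    by_contra hc
    push Not at hc
    have : 0 ≤ (m : ℤ) * vz v (u * G.t) := mul_nonneg hm.le (by linarith)
    linarith
  set w : Fin n → K := fun j => G.x j * ((u * G.t)⁻¹) ^ (2 * G.b j) with hw
  have hw0 : ∀ j, 0 ≤ v (w j) := fun j => w_nonneg G hu hut (hj j)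
  have hwA : ∀ j, AR v hC (fun i => ⟨w i, hw0 i⟩) (w j) := fun j =>
    AR.gen (v := v) (hC := hC) (w := fun i => (⟨w i, hw0 i⟩ : OA v hC)) j
  have hT := T1' v hC hs w hw0 (fun l => by
    refine AR.mul ?_ (AR_of_const (hE l))
    refine ar_ratio G (pow_ne_zero _ (tau_ne G) : G.τ ^ (2 * N) ≠ 0) α₀ (s l) ?_
      (fun α => ar_chart2 G hu hκ hκv (AR_of_const hκc) hτ hwA α)
    rw [hα₀, vz_pow v (tau_ne G)]; push_cast; ring)
  obtain ⟨c₀, hc₀⟩ := hκc
  set c' : ℂ := if 2 * N = m then c₀ else 0 with hc'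
  set P : MvPolynomial (Fin n) ℂ := ∑ i, MvPolynomial.X i ^ G.a i - MvPolynomial.C c' with hP
  have hn := G.hn
  have i₀ : Fin n := ⟨0, by omega⟩
  have hP0 : P ≠ 0 := by
    intro h
    have h1 := congrArg (MvPolynomial.eval (fun _ => (0 : ℂ))) h
    have h2 := congrArg (MvPolynomial.eval (Pi.single i₀ (1 : ℂ))) h
    rw [hP, map_sub, map_sum, MvPolynomial.eval_C, map_zero] at h1 h2
    have h3 : ∑ i, MvPolynomial.eval (fun _ => (0 : ℂ)) (MvPolynomial.X i ^ G.a i) = 0 := by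
      refine Finset.sum_eq_zero fun i _ => ?_
      rw [map_pow, MvPolynomial.eval_X, zero_pow (G.ha i).ne']
    have h4 : ∑ i, MvPolynomial.eval (Pi.single i₀ (1 : ℂ)) (MvPolynomial.X i ^ G.a i) = 1 := by
      rw [Finset.sum_eq_single i₀]
      · rw [map_pow, MvPolynomial.eval_X, Pi.single_eq_same, one_pow]
      · intro i _ hi
        rw [map_pow, MvPolynomial.eval_X, Pi.single_eq_of_ne hi, zero_pow (G.ha i).ne']
      · simp
    rw [h3] at h1
    rw [h4] at h2
    have h5 : c' = 0 := by linear_combination -h1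
    rw [h5] at h2
    norm_num at h2
  have h1 := hT P hP0
  have h2 : MvPolynomial.aeval w P = κ * ((u * G.t)⁻¹) ^ (2 * N - m) - ((u * G.t)⁻¹) ^ (2 * N)
      - algebraMap ℂ K c' := by
    rw [hP, map_sub, map_sum, MvPolynomial.aeval_C, ← rel_inf' G hu hκ]
    congr 1
    refine Finset.sum_congr rfl fun i _ => ?_
    rw [map_pow, MvPolynomial.aeval_X]
  have h3 : 0 < v (MvPolynomial.aeval w P) := by
    rw [h2]
    have hN := G.Npos
    have hs2 : 0 < v (((u * G.t)⁻¹) ^ (2 * N)) := by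
      have hq := inv_ne_zero hutn
      rw [pos_iff v (pow_ne_zero _ hq), vz_pow v hq]
      have := (pos_iff v hq).1 hspos
      have h5 : (0 : ℤ) < ((2 * N : ℕ) : ℤ) := by exact_mod_cast (by omega : 0 < 2 * N)
      exact mul_pos h5 this
    have h4 : 0 < v (κ * ((u * G.t)⁻¹) ^ (2 * N - m) - algebraMap ℂ K c') := by
      by_cases h : 2 * N = m
      · rw [hc', if_pos h, h, Nat.sub_self, pow_zero, mul_one]
        exact hc₀
      · rw [hc', if_neg h, map_zero, sub_zero, AddValuation.map_mul, hκv, zero_add]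
        have hq := inv_ne_zero hutn
        rw [pos_iff v (pow_ne_zero _ hq), vz_pow v hq]
        have := (pos_iff v hq).1 hspos
        have hm2 := G.hm2
        have h5 : (0 : ℤ) < ((2 * N - m : ℕ) : ℤ) := by
          exact_mod_cast (by omega : 0 < 2 * N - m)
        exact mul_pos h5 this
    have h6 : κ * ((u * G.t)⁻¹) ^ (2 * N - m) - ((u * G.t)⁻¹) ^ (2 * N) - algebraMap ℂ K c'
        = (κ * ((u * G.t)⁻¹) ^ (2 * N - m) - algebraMap ℂ K c')
          + - ((u * G.t)⁻¹) ^ (2 * N) := by ring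
    rw [h6]
    apply AddValuation.map_lt_add v h4
    rw [AddValuation.map_neg]
    exact hs2
  rw [h1] at h3
  exact lt_irrefl _ h3

end

end TriIdx
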