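import Mathlib

/-!
Definitions: projective models of function fields over `ℂ`, their prime divisors, orders of
pluricanonical forms, indices.

Throughout, `K` is a finitely generated field over `ℂ` of transcendence degree `n + 1`. A normal
projective variety with function field `K` is given by a finite family `f` of nonzero elements of `K`
such that `K` is algebraic over the field generated by the quotients `f j / f i`: it is the
normalisation in `K` of the closure of the image of the point `[f i]` of projective space.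
-/

namespace TriIdx

/-- The residue classes of the family `z` are algebraically independent over `ℂ`. -/
def Rindep {K : Type*} [Field K] [Algebra ℂ K] (v : AddValuation K (WithTop ℤ)) {ι : Type*}
    (z : ι → K) : Prop :=
  ∀ P : MvPolynomial ι ℂ, P ≠ 0 → v (MvPolynomial.aeval z P) = 0

/-- Normalised discrete valuations of `K` over `ℂ`. -/
def IsPlace {K : Type*} [Field K] [Algebra ℂ K] (v : AddValuation K (WithTop ℤ)) : Prop :=
  (∀ c : ℂ, c ≠ 0 → v (algebraMap ℂ K c) = 0) ∧ ∃ π : K, v π = ((1 : ℤ) : WithTop ℤ)

/-- Divisorial valuations: the prime divisors on the normal varieties with function field `K`,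
`n + 1` the dimension: the residue field has transcendence degree `n`. -/
def IsDivisorial {K : Type*} [Field K] [Algebra ℂ K] (n : ℕ) (v : AddValuation K (WithTop ℤ)) :
    Prop :=
  IsPlace v ∧ ∃ z : Fin n → K, Rindep v z

/-- The prime divisors of the normal projective variety given by the family `f`: divisorial
valuations whose centre on the image has dimension `n`. -/
def IsPrimeDivisor {K : Type*} [Field K] [Algebra ℂ K] (n : ℕ) {ι : Type*} (f : ι → K)
    (v : AddValuation K (WithTop ℤ)) : Prop :=
  IsPlace v ∧ ∃ i, (∀ j, 0 ≤ v (f j / f i)) ∧ ∃ s : Fin n → ι, Rindep v (fun l => f (s l) / f i)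

/-- The family `f` gives a normal projective variety of dimension `n + 1` with function field `K`. -/
def IsModel {K : Type*} [Field K] [Algebra ℂ K] (n : ℕ) {ι : Type*} (f : ι → K) : Prop :=
  (∃ s : Finset K, IntermediateField.adjoin ℂ (s : Set K) = ⊤) ∧
  (∃ x : Fin (n + 1) → K, IsTranscendenceBasis ℂ x) ∧
  (∀ i, f i ≠ 0) ∧
  ∀ i, ∀ z : K, IsAlgebraic (IntermediateField.adjoin ℂ (Set.range fun j => f j / f i)) z

/-- Let `D` be a basis of the derivations of `K` over `ℂ` and `ω` the rational differential form of
degree `n + 1` with `ω (D 0, …, D n) = 1`. Then `d y 0 ∧ ⋯ ∧ d y n = det (D i (y j)) • ω`, and the order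
at `v` of the rational section `g • ω ^ m` of `K_X ^ m` is
`v g - m * min v (det (D i (y j)))`, the minimum over `y` in the valuation ring.
`OrdNonneg`: the order is nonnegative. -/
def OrdNonneg {K : Type*} [Field K] [Algebra ℂ K] {n : ℕ} (m : ℕ)
    (D : Fin (n + 1) → Derivation ℂ K K) (g : K) (v : AddValuation K (WithTop ℤ)) : Prop :=
  ∃ y : Fin (n + 1) → K, (∀ j, 0 ≤ v (y j)) ∧ m • v (Matrix.of fun i j => D i (y j)).det ≤ v g

/-- The order at `v` of `g • ω ^ m` is at most `0`. -/
def OrdNonpos {K : Type*} [Field K] [Algebra ℂ K] {n : ℕ} (m : ℕ)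
    (D : Fin (n + 1) → Derivation ℂ K K) (g : K) (v : AddValuation K (WithTop ℤ)) : Prop :=
  ∀ y : Fin (n + 1) → K, (∀ j, 0 ≤ v (y j)) → v g ≤ m • v (Matrix.of fun i j => D i (y j)).det

/-- `m K_X ∼ 0`, witnessed by `g • ω ^ m`. -/
def Trivialises {K : Type*} [Field K] [Algebra ℂ K] {n : ℕ} {ι : Type*} (f : ι → K) (m : ℕ)
    (D : Fin (n + 1) → Derivation ℂ K K) (g : K) : Prop :=
  LinearIndependent K D ∧ g ≠ 0 ∧
    ∀ v, IsPrimeDivisor n f v → OrdNonneg m D g v ∧ OrdNonpos m D g v

/-- `m K_X ∼ 0`. -/
def IsIndex {K : Type*} [Field K] [Algebra ℂ K] (n : ℕ) {ι : Type*} (f : ι → K) (m : ℕ) : Prop :=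
  ∃ (D : Fin (n + 1) → Derivation ℂ K K) (g : K), Trivialises f m D g

/-- `X` has canonical singularities and `K_X` is torsion: some `m K_X` is trivialised by a form
whose order is nonnegative at all divisors over `X`. -/
def CanonicalTorsion {K : Type*} [Field K] [Algebra ℂ K] (n : ℕ) {ι : Type*} (f : ι → K) : Prop :=
  ∃ (m : ℕ) (D : Fin (n + 1) → Derivation ℂ K K) (g : K), 0 < m ∧ Trivialises f m D g ∧
    ∀ v, IsDivisorial n v → OrdNonneg m D g v

end TriIdx
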