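import Pool.Agent.TriIdx.Geo
import Pool.Agent.TriIdx.Defs

/-!
The family of functions defining the projective model.
-/

namespace TriIdx

/-- `τ = 1 + ∑ x_i^{a_i} = h t^m` -/
noncomputable def Geo.τ {K : Type} [Field K] [Algebra ℂ K] {n m N : ℕ} (G : Geo K n m N) : K :=
  1 + ∑ i, G.x i ^ G.a i

/-- index set of the family: `none` stands for `1`, `some none` for `τ^(2N)`,
`some (some j)` for `x_j^(a_j m)`; the second component stands for `1` or `ξ` -/
abbrev FI (n : ℕ) : Type := Option (Option (Fin n)) × Bool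

/-- first factors -/
noncomputable def Geo.fa {K : Type} [Field K] [Algebra ℂ K] {n m N : ℕ} (G : Geo K n m N) :
    Option (Option (Fin n)) → K
  | none => 1
  | some none => G.τ ^ (2 * N)
  | some (some j) => G.x j ^ (G.a j * m)

/-- second factors -/
noncomputable def Geo.fb {K : Type} [Field K] [Algebra ℂ K] {n m N : ℕ} (G : Geo K n m N) :
    Bool → K
  | false => 1
  | true => G.ξ

/-- the family -/
noncomputable def Geo.fam {K : Type} [Field K] [Algebra ℂ K] {n m N : ℕ} (G : Geo K n m N) :
    FI n → K := fun i => G.fa i.1 * G.fb i.2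

/-- the field `ℂ(x)` -/
noncomputable def Geo.M₀ {K : Type} [Field K] [Algebra ℂ K] {n m N : ℕ} (G : Geo K n m N) :
    Subfield K := Subfield.closure (Set.range (algebraMap ℂ K) ∪ Set.range G.x)

/-- the field `F₀(x)` -/
noncomputable def Geo.K₁ {K : Type} [Field K] [Algebra ℂ K] {n m N : ℕ} (G : Geo K n m N) :
    Subfield K := Subfield.closure ((G.F₀ : Set K) ∪ Set.range G.x)

end TriIdx
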