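import Pool.Agent.TriIdx.Up3
import Pool.Agent.TriIdx.Fam

/-!
Prime divisors of the model lie in the charts: preparations.
-/

namespace TriIdx

section

variable {K : Type} [Field K] [Algebra ℂ K] {n m N : ℕ} (G : Geo K n m N)
  {v : AddValuation K (WithTop ℤ)} (V : VP G v)

theorem xi_ne : G.ξ ≠ 0 := by
  intro h
  apply G.hξtr
  rw [h]
  exact isAlgebraic_zero

theorem fb_ne (β : Bool) : G.fb β ≠ 0 := by
  cases β
  · exact one_ne_zero
  · exact xi_ne G

theorem fa_ne (α : Option (Option (Fin n))) : G.fa α ≠ 0 := by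
  match α with
  | none => exact one_ne_zero
  | some none => exact pow_ne_zero _ G.hτ
  | some (some j) => exact pow_ne_zero _ (G.hx j)

theorem fb_mem (β : Bool) : G.fb β ∈ G.F₀ := by
  cases β
  · exact G.F₀.one_mem
  · exact G.hξ

/-- the residue of `ξ` is transcendental if the valuation is trivial on `F₀` -/
theorem xi_trans (hC : ∀ c : ℂ, c ≠ 0 → v (algebraMap ℂ K c) = 0)
    (htriv : ∀ f ∈ G.F₀, f ≠ 0 → v f = 0) (he : 0 ≤ v G.ξ) :
    Transcendental ℂ (res v hC ⟨G.ξ, he⟩) := by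
  rw [transcendental_iff]
  intro p hp
  by_contra hne
  have h1 : Polynomial.aeval (res v hC ⟨G.ξ, he⟩) p
      = res v hC (Polynomial.aeval (⟨G.ξ, he⟩ : OA v hC) p) := by
    rw [Polynomial.aeval_algHom_apply]
  rw [h1, res_eq_zero] at hp
  have h2 : ((Polynomial.aeval (⟨G.ξ, he⟩ : OA v hC) p : OA v hC) : K)
      = Polynomial.aeval G.ξ p := by
    have := Polynomial.aeval_algHom_apply (OA v hC).val (⟨G.ξ, he⟩ : OA v hC) p
    exact this.symm
  rw [h2] at hp
  have h3 : Polynomial.aeval G.ξ p ≠ 0 := fun h => hne ((transcendental_iff.1 G.hξtr) p h)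
  have h4 : Polynomial.aeval G.ξ p ∈ G.F₀ := by
    rw [Polynomial.aeval_eq_sum_range]
    refine G.F₀.sum_mem fun i _ => ?_
    rw [Algebra.smul_def]
    exact G.F₀.mul_mem (G.hconst _) (G.F₀.pow_mem G.hξ _)
  rw [htriv _ h4 h3] at hp
  exact lt_irrefl _ hp

/-- elements with residues in `ℂ` -/
theorem AR_of_const {hC : ∀ c : ℂ, c ≠ 0 → v (algebraMap ℂ K c) = 0} {ι : Type*}
    {w : ι → OA v hC} {f : K} (h : ∃ c : ℂ, 0 < v (f - algebraMap ℂ K c)) : AR v hC w f := by
  obtain ⟨c, hc⟩ := h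
  exact AR.congr (AR.const c) hc

theorem AR.div {hC : ∀ c : ℂ, c ≠ 0 → v (algebraMap ℂ K c) = 0} {ι : Type*}
    {w : ι → OA v hC} {a b : K} (ha : AR v hC w a) (hb : AR v hC w b) (hv : v b = 0) :
    AR v hC w (a / b) := by
  rw [div_eq_mul_inv]
  exact ha.mul (hb.inv hv)

theorem tau_eq : G.τ = 1 + ∑ i, G.x i ^ G.a i := rfl

theorem tau_ne : G.τ ≠ 0 := G.hτ

include G in
theorem Geo.Npos : 0 < N := by
  have := G.hsum
  omega

theorem vz_fa (α : Option (Option (Fin n))) :
    vz v (G.fa α) = match α with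
      | none => 0
      | some none => (2 * N : ℤ) * vz v G.τ
      | some (some j) => (m : ℤ) * (G.a j * vz v (G.x j)) := by
  match α with
  | none =>
    show vz v 1 = 0
    rw [← eq_zero_iff v one_ne_zero, AddValuation.map_one]
  | some none =>
    show vz v (G.τ ^ (2 * N)) = _
    rw [vz_pow v (tau_ne G)]; push_cast; ring
  | some (some j) =>
    show vz v (G.x j ^ (G.a j * m)) = _
    rw [vz_pow v (G.hx j)]; push_cast; ring

/-- the three cases -/
theorem trichotomy (α₀ : Option (Option (Fin n))) (hα : ∀ α, 0 ≤ v (G.fa α / G.fa α₀)) :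
    ((∀ j, 0 ≤ vz v (G.x j)) ∧ 0 ≤ vz v G.τ ∧ vz v (G.fa α₀) = 0) ∨
    (vz v G.τ < 0 ∧ vz v (G.fa α₀) = (2 * N : ℤ) * vz v G.τ ∧
      ∀ j, (2 * N : ℤ) * vz v G.τ ≤ m * (G.a j * vz v (G.x j))) ∨
    (∃ p, vz v (G.x p) < 0 ∧ vz v (G.fa α₀) = m * (G.a p * vz v (G.x p)) ∧
      (∀ j, G.a p * vz v (G.x p) ≤ G.a j * vz v (G.x j)) ∧
      m * (G.a p * vz v (G.x p)) < (2 * N : ℤ) * vz v G.τ) := by
  have hα' : ∀ α, vz v (G.fa α₀) ≤ vz v (G.fa α) := by
    intro α
    have h := hα α
    rw [nonneg_iff v (div_ne_zero (fa_ne G α) (fa_ne G α₀)),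
      vz_div v (fa_ne G α) (fa_ne G α₀)] at h
    linarith
  have hm : (0 : ℤ) < m := by have := G.mpos; omega
  have hN : (0 : ℤ) < 2 * N := by have := G.Npos; omega
  have h0 : vz v (G.fa α₀) ≤ 0 := by
    have := hα' none
    rwa [vz_fa G none] at this
  have h1 : vz v (G.fa α₀) ≤ (2 * N : ℤ) * vz v G.τ := by
    have := hα' (some none)
    rwa [vz_fa G (some none)] at this
  have h2 : ∀ j, vz v (G.fa α₀) ≤ m * (G.a j * vz v (G.x j)) := by
    intro j
    have := hα' (some (some j))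
    rwa [vz_fa G (some (some j))] at this
  rcases h0.lt_or_eq with h0 | h0
  · rcases h1.lt_or_eq with h1 | h1
    · right; right
      match α₀, h0, h1, h2 with
      | none, h0, h1, h2 =>
        rw [vz_fa G none] at h0
        exact absurd h0 (lt_irrefl _)
      | some none, h0, h1, h2 =>
        rw [vz_fa G (some none)] at h1
        exact absurd h1 (lt_irrefl _)
      | some (some p), h0, h1, h2 =>
        rw [vz_fa G (some (some p))] at h0 h1 h2
        refine ⟨p, ?_, vz_fa G (some (some p)), fun j => ?_, h1⟩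
        · have hap := G.ha p
          by_contra hc
          push Not at hc
          have : 0 ≤ (m : ℤ) * (G.a p * vz v (G.x p)) := by positivity
          have h0' : (m : ℤ) * (G.a p * vz v (G.x p)) < 0 := h0
          omega
        · exact le_of_mul_le_mul_left (h2 j) hm
    · right; left
      refine ⟨?_, h1, fun j => ?_⟩
      · by_contra hc
        push Not at hc
        have : 0 ≤ (2 * N : ℤ) * vz v G.τ := by positivity
        omega
      · rw [← h1]; exact h2 j
  · left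
    refine ⟨fun j => ?_, ?_, h0⟩
    · have h3 := h2 j
      rw [h0] at h3
      have hap := G.ha j
      by_contra hc
      push Not at hc
      have h4 : (G.a j : ℤ) * vz v (G.x j) < 0 :=
        mul_neg_of_pos_of_neg (by exact_mod_cast hap) hc
      have h5 := mul_neg_of_pos_of_neg hm h4
      omega
    · rw [h0] at h1
      by_contra hc
      push Not at hc
      have h5 := mul_neg_of_pos_of_neg hN hc
      omega

section AR

variable {hC : ∀ c : ℂ, c ≠ 0 → v (algebraMap ℂ K c) = 0} {ι : Type*} {w : ι → OA v hC}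

/-- dividing by an element of the same value as `fa α₀` -/
theorem ar_ratio {q : K} (hq : q ≠ 0) (α₀ α : Option (Option (Fin n)))
    (hv : vz v (G.fa α₀) = vz v q) (h : ∀ α, AR v hC w (G.fa α / q)) :
    AR v hC w (G.fa α / G.fa α₀) := by
  have h1 : G.fa α / G.fa α₀ = (G.fa α / q) / (G.fa α₀ / q) := by
    have := fa_ne G α₀
    field_simp
  rw [h1]
  refine AR.div (h α) (h α₀) ?_
  rw [eq_zero_iff v (div_ne_zero (fa_ne G α₀) hq), vz_div v (fa_ne G α₀) hq, hv, sub_self]

theorem ar_chart1 (hw : ∀ j, AR v hC w (G.x j)) (α : Option (Option (Fin n))) :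
    AR v hC w (G.fa α / 1) := by
  rw [div_one]
  match α with
  | none => exact AR.one
  | some none => exact AR.pow (AR.add AR.one (AR.sum _ _ fun i _ => AR.pow (hw i) _)) _
  | some (some j) => exact AR.pow (hw j) _

theorem ar_chart2 {u κ : K} (hu : u ≠ 0) (hκ : κ * (u * G.t) ^ m = G.τ)
    (hκv : v κ = 0) (hκA : AR v hC w κ) (hτ : vz v G.τ < 0)
    (hw : ∀ j, AR v hC w (G.x j * ((u * G.t)⁻¹) ^ (2 * G.b j))) (α : Option (Option (Fin n))) :
    AR v hC w (G.fa α / G.τ ^ (2 * N)) := by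
  have hN := G.Npos
  have hut : u * G.t ≠ 0 := mul_ne_zero hu G.t_ne
  have hκ0 : κ ≠ 0 := ne_zero_of_v_zero hκv
  match α with
  | none =>
    apply AR.of_pos
    show 0 < v (1 / G.τ ^ (2 * N))
    rw [one_div, pos_iff v (inv_ne_zero (pow_ne_zero _ (tau_ne G))),
      vz_inv v (pow_ne_zero _ (tau_ne G)), vz_pow v (tau_ne G)]
    have h1 : ((2 * N : ℕ) : ℤ) * vz v G.τ < 0 :=
      mul_neg_of_pos_of_neg (by exact_mod_cast (by omega : 0 < 2 * N)) hτ
    linarith
  | some none =>
    show AR v hC w (G.τ ^ (2 * N) / G.τ ^ (2 * N))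
    rw [div_self (pow_ne_zero _ (tau_ne G))]
    exact AR.one
  | some (some j) =>
    have h1 : G.x j ^ (G.a j * m) / G.τ ^ (2 * N)
        = (G.x j * ((u * G.t)⁻¹) ^ (2 * G.b j)) ^ (G.a j * m) / κ ^ (2 * N) := by
      have h2 : 2 * G.b j * (G.a j * m) = m * (2 * N) := by
        have := G.hab j
        calc 2 * G.b j * (G.a j * m) = m * (2 * (G.b j * G.a j)) := by ring
          _ = m * (2 * N) := by rw [this]
      rw [← hκ]
      generalize u * G.t = q at hut
      rw [mul_pow (G.x j), ← pow_mul, h2, inv_pow, mul_pow κ, ← pow_mul q]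
      have h3 : q ^ (m * (2 * N)) ≠ 0 := pow_ne_zero _ hut
      have h4 : κ ^ (2 * N) ≠ 0 := pow_ne_zero _ hκ0
      field_simp
    show AR v hC w (G.x j ^ (G.a j * m) / G.τ ^ (2 * N))
    rw [h1]
    refine AR.div (AR.pow (hw j) _) (AR.pow hκA _) ?_
    rw [AddValuation.map_pow, hκv]; simp

theorem ar_chart3 {p : Fin n} (hp : vz v (G.x p) < 0)
    (hτ : m * (G.a p * vz v (G.x p)) < (2 * N : ℤ) * vz v G.τ)
    (hw : ∀ j, AR v hC w (G.x j ^ G.a j / G.x p ^ G.a p)) (α : Option (Option (Fin n))) :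
    AR v hC w (G.fa α / G.x p ^ (G.a p * m)) := by
  have hN := G.Npos
  have hm := G.mpos
  have hap := G.ha p
  have hxp := G.hx p
  match α with
  | none =>
    apply AR.of_pos
    show 0 < v (1 / G.x p ^ (G.a p * m))
    rw [one_div, pos_iff v (inv_ne_zero (pow_ne_zero _ hxp)),
      vz_inv v (pow_ne_zero _ hxp), vz_pow v hxp]
    have h1 : ((G.a p * m : ℕ) : ℤ) * vz v (G.x p) < 0 :=
      mul_neg_of_pos_of_neg (by exact_mod_cast Nat.mul_pos hap hm) hp
    linarith
  | some none =>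
    apply AR.of_pos
    show 0 < v (G.τ ^ (2 * N) / G.x p ^ (G.a p * m))
    rw [pos_iff v (div_ne_zero (pow_ne_zero _ (tau_ne G)) (pow_ne_zero _ hxp)),
      vz_div v (pow_ne_zero _ (tau_ne G)) (pow_ne_zero _ hxp), vz_pow v hxp,
      vz_pow v (tau_ne G)]
    push_cast
    nlinarith [hτ]
  | some (some j) =>
    have h1 : G.x j ^ (G.a j * m) / G.x p ^ (G.a p * m)
        = (G.x j ^ G.a j / G.x p ^ G.a p) ^ m := by
      rw [div_pow, ← pow_mul, ← pow_mul]
    show AR v hC w (G.x j ^ (G.a j * m) / G.x p ^ (G.a p * m))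
    rw [h1]
    exact AR.pow (hw j) _

end AR

end

end TriIdx
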