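import Mathlib

/-!
PROJECT TRI, module DER (pure algebra, only Mathlib). Derivations of a field of characteristic zero
with prescribed values on a transcendence basis.

IDEA. `ℂ[z_i] ≅ MvPolynomial ι ℂ` has derivations with arbitrary values (`MvPolynomial.mkDerivation`),
its fraction field is a localisation (formally étale, `Algebra.FormallyEtale.of_isLocalization`) and
`K` is separable algebraic over it (`Algebra.FormallyEtale.of_isSeparable`), so `K` is formally étale
over `MvPolynomial ι ℂ`, and derivations with values in `K` extend uniquely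
(`KaehlerDifferential.tensorKaehlerEquivOfFormallyEtale`, or
`Derivation.liftOfSurjective`-like statements; `Differential` extension lemmas in
`Mathlib/FieldTheory/Differential`, `Mathlib/RingTheory/Derivation`).
`der_ext`: elementary; on `Algebra.adjoin ℂ S` by induction; if `p(f) = 0` with `p` a nonzero polynomial
over it of minimal degree then `p'(f) ≠ 0` and both derivations satisfy the same equation.
-/

namespace TriIdx

open TensorProduct in
theorem der_exists {K : Type} [Field K] [Algebra ℂ K] {ι : Type} [Finite ι] (z : ι → K)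
    (hz : AlgebraicIndependent ℂ z) (hK : ∀ w : K, IsAlgebraic (Algebra.adjoin ℂ (Set.range z)) w)
    (c : ι → K) : ∃ D : Derivation ℂ K K, ∀ i, D (z i) = c i := by
  classical
  letI : Algebra (MvPolynomial ι ℂ) K :=
    ((MvPolynomial.aeval z : MvPolynomial ι ℂ →ₐ[ℂ] K) : MvPolynomial ι ℂ →+* K).toAlgebra
  have hmap : ∀ q : MvPolynomial ι ℂ, algebraMap (MvPolynomial ι ℂ) K q = MvPolynomial.aeval z q :=
    fun q => rfl
  have : IsScalarTower ℂ (MvPolynomial ι ℂ) K := IsScalarTower.of_algebraMap_eq fun r => by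
    rw [hmap, AlgHom.commutes]
  have : FaithfulSMul (MvPolynomial ι ℂ) K :=
    (faithfulSMul_iff_algebraMap_injective (MvPolynomial ι ℂ) K).2 hz
  letI := FractionRing.liftAlgebra (MvPolynomial ι ℂ) K
  have := FractionRing.isScalarTower_liftAlgebra (MvPolynomial ι ℂ) K
  have : Algebra.IsAlgebraic (FractionRing (MvPolynomial ι ℂ)) K := by
    refine ⟨fun w => ?_⟩
    refine (IsFractionRing.isAlgebraic_iff (MvPolynomial ι ℂ)
      (FractionRing (MvPolynomial ι ℂ)) K).1 ?_
    refine (hK w).of_ringHom_of_comp_eq (hz.aevalEquiv : MvPolynomial ι ℂ →+* _) (RingHom.id K)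
      hz.aevalEquiv.surjective Function.injective_id ?_
    refine RingHom.ext fun q => ?_
    change algebraMap _ K (hz.aevalEquiv q) = algebraMap (MvPolynomial ι ℂ) K q
    rw [hmap]
    exact hz.algebraMap_aevalEquiv q
  have : CharZero (FractionRing (MvPolynomial ι ℂ)) :=
    charZero_of_injective_algebraMap
      (FaithfulSMul.algebraMap_injective ℂ (FractionRing (MvPolynomial ι ℂ)))
  have : Algebra.FormallyEtale (MvPolynomial ι ℂ) (FractionRing (MvPolynomial ι ℂ)) :=
    Algebra.FormallyEtale.of_isLocalization (nonZeroDivisors (MvPolynomial ι ℂ))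
  have : Algebra.FormallyEtale (FractionRing (MvPolynomial ι ℂ)) K :=
    Algebra.FormallyEtale.of_isSeparable _ _
  have : Algebra.FormallyEtale (MvPolynomial ι ℂ) K :=
    Algebra.FormallyEtale.comp (MvPolynomial ι ℂ) (FractionRing (MvPolynomial ι ℂ)) K
  let D0 : Derivation ℂ (MvPolynomial ι ℂ) K := MvPolynomial.mkDerivation ℂ c
  let e := KaehlerDifferential.tensorKaehlerEquivOfFormallyEtale ℂ (MvPolynomial ι ℂ) K
  let l : K ⊗[MvPolynomial ι ℂ] (Ω[MvPolynomial ι ℂ⁄ℂ]) →ₗ[K] K :=
    (D0.liftKaehlerDifferential).liftBaseChange K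
  refine ⟨(l ∘ₗ e.symm.toLinearMap).compDer (KaehlerDifferential.D ℂ K), fun i => ?_⟩
  have h1 : z i = algebraMap (MvPolynomial ι ℂ) K (MvPolynomial.X i) := by
    rw [hmap, MvPolynomial.aeval_X]
  rw [h1]
  change l (e.symm (KaehlerDifferential.D ℂ K (algebraMap (MvPolynomial ι ℂ) K
    (MvPolynomial.X i)))) = c i
  have h2 : e.symm (KaehlerDifferential.D ℂ K (algebraMap (MvPolynomial ι ℂ) K
      (MvPolynomial.X i))) = 1 ⊗ₜ KaehlerDifferential.D ℂ (MvPolynomial ι ℂ) (MvPolynomial.X i) :=
    KaehlerDifferential.tensorKaehlerEquivOfFormallyEtale_symm_D_algebraMap ℂ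
      (MvPolynomial ι ℂ) K (MvPolynomial.X i)
  rw [h2]
  change ((D0.liftKaehlerDifferential).liftBaseChange K) _ = c i
  rw [LinearMap.liftBaseChange_tmul, one_smul, Derivation.liftKaehlerDifferential_comp_D]
  exact MvPolynomial.mkDerivation_X ℂ c i

theorem der_ext {F K : Type} [Field F] [Algebra ℂ F] [Field K] [Algebra ℂ K] [Algebra F K]
    [IsScalarTower ℂ F K] (S : Set F) (hS : ∀ f : F, IsAlgebraic (Algebra.adjoin ℂ S) f)
    (D₁ D₂ : Derivation ℂ F K) (h : ∀ s ∈ S, D₁ s = D₂ s) : D₁ = D₂ := by
  classical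
  have hA : ∀ a ∈ Algebra.adjoin ℂ S, (D₁ - D₂) a = 0 := by
    intro a ha
    have h1 : D₁ a = D₂ a := Derivation.eqOn_adjoin (D1 := D₁) (D2 := D₂) h ha
    rw [Derivation.sub_apply, h1, sub_self]
  set A := Algebra.adjoin ℂ S with hAdef
  let D : Derivation A F K := Derivation.mk'
    { toFun := fun f => (D₁ - D₂) f
      map_add' := fun f g => map_add _ f g
      map_smul' := fun a f => by
        change (D₁ - D₂) ((a : F) * f) = a • (D₁ - D₂) f
        rw [Derivation.leibniz, hA a a.2, smul_zero, add_zero]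
        rfl }
    (fun f g => (D₁ - D₂).leibniz f g)
  have hD : ∀ f, D f = (D₁ - D₂) f := fun f => rfl
  have key : ∀ f : F, D f = 0 := by
    intro f
    obtain ⟨p0, hp0, hp0f⟩ := hS f
    have hex : ∃ n : ℕ, ∃ p : Polynomial A, p ≠ 0 ∧ Polynomial.aeval f p = 0 ∧ p.natDegree = n :=
      ⟨_, p0, hp0, hp0f, rfl⟩
    obtain ⟨p, hp, hpf, hpn⟩ := Nat.find_spec hex
    have hmin : ∀ q : Polynomial A, q ≠ 0 → Polynomial.aeval f q = 0 →
        p.natDegree ≤ q.natDegree := by
      intro q hq hqf
      rw [hpn]
      exact Nat.find_min' hex ⟨q, hq, hqf, rfl⟩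
    have hn : p.natDegree ≠ 0 := by
      intro h0
      rw [Polynomial.eq_C_of_natDegree_eq_zero h0, Polynomial.aeval_C] at hpf
      have h1 : p.coeff 0 = 0 := Subtype.ext (by simpa using hpf)
      apply hp
      rw [Polynomial.eq_C_of_natDegree_eq_zero h0, h1, Polynomial.C_0]
    have : CharZero F := charZero_of_injective_algebraMap (algebraMap ℂ F).injective
    have : CharZero A := charZero_of_injective_algebraMap (algebraMap ℂ A).injective
    have hder : Polynomial.derivative p ≠ 0 := by
      intro h0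
      exact hn (Polynomial.derivative_eq_zero.1 h0)
    have hdf : Polynomial.aeval f (Polynomial.derivative p) ≠ 0 := by
      intro h0
      have h1 := hmin _ hder h0
      have h2 := Polynomial.natDegree_derivative_lt hn
      omega
    have h3 := D.map_aeval p f
    rw [hpf, map_zero] at h3
    rcases smul_eq_zero.1 h3.symm with h4 | h4
    · exact absurd h4 hdf
    · exact h4
  refine Derivation.ext fun f => ?_
  have h1 := key f
  rw [hD, Derivation.sub_apply] at h1
  exact sub_eq_zero.1 h1

end TriIdx
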