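import Pool.Agent.TriIdx.Base

/-!
Jacobian determinants of derivations and the subring of elements whose differentials are integral
combinations of given ones.
-/

namespace TriIdx

variable {K : Type*} [Field K] [Algebra ℂ K] (v : AddValuation K (WithTop ℤ))

/-- elements whose differentials are combinations of the `d z_l` with coefficients in the
valuation ring -/
def OZ {ι : Type*} [Fintype ι] (z : ι → K) : Subring K where
  carrier := {r | 0 ≤ v r ∧ ∃ c : ι → K, (∀ l, 0 ≤ v (c l)) ∧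
    ∀ D : Derivation ℂ K K, D r = ∑ l, c l * D (z l)}
  mul_mem' := by
    rintro a b ⟨ha, c, hc, hcD⟩ ⟨hb, c', hc', hcD'⟩
    refine ⟨?_, fun l => a * c' l + b * c l, ?_, ?_⟩
    · rw [AddValuation.map_mul]; exact add_nonneg ha hb
    · intro l
      apply AddValuation.map_le_add
      · rw [AddValuation.map_mul]; exact add_nonneg ha (hc' l)
      · rw [AddValuation.map_mul]; exact add_nonneg hb (hc l)
    · intro D
      rw [Derivation.leibniz, hcD, hcD', smul_eq_mul, smul_eq_mul, Finset.mul_sum, Finset.mul_sum,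
        ← Finset.sum_add_distrib]
      refine Finset.sum_congr rfl fun l _ => ?_
      ring
  one_mem' := by
    refine ⟨by simp, fun _ => 0, by simp, fun D => by simp⟩
  add_mem' := by
    rintro a b ⟨ha, c, hc, hcD⟩ ⟨hb, c', hc', hcD'⟩
    refine ⟨AddValuation.map_le_add v ha hb, fun l => c l + c' l, ?_, ?_⟩
    · intro l; exact AddValuation.map_le_add v (hc l) (hc' l)
    · intro D
      rw [map_add, hcD, hcD', ← Finset.sum_add_distrib]
      refine Finset.sum_congr rfl fun l _ => ?_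
      ring
  zero_mem' := by
    refine ⟨by simp, fun _ => 0, by simp, fun D => by simp⟩
  neg_mem' := by
    rintro a ⟨ha, c, hc, hcD⟩
    refine ⟨by simpa using ha, fun l => - c l, ?_, ?_⟩
    · intro l; simpa using hc l
    · intro D
      rw [map_neg, hcD, ← Finset.sum_neg_distrib]
      refine Finset.sum_congr rfl fun l _ => ?_
      ring

section OZ
variable {ι : Type*} [Fintype ι] {z : ι → K}

theorem mem_OZ {r : K} : r ∈ OZ v z ↔ 0 ≤ v r ∧ ∃ c : ι → K, (∀ l, 0 ≤ v (c l)) ∧
    ∀ D : Derivation ℂ K K, D r = ∑ l, c l * D (z l) := Iff.rfl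

theorem OZ_inv {r : K} (hr : r ∈ OZ v z) (hv : v r = 0) : r⁻¹ ∈ OZ v z := by
  obtain ⟨h0, c, hc, hcD⟩ := hr
  have hrn : r ≠ 0 := by
    intro h; rw [h, AddValuation.map_zero] at hv; exact absurd hv (by simp)
  have hvi : v r⁻¹ = 0 := by
    rw [eq_zero_iff v (inv_ne_zero hrn), vz_inv v hrn, (eq_zero_iff v hrn).1 hv]; simp
  refine ⟨le_of_eq hvi.symm, fun l => - (r⁻¹ * r⁻¹) * c l, ?_, ?_⟩
  · intro l
    rw [AddValuation.map_mul, AddValuation.map_neg, AddValuation.map_mul, hvi]
    simpa using hc l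
  · intro D
    rw [Derivation.leibniz_inv, hcD, smul_eq_mul, Finset.mul_sum]
    refine Finset.sum_congr rfl fun l _ => ?_
    rw [sq]; ring

theorem z_mem_OZ [DecidableEq ι] (l : ι) (hl : 0 ≤ v (z l)) : z l ∈ OZ v z := by
  refine ⟨hl, fun l' => if l' = l then 1 else 0, ?_, ?_⟩
  · intro l'
    by_cases h : l' = l
    · simp [h]
    · simp [h]
  · intro D
    simp

theorem const_mem_OZ (hC : ∀ c : ℂ, c ≠ 0 → v (algebraMap ℂ K c) = 0) (c : ℂ) :
    algebraMap ℂ K c ∈ OZ v z := by
  refine ⟨?_, fun _ => 0, by simp, fun D => by simp⟩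
  by_cases h : c = 0
  · rw [h, map_zero]; simp
  · rw [hC c h]

/-- roots of units -/
theorem root_mem_OZ {θ : K} {a : ℕ} (ha : a ≠ 0) (haK : v (a : K) = 0) (hθ : v θ = 0)
    (hmem : θ ^ a ∈ OZ v z) : θ ∈ OZ v z := by
  obtain ⟨h0, c, hc, hcD⟩ := hmem
  have hθn : θ ≠ 0 := by
    intro h; rw [h, AddValuation.map_zero] at hθ; exact absurd hθ (by simp)
  have han : (a : K) ≠ 0 := by
    intro h; rw [h, AddValuation.map_zero] at haK; exact absurd haK (by simp)
  have hun : v ((a : K) * θ ^ (a - 1))⁻¹ = 0 := by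
    have hne : (a : K) * θ ^ (a - 1) ≠ 0 := mul_ne_zero han (pow_ne_zero _ hθn)
    rw [eq_zero_iff v (inv_ne_zero hne), vz_inv v hne, vz_mul v han (pow_ne_zero _ hθn),
      vz_pow v hθn, (eq_zero_iff v hθn).1 hθ, (eq_zero_iff v han).1 haK]
    simp
  refine ⟨le_of_eq hθ.symm, fun l => ((a : K) * θ ^ (a - 1))⁻¹ * c l, ?_, ?_⟩
  · intro l
    rw [AddValuation.map_mul, hun, zero_add]; exact hc l
  · intro D
    have h1 := hcD D
    rw [Derivation.leibniz_pow, nsmul_eq_mul, smul_eq_mul] at h1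
    have hne : (a : K) * θ ^ (a - 1) ≠ 0 := mul_ne_zero han (pow_ne_zero _ hθn)
    have h2 : D θ = ((a : K) * θ ^ (a - 1))⁻¹ * ∑ l, c l * D (z l) := by
      rw [← h1]; field_simp
    rw [h2, Finset.mul_sum]
    refine Finset.sum_congr rfl fun l _ => ?_
    ring

end OZ

/-- matrix of derivatives -/
def jac {n : ℕ} (D : Fin n → Derivation ℂ K K) (y : Fin n → K) : Matrix (Fin n) (Fin n) K :=
  Matrix.of fun i j => D i (y j)

theorem det_nonneg {n : ℕ} (C : Matrix (Fin n) (Fin n) K) (hC : ∀ i j, 0 ≤ v (C i j)) :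
    0 ≤ v C.det := by
  show C.det ∈ OV v
  rw [Matrix.det_apply]
  refine Subring.sum_mem _ fun σ _ => ?_
  rw [Units.smul_def, zsmul_eq_mul]
  refine Subring.mul_mem _ (intCast_mem _ _) (Subring.prod_mem _ fun i _ => hC _ _)

/-- comparison of Jacobians -/
theorem jac_le {n : ℕ} (D : Fin n → Derivation ℂ K K) (z r : Fin n → K)
    (hr : ∀ j, r j ∈ OZ v z) : v (jac D z).det ≤ v (jac D r).det := by
  choose h0 c hc hcD using hr
  have : jac D r = jac D z * (Matrix.of fun l j => c j l) := by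
    ext i j
    rw [Matrix.mul_apply]
    simp only [jac, Matrix.of_apply]
    rw [hcD]
    refine Finset.sum_congr rfl fun l _ => mul_comm _ _
  rw [this, Matrix.det_mul, AddValuation.map_mul]
  exact le_add_of_nonneg_right (det_nonneg v _ fun i j => hc j i)

end TriIdx
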