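import Pool.Agent.TriIdx.MerData

/-!
PROJECT TRI: packaging of the properties of the Weierstrass function. No proofs needed here.
-/

namespace TriIdx

/-- `P` is the Weierstrass function of the lattice `ℤ ω₁ + ℤ ω₂` -/
structure WP {M : Type} [Field M] [Algebra ℂ M] (D : MerData M) (ω₁ ω₂ : ℂ) (P : M)
    (g₂ g₃ : ℂ) : Prop where
  ind : LinearIndependent ℝ ![ω₁, ω₂]
  eqn : (D.d P) ^ 2 = 4 * P ^ 3 - algebraMap ℂ M g₂ * P - algebraMap ℂ M g₃
  per₁ : D.tr ω₁ P = P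
  per₂ : D.tr ω₂ P = P
  even : D.neg P = P
  pole : ∀ z : ℂ, (∃ i j : ℤ, z = i * ω₁ + j * ω₂) → D.ord z P = ((-2 : ℤ) : WithTop ℤ)
  reg : ∀ z : ℂ, (¬ ∃ i j : ℤ, z = i * ω₁ + j * ω₂) → 0 ≤ D.ord z P

/-- the field of elliptic functions generated by `P` and its derivative -/
noncomputable abbrev EF {M : Type} [Field M] [Algebra ℂ M] (D : MerData M) (P : M) : IntermediateField ℂ M :=
  IntermediateField.adjoin ℂ {P, D.d P}

end TriIdx
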