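import Pool.Agent.TriIdx.EllDefs

/-!
PROJECT TRI, module ELF (algebra with the interface `MerData`, no analysis).
An elliptic function with poles only at lattice points is a rational function of `P` and `P'`.

PROOF. Write `v = D.ord 0`, `π = P / P'` (`D.neg π = -π`, `vz v π = 1`, since `vz v P = -2`,
`vz v P' = -3` by `D.ord_d`).
(1) Even functions: if `g` is periodic, `D.neg g = g`, `g ≠ 0`, then `vz v g` is even: with
`k = vz v g` the element `g / π ^ k` has order `0` at `0`, so there is `c` with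
`0 < v (g / π ^ k - c)`, `c ≠ 0`; apply `D.neg` and `D.ord_neg`: `0 < v ((-1) ^ k * g / π ^ k - c)`;
hence `(-1) ^ k * c = c`.
(2) Even functions `g`, periodic, regular off the lattice, lie in `Algebra.adjoin ℂ {P}`: strong
induction on `k = -vz v g`. If `0 ≤ v g` then, by periodicity (`D.ord_tr`), `g` is regular everywhere
(every lattice point is `0 + i ω₁ + j ω₂`), so constant by `D.liou`. Otherwise `vz v g = -2 l`, `l ≥ 1`,
`g / P ^ l` has order `0`, choose `c` with `0 < v (g / P ^ l - c)` and apply the induction to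
`g - c * P ^ l`.
(3) General `f`: `2 f = (f + neg f) + (f - neg f)`; the first summand is even, the second times `P'`
is even (`neg P' = -P'` by `D.neg_d`), both periodic (`D.neg_tr`) and regular off the lattice.
-/

namespace TriIdx

variable {M : Type} [Field M] [Algebra ℂ M] {D : MerData M} {ω₁ ω₂ : ℂ} {P : M} {g₂ g₃ : ℂ}

theorem elf_memP (D : MerData M) (P : M) : P ∈ EF D P :=
  IntermediateField.subset_adjoin ℂ _ (by simp)

theorem elf_memdP (D : MerData M) (P : M) : D.d P ∈ EF D P :=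
  IntermediateField.subset_adjoin ℂ _ (by simp)

theorem elf_memc (D : MerData M) (P : M) (c : ℂ) : algebraMap ℂ M c ∈ EF D P :=
  IntermediateField.algebraMap_mem _ c

theorem elf_lat0 (W : WP D ω₁ ω₂ P g₂ g₃) : D.ord 0 P = ((-2 : ℤ) : WithTop ℤ) :=
  W.pole 0 ⟨0, 0, by simp⟩

theorem elf_P0 (W : WP D ω₁ ω₂ P g₂ g₃) : P ≠ 0 := ne_zero_of_v_eq _ (elf_lat0 W)

theorem elf_vP (W : WP D ω₁ ω₂ P g₂ g₃) : vz (D.ord 0) P = -2 := vz_of_eq _ (elf_lat0 W)

theorem elf_dP (W : WP D ω₁ ω₂ P g₂ g₃) : D.d P ≠ 0 ∧ vz (D.ord 0) (D.d P) = -3 := by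
  have h := D.ord_d 0 P (elf_P0 W) (by rw [elf_vP W]; norm_num)
  rw [elf_vP W] at h
  exact ⟨h.1, by rw [h.2]; norm_num⟩

/-- the second derivative; in particular `D.d P ≠ 0` -/
theorem ell_dd (W : WP D ω₁ ω₂ P g₂ g₃) :
    D.d P ≠ 0 ∧ D.d (D.d P) = 6 * P ^ 2 - algebraMap ℂ M (g₂ / 2) := by
  have h0 := (elf_dP W).1
  refine ⟨h0, ?_⟩
  have h2 : (2 : M) ≠ 0 := by
    have := (algebraMap ℂ M).injective.ne (two_ne_zero (α := ℂ))
    rwa [map_ofNat, map_zero] at this
  have h := congrArg D.d W.eqn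
  have e4 : D.d (4 : M) = 0 := by
    have : (4 : M) = algebraMap ℂ M 4 := (map_ofNat _ 4).symm
    rw [this, Derivation.map_algebraMap]
  rw [pow_two, Derivation.leibniz, map_sub, map_sub, Derivation.leibniz, Derivation.leibniz,
    Derivation.map_algebraMap, Derivation.map_algebraMap, e4, Derivation.leibniz_pow] at h
  simp only [smul_eq_mul, mul_zero, add_zero, sub_zero, nsmul_eq_mul, Nat.cast_ofNat,
    Nat.add_one_sub_one] at h
  have hg : algebraMap ℂ M g₂ = 2 * algebraMap ℂ M (g₂ / 2) := by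
    have : g₂ = 2 * (g₂ / 2) := by ring
    conv_lhs => rw [this]
    rw [map_mul, map_ofNat]
  rw [hg] at h
  have h3 : (2 * D.d P) * (D.d (D.d P) - (6 * P ^ 2 - algebraMap ℂ M (g₂ / 2))) = 0 := by
    linear_combination h
  rcases mul_eq_zero.1 h3 with h4 | h4
  · exact absurd h4 (mul_ne_zero h2 h0)
  · exact sub_eq_zero.1 h4

/-- the derivative preserves `EF D P` -/
theorem ell_d (W : WP D ω₁ ω₂ P g₂ g₃) (f : M) (hf : f ∈ EF D P) : D.d f ∈ EF D P := by
  induction hf using IntermediateField.adjoin_induction with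
  | mem x hx =>
    rcases hx with rfl | hx
    · exact elf_memdP D _
    · rw [Set.mem_singleton_iff] at hx
      rw [hx, (ell_dd W).2]
      apply sub_mem
      · apply mul_mem
        · have : (6 : M) = algebraMap ℂ M 6 := (map_ofNat _ 6).symm
          rw [this]
          exact elf_memc D P 6
        · exact pow_mem (elf_memP D P) 2
      · exact elf_memc D P _
  | algebraMap x =>
    rw [Derivation.map_algebraMap]
    exact zero_mem _
  | add x y _ _ hx hy =>
    rw [map_add]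
    exact add_mem hx hy
  | inv x hx hdx =>
    rw [Derivation.leibniz_inv]
    rw [smul_eq_mul]
    exact mul_mem (neg_mem (pow_mem (inv_mem hx) 2)) hdx
  | mul x y hx hy hdx hdy =>
    rw [Derivation.leibniz, smul_eq_mul, smul_eq_mul]
    exact add_mem (mul_mem hx hdy) (mul_mem hy hdx)

theorem elf_trd (W : WP D ω₁ ω₂ P g₂ g₃) : D.tr ω₁ (D.d P) = D.d P ∧ D.tr ω₂ (D.d P) = D.d P := by
  rw [D.tr_d, D.tr_d, W.per₁, W.per₂]
  exact ⟨rfl, rfl⟩

/-- all elements of `EF D P` are periodic -/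
theorem ell_per (W : WP D ω₁ ω₂ P g₂ g₃) (f : M) (hf : f ∈ EF D P) :
    D.tr ω₁ f = f ∧ D.tr ω₂ f = f := by
  induction hf using IntermediateField.adjoin_induction with
  | mem x hx =>
    rcases hx with rfl | hx
    · exact ⟨W.per₁, W.per₂⟩
    · rw [Set.mem_singleton_iff] at hx
      rw [hx]
      exact elf_trd W
  | algebraMap x => exact ⟨AlgHom.commutes _ _, AlgHom.commutes _ _⟩
  | add x y _ _ hx hy =>
    rw [map_add, map_add, hx.1, hx.2, hy.1, hy.2]
    exact ⟨rfl, rfl⟩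
  | inv x _ hx =>
    rw [map_inv₀, map_inv₀, hx.1, hx.2]
    exact ⟨rfl, rfl⟩
  | mul x y _ _ hx hy =>
    rw [map_mul, map_mul, hx.1, hx.2, hy.1, hy.2]
    exact ⟨rfl, rfl⟩

theorem elf_tr0 (f : M) : D.tr 0 f = f := by
  have h := D.tr_tr 0 0 f
  rw [add_zero] at h
  exact (D.tr 0 : M →+* M).injective h

theorem elf_trneg {ω : ℂ} {f : M} (h : D.tr ω f = f) : D.tr (-ω) f = f := by
  have h1 := D.tr_tr (-ω) ω f
  rw [h, neg_add_cancel, elf_tr0] at h1
  exact h1

theorem elf_trnat {ω : ℂ} {f : M} (h : D.tr ω f = f) (n : ℕ) : D.tr (n * ω) f = f := by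
  induction n with
  | zero => simpa using elf_tr0 f
  | succ n ih =>
    have h1 := D.tr_tr ω (n * ω) f
    rw [ih, h] at h1
    have e : ((n + 1 : ℕ) : ℂ) * ω = ω + n * ω := by
      push_cast
      ring
    rw [e]
    exact h1.symm

theorem elf_trint {ω : ℂ} {f : M} (h : D.tr ω f = f) (i : ℤ) : D.tr (i * ω) f = f := by
  obtain ⟨n, rfl | rfl⟩ := Int.eq_nat_or_neg i
  · exact_mod_cast elf_trnat h n
  · have := elf_trneg (elf_trnat h n)
    rw [← neg_mul] at this
    push_cast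
    exact this

theorem elf_trlat {f : M} (h1 : D.tr ω₁ f = f) (h2 : D.tr ω₂ f = f) (i j : ℤ) :
    D.tr (i * ω₁ + j * ω₂) f = f := by
  rw [← D.tr_tr, elf_trint h2, elf_trint h1]

/-- a periodic element, regular off the lattice and at the origin, is constant -/
theorem elf_const (W : WP D ω₁ ω₂ P g₂ g₃) (f : M) (h1 : D.tr ω₁ f = f) (h2 : D.tr ω₂ f = f)
    (h : ∀ z : ℂ, (¬ ∃ i j : ℤ, z = i * ω₁ + j * ω₂) → 0 ≤ D.ord z f) (h0 : 0 ≤ D.ord 0 f) :
    f ∈ EF D P := by
  obtain ⟨c, hc⟩ := D.liou ω₁ ω₂ f W.ind h1 h2 (by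
    intro z
    by_cases hz : ∃ i j : ℤ, z = i * ω₁ + j * ω₂
    · obtain ⟨i, j, rfl⟩ := hz
      have h3 := D.ord_tr 0 (i * ω₁ + j * ω₂) f
      rw [elf_trlat h1 h2, zero_add] at h3
      rw [← h3]
      exact h0
    · exact h z hz)
  rw [hc]
  exact elf_memc D P c

theorem elf_even (W : WP D ω₁ ω₂ P g₂ g₃) {g : M} (hg : g ≠ 0) (he : D.neg g = g) :
    Even (vz (D.ord 0) g) := by
  have hP := elf_P0 W
  have hdP := (elf_dP W).1
  obtain ⟨π, hπ⟩ : ∃ π : M, π = P / D.d P := ⟨_, rfl⟩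
  have hπ0 : π ≠ 0 := by rw [hπ]; exact div_ne_zero hP hdP
  have hvπ : vz (D.ord 0) π = 1 := by
    rw [hπ, vz_div _ hP hdP, elf_vP W, (elf_dP W).2]
    norm_num
  have hnπ : D.neg π = -π := by
    rw [hπ, map_div₀, D.neg_d, W.even, div_neg]
  obtain ⟨k, hk⟩ : ∃ k, k = vz (D.ord 0) g := ⟨_, rfl⟩
  obtain ⟨x, hx⟩ : ∃ x : M, x = g / π ^ k := ⟨_, rfl⟩
  have hx0 : x ≠ 0 := by rw [hx]; exact div_ne_zero hg (zpow_ne_zero _ hπ0)
  have hvx : D.ord 0 x = 0 := by
    rw [eq_zero_iff _ hx0, hx, vz_div _ hg (zpow_ne_zero _ hπ0), vz_zpow _ hπ0, hvπ, ← hk]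
    ring
  obtain ⟨c, hc⟩ := D.resid 0 x hvx.ge
  have hc0 : c ≠ 0 := by
    rintro rfl
    rw [map_zero, sub_zero, hvx] at hc
    exact lt_irrefl _ hc
  rw [← hk]
  by_contra hodd
  rw [Int.not_even_iff_odd] at hodd
  have hnx : D.neg x = -x := by
    rw [hx, map_div₀, he, map_zpow₀, hnπ, hodd.neg_zpow, div_neg]
  have h1 : 0 < D.ord 0 (D.neg (x - algebraMap ℂ M c)) := by
    rw [D.ord_neg, neg_zero]
    exact hc
  rw [map_sub, hnx, AlgHom.commutes] at h1
  have h2 : 0 < D.ord 0 ((x - algebraMap ℂ M c) + (-x - algebraMap ℂ M c)) :=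
    AddValuation.map_lt_add _ hc h1
  have e : (x - algebraMap ℂ M c) + (-x - algebraMap ℂ M c) = algebraMap ℂ M (-2 * c) := by
    rw [map_mul, map_neg, map_ofNat]
    ring
  rw [e, D.ord_const 0 _ (mul_ne_zero (by norm_num) hc0)] at h2
  exact lt_irrefl _ h2

theorem elf_evmem (W : WP D ω₁ ω₂ P g₂ g₃) (N : ℕ) : ∀ g : M, D.neg g = g → D.tr ω₁ g = g →
    D.tr ω₂ g = g → (∀ z : ℂ, (¬ ∃ i j : ℤ, z = i * ω₁ + j * ω₂) → 0 ≤ D.ord z g) →
    (g ≠ 0 → -vz (D.ord 0) g ≤ N) → g ∈ EF D P := by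
  induction N with
  | zero =>
    intro g _ h1 h2 hr hN
    by_cases hg : g = 0
    · rw [hg]
      exact zero_mem _
    · apply elf_const W g h1 h2 hr
      rw [nonneg_iff _ hg]
      have := hN hg
      push_cast at this
      linarith
  | succ N ih =>
    intro g he h1 h2 hr hN
    by_cases hg : g = 0
    · rw [hg]
      exact zero_mem _
    by_cases hv : 0 ≤ vz (D.ord 0) g
    · apply elf_const W g h1 h2 hr
      rw [nonneg_iff _ hg]
      exact hv
    push Not at hv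
    obtain ⟨m, hm⟩ := elf_even W hg he
    obtain ⟨l, hl⟩ : ∃ l : ℕ, (l : ℤ) = -m := ⟨(-m).toNat, Int.toNat_of_nonneg (by omega)⟩
    have hP := elf_P0 W
    have hPl : P ^ l ≠ 0 := pow_ne_zero _ hP
    have hq0 : g / P ^ l ≠ 0 := div_ne_zero hg hPl
    have hvPl : vz (D.ord 0) (P ^ l) = vz (D.ord 0) g := by
      rw [vz_pow _ hP, elf_vP W, hm, hl]
      ring
    have hvq : D.ord 0 (g / P ^ l) = 0 := by
      rw [eq_zero_iff _ hq0, vz_div _ hg hPl, hvPl, sub_self]
    obtain ⟨c, hc⟩ := D.resid 0 _ hvq.ge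
    have hmem : g - algebraMap ℂ M c * P ^ l ∈ EF D P := by
      apply ih
      · rw [map_sub, map_mul, map_pow, he, W.even, AlgHom.commutes]
      · rw [map_sub, map_mul, map_pow, h1, W.per₁, AlgHom.commutes]
      · rw [map_sub, map_mul, map_pow, h2, W.per₂, AlgHom.commutes]
      · intro z hz
        have hPz := W.reg z hz
        have hcz : 0 ≤ D.ord z (algebraMap ℂ M c) := by
          by_cases hc0 : c = 0
          · rw [hc0, map_zero, AddValuation.map_zero]
            exact le_top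
          · rw [D.ord_const z c hc0]
        exact (OV (D.ord z)).sub_mem (hr z hz)
          ((OV (D.ord z)).mul_mem hcz ((OV (D.ord z)).pow_mem hPz l))
      · intro hne
        have e : g - algebraMap ℂ M c * P ^ l = P ^ l * (g / P ^ l - algebraMap ℂ M c) := by
          field_simp
        have hne' : g / P ^ l - algebraMap ℂ M c ≠ 0 := by
          intro h0
          rw [e, h0, mul_zero] at hne
          exact hne rfl
        rw [e, vz_mul _ hPl hne', hvPl]
        rw [pos_iff _ hne'] at hc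
        have := hN hg
        push_cast at this
        omega
    have e : g = (g - algebraMap ℂ M c * P ^ l) + algebraMap ℂ M c * P ^ l := by ring
    rw [e]
    exact add_mem hmem (mul_mem (elf_memc D P c) (pow_mem (elf_memP D P) l))

theorem elf_evmem' (W : WP D ω₁ ω₂ P g₂ g₃) (g : M) (he : D.neg g = g) (h1 : D.tr ω₁ g = g)
    (h2 : D.tr ω₂ g = g) (hr : ∀ z : ℂ, (¬ ∃ i j : ℤ, z = i * ω₁ + j * ω₂) → 0 ≤ D.ord z g) :
    g ∈ EF D P :=
  elf_evmem W (-vz (D.ord 0) g).toNat g he h1 h2 hr (fun _ => Int.self_le_toNat _)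

theorem ell_mem (W : WP D ω₁ ω₂ P g₂ g₃) (f : M) (h1 : D.tr ω₁ f = f) (h2 : D.tr ω₂ f = f)
    (h : ∀ z : ℂ, (¬ ∃ i j : ℤ, z = i * ω₁ + j * ω₂) → 0 ≤ D.ord z f) : f ∈ EF D P := by
  have hdP := (elf_dP W).1
  have hlat : ∀ z : ℂ, (¬ ∃ i j : ℤ, z = i * ω₁ + j * ω₂) →
      ¬ ∃ i j : ℤ, -z = i * ω₁ + j * ω₂ := by
    rintro z hz ⟨i, j, hij⟩
    apply hz
    refine ⟨-i, -j, ?_⟩
    push_cast
    linear_combination -hij
  have hneg : ∀ z : ℂ, (¬ ∃ i j : ℤ, z = i * ω₁ + j * ω₂) → 0 ≤ D.ord z (D.neg f) := by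
    intro z hz
    rw [D.ord_neg]
    exact h (-z) (hlat z hz)
  have hper : ∀ ω : ℂ, D.tr ω f = f → D.tr ω (D.neg f) = D.neg f := by
    intro ω hω
    have h3 := D.neg_tr (-ω) f
    rw [neg_neg, elf_trneg hω] at h3
    exact h3.symm
  have hdreg : ∀ z : ℂ, (¬ ∃ i j : ℤ, z = i * ω₁ + j * ω₂) → 0 ≤ D.ord z (D.d P) :=
    fun z hz => D.ord_d' z P (W.reg z hz)
  have hndP : D.neg (D.d P) = -D.d P := by rw [D.neg_d, W.even]
  have m1 : f + D.neg f ∈ EF D P := by
    apply elf_evmem' W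
    · rw [map_add, D.neg_neg, add_comm]
    · rw [map_add, h1, hper _ h1]
    · rw [map_add, h2, hper _ h2]
    · intro z hz
      exact (OV (D.ord z)).add_mem (h z hz) (hneg z hz)
  have m2 : (f - D.neg f) * D.d P ∈ EF D P := by
    apply elf_evmem' W
    · rw [map_mul, map_sub, D.neg_neg, hndP]
      ring
    · rw [map_mul, map_sub, h1, hper _ h1, (elf_trd W).1]
    · rw [map_mul, map_sub, h2, hper _ h2, (elf_trd W).2]
    · intro z hz
      exact (OV (D.ord z)).mul_mem ((OV (D.ord z)).sub_mem (h z hz) (hneg z hz))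
        (hdreg z hz)
  have h2M : (2 : M) ≠ 0 := by
    have := (algebraMap ℂ M).injective.ne (two_ne_zero (α := ℂ))
    rwa [map_ofNat, map_zero] at this
  have e : f = algebraMap ℂ M (1 / 2) * ((f + D.neg f) + ((f - D.neg f) * D.d P) * (D.d P)⁻¹) := by
    rw [mul_assoc, mul_inv_cancel₀ hdP, mul_one, map_div₀, map_one, map_ofNat]
    field_simp
    ring
  rw [e]
  exact mul_mem (elf_memc D P _) (add_mem m1 (mul_mem m2 (inv_mem (elf_memdP D P))))

end TriIdx
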