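import Pool.Agent.TriIdx.Val

/-!
PROJECT TRI, module LC (pure algebra, independent of everything but `Val`).
Two valuations with the same centre on a curve, where the centre is a smooth point with local
parameter `r`, are proportional.

PROOF. Let `A` be the subalgebra generated by the `α i`.
(1) every `f ∈ A` is `c + β 0 * (α 0 - a 0) + β 1 * (α 1 - a 1)` with `c : ℂ`, `β i ∈ A`.
If `c ≠ 0` then `v f = w f = 0`, since `v`, `w` are nonnegative on `A`
and positive on `α i - a i`. If `c = 0` then `s 0 * s 1 * f ∈ r * A`.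
(2) For `f ∈ A`, `f ≠ 0`, induction on `vz v f` gives `vz v f = k * vz v r`, `vz w f = k * vz w r`.
(3) every `f : F` is a quotient of elements of `A`.
-/

namespace TriIdx

theorem LC_dec {F : Type} [Field F] [Algebra ℂ F] (α : Fin 2 → F) (a : Fin 2 → ℂ) (x : F)
    (hx : x ∈ Algebra.adjoin ℂ (Set.range α)) :
    ∃ (c : ℂ) (β : Fin 2 → F), (∀ i, β i ∈ Algebra.adjoin ℂ (Set.range α)) ∧
      x = algebraMap ℂ F c + ∑ i, β i * (α i - algebraMap ℂ F (a i)) := by
  classical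
  induction hx using Algebra.adjoin_induction with
  | mem x hx =>
    obtain ⟨i, rfl⟩ := hx
    refine ⟨a i, fun j => if j = i then 1 else 0, ?_, ?_⟩
    · intro j
      dsimp only
      split_ifs
      · exact one_mem _
      · exact zero_mem _
    · simp
  | algebraMap c => exact ⟨c, 0, fun i => zero_mem _, by simp⟩
  | add x y hx hy ihx ihy =>
    obtain ⟨c, β, hβ, h1⟩ := ihx
    obtain ⟨c', β', hβ', h2⟩ := ihy
    refine ⟨c + c', β + β', fun i => add_mem (hβ i) (hβ' i), ?_⟩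
    rw [h1, h2, map_add]
    simp only [Fin.sum_univ_two, Pi.add_apply]
    ring
  | mul x y hx hy ihx ihy =>
    obtain ⟨c, β, hβ, h1⟩ := ihx
    obtain ⟨c', β', hβ', h2⟩ := ihy
    refine ⟨c * c', fun i => algebraMap ℂ F c * β' i + β i * y,
      fun i => add_mem (mul_mem (Subalgebra.algebraMap_mem _ c) (hβ' i)) (mul_mem (hβ i) hy), ?_⟩
    have h3 : x * y = algebraMap ℂ F c * y +
        (∑ i, β i * (α i - algebraMap ℂ F (a i))) * y := by
      rw [← add_mul, ← h1]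
    rw [h3]
    nth_rewrite 1 [h2]
    rw [map_mul]
    simp only [Fin.sum_univ_two]
    ring

theorem LC_nonneg {F : Type} [Field F] [Algebra ℂ F] (v : AddValuation F (WithTop ℤ))
    (hv : ∀ c : ℂ, c ≠ 0 → v (algebraMap ℂ F c) = 0)
    (α : Fin 2 → F) (a : Fin 2 → ℂ)
    (hva : ∀ i, 0 < v (α i - algebraMap ℂ F (a i))) (x : F)
    (hx : x ∈ Algebra.adjoin ℂ (Set.range α)) : 0 ≤ v x := by
  have hc : ∀ c : ℂ, 0 ≤ v (algebraMap ℂ F c) := by
    intro c
    by_cases h : c = 0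
    · rw [h, map_zero, AddValuation.map_zero]; exact le_top
    · rw [hv c h]
  induction hx using Algebra.adjoin_induction with
  | mem x hx =>
    obtain ⟨i, rfl⟩ := hx
    have h1 : α i = (α i - algebraMap ℂ F (a i)) + algebraMap ℂ F (a i) := by ring
    rw [h1]
    exact AddValuation.map_le_add v (hva i).le (hc _)
  | algebraMap c => exact hc c
  | add x y hx hy ihx ihy => exact AddValuation.map_le_add v ihx ihy
  | mul x y hx hy ihx ihy => rw [AddValuation.map_mul]; exact add_nonneg ihx ihy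

theorem LC_zero {F : Type} [Field F] [Algebra ℂ F] (v : AddValuation F (WithTop ℤ))
    (hv : ∀ c : ℂ, c ≠ 0 → v (algebraMap ℂ F c) = 0)
    (α : Fin 2 → F) (a : Fin 2 → ℂ)
    (hva : ∀ i, 0 < v (α i - algebraMap ℂ F (a i))) (c : ℂ) (hc : c ≠ 0) (β : Fin 2 → F)
    (hβ : ∀ i, β i ∈ Algebra.adjoin ℂ (Set.range α)) :
    v (algebraMap ℂ F c + ∑ i, β i * (α i - algebraMap ℂ F (a i))) = 0 := by
  have h1 : ∀ i, 0 < v (β i * (α i - algebraMap ℂ F (a i))) := by
    intro i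
    rw [AddValuation.map_mul]
    exact lt_of_lt_of_le (hva i)
      (le_add_of_nonneg_left (LC_nonneg v hv α a hva _ (hβ i)))
  have h2 : 0 < v (∑ i, β i * (α i - algebraMap ℂ F (a i))) := by
    rw [Fin.sum_univ_two]
    exact AddValuation.map_lt_add v (h1 0) (h1 1)
  have h3 : v (algebraMap ℂ F c) < v (∑ i, β i * (α i - algebraMap ℂ F (a i))) := by
    rw [hv c hc]; exact h2
  rw [AddValuation.map_add_eq_of_lt_left v h3, hv c hc]

theorem LC_main {F : Type} [Field F] [Algebra ℂ F] (v w : AddValuation F (WithTop ℤ))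
    (hv : ∀ c : ℂ, c ≠ 0 → v (algebraMap ℂ F c) = 0)
    (hw : ∀ c : ℂ, c ≠ 0 → w (algebraMap ℂ F c) = 0)
    (α : Fin 2 → F) (a : Fin 2 → ℂ)
    (hva : ∀ i, 0 < v (α i - algebraMap ℂ F (a i)))
    (hwa : ∀ i, 0 < w (α i - algebraMap ℂ F (a i)))
    (r : F) (hr0 : r ≠ 0) (hvr : 0 < v r)
    (s q : Fin 2 → F) (hs : ∀ i, s i ∈ Algebra.adjoin ℂ (Set.range α))
    (hvs : ∀ i, v (s i) = 0) (hws : ∀ i, w (s i) = 0)
    (hq : ∀ i, q i ∈ Algebra.adjoin ℂ (Set.range α))
    (hqs : ∀ i, s i * (α i - algebraMap ℂ F (a i)) = r * q i) :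
    ∀ (n : ℕ) (f : F), f ∈ Algebra.adjoin ℂ (Set.range α) → f ≠ 0 → vz v f ≤ n →
      ∃ k : ℤ, vz v f = k * vz v r ∧ vz w f = k * vz w r := by
  have hr1 : 0 < vz v r := (pos_iff v hr0).1 hvr
  have hs0 : ∀ i, s i ≠ 0 := by
    intro i h
    have := hvs i
    rw [h, AddValuation.map_zero] at this
    exact absurd this (by simp)
  intro n
  induction n with
  | zero =>
    intro f hf hf0 hn
    obtain ⟨c, β, hβ, h1⟩ := LC_dec α a f hf
    by_cases hc : c = 0
    · exfalso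
      have h2 : 0 ≤ vz v f := (nonneg_iff v hf0).1 (LC_nonneg v hv α a hva f hf)
      have h4 : s 0 * s 1 * f = r * (s 1 * β 0 * q 0 + s 0 * β 1 * q 1) := by
        rw [h1, hc, map_zero, Fin.sum_univ_two]
        linear_combination (s 1 * β 0) * hqs 0 + (s 0 * β 1) * hqs 1
      have h5 : s 0 * s 1 * f ≠ 0 := mul_ne_zero (mul_ne_zero (hs0 0) (hs0 1)) hf0
      have h6 : s 1 * β 0 * q 0 + s 0 * β 1 * q 1 ≠ 0 := by
        intro h
        rw [h4, h, mul_zero] at h5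
        exact h5 rfl
      have h7 : s 1 * β 0 * q 0 + s 0 * β 1 * q 1 ∈ Algebra.adjoin ℂ (Set.range α) :=
        add_mem (mul_mem (mul_mem (hs 1) (hβ 0)) (hq 0)) (mul_mem (mul_mem (hs 0) (hβ 1)) (hq 1))
      have h8 := (nonneg_iff v h6).1 (LC_nonneg v hv α a hva _ h7)
      have h9 := congrArg (vz v) h4
      rw [vz_mul v (mul_ne_zero (hs0 0) (hs0 1)) hf0, vz_mul v (hs0 0) (hs0 1), vz_mul v hr0 h6,
        (eq_zero_iff v (hs0 0)).1 (hvs 0), (eq_zero_iff v (hs0 1)).1 (hvs 1)] at h9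
      push_cast at hn
      omega
    · refine ⟨0, ?_, ?_⟩
      · rw [zero_mul]
        exact (eq_zero_iff v hf0).1 (by rw [h1]; exact LC_zero v hv α a hva c hc β hβ)
      · rw [zero_mul]
        exact (eq_zero_iff w hf0).1 (by rw [h1]; exact LC_zero w hw α a hwa c hc β hβ)
  | succ n ih =>
    intro f hf hf0 hn
    obtain ⟨c, β, hβ, h1⟩ := LC_dec α a f hf
    by_cases hc : c = 0
    · have h4 : s 0 * s 1 * f = r * (s 1 * β 0 * q 0 + s 0 * β 1 * q 1) := by
        rw [h1, hc, map_zero, Fin.sum_univ_two]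
        linear_combination (s 1 * β 0) * hqs 0 + (s 0 * β 1) * hqs 1
      have h5 : s 0 * s 1 * f ≠ 0 := mul_ne_zero (mul_ne_zero (hs0 0) (hs0 1)) hf0
      have h6 : s 1 * β 0 * q 0 + s 0 * β 1 * q 1 ≠ 0 := by
        intro h
        rw [h4, h, mul_zero] at h5
        exact h5 rfl
      have h7 : s 1 * β 0 * q 0 + s 0 * β 1 * q 1 ∈ Algebra.adjoin ℂ (Set.range α) :=
        add_mem (mul_mem (mul_mem (hs 1) (hβ 0)) (hq 0)) (mul_mem (mul_mem (hs 0) (hβ 1)) (hq 1))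
      have h9 := congrArg (vz v) h4
      rw [vz_mul v (mul_ne_zero (hs0 0) (hs0 1)) hf0, vz_mul v (hs0 0) (hs0 1), vz_mul v hr0 h6,
        (eq_zero_iff v (hs0 0)).1 (hvs 0), (eq_zero_iff v (hs0 1)).1 (hvs 1)] at h9
      have h10 := congrArg (vz w) h4
      rw [vz_mul w (mul_ne_zero (hs0 0) (hs0 1)) hf0, vz_mul w (hs0 0) (hs0 1), vz_mul w hr0 h6,
        (eq_zero_iff w (hs0 0)).1 (hws 0), (eq_zero_iff w (hs0 1)).1 (hws 1)] at h10
      push_cast at hn
      obtain ⟨k, hk1, hk2⟩ := ih _ h7 h6 (by omega)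
      refine ⟨k + 1, ?_, ?_⟩
      · rw [add_mul, one_mul, ← hk1]; omega
      · rw [add_mul, one_mul, ← hk2]; omega
    · refine ⟨0, ?_, ?_⟩
      · rw [zero_mul]
        exact (eq_zero_iff v hf0).1 (by rw [h1]; exact LC_zero v hv α a hva c hc β hβ)
      · rw [zero_mul]
        exact (eq_zero_iff w hf0).1 (by rw [h1]; exact LC_zero w hw α a hwa c hc β hβ)

theorem local_comp {F : Type} [Field F] [Algebra ℂ F] (v w : AddValuation F (WithTop ℤ))
    (hv : ∀ c : ℂ, c ≠ 0 → v (algebraMap ℂ F c) = 0)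
    (hw : ∀ c : ℂ, c ≠ 0 → w (algebraMap ℂ F c) = 0)
    (α : Fin 2 → F) (a : Fin 2 → ℂ) (hgen : IntermediateField.adjoin ℂ (Set.range α) = ⊤)
    (hva : ∀ i, 0 < v (α i - algebraMap ℂ F (a i)))
    (hwa : ∀ i, 0 < w (α i - algebraMap ℂ F (a i)))
    (r : F) (hr : r ∈ Algebra.adjoin ℂ (Set.range α)) (hr0 : r ≠ 0) (hvr : 0 < v r)
    (hwr : 0 < w r)
    (s q : Fin 2 → F) (hs : ∀ i, s i ∈ Algebra.adjoin ℂ (Set.range α))
    (hvs : ∀ i, v (s i) = 0) (hws : ∀ i, w (s i) = 0)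
    (hq : ∀ i, q i ∈ Algebra.adjoin ℂ (Set.range α))
    (hqs : ∀ i, s i * (α i - algebraMap ℂ F (a i)) = r * q i)
    (f : F) (hf : f ≠ 0) : vz w f * vz v r = vz v f * vz w r := by
  have key : ∀ g : F, g ∈ Algebra.adjoin ℂ (Set.range α) → g ≠ 0 →
      ∃ k : ℤ, vz v g = k * vz v r ∧ vz w g = k * vz w r := fun g hg hg0 =>
    LC_main v w hv hw α a hva hwa r hr0 hvr s q hs hvs hws hq hqs (vz v g).toNat g hg hg0
      (Int.self_le_toNat _)
  have h1 : f ∈ IntermediateField.adjoin ℂ (Set.range α) := by rw [hgen]; trivial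
  rw [IntermediateField.mem_adjoin_iff_div] at h1
  obtain ⟨x, hx, y, hy, hxy⟩ := h1
  have hx0 : x ≠ 0 := by rintro rfl; rw [zero_div] at hxy; exact hf hxy
  have hy0 : y ≠ 0 := by rintro rfl; rw [div_zero] at hxy; exact hf hxy
  obtain ⟨k, h2, h3⟩ := key x hx hx0
  obtain ⟨l, h4, h5⟩ := key y hy hy0
  rw [hxy, vz_div v hx0 hy0, vz_div w hx0 hy0, h2, h3, h4, h5]
  ring

end TriIdx
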