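import Pool.Agent.TriIdx.EllDefs
import Pool.Agent.TriIdx.EllF

/-!
PROJECT TRI, module ELR (algebra with the interface `MerData`, no analysis; import `EllF` as a black
box).

PROOF. Let `Q` be the Weierstrass function of the lattice `ℤ m + ℤ i` (`D.wp m I`), `ζ` a primitive
`m`-th root of unity in `ℂ`, `ε = ∑ j < m, ζ⁻¹ ^ j • D.tr j Q`.
* `D.tr 1 ε = ζ ε` (shift the sum, `tr m Q = Q`), `D.tr I ε = ε`.
* `ε` is regular off `ℤ + ℤ i` (`D.ord_tr`); at `0` the summand `j = 0` has order `-2` and the others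
  are regular, since `j` is not in `ℤ m + ℤ i` for `0 < j < m`; so `ε ≠ 0`.
* `ε ^ m` is periodic for `1` and `I` and regular off the lattice, so it is in `EF D P` by `ell_mem`.
* If `(ε ^ m) ^ i = q ^ m` with `q ∈ EF D P`, `q ≠ 0`: `ε ^ i / q` is an `m`-th root of unity of the
  field `M`, so a constant `η` (`X ^ m - 1` splits over `ℂ`; e.g. `ℂ` algebraically closed and
  `IsAlgebraic ℂ` elements are constants, `IsAlgClosed.algebraMap_surjective_of_isIntegral` or root
  factorisation). Apply `D.tr 1`: `ζ ^ i ε ^ i = η q = ε ^ i` (`ell_per`), so `ζ ^ i = 1`, `m ∣ i`.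
-/

namespace TriIdx

variable {M : Type} [Field M] [Algebra ℂ M] {D : MerData M} {P : M} {g₂ g₃ : ℂ}

theorem elr_ind (m : ℕ) (hm : 0 < m) : LinearIndependent ℝ ![((m : ℕ) : ℂ), Complex.I] := by
  rw [LinearIndependent.pair_iff]
  intro s t hst
  have hm' : (m : ℝ) ≠ 0 := by exact_mod_cast hm.ne'
  have h1 := congrArg Complex.re hst
  have h2 := congrArg Complex.im hst
  simp at h1 h2
  exact ⟨h1.resolve_right (by exact_mod_cast hm.ne'), h2⟩

/-- a root of unity of `M` is constant -/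
theorem elr_const {m : ℕ} (hm : 0 < m) {η : M} (h : η ^ m = 1) : ∃ c : ℂ, η = algebraMap ℂ M c := by
  have hint : IsIntegral ℂ η := by
    refine ⟨Polynomial.X ^ m - Polynomial.C 1, Polynomial.monic_X_pow_sub_C 1 hm.ne', ?_⟩
    simp [h]
  obtain ⟨c, hc⟩ : η ∈ (algebraMap ℂ M).range :=
    minpoly.mem_range_of_degree_eq_one ℂ η
      (IsAlgClosed.degree_eq_one_of_irreducible ℂ (minpoly.irreducible hint))
  exact ⟨c, hc.symm⟩

theorem ell_root (m : ℕ) (hm : 0 < m) (W : WP D 1 Complex.I P g₂ g₃) :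
    ∃ ε : M, ε ≠ 0 ∧ ε ^ m ∈ EF D P ∧
      ∀ (i : ℕ) (q : M), q ∈ EF D P → (ε ^ m) ^ i = q ^ m → m ∣ i := by
  obtain ⟨Q, q2, q3, -, hQm, hQI, -, hQpole, hQreg⟩ := D.wp (m : ℂ) Complex.I (elr_ind m hm)
  set ζ : ℂ := Complex.exp (2 * Real.pi * Complex.I / m) with hζ
  have hprim : IsPrimitiveRoot ζ m := Complex.isPrimitiveRoot_exp m hm.ne'
  have hζ0 : ζ ≠ 0 := Complex.exp_ne_zero _
  set f : ℕ → M := fun j => algebraMap ℂ M (ζ⁻¹ ^ j) * D.tr (j : ℂ) Q with hf
  set ε : M := ∑ j ∈ Finset.range m, f j with hε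
  have hQ0 : D.tr 0 Q = Q := by
    have h1 := D.tr_tr 0 (m : ℂ) Q
    rw [hQm, zero_add, hQm] at h1
    exact h1
  have hf0 : f 0 = Q := by
    simp only [hf, pow_zero, map_one, one_mul, Nat.cast_zero]
    exact hQ0
  have hfm : f m = Q := by
    simp only [hf]
    rw [inv_pow, hprim.pow_eq_one, inv_one, map_one, one_mul, hQm]
  have htr1f : ∀ j, algebraMap ℂ M ζ⁻¹ * D.tr 1 (f j) = f (j + 1) := by
    intro j
    simp only [hf]
    rw [map_mul, AlgHom.commutes, D.tr_tr, pow_succ, map_mul]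
    have h1 : (1 : ℂ) + (j : ℂ) = ((j + 1 : ℕ) : ℂ) := by push_cast; ring
    rw [h1]
    ring
  have htr1 : D.tr 1 ε = algebraMap ℂ M ζ * ε := by
    have h1 : algebraMap ℂ M ζ⁻¹ * D.tr 1 ε = ε := by
      rw [hε, map_sum, Finset.mul_sum, Finset.sum_congr rfl (fun j _ => htr1f j)]
      have h2 := Finset.sum_range_succ f m
      have h3 := Finset.sum_range_succ' f m
      rw [h2, hfm, hf0] at h3
      exact (add_right_cancel h3).symm
    have h2 : algebraMap ℂ M ζ * algebraMap ℂ M ζ⁻¹ = 1 := by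
      rw [← map_mul, mul_inv_cancel₀ hζ0, map_one]
    calc D.tr 1 ε = (algebraMap ℂ M ζ * algebraMap ℂ M ζ⁻¹) * D.tr 1 ε := by rw [h2, one_mul]
      _ = algebraMap ℂ M ζ * (algebraMap ℂ M ζ⁻¹ * D.tr 1 ε) := by ring
      _ = algebraMap ℂ M ζ * ε := by rw [h1]
  have htrI : D.tr Complex.I ε = ε := by
    rw [hε, map_sum]
    refine Finset.sum_congr rfl (fun j _ => ?_)
    simp only [hf]
    rw [map_mul, AlgHom.commutes, D.tr_tr, add_comm, ← D.tr_tr, hQI]
  have hordf : ∀ (z : ℂ) (j : ℕ), D.ord z (f j) = D.ord (z + j) Q := by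
    intro z j
    simp only [hf]
    rw [AddValuation.map_mul, D.ord_const z _ (pow_ne_zero _ (inv_ne_zero hζ0)), zero_add,
      D.ord_tr]
  have hreg : ∀ z : ℂ, (¬ ∃ i j : ℤ, z = i * 1 + j * Complex.I) → 0 ≤ D.ord z ε := by
    intro z hz
    rw [hε]
    apply AddValuation.map_le_sum
    intro j _
    rw [hordf]
    apply hQreg
    rintro ⟨a, b, hab⟩
    apply hz
    refine ⟨a * m - j, b, ?_⟩
    push_cast
    linear_combination hab
  have hε0 : ε ≠ 0 := by
    have h1 : ε = f 0 + ∑ j ∈ Finset.range (m - 1), f (j + 1) := by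
      have h2 : m = (m - 1) + 1 := by omega
      rw [hε]
      conv_lhs => rw [h2]
      rw [Finset.sum_range_succ', add_comm]
    have h3 : 0 ≤ D.ord 0 (∑ j ∈ Finset.range (m - 1), f (j + 1)) := by
      apply AddValuation.map_le_sum
      intro j hj
      have hj' := Finset.mem_range.1 hj
      rw [hordf]
      apply hQreg
      rintro ⟨a, b, hab⟩
      have h4 := congrArg Complex.re hab
      simp at h4
      have h5 : ((j : ℤ) + 1) = a * m := by exact_mod_cast h4
      have h6 : (m : ℤ) ∣ (j : ℤ) + 1 := ⟨a, by rw [h5]; ring⟩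
      have h7 := Int.le_of_dvd (by omega) h6
      omega
    have h4 : D.ord 0 (f 0) = ((-2 : ℤ) : WithTop ℤ) := by
      rw [hf0]
      exact hQpole 0 ⟨0, 0, by simp⟩
    have h5 : D.ord 0 (f 0) < D.ord 0 (∑ j ∈ Finset.range (m - 1), f (j + 1)) := by
      refine lt_of_lt_of_le ?_ h3
      rw [h4]
      exact_mod_cast (by norm_num : (-2 : ℤ) < 0)
    have h6 : D.ord 0 ε = ((-2 : ℤ) : WithTop ℤ) := by
      rw [h1, AddValuation.map_add_eq_of_lt_left _ h5, h4]
    exact ne_zero_of_v_eq _ h6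
  refine ⟨ε, hε0, ?_, ?_⟩
  · apply ell_mem W
    · rw [map_pow, htr1, mul_pow, ← map_pow, hprim.pow_eq_one, map_one, one_mul]
    · rw [map_pow, htrI]
    · intro z hz
      exact (OV (D.ord z)).pow_mem (hreg z hz) m
  · intro i q hq hiq
    have hq0 : q ≠ 0 := by
      rintro rfl
      rw [zero_pow hm.ne'] at hiq
      exact pow_ne_zero _ (pow_ne_zero _ hε0) hiq
    have h1 : (ε ^ i / q) ^ m = 1 := by
      rw [div_pow, ← hiq, ← pow_mul, ← pow_mul, mul_comm i m]
      exact div_self (pow_ne_zero _ hε0)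
    obtain ⟨c, hc⟩ := elr_const hm h1
    have h2 : ε ^ i = algebraMap ℂ M c * q := by
      rw [← hc, div_mul_cancel₀ _ hq0]
    have h3 := congrArg (D.tr 1) h2
    rw [map_pow, map_mul, AlgHom.commutes, (ell_per W q hq).1, ← h2, htr1, mul_pow] at h3
    have h4 : algebraMap ℂ M ζ ^ i = 1 := by
      have h5 : algebraMap ℂ M ζ ^ i * ε ^ i = 1 * ε ^ i := by rw [h3, one_mul]
      exact mul_right_cancel₀ (pow_ne_zero _ hε0) h5
    have h5 : ζ ^ i = 1 := by
      apply (algebraMap ℂ M).injective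
      rw [map_pow, h4, map_one]
    exact hprim.dvd_of_pow_eq_one i h5

end TriIdx
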