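import Pool.Agent.TriIdx.EllPlace
import Pool.Agent.TriIdx.EllRoot

/-!
PROJECT TRI, module ELM (algebra; import the others as black boxes).

PROOF. `W` from `D.wp 1 I`, `F = EF D P`, `ξ = P`, `y = D.d P`, `h = ε ^ m` from `ell_root`,
`δ` the restriction of `D.d` to `F` (`ell_d`). `ξ` is transcendental: `ord 0 P < 0` while algebraic
elements over `ℂ` are constants. `halg`: `y` is algebraic over `ℂ[ξ]` by the equation, and the set of
algebraic elements is a field. `hplace`: take `z`, `e`, `r` from `ell_place`; for `f ≠ 0`,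
`0 ≤ w f ↔ 0 ≤ D.ord z f` and so on; use `D.resid`, `D.ord_d'`, `D.ord_d` (for `r`: the derivative has
order `0`), and `u = r ^ vz (D.ord z) ε`.
-/

namespace TriIdx

private theorem elm_indep : LinearIndependent ℝ ![(1 : ℂ), Complex.I] := by
  rw [LinearIndependent.pair_iff]
  intro s t h
  have h1 := congrArg Complex.re h
  have h2 := congrArg Complex.im h
  simp at h1 h2
  exact ⟨h1, h2⟩

/-- the derivation of the field of elliptic functions -/
private noncomputable def elmDer {M : Type} [Field M] [Algebra ℂ M] {D : MerData M} {ω₁ ω₂ : ℂ}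
    {P : M} {g₂ g₃ : ℂ} (W : WP D ω₁ ω₂ P g₂ g₃) : Derivation ℂ (EF D P) (EF D P) :=
  Derivation.mk' (R := ℂ) (A := EF D P) (M := EF D P)
    { toFun := fun f => ⟨D.d (f : M), ell_d W f f.2⟩
      map_add' := by
        intro f g
        apply Subtype.ext
        show D.d ((f : M) + (g : M)) = D.d (f : M) + D.d (g : M)
        exact map_add _ _ _
      map_smul' := by
        intro c f
        apply Subtype.ext
        show D.d (c • (f : M)) = c • D.d (f : M)
        exact D.d.map_smul c (f : M) }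
    (by
      intro f g
      apply Subtype.ext
      show D.d ((f : M) * (g : M)) = (f : M) * D.d (g : M) + (g : M) * D.d (f : M)
      rw [Derivation.leibniz]
      rfl)

private theorem elmDer_coe {M : Type} [Field M] [Algebra ℂ M] {D : MerData M} {ω₁ ω₂ : ℂ}
    {P : M} {g₂ g₃ : ℂ} (W : WP D ω₁ ω₂ P g₂ g₃) (f : EF D P) :
    ((elmDer W f : EF D P) : M) = D.d (f : M) := rfl

theorem exists_ellData {M : Type} [Field M] [Algebra ℂ M] (D : MerData M) (m : ℕ) (hm : 0 < m) :
    ∃ (F : Type) (_ : Field F) (_ : Algebra ℂ F), Nonempty (EllData F m) := by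
  obtain ⟨P, g₂, g₃, heq, hp1, hp2, hneg, hpole, hreg⟩ := D.wp 1 Complex.I elm_indep
  have W : WP D 1 Complex.I P g₂ g₃ := ⟨elm_indep, heq, hp1, hp2, hneg, hpole, hreg⟩
  obtain ⟨ε, hε0, hεmem, hεroot⟩ := ell_root m hm W
  have hPm : P ∈ EF D P := IntermediateField.subset_adjoin ℂ _ (by simp)
  have hdPm : D.d P ∈ EF D P := IntermediateField.subset_adjoin ℂ _ (by simp)
  set ξ : EF D P := ⟨P, hPm⟩ with hξ
  set y : EF D P := ⟨D.d P, hdPm⟩ with hy
  set h : EF D P := ⟨ε ^ m, hεmem⟩ with hh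
  have hP0 : D.ord 0 P = ((-2 : ℤ) : WithTop ℤ) := hpole 0 ⟨0, 0, by simp⟩
  have hfg : IntermediateField.adjoin ℂ {ξ, y} = ⊤ := by
    apply IntermediateField.map_injective (EF D P).val
    rw [IntermediateField.adjoin_map, ← AlgHom.fieldRange_eq_map, IntermediateField.fieldRange_val,
      Set.image_pair]
    rfl
  have halg : ∀ f : EF D P, IsAlgebraic (Algebra.adjoin ℂ {ξ}) f := by
    have hξA : ξ ∈ Algebra.adjoin ℂ {ξ} := Algebra.subset_adjoin rfl
    have hyalg : IsAlgebraic (Algebra.adjoin ℂ {ξ}) y := by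
      have hy2 : y ^ 2 = 4 * ξ ^ 3 - algebraMap ℂ (EF D P) g₂ * ξ - algebraMap ℂ (EF D P) g₃ := by
        apply Subtype.ext
        exact heq
      have hmem : y ^ 2 ∈ Algebra.adjoin ℂ {ξ} := by
        rw [hy2]
        refine sub_mem (sub_mem (mul_mem ?_ (pow_mem hξA 3))
          (mul_mem (Subalgebra.algebraMap_mem _ _) hξA)) (Subalgebra.algebraMap_mem _ _)
        exact ofNat_mem _ 4
      have h1 : IsAlgebraic (Algebra.adjoin ℂ {ξ}) (y ^ 2) :=
        isAlgebraic_algebraMap (⟨y ^ 2, hmem⟩ : Algebra.adjoin ℂ {ξ})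
      exact h1.of_pow (by norm_num)
    intro f
    have hf : f ∈ IntermediateField.adjoin ℂ {ξ, y} := by rw [hfg]; trivial
    induction hf using IntermediateField.adjoin_induction with
    | mem x hx =>
      rcases hx with rfl | hx
      · exact isAlgebraic_algebraMap (⟨ξ, hξA⟩ : Algebra.adjoin ℂ {ξ})
      · rw [Set.mem_singleton_iff.1 hx]; exact hyalg
    | algebraMap c =>
      exact isAlgebraic_algebraMap (⟨algebraMap ℂ (EF D P) c, Subalgebra.algebraMap_mem _ _⟩ :
        Algebra.adjoin ℂ {ξ})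
    | add x y _ _ hx hy => exact hx.add hy
    | inv x _ hx => exact hx.inv
    | mul x y _ _ hx hy => exact hx.mul hy
  refine ⟨EF D P, inferInstance, inferInstance, ⟨{
    ξ := ξ
    y := y
    h := h
    δ := elmDer W
    hξtr := ?_
    hy0 := ?_
    hδξ := rfl
    halg := halg
    hfg := hfg
    hh0 := ?_
    hroot := ?_
    hplace := ?_ }⟩⟩
  · -- transcendence
    intro hcon
    have h1 : IsAlgebraic ℂ P := by
      have := hcon.algebraMap (S := EF D P) (A := M)
      exact this
    have h2 := vz_zero_of_algebraic (D.ord 0) (A := ℂ) (D.ord_const 0) h1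
      (ne_zero_of_v_eq _ hP0)
    rw [vz_of_eq _ hP0] at h2
    norm_num at h2
  · intro h1
    exact (ell_dd W).1 (congrArg Subtype.val h1)
  · intro h1
    exact pow_ne_zero m hε0 (congrArg Subtype.val h1)
  · intro i q hq
    exact hεroot i q q.2 (congrArg Subtype.val hq)
  · intro w hw hnt
    obtain ⟨z, e, he, hwe, r, hr⟩ := ell_place W w hw hnt
    have hval0 : ∀ f : EF D P, f ≠ 0 → (f : M) ≠ 0 := fun f hf h1 => hf (Subtype.ext h1)
    have hnn : ∀ f : EF D P, 0 ≤ w f → 0 ≤ D.ord z (f : M) := by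
      intro f hf
      by_cases hf0 : f = 0
      · rw [hf0]; simp
      · rw [nonneg_iff _ (hval0 f hf0)]
        rw [nonneg_iff _ hf0, hwe f hf0] at hf
        exact nonneg_of_mul_nonneg_right hf he
    have hnn' : ∀ f : EF D P, 0 ≤ D.ord z (f : M) → 0 ≤ w f := by
      intro f hf
      by_cases hf0 : f = 0
      · rw [hf0]; simp
      · rw [nonneg_iff _ (hval0 f hf0)] at hf
        rw [nonneg_iff _ hf0, hwe f hf0]
        exact mul_nonneg he.le hf
    have hr0M : (r : M) ≠ 0 := by
      intro h1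
      rw [h1] at hr
      simp [vz] at hr
    have hr0 : r ≠ 0 := fun h1 => hr0M (by rw [h1]; rfl)
    refine ⟨?_, ?_, ⟨r, ?_, ?_⟩, ⟨r ^ vz (D.ord z) ε, zpow_ne_zero _ hr0, ?_⟩⟩
    · intro f hf
      obtain ⟨c, hc⟩ := D.resid z f (hnn f hf)
      refine ⟨c, ?_⟩
      by_cases h0 : f - algebraMap ℂ (EF D P) c = 0
      · rw [h0, AddValuation.map_zero]; exact WithTop.coe_lt_top 0
      · have hc' : 0 < D.ord z ((f - algebraMap ℂ (EF D P) c : EF D P) : M) := hc
        rw [pos_iff _ (hval0 _ h0)] at hc'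
        rw [pos_iff _ h0, hwe _ h0]
        exact mul_pos he hc'
    · intro f hf
      exact hnn' _ (D.ord_d' z f (hnn f hf))
    · rw [nonneg_iff _ hr0, hwe r hr0, hr]; omega
    · have h1 := D.ord_d z r hr0M (by rw [hr]; norm_num)
      have h2 : elmDer W r ≠ 0 := fun h3 => h1.1 (congrArg Subtype.val h3)
      rw [eq_zero_iff _ h2, hwe _ h2]
      have h4 : vz (D.ord z) ((elmDer W r : EF D P) : M) = 0 := by
        rw [elmDer_coe, h1.2, hr]; norm_num
      rw [h4, mul_zero]
    · have hh0 : h ≠ 0 := fun h1 => pow_ne_zero m hε0 (congrArg Subtype.val h1)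
      have h5 : vz (D.ord z) ((h : EF D P) : M) = m * vz (D.ord z) ε := vz_pow _ hε0 m
      rw [vz_zpow _ hr0, hwe r hr0, hr, hwe h hh0, h5]
      ring

end TriIdx
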