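import Pool.Agent.TriIdx.EllDefs

/-!
PROJECT TRI, module ELS (algebra with the interface `MerData`, no analysis).

PROOF of `ell_surj`. If no `z` has `0 < ord z (P - a)` then `f = (P - a)⁻¹` has nonnegative order
everywhere (at lattice points its order is `2`), is periodic, so is a constant `c` (`D.liou`), and
`0 < ord 0 f` forces `c = 0`, impossible. So there is `z`, off the lattice, with `0 < ord z (P - a)`.
Then `(P' - b) * (P' + b) = P' ^ 2 - b ^ 2 = 4 (P^3 - a^3) - g₂ (P - a)` has positive order at `z`,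
so `P' - b` or `P' + b` has positive order at `z`. In the second case use `-z`:
`D.ord_neg`, `neg P = P`, `neg P' = -P'` (`D.neg_d`).

PROOF of `ell_nonsing`. Suppose `4 a^3 - g₂ a - g₃ = 0` and `12 a^2 = g₂`. Then
`4 X^3 - g₂ X - g₃ = 4 (X - a)^2 (X + 2 a)`. Put `s = P' / (2 (P - a))`, so `s ^ 2 = P + 2 a`,
`s' = P' / (2 s) = P - a = s ^ 2 - 3 a`. Choose `k : ℂ` with `k ^ 2 = 3 a`, `g = s - k`:
`g' = g * (g + 2 k)`. At every `z`, if `n = vz (ord z) g > 0` then `g' ≠ 0` has order `n - 1` but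
`g * (g + 2 k)` has order at least `n`; so `ord z g ≤ 0` for all `z`, so `g⁻¹` is regular everywhere
and periodic, hence constant, hence `0` since its order at `0` is `1` (`ord 0 s = -1`).
-/

namespace TriIdx

variable {M : Type} [Field M] [Algebra ℂ M] {D : MerData M} {ω₁ ω₂ : ℂ} {P : M} {g₂ g₃ : ℂ}

theorem els_const_nonneg (D : MerData M) (z c : ℂ) : 0 ≤ D.ord z (algebraMap ℂ M c) := by
  by_cases hc : c = 0
  · rw [hc, map_zero, AddValuation.map_zero]
    exact le_top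
  · rw [D.ord_const z c hc]

/-- a periodic regular element with a zero vanishes -/
theorem els_zero (D : MerData M) (ω₁ ω₂ : ℂ) (hind : LinearIndependent ℝ ![ω₁, ω₂]) (f : M)
    (h1 : D.tr ω₁ f = f) (h2 : D.tr ω₂ f = f) (h : ∀ z, 0 ≤ D.ord z f) (z₀ : ℂ)
    (h0 : 0 < D.ord z₀ f) : f = 0 := by
  obtain ⟨c, hc⟩ := D.liou ω₁ ω₂ f hind h1 h2 h
  by_cases hc0 : c = 0
  · rw [hc, hc0, map_zero]
  · rw [hc, D.ord_const z₀ c hc0] at h0
    exact absurd h0 (lt_irrefl _)

theorem els_lat (W : WP D ω₁ ω₂ P g₂ g₃) (c z : ℂ) (hz : ∃ i j : ℤ, z = i * ω₁ + j * ω₂) :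
    D.ord z (P - algebraMap ℂ M c) = ((-2 : ℤ) : WithTop ℤ) := by
  have h1 := W.pole z hz
  have h2 : D.ord z P < D.ord z (algebraMap ℂ M c) := by
    refine lt_of_lt_of_le ?_ (els_const_nonneg D z c)
    rw [h1]
    exact_mod_cast (by norm_num : (-2 : ℤ) < 0)
  rw [AddValuation.map_sub_eq_of_lt_left _ h2, h1]

theorem els_zero_lat : ∃ i j : ℤ, (0 : ℂ) = i * ω₁ + j * ω₂ := ⟨0, 0, by simp⟩

theorem els_trQ₁ (W : WP D ω₁ ω₂ P g₂ g₃) : D.tr ω₁ (D.d P) = D.d P := by
  rw [D.tr_d, W.per₁]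

theorem els_trQ₂ (W : WP D ω₁ ω₂ P g₂ g₃) : D.tr ω₂ (D.d P) = D.d P := by
  rw [D.tr_d, W.per₂]

theorem ell_surj (W : WP D ω₁ ω₂ P g₂ g₃) (a b : ℂ) (hab : b ^ 2 = 4 * a ^ 3 - g₂ * a - g₃) :
    ∃ z : ℂ, (¬ ∃ i j : ℤ, z = i * ω₁ + j * ω₂) ∧ 0 < D.ord z (P - algebraMap ℂ M a) ∧
      0 < D.ord z (D.d P - algebraMap ℂ M b) := by
  have hPa0 : P - algebraMap ℂ M a ≠ 0 := ne_zero_of_v_eq (D.ord 0) (els_lat W a 0 els_zero_lat)
  obtain ⟨z, hz⟩ : ∃ z : ℂ, 0 < D.ord z (P - algebraMap ℂ M a) := by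
    by_contra hcon
    push Not at hcon
    have h1 : (P - algebraMap ℂ M a)⁻¹ = 0 := by
      apply els_zero D ω₁ ω₂ W.ind _ _ _ _ 0
      · rw [pos_iff _ (inv_ne_zero hPa0), vz_inv _ hPa0,
          vz_of_eq _ (els_lat W a 0 els_zero_lat)]
        norm_num
      · rw [map_inv₀, map_sub, AlgHom.commutes, W.per₁]
      · rw [map_inv₀, map_sub, AlgHom.commutes, W.per₂]
      · intro z
        rw [nonneg_iff _ (inv_ne_zero hPa0), vz_inv _ hPa0]
        have h2 := hcon z
        rw [v_eq _ hPa0] at h2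
        have h3 : vz (D.ord z) (P - algebraMap ℂ M a) ≤ 0 := by exact_mod_cast h2
        omega
    exact inv_ne_zero hPa0 h1
  have hzl : ¬ ∃ i j : ℤ, z = i * ω₁ + j * ω₂ := by
    intro hl
    rw [els_lat W a z hl] at hz
    have : (0 : ℤ) < -2 := by exact_mod_cast hz
    omega
  have hreg : 0 ≤ D.ord z P := W.reg z hzl
  have hprod : (D.d P - algebraMap ℂ M b) * (D.d P + algebraMap ℂ M b) =
      (P - algebraMap ℂ M a) * (4 * P ^ 2 + 4 * algebraMap ℂ M a * P +
        4 * algebraMap ℂ M a ^ 2 - algebraMap ℂ M g₂) := by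
    have h1 := W.eqn
    have h2 : (algebraMap ℂ M b) ^ 2 = 4 * (algebraMap ℂ M a) ^ 3 -
        algebraMap ℂ M g₂ * algebraMap ℂ M a - algebraMap ℂ M g₃ := by
      have h3 := congrArg (algebraMap ℂ M) hab
      have h4 : algebraMap ℂ M 4 = 4 := map_ofNat _ 4
      rw [map_pow, map_sub, map_sub, map_mul, map_mul, map_pow, h4] at h3
      exact h3
    linear_combination h1 - h2
  have hsec : 0 ≤ D.ord z (4 * P ^ 2 + 4 * algebraMap ℂ M a * P +
        4 * algebraMap ℂ M a ^ 2 - algebraMap ℂ M g₂) := by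
    have hP : P ∈ OV (D.ord z) := hreg
    have hc : ∀ c : ℂ, algebraMap ℂ M c ∈ OV (D.ord z) := fun c => els_const_nonneg D z c
    have h4 : (4 : M) ∈ OV (D.ord z) := by
      have h5 := hc 4
      rwa [map_ofNat] at h5
    exact (OV (D.ord z)).sub_mem ((OV (D.ord z)).add_mem ((OV (D.ord z)).add_mem
      ((OV (D.ord z)).mul_mem h4 ((OV (D.ord z)).pow_mem hP 2))
      ((OV (D.ord z)).mul_mem ((OV (D.ord z)).mul_mem h4 (hc a)) hP))
      ((OV (D.ord z)).mul_mem h4 ((OV (D.ord z)).pow_mem (hc a) 2))) (hc g₂)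
  have hpos : 0 < D.ord z (D.d P - algebraMap ℂ M b) + D.ord z (D.d P + algebraMap ℂ M b) := by
    rw [← AddValuation.map_mul, hprod, AddValuation.map_mul]
    exact add_pos_of_pos_of_nonneg hz hsec
  have hor : 0 < D.ord z (D.d P - algebraMap ℂ M b) ∨ 0 < D.ord z (D.d P + algebraMap ℂ M b) := by
    by_contra hcon
    push Not at hcon
    exact absurd hpos (not_lt.2 (add_nonpos hcon.1 hcon.2))
  rcases hor with h | h
  · exact ⟨z, hzl, hz, h⟩
  · refine ⟨-z, ?_, ?_, ?_⟩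
    · rintro ⟨i, j, hij⟩
      apply hzl
      refine ⟨-i, -j, ?_⟩
      push_cast
      linear_combination -hij
    · rw [← D.ord_neg, map_sub, AlgHom.commutes, W.even]
      exact hz
    · rw [← D.ord_neg, map_sub, AlgHom.commutes, D.neg_d, W.even]
      have h1 : - D.d P - algebraMap ℂ M b = -(D.d P + algebraMap ℂ M b) := by ring
      rw [h1, AddValuation.map_neg]
      exact h

theorem ell_nonsing (W : WP D ω₁ ω₂ P g₂ g₃) (a : ℂ) (ha : 4 * a ^ 3 - g₂ * a - g₃ = 0) :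
    12 * a ^ 2 - g₂ ≠ 0 := by
  intro hg
  have : CharZero M := charZero_of_injective_algebraMap (algebraMap ℂ M).injective
  set A : M := algebraMap ℂ M a with hA
  have hPa0 : P - A ≠ 0 := ne_zero_of_v_eq (D.ord 0) (els_lat W a 0 els_zero_lat)
  have hG2 : algebraMap ℂ M g₂ = 12 * A ^ 2 := by
    have h1 : g₂ = 12 * a ^ 2 := by linear_combination -hg
    rw [h1, map_mul, map_pow, map_ofNat]
  have hG3 : algebraMap ℂ M g₃ = - 8 * A ^ 3 := by
    have h1 : g₃ = - 8 * a ^ 3 := by linear_combination -ha + a * hg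
    rw [h1, map_mul, map_pow, map_neg, map_ofNat]
  have heqn : (D.d P) ^ 2 = 4 * (P - A) ^ 2 * (P + 2 * A) := by
    have h1 := W.eqn
    rw [hG2, hG3] at h1
    linear_combination h1
  set s : M := D.d P / (2 * (P - A)) with hs
  have hQs : D.d P = 2 * (P - A) * s := by
    rw [hs]
    field_simp
  have hs2 : s ^ 2 = P + 2 * A := by
    rw [hQs] at heqn
    have h1 : (4 * (P - A) ^ 2) * (s ^ 2) = (4 * (P - A) ^ 2) * (P + 2 * A) := by
      linear_combination heqn
    exact mul_left_cancel₀ (mul_ne_zero (by norm_num) (pow_ne_zero _ hPa0)) h1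
  have hs2v : D.ord 0 (s ^ 2) = ((-2 : ℤ) : WithTop ℤ) := by
    rw [hs2]
    have h1 := els_lat W (-2 * a) 0 els_zero_lat
    have h2 : P - algebraMap ℂ M (-2 * a) = P + 2 * A := by
      rw [map_mul, ← hA, map_neg, map_ofNat]
      ring
    rw [h2] at h1
    exact h1
  have hs0 : s ≠ 0 := by
    rintro h1
    have h2 := ne_zero_of_v_eq _ hs2v
    rw [h1] at h2
    exact h2 (by ring)
  have hsv : vz (D.ord 0) s = -1 := by
    have h1 := vz_of_eq _ hs2v
    rw [vz_pow _ hs0] at h1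
    push_cast at h1
    omega
  have hds : D.d s = s ^ 2 - 3 * A := by
    have h1 : D.d (s ^ 2) = D.d P := by
      rw [hs2, map_add]
      have h2 : D.d (2 * A) = 0 := by
        have h3 : (2 : M) * A = algebraMap ℂ M (2 * a) := by
          rw [map_mul, ← hA, map_ofNat]
        rw [h3]
        exact D.d.map_algebraMap _
      rw [h2, add_zero]
    have h2 : D.d (s ^ 2) = 2 * s * D.d s := by
      rw [Derivation.leibniz_pow]
      simp
      ring
    have h3 : (2 * s) * D.d s = (2 * s) * (P - A) := by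
      rw [← h2, h1, hQs]
      ring
    have h4 := mul_left_cancel₀ (mul_ne_zero (by norm_num) hs0) h3
    rw [h4, hs2]
    ring
  obtain ⟨k, hk⟩ := IsAlgClosed.exists_pow_nat_eq (3 * a) (n := 2) (by norm_num)
  set K : M := algebraMap ℂ M k with hK
  have hK2 : K ^ 2 = 3 * A := by
    rw [hK, ← map_pow, hk, map_mul, map_ofNat]
  set g : M := s - K with hgdef
  have hgv : D.ord 0 g = ((-1 : ℤ) : WithTop ℤ) := by
    have h1 : D.ord 0 s = ((-1 : ℤ) : WithTop ℤ) := by rw [v_eq _ hs0, hsv]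
    have h2 : D.ord 0 s < D.ord 0 K := by
      refine lt_of_lt_of_le ?_ (els_const_nonneg D 0 k)
      rw [h1]
      exact_mod_cast (by norm_num : (-1 : ℤ) < 0)
    rw [hgdef, AddValuation.map_sub_eq_of_lt_left _ h2, h1]
  have hg0 : g ≠ 0 := ne_zero_of_v_eq _ hgv
  have hdg : D.d g = g * (g + 2 * K) := by
    rw [hgdef, map_sub, hds]
    have h1 : D.d K = 0 := D.d.map_algebraMap _
    rw [h1]
    linear_combination hK2
  have hle : ∀ z : ℂ, vz (D.ord z) g ≤ 0 := by
    intro z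
    by_contra hcon
    push Not at hcon
    obtain ⟨h1, h2⟩ := D.ord_d z g hg0 hcon.ne'
    have h3 : g + 2 * K ≠ 0 := by
      intro h3
      rw [hdg, h3, mul_zero] at h1
      exact h1 rfl
    rw [hdg, vz_mul _ hg0 h3] at h2
    have h4 : 0 ≤ D.ord z (g + 2 * K) := by
      have h5 : (2 : M) * K = algebraMap ℂ M (2 * k) := by
        rw [map_mul, ← hK, map_ofNat]
      rw [h5]
      apply AddValuation.map_le_add
      · exact (nonneg_iff _ hg0).2 hcon.le
      · exact els_const_nonneg D z _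
    have h5 := (nonneg_iff _ h3).1 h4
    omega
  have htrs : ∀ ω : ℂ, D.tr ω P = P → D.tr ω (D.d P) = D.d P → D.tr ω g⁻¹ = g⁻¹ := by
    intro ω h1 h2
    rw [map_inv₀, hgdef, map_sub, hs, map_div₀, map_mul, map_sub, hA, hK, AlgHom.commutes,
      AlgHom.commutes, h1, h2, map_ofNat]
  have hfin := els_zero D ω₁ ω₂ W.ind g⁻¹ (htrs ω₁ W.per₁ (els_trQ₁ W))
    (htrs ω₂ W.per₂ (els_trQ₂ W)) (by
      intro z
      rw [nonneg_iff _ (inv_ne_zero hg0), vz_inv _ hg0]
      have := hle z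
      omega) 0 (by
      rw [pos_iff _ (inv_ne_zero hg0), vz_inv _ hg0, vz_of_eq _ hgv]
      norm_num)
  exact inv_ne_zero hg0 hfin

end TriIdx
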