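import Pool.Agent.TriIdx.EllDefs
import Pool.Agent.TriIdx.EllLC
import Pool.Agent.TriIdx.EllS
import Pool.Agent.TriIdx.EllF

/-!
PROJECT TRI, module ELP (algebra; import `EllLC`, `EllS`, `EllF` as black boxes).
Every nontrivial valuation of the field of elliptic functions is a multiple of the order at a point.

PROOF. `F = EF D P`, `p`, `y` the elements `P`, `P'` of `F`, `v z` the restriction of `D.ord z` to `F`
(`AddValuation.comap`). `y ^ 2 = 4 p ^ 3 - g₂ p - g₃`.
Case A, `0 ≤ w p`. There is `a : ℂ` with `0 < w (p - a)`: otherwise `w` is `0` on all nonzero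
polynomials in `p` (they split over `ℂ`), so trivial on `F`, which is algebraic over `ℂ[p]`
(see `vz_zero_of_algebraic'` in `Pool/Agent/TriIdx/Geo.lean` or `vz_zero_of_algebraic` in `Val`).
Take `b` with `b ^ 2 = 4 a ^ 3 - g₂ a - g₃`; `(y - b) * (y + b)` has positive value; change the sign of
`b` so that `0 < w (y - b)`. `ell_surj` gives `z` with the same centre for `v z`. Apply `local_comp`
with `α = ![p, y]`, `a = ![a, b]` and:
 if `b ≠ 0`: `r = p - a`, `s 0 = 1`, `q 0 = 1`, `s 1 = y + b`, `q 1 = 4 (p^2 + a p + a^2) - g₂`;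
 here `vz (v z) r = 1`: else `vz (v z) (d p) = vz - 1 ≥ 1`, but `d p = y` has residue `b ≠ 0`;
 if `b = 0`: `r = y`, `s 1 = 1`, `q 1 = 1`, `s 0 = 4 (p^2 + a p + a^2) - g₂` whose residue is
 `12 a^2 - g₂ ≠ 0` (`ell_nonsing`), `q 0 = y`; here `vz (v z) r = 1`: else the derivative
 `d y = 6 p^2 - g₂/2` (`ell_dd`) would have positive order, but its residue is `6 a^2 - g₂ / 2 ≠ 0`.
Case B, `w p < 0`. Then `2 w y = 3 w p`, `z = 0`, `α = ![p / y, 1 / y]`, `a = ![0, 0]`, `r = p / y`,
 `s 0 = q 0 = 1`, `s 1 = 1 + g₂ (p/y) (1/y) + g₃ (1/y)^2`, `q 1 = 4 (p/y)^2`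
 (divide the equation by `y ^ 3`). `vz (v 0) r = -2 + 3 = 1`.
In all cases `e = vz w r`.
-/

namespace TriIdx

section gen
variable {K : Type} [Field K] [Algebra ℂ K] (w : AddValuation K (WithTop ℤ))
  (hw : ∀ c : ℂ, c ≠ 0 → w (algebraMap ℂ K c) = 0)

include hw in
private theorem elp_c_nonneg (c : ℂ) : 0 ≤ w (algebraMap ℂ K c) := by
  by_cases h : c = 0
  · rw [h]; simp
  · rw [hw c h]

private theorem elp_mul_nonneg {x y : K} (hx : 0 ≤ w x) (hy : 0 ≤ w y) : 0 ≤ w (x * y) := by
  rw [AddValuation.map_mul]; exact add_nonneg hx hy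

private theorem elp_mul_pos {x y : K} (hx : 0 < w x) (hy : 0 ≤ w y) : 0 < w (x * y) := by
  rw [AddValuation.map_mul]; exact add_pos_of_pos_of_nonneg hx hy

private theorem elp_add_nonneg {x y : K} (hx : 0 ≤ w x) (hy : 0 ≤ w y) : 0 ≤ w (x + y) :=
  AddValuation.map_le_add w hx hy

include hw in
private theorem elp_unit {c : ℂ} (hc : c ≠ 0) {t : K} (ht : 0 < w t) :
    w (algebraMap ℂ K c + t) = 0 := by
  rw [AddValuation.map_add_eq_of_lt_left w (by rw [hw c hc]; exact ht), hw c hc]

private theorem elp_pow_nonneg {x : K} (hx : 0 ≤ w x) (n : ℕ) : 0 ≤ w (x ^ n) := by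
  induction n with
  | zero => simp
  | succ n ih => rw [pow_succ]; exact elp_mul_nonneg w ih hx

end gen

variable {M : Type} [Field M] [Algebra ℂ M] {D : MerData M} {ω₁ ω₂ : ℂ} {P : M} {g₂ g₃ : ℂ}

/-- the order at `z` on the field of elliptic functions -/
private noncomputable def vE (D : MerData M) (P : M) (z : ℂ) : AddValuation (EF D P) (WithTop ℤ) :=
  (D.ord z).comap (algebraMap (EF D P) M)

private theorem vE_apply (z : ℂ) (f : EF D P) : vE D P z f = D.ord z (f : M) := rfl

private theorem vz_vE (z : ℂ) (f : EF D P) : vz (vE D P z) f = vz (D.ord z) (f : M) := rfl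

private theorem vE_const (z : ℂ) (c : ℂ) (hc : c ≠ 0) :
    vE D P z (algebraMap ℂ (EF D P) c) = 0 := by
  rw [vE_apply]
  exact D.ord_const z c hc

private noncomputable def pE (D : MerData M) (P : M) : EF D P :=
  ⟨P, IntermediateField.subset_adjoin ℂ _ (Set.mem_insert _ _)⟩

private noncomputable def yE (D : MerData M) (P : M) : EF D P :=
  ⟨D.d P, IntermediateField.subset_adjoin ℂ _ (Set.mem_insert_of_mem _ rfl)⟩

private theorem pE_coe : ((pE D P : EF D P) : M) = P := rfl
private theorem yE_coe : ((yE D P : EF D P) : M) = D.d P := rfl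

private theorem eqnE (W : WP D ω₁ ω₂ P g₂ g₃) : (yE D P) ^ 2 = 4 * (pE D P) ^ 3 -
    algebraMap ℂ (EF D P) g₂ * pE D P - algebraMap ℂ (EF D P) g₃ := by
  apply Subtype.ext
  have := W.eqn
  push_cast
  exact this

private theorem genE {S : Set (EF D P)} (hp : pE D P ∈ IntermediateField.adjoin ℂ S)
    (hy : yE D P ∈ IntermediateField.adjoin ℂ S) : IntermediateField.adjoin ℂ S = ⊤ := by
  rw [eq_top_iff]
  rintro ⟨x, hx⟩ _
  refine IntermediateField.adjoin_induction ℂ
    (p := fun x hx => (⟨x, hx⟩ : EF D P) ∈ IntermediateField.adjoin ℂ S) ?_ ?_ ?_ ?_ ?_ hx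
  · intro x hx
    rcases hx with rfl | hx
    · exact hp
    · have : x = D.d P := hx
      subst this
      exact hy
  · intro c
    exact (IntermediateField.adjoin ℂ S).algebraMap_mem c
  · intro x y hx hy h1 h2
    exact add_mem h1 h2
  · intro x hx h1
    exact inv_mem h1
  · intro x y hx hy h1 h2
    exact mul_mem h1 h2

/-- conclusion from `local_comp` -/
private theorem concl (w : AddValuation (EF D P) (WithTop ℤ))
    (hw : ∀ c : ℂ, c ≠ 0 → w (algebraMap ℂ (EF D P) c) = 0) (z : ℂ)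
    (α : Fin 2 → EF D P) (a : Fin 2 → ℂ)
    (hgen : IntermediateField.adjoin ℂ (Set.range α) = ⊤)
    (hva : ∀ i, 0 < vE D P z (α i - algebraMap ℂ _ (a i)))
    (hwa : ∀ i, 0 < w (α i - algebraMap ℂ _ (a i)))
    (r : EF D P) (hr : r ∈ Algebra.adjoin ℂ (Set.range α)) (hr0 : r ≠ 0)
    (hvr : vz (D.ord z) (r : M) = 1) (hwr : 0 < w r)
    (s q : Fin 2 → EF D P) (hs : ∀ i, s i ∈ Algebra.adjoin ℂ (Set.range α))
    (hvs : ∀ i, vE D P z (s i) = 0) (hws : ∀ i, w (s i) = 0)
    (hq : ∀ i, q i ∈ Algebra.adjoin ℂ (Set.range α))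
    (hqs : ∀ i, s i * (α i - algebraMap ℂ _ (a i)) = r * q i) :
    ∃ (z : ℂ) (e : ℤ), 0 < e ∧ (∀ f : EF D P, f ≠ 0 → vz w f = e * vz (D.ord z) (f : M)) ∧
      ∃ r : EF D P, vz (D.ord z) (r : M) = 1 := by
  have hvr' : 0 < vE D P z r := by
    rw [pos_iff _ hr0, vz_vE, hvr]; norm_num
  refine ⟨z, vz w r, (pos_iff w hr0).1 hwr, fun f hf => ?_, r, hvr⟩
  have h := local_comp (vE D P z) w (vE_const z) hw α a hgen hva hwa r hr hr0 hvr' hwr s q hs
    hvs hws hq hqs f hf
  rw [vz_vE, vz_vE, hvr, mul_one] at h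
  rw [h]; ring

/-- value on nonzero polynomials -/
private theorem poly_val {K : Type} [Field K] [Algebra ℂ K] (w : AddValuation K (WithTop ℤ))
    (hw : ∀ c : ℂ, c ≠ 0 → w (algebraMap ℂ K c) = 0) (p : K)
    (h : ∀ a : ℂ, w (p - algebraMap ℂ _ a) = 0) (q : Polynomial ℂ) (hq : q ≠ 0) :
    w (Polynomial.aeval p q) = 0 := by
  have hs := (IsAlgClosed.splits q).eq_prod_roots
  have hm : ∀ R : Multiset ℂ, w (Polynomial.aeval p
      (R.map (fun a => Polynomial.X - Polynomial.C a)).prod) = 0 := by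
    intro R
    induction R using Multiset.induction_on with
    | empty => simp
    | cons a R ih =>
      rw [Multiset.map_cons, Multiset.prod_cons, map_mul, AddValuation.map_mul, ih, add_zero]
      rw [map_sub, Polynomial.aeval_X, Polynomial.aeval_C]
      exact h a
  rw [hs, map_mul, AddValuation.map_mul, hm, add_zero, Polynomial.aeval_C]
  exact hw _ (Polynomial.leadingCoeff_ne_zero.2 hq)

/-- all elements are algebraic over `ℂ[p]` -/
private theorem all_alg (W : WP D ω₁ ω₂ P g₂ g₃) (f : EF D P) :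
    IsAlgebraic (Algebra.adjoin ℂ {pE D P}) f := by
  have hpA : pE D P ∈ Algebra.adjoin ℂ {pE D P} := Algebra.subset_adjoin rfl
  have hp : IsAlgebraic (Algebra.adjoin ℂ {pE D P}) (pE D P) :=
    isAlgebraic_algebraMap (⟨pE D P, hpA⟩ : Algebra.adjoin ℂ {pE D P})
  have hc : ∀ c : ℂ, IsAlgebraic (Algebra.adjoin ℂ {pE D P}) (algebraMap ℂ (EF D P) c) := by
    intro c
    exact isAlgebraic_algebraMap (algebraMap ℂ (Algebra.adjoin ℂ {pE D P}) c)
  have hy : IsAlgebraic (Algebra.adjoin ℂ {pE D P}) (yE D P) := by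
    have h2 : IsAlgebraic (Algebra.adjoin ℂ {pE D P}) ((yE D P) ^ 2) := by
      rw [eqnE W]
      have h4 : (4 : EF D P) = algebraMap ℂ (EF D P) 4 := by rw [map_ofNat]
      rw [h4]
      exact (((hc 4).mul (hp.pow 3)).sub ((hc g₂).mul hp)).sub (hc g₃)
    exact IsAlgebraic.of_pow (by norm_num) h2
  obtain ⟨x, hx⟩ := f
  refine IntermediateField.adjoin_induction ℂ
    (p := fun x hx => IsAlgebraic (Algebra.adjoin ℂ {pE D P}) (⟨x, hx⟩ : EF D P)) ?_ ?_ ?_ ?_ ?_ hx
  · intro x hx
    rcases hx with rfl | hx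
    · exact hp
    · have : x = D.d P := hx
      subst this
      exact hy
  · intro c
    exact hc c
  · intro x y hx hy h1 h2
    exact h1.add h2
  · intro x hx h1
    exact h1.inv
  · intro x y hx hy h1 h2
    exact h1.mul h2

private theorem vz_zero_alg {A K : Type*} [CommRing A] [IsDomain A] [Field K] [Algebra A K]
    [FaithfulSMul A K] (v : AddValuation K (WithTop ℤ))
    (hA : ∀ a : A, a ≠ 0 → v (algebraMap A K a) = 0) {z : K} (hz : IsAlgebraic A z)
    (hz0 : z ≠ 0) : vz v z = 0 := by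
  have hA' : ∀ a : A, 0 ≤ v (algebraMap A K a) := by
    intro a
    by_cases ha : a = 0
    · rw [ha]; simp
    · rw [hA a ha]
  have key : ∀ w : K, w ≠ 0 → IsAlgebraic A w → 0 ≤ vz v w := by
    intro w hw0 hw
    obtain ⟨c, hc0, hc⟩ := hw.exists_integral_multiple
    have h1 := nonneg_of_integral v hA' hc
    rw [Algebra.smul_def, AddValuation.map_mul, hA c hc0, zero_add] at h1
    exact (nonneg_iff v hw0).1 h1
  have h1 := key z hz0 hz
  have h2 := key z⁻¹ (inv_ne_zero hz0) hz.inv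
  rw [vz_inv v hz0] at h2
  omega

/-- Step A1 -/
private theorem exists_a (W : WP D ω₁ ω₂ P g₂ g₃) (w : AddValuation (EF D P) (WithTop ℤ))
    (hw : ∀ c : ℂ, c ≠ 0 → w (algebraMap ℂ (EF D P) c) = 0)
    (hnt : ∃ f : EF D P, f ≠ 0 ∧ w f ≠ 0) (hp : 0 ≤ w (pE D P)) :
    ∃ a : ℂ, 0 < w (pE D P - algebraMap ℂ _ a) := by
  by_contra hcon
  push Not at hcon
  have h0 : ∀ a : ℂ, w (pE D P - algebraMap ℂ _ a) = 0 := by
    intro a
    refine le_antisymm (hcon a) ?_
    rw [sub_eq_add_neg, ← map_neg]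
    exact elp_add_nonneg w hp (elp_c_nonneg w hw _)
  obtain ⟨f, hf, hwf⟩ := hnt
  apply hwf
  rw [eq_zero_iff w hf]
  refine vz_zero_alg (A := Algebra.adjoin ℂ {pE D P}) w ?_ (all_alg W f) hf
  rintro ⟨x, hx⟩ hx0
  rw [Algebra.adjoin_singleton_eq_range_aeval] at hx
  obtain ⟨q, hq⟩ := hx
  have hq0 : q ≠ 0 := by
    rintro rfl
    apply hx0
    apply Subtype.ext
    show x = 0
    rw [← hq]
    simp
  have : w (Polynomial.aeval (pE D P) q) = 0 := poly_val w hw (pE D P) h0 q hq0
  have h3 : Polynomial.aeval (pE D P) q = x := hq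
  rw [h3] at this
  exact this

private theorem P_sub_ne (W : WP D ω₁ ω₂ P g₂ g₃) (a : ℂ) : P - algebraMap ℂ M a ≠ 0 := by
  intro h
  have h1 : P = algebraMap ℂ M a := sub_eq_zero.1 h
  have h2 := W.pole 0 ⟨0, 0, by simp⟩
  have h3 := elp_c_nonneg (D.ord 0) (D.ord_const 0) a
  rw [← h1, h2] at h3
  exact absurd h3 (by decide)

/-- Case A -/
private theorem caseA (W : WP D ω₁ ω₂ P g₂ g₃) (w : AddValuation (EF D P) (WithTop ℤ))
    (hw : ∀ c : ℂ, c ≠ 0 → w (algebraMap ℂ (EF D P) c) = 0)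
    (hnt : ∃ f : EF D P, f ≠ 0 ∧ w f ≠ 0) (hp : 0 ≤ w (pE D P)) :
    ∃ (z : ℂ) (e : ℤ), 0 < e ∧ (∀ f : EF D P, f ≠ 0 → vz w f = e * vz (D.ord z) (f : M)) ∧
      ∃ r : EF D P, vz (D.ord z) (r : M) = 1 := by
  obtain ⟨a, ha⟩ := exists_a W w hw hnt hp
  set p := pE D P with hpdef
  set y := yE D P with hydef
  set c := algebraMap ℂ (EF D P) with hc
  -- the factorisation
  have hfac : ∀ b : ℂ, b ^ 2 = 4 * a ^ 3 - g₂ * a - g₃ →
      (y + c b) * (y - c b) = (p - c a) * (4 * (p ^ 2 + c a * p + c a ^ 2) - c g₂) := by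
    intro b hb
    have h1 := eqnE (D := D) W
    have h2 : c b ^ 2 = 4 * c a ^ 3 - c g₂ * c a - c g₃ := by
      rw [← map_pow, hb, map_sub, map_sub, map_mul, map_mul, map_pow, map_ofNat]
    linear_combination h1 - h2
  have h4 : (4 : EF D P) = c 4 := by rw [hc, map_ofNat]
  have hq0 : 0 ≤ w (4 * (p ^ 2 + c a * p + c a ^ 2) - c g₂) := by
    rw [h4, sub_eq_add_neg, ← map_neg]
    refine elp_add_nonneg w (elp_mul_nonneg w (elp_c_nonneg w hw 4) ?_) (elp_c_nonneg w hw _)
    refine elp_add_nonneg w (elp_add_nonneg w (elp_pow_nonneg w hp 2)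
      (elp_mul_nonneg w (elp_c_nonneg w hw a) hp)) (elp_pow_nonneg w (elp_c_nonneg w hw a) 2)
  -- choice of b
  obtain ⟨b, hb, hyb⟩ : ∃ b : ℂ, b ^ 2 = 4 * a ^ 3 - g₂ * a - g₃ ∧ 0 < w (y - c b) := by
    obtain ⟨b, hb⟩ := IsAlgClosed.exists_pow_nat_eq (4 * a ^ 3 - g₂ * a - g₃) (n := 2) (by norm_num)
    have h1 : 0 < w ((y + c b) * (y - c b)) := by
      rw [hfac b hb]
      exact elp_mul_pos w ha hq0
    rw [AddValuation.map_mul] at h1
    by_cases h2 : 0 < w (y - c b)
    · exact ⟨b, hb, h2⟩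
    · refine ⟨-b, by rw [neg_sq]; exact hb, ?_⟩
      rw [map_neg, sub_neg_eq_add]
      by_contra h3
      push Not at h2 h3
      have h5 := add_le_add h3 h2
      rw [add_zero] at h5
      exact absurd h1 (not_lt.2 h5)
  obtain ⟨z, hz, hza, hzb⟩ := ell_surj W a b hb
  have hvp : 0 < vE D P z (p - c a) := hza
  have hvy : 0 < vE D P z (y - c b) := hzb
  have hgen : IntermediateField.adjoin ℂ (Set.range ![p, y]) = ⊤ := by
    apply genE
    · exact IntermediateField.subset_adjoin ℂ _ ⟨0, rfl⟩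
    · exact IntermediateField.subset_adjoin ℂ _ ⟨1, rfl⟩
  have hpA : p ∈ Algebra.adjoin ℂ (Set.range ![p, y]) := Algebra.subset_adjoin ⟨0, rfl⟩
  have hyA : y ∈ Algebra.adjoin ℂ (Set.range ![p, y]) := Algebra.subset_adjoin ⟨1, rfl⟩
  have hcA : ∀ x : ℂ, c x ∈ Algebra.adjoin ℂ (Set.range ![p, y]) := fun x =>
    Subalgebra.algebraMap_mem _ x
  have hqA : 4 * (p ^ 2 + c a * p + c a ^ 2) - c g₂ ∈ Algebra.adjoin ℂ (Set.range ![p, y]) := by
    rw [h4]
    exact sub_mem (mul_mem (hcA 4) (add_mem (add_mem (pow_mem hpA 2) (mul_mem (hcA a) hpA))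
      (pow_mem (hcA a) 2))) (hcA g₂)
  by_cases hb0 : b = 0
  · -- b = 0
    have hns : 12 * a ^ 2 - g₂ ≠ 0 := by
      apply ell_nonsing W a
      rw [← hb, hb0]; norm_num
    obtain ⟨hd0, hdd⟩ := ell_dd W
    have hy0 : y ≠ 0 := by
      intro h
      apply hd0
      have := congrArg (fun x : EF D P => (x : M)) h
      exact this
    -- the unit
    have hunit : ∀ u : AddValuation (EF D P) (WithTop ℤ), (∀ x : ℂ, x ≠ 0 → u (c x) = 0) →
        0 < u (p - c a) → u (4 * (p ^ 2 + c a * p + c a ^ 2) - c g₂) = 0 := by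
      intro u hu hua
      have e1 : 4 * (p ^ 2 + c a * p + c a ^ 2) - c g₂ = c (12 * a ^ 2 - g₂) +
          (p - c a) * (4 * ((p - c a) + c (3 * a))) := by
        rw [map_sub, map_mul, map_pow, map_mul]
        have e12 : c 12 = 12 := by rw [hc, map_ofNat]
        have e3 : c 3 = 3 := by rw [hc, map_ofNat]
        rw [e12, e3]; ring
      rw [e1]
      refine elp_unit u hu hns (elp_mul_pos u hua ?_)
      rw [h4]
      exact elp_mul_nonneg u (elp_c_nonneg u hu 4) (elp_add_nonneg u hua.le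
        (elp_c_nonneg u hu _))
    have hvr : vz (D.ord z) ((y : EF D P) : M) = 1 := by
      have hyM : ((y : EF D P) : M) = D.d P := rfl
      rw [hyM]
      have hpos : 0 < D.ord z (D.d P) := by
        have := hzb
        rw [hb0, map_zero, sub_zero] at this
        exact this
      have hpos' := (pos_iff (D.ord z) hd0).1 hpos
      obtain ⟨h5, h6⟩ := D.ord_d z (D.d P) hd0 (by omega)
      have h7 : D.ord z (D.d (D.d P)) = 0 := by
        have hns2 : 6 * a ^ 2 - g₂ / 2 ≠ 0 := by
          intro h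
          apply hns
          linear_combination 2 * h
        have e1 : D.d (D.d P) = algebraMap ℂ M (6 * a ^ 2 - g₂ / 2) +
            (P - algebraMap ℂ M a) * (6 * ((P - algebraMap ℂ M a) + algebraMap ℂ M (2 * a))) := by
          rw [hdd, map_sub, map_mul, map_pow, map_mul]
          have e6 : algebraMap ℂ M 6 = 6 := by rw [map_ofNat]
          have e2 : algebraMap ℂ M 2 = 2 := by rw [map_ofNat]
          rw [e6, e2]; ring
        rw [e1]
        refine elp_unit (D.ord z) (D.ord_const z) hns2 (elp_mul_pos _ hza ?_)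
        have e6 : (6 : M) = algebraMap ℂ M 6 := by rw [map_ofNat]
        rw [e6]
        exact elp_mul_nonneg _ (elp_c_nonneg _ (D.ord_const z) 6) (elp_add_nonneg _ hza.le
          (elp_c_nonneg _ (D.ord_const z) _))
      have h8 := (eq_zero_iff (D.ord z) h5).1 h7
      omega
    have hyw : 0 < w y := by
      have := hyb
      rw [hb0, map_zero, sub_zero] at this
      exact this
    refine concl w hw z ![p, y] ![a, 0] hgen ?_ ?_ y hyA hy0 hvr hyw
      ![4 * (p ^ 2 + c a * p + c a ^ 2) - c g₂, 1] ![y, 1] ?_ ?_ ?_ ?_ ?_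
    · intro i
      fin_cases i
      · exact hvp
      · simp only [Fin.mk_one, Matrix.cons_val_one, Matrix.cons_val_fin_one]
        rw [hb0] at hvy
        exact hvy
    · intro i
      fin_cases i
      · exact ha
      · simp only [Fin.mk_one, Matrix.cons_val_one, Matrix.cons_val_fin_one]
        rw [hb0] at hyb
        exact hyb
    · intro i
      fin_cases i
      · exact hqA
      · exact one_mem _
    · intro i
      fin_cases i
      · exact hunit (vE D P z) (vE_const z) hvp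
      · exact AddValuation.map_one _
    · intro i
      fin_cases i
      · exact hunit w hw ha
      · exact AddValuation.map_one _
    · intro i
      fin_cases i
      · exact hyA
      · exact one_mem _
    · intro i
      fin_cases i
      · simp only [Fin.zero_eta, Matrix.cons_val_zero]
        have := hfac b hb
        rw [hb0, map_zero, add_zero, sub_zero] at this
        rw [this]; ring
      · simp only [Fin.mk_one, Matrix.cons_val_one, Matrix.cons_val_fin_one, map_zero, sub_zero]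
        ring
  · -- b ≠ 0
    have h2b : (2 * b : ℂ) ≠ 0 := mul_ne_zero two_ne_zero hb0
    have hunit : ∀ u : AddValuation (EF D P) (WithTop ℤ), (∀ x : ℂ, x ≠ 0 → u (c x) = 0) →
        0 < u (y - c b) → u (y + c b) = 0 := by
      intro u hu hub
      have e1 : y + c b = c (2 * b) + (y - c b) := by
        rw [map_mul]
        have e2 : c 2 = 2 := by rw [hc, map_ofNat]
        rw [e2]; ring
      rw [e1]
      exact elp_unit u hu h2b hub
    have hr0 : p - c a ≠ 0 := by
      intro h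
      apply P_sub_ne W a
      have := congrArg (fun x : EF D P => (x : M)) h
      exact this
    have hvr : vz (D.ord z) ((p - c a : EF D P) : M) = 1 := by
      have hyM : ((p - c a : EF D P) : M) = P - algebraMap ℂ M a := rfl
      rw [hyM]
      have hne := P_sub_ne W a
      have hpos' := (pos_iff (D.ord z) hne).1 hza
      obtain ⟨h5, h6⟩ := D.ord_d z (P - algebraMap ℂ M a) hne (by omega)
      have h7 : D.ord z (D.d (P - algebraMap ℂ M a)) = 0 := by
        rw [map_sub, Derivation.map_algebraMap, sub_zero]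
        have e1 : D.d P = algebraMap ℂ M b + (D.d P - algebraMap ℂ M b) := by ring
        rw [e1]
        exact elp_unit (D.ord z) (D.ord_const z) hb0 hzb
      have h8 := (eq_zero_iff (D.ord z) h5).1 h7
      omega
    refine concl w hw z ![p, y] ![a, b] hgen ?_ ?_ (p - c a) (sub_mem hpA (hcA a)) hr0 hvr ha
      ![1, y + c b] ![1, 4 * (p ^ 2 + c a * p + c a ^ 2) - c g₂] ?_ ?_ ?_ ?_ ?_
    · intro i
      fin_cases i
      · exact hvp
      · exact hvy
    · intro i
      fin_cases i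
      · exact ha
      · exact hyb
    · intro i
      fin_cases i
      · exact one_mem _
      · exact add_mem hyA (hcA b)
    · intro i
      fin_cases i
      · exact AddValuation.map_one _
      · exact hunit (vE D P z) (vE_const z) hvy
    · intro i
      fin_cases i
      · exact AddValuation.map_one _
      · exact hunit w hw hyb
    · intro i
      fin_cases i
      · exact one_mem _
      · exact hqA
    · intro i
      fin_cases i
      · simp only [Fin.zero_eta, Matrix.cons_val_zero]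
        ring
      · exact hfac b hb

/-- Case B -/
private theorem caseB (W : WP D ω₁ ω₂ P g₂ g₃) (w : AddValuation (EF D P) (WithTop ℤ))
    (hw : ∀ c : ℂ, c ≠ 0 → w (algebraMap ℂ (EF D P) c) = 0) (hp : w (pE D P) < 0) :
    ∃ (z : ℂ) (e : ℤ), 0 < e ∧ (∀ f : EF D P, f ≠ 0 → vz w f = e * vz (D.ord z) (f : M)) ∧
      ∃ r : EF D P, vz (D.ord z) (r : M) = 1 := by
  set p := pE D P with hpdef
  set y := yE D P with hydef
  set c := algebraMap ℂ (EF D P) with hc
  obtain ⟨hd0, _⟩ := ell_dd W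
  have hy0 : y ≠ 0 := by
    intro h
    apply hd0
    have := congrArg (fun x : EF D P => (x : M)) h
    exact this
  have hp0 : p ≠ 0 := by
    rintro h
    rw [h] at hp
    simp at hp
  have hP0 : P ≠ 0 := by
    intro h
    apply hp0
    apply Subtype.ext
    exact h
  have hkey : ∀ u : AddValuation (EF D P) (WithTop ℤ), (∀ x : ℂ, x ≠ 0 → u (c x) = 0) →
      vz u p < 0 → 2 * vz u y = 3 * vz u p := by
    intro u hu hup
    have hu1 : u p = ((vz u p : ℤ) : WithTop ℤ) := v_eq u hp0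
    have h4 : (4 : EF D P) = c 4 := by rw [hc, map_ofNat]
    have h40 : c 4 ≠ 0 := by rw [← h4]; norm_num
    have h1 : vz u (c 4 * p ^ 3) = 3 * vz u p := by
      rw [vz_mul u h40 (pow_ne_zero 3 hp0), vz_pow u hp0]
      have := (eq_zero_iff u h40).1 (hu 4 (by norm_num))
      rw [this]; push_cast; ring
    have h2 : u (c 4 * p ^ 3) = ((3 * vz u p : ℤ) : WithTop ℤ) := by
      rw [v_eq u (mul_ne_zero h40 (pow_ne_zero 3 hp0)), h1]
    have h3 : ((vz u p : ℤ) : WithTop ℤ) ≤ u (-(c g₂ * p) - c g₃) := by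
      rw [sub_eq_add_neg]
      refine AddValuation.map_le_add u ?_ ?_
      · rw [AddValuation.map_neg, AddValuation.map_mul, ← hu1]
        exact le_add_of_nonneg_left (elp_c_nonneg u hu g₂)
      · rw [AddValuation.map_neg]
        refine le_trans ?_ (elp_c_nonneg u hu g₃)
        have : ((vz u p : ℤ) : WithTop ℤ) ≤ ((0 : ℤ) : WithTop ℤ) := by exact_mod_cast hup.le
        exact this
    have h5 : u (y ^ 2) = ((3 * vz u p : ℤ) : WithTop ℤ) := by
      have e1 : y ^ 2 = c 4 * p ^ 3 + (-(c g₂ * p) - c g₃) := by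
        have := eqnE (D := D) W
        rw [← h4]
        linear_combination this
      rw [e1, AddValuation.map_add_eq_of_lt_left u, h2]
      rw [h2]
      refine lt_of_lt_of_le ?_ h3
      have : 3 * vz u p < vz u p := by omega
      exact_mod_cast this
    have h6 := vz_of_eq u h5
    rw [vz_pow u hy0] at h6
    push_cast at h6
    exact h6
  have hwk : vz w p < 0 := by
    by_contra h
    push Not at h
    have := (nonneg_iff w hp0).2 h
    exact absurd hp (not_lt.2 this)
  have hv0 : vz (D.ord 0) P = -2 := vz_of_eq _ (W.pole 0 ⟨0, 0, by simp⟩)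
  have hvk : vz (vE D P 0) p = -2 := hv0
  have hpos : ∀ u : AddValuation (EF D P) (WithTop ℤ), (∀ x : ℂ, x ≠ 0 → u (c x) = 0) →
      vz u p < 0 → 0 < u (p / y) ∧ 0 < u (1 / y) := by
    intro u hu hup
    have h1 := hkey u hu hup
    constructor
    · rw [pos_iff u (div_ne_zero hp0 hy0), vz_div u hp0 hy0]
      omega
    · rw [pos_iff u (div_ne_zero one_ne_zero hy0), vz_div u one_ne_zero hy0, vz_one]
      omega
  obtain ⟨hw1, hw2⟩ := hpos w hw hwk
  obtain ⟨hv1, hv2⟩ := hpos (vE D P 0) (vE_const 0) (by omega)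
  have hunit : ∀ u : AddValuation (EF D P) (WithTop ℤ), (∀ x : ℂ, x ≠ 0 → u (c x) = 0) →
      0 < u (p / y) → 0 < u (1 / y) →
      u (1 + (c g₂ * (p / y) * (1 / y) + c g₃ * (1 / y) ^ 2)) = 0 := by
    intro u hu h1 h2
    have e1 : (1 : EF D P) = c 1 := by rw [hc, map_one]
    conv_lhs => rw [show (1 + (c g₂ * (p / y) * (1 / y) + c g₃ * (1 / y) ^ 2) : EF D P) =
      c 1 + ((p / y) * (c g₂ * (1 / y)) + (1 / y) * (c g₃ * (1 / y))) by rw [← e1]; ring]
    refine elp_unit u hu one_ne_zero (AddValuation.map_lt_add u ?_ ?_)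
    · exact elp_mul_pos u h1 (elp_mul_nonneg u (elp_c_nonneg u hu g₂) h2.le)
    · exact elp_mul_pos u h2 (elp_mul_nonneg u (elp_c_nonneg u hu g₃) h2.le)
  have hm1 : p / y ∈ IntermediateField.adjoin ℂ (Set.range ![p / y, 1 / y]) :=
    IntermediateField.subset_adjoin ℂ _ ⟨0, rfl⟩
  have hm2 : 1 / y ∈ IntermediateField.adjoin ℂ (Set.range ![p / y, 1 / y]) :=
    IntermediateField.subset_adjoin ℂ _ ⟨1, rfl⟩
  have hgen : IntermediateField.adjoin ℂ (Set.range ![p / y, 1 / y]) = ⊤ := by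
    apply genE
    · have := div_mem hm1 hm2
      have e : p / y / (1 / y) = p := by field_simp
      rw [e] at this
      exact this
    · have h := inv_mem hm2
      have e : (1 / y)⁻¹ = y := by rw [one_div, inv_inv]
      rw [e] at h
      exact h
  have hA1 : p / y ∈ Algebra.adjoin ℂ (Set.range ![p / y, 1 / y]) :=
    Algebra.subset_adjoin ⟨0, rfl⟩
  have hA2 : 1 / y ∈ Algebra.adjoin ℂ (Set.range ![p / y, 1 / y]) :=
    Algebra.subset_adjoin ⟨1, rfl⟩
  have hcA : ∀ x : ℂ, c x ∈ Algebra.adjoin ℂ (Set.range ![p / y, 1 / y]) := fun x =>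
    Subalgebra.algebraMap_mem _ x
  have h4 : (4 : EF D P) = c 4 := by rw [hc, map_ofNat]
  have hvr : vz (D.ord 0) ((p / y : EF D P) : M) = 1 := by
    have h1 := hkey (vE D P 0) (vE_const 0) (by omega)
    have h2 : vz (vE D P 0) (p / y) = vz (vE D P 0) p - vz (vE D P 0) y := vz_div _ hp0 hy0
    rw [vz_vE] at h2
    rw [h2]; omega
  refine concl w hw 0 ![p / y, 1 / y] ![0, 0] hgen ?_ ?_ (p / y) hA1 (div_ne_zero hp0 hy0) hvr hw1
    ![1, 1 + (c g₂ * (p / y) * (1 / y) + c g₃ * (1 / y) ^ 2)] ![1, 4 * (p / y) ^ 2] ?_ ?_ ?_ ?_ ?_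
  · intro i
    fin_cases i
    · simp only [Fin.zero_eta, Matrix.cons_val_zero, map_zero, sub_zero]
      exact hv1
    · simp only [Fin.mk_one, Matrix.cons_val_one, Matrix.cons_val_fin_one, map_zero, sub_zero]
      exact hv2
  · intro i
    fin_cases i
    · simp only [Fin.zero_eta, Matrix.cons_val_zero, map_zero, sub_zero]
      exact hw1
    · simp only [Fin.mk_one, Matrix.cons_val_one, Matrix.cons_val_fin_one, map_zero, sub_zero]
      exact hw2
  · intro i
    fin_cases i
    · exact one_mem _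
    · exact add_mem (one_mem _) (add_mem (mul_mem (mul_mem (hcA g₂) hA1) hA2)
        (mul_mem (hcA g₃) (pow_mem hA2 2)))
  · intro i
    fin_cases i
    · exact AddValuation.map_one _
    · exact hunit (vE D P 0) (vE_const 0) hv1 hv2
  · intro i
    fin_cases i
    · exact AddValuation.map_one _
    · exact hunit w hw hw1 hw2
  · intro i
    fin_cases i
    · exact one_mem _
    · have : 4 * (p / y) ^ 2 ∈ Algebra.adjoin ℂ (Set.range ![p / y, 1 / y]) := by
        rw [h4]; exact mul_mem (hcA 4) (pow_mem hA1 2)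
      exact this
  · intro i
    fin_cases i
    · simp only [Fin.zero_eta, Matrix.cons_val_zero, map_zero, sub_zero]
      ring
    · simp only [Fin.mk_one, Matrix.cons_val_one, Matrix.cons_val_fin_one, map_zero, sub_zero]
      have := eqnE (D := D) W
      have e1 : y ^ 2 = 4 * p ^ 3 - c g₂ * p - c g₃ := this
      field_simp
      linear_combination e1

theorem ell_place (W : WP D ω₁ ω₂ P g₂ g₃) (w : AddValuation (EF D P) (WithTop ℤ))
    (hw : ∀ c : ℂ, c ≠ 0 → w (algebraMap ℂ (EF D P) c) = 0)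
    (hnt : ∃ f : EF D P, f ≠ 0 ∧ w f ≠ 0) :
    ∃ (z : ℂ) (e : ℤ), 0 < e ∧ (∀ f : EF D P, f ≠ 0 → vz w f = e * vz (D.ord z) (f : M)) ∧
      ∃ r : EF D P, vz (D.ord z) (r : M) = 1 := by
  by_cases hp : 0 ≤ w (pE D P)
  · exact caseA W w hw hnt hp
  · exact caseB W w hw (not_le.1 hp)

end TriIdx
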