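import Pool.Agent.TriIdx.Main

/-!
Universal indices.
-/

namespace TriIdx

/-- `I K_X ∼ 0` for all projective varieties `X` over `ℂ` of dimension `n + 1` with canonical
singularities and torsion canonical class. -/
def UniversalIndex (n I : ℕ) : Prop :=
  ∀ (K : Type) [Field K] [Algebra ℂ K] (ι : Type) [Finite ι] [Nonempty ι] (f : ι → K),
    IsModel n f → CanonicalTorsion n f → IsIndex n f I

theorem universal_dvd (n : ℕ) (hn : 2 ≤ n) (I : ℕ) (hI : UniversalIndex n I) (m : ℕ)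
    (h1 : syl n - 1 < m) (h2 : m ≤ 2 * (syl n - 1)) : m ∣ I := by
  obtain ⟨K, _, _, f, hf, hc, hi⟩ := exists_variety n hn m h1 h2
  exact (hi I).1 (hI K (FI n) f hf hc)

theorem growth (n : ℕ) (hn : 2 ≤ n) (I : ℕ) (hI0 : 0 < I)
    (h : ∀ m, syl n - 1 < m → m ≤ 2 * (syl n - 1) → m ∣ I) :
    2 ^ (syl n - 1) ≤ I ∧ 2 ^ 2 ^ 2 ^ (n - 1) ≤ I := by
  have h1 := syl_ge n (by omega)
  have h2 : 2 ^ 2 ^ (n - 1) ≤ syl n - 1 := by omega
  have h3 : 0 < syl n - 1 := lt_of_lt_of_le (by positivity) h2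
  have h4 := four_pow_le (syl n - 1) I h3 hI0 h
  have h5 : 2 ^ (syl n - 1) ≤ I := by
    generalize syl n - 1 = N at h3 h4
    have h6 : 2 * N ≤ 2 ^ N := by
      clear h4
      induction N, h3 using Nat.le_induction with
      | base => norm_num
      | succ k hk ih =>
        have : 2 ≤ 2 ^ k := by
          calc 2 = 2 ^ 1 := by norm_num
            _ ≤ 2 ^ k := Nat.pow_le_pow_right (by norm_num) hk
        rw [pow_succ]; omega
    have h7 : 2 ^ N * 2 ^ N ≤ 2 ^ N * I := by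
      calc 2 ^ N * 2 ^ N = 4 ^ N := by rw [← mul_pow]; norm_num
        _ ≤ 2 * N * I := h4
        _ ≤ 2 ^ N * I := Nat.mul_le_mul_right _ h6
    exact Nat.le_of_mul_le_mul_left h7 (by positivity)
  exact ⟨h5, le_trans (Nat.pow_le_pow_right (by norm_num) h2) h5⟩

theorem lcm_dvd (n : ℕ) (I : ℕ)
    (h : ∀ m, syl n - 1 < m → m ≤ 2 * (syl n - 1) → m ∣ I) :
    (Finset.Icc 1 (2 * (syl n - 1))).lcm id ∣ I := by
  apply Finset.lcm_dvd
  intro j hj
  rw [Finset.mem_Icc] at hj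
  exact all_dvd (syl n - 1) I h j (by omega) hj.2

end TriIdx
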