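import Pool.Agent.TriIdx.Res
import Pool.Agent.TriIdx.Defs

/-!
The residue field of a valuation trivial on `ℂ`, and elements with residues algebraic over given
ones.
-/

namespace TriIdx

variable {K : Type*} [Field K] [Algebra ℂ K] (v : AddValuation K (WithTop ℤ))
  (hC : ∀ c : ℂ, c ≠ 0 → v (algebraMap ℂ K c) = 0)

/-- valuation ring as a subalgebra -/
def OA : Subalgebra ℂ K where
  carrier := {x | 0 ≤ v x}
  mul_mem' := by
    intro a b ha hb
    exact (OV v).mul_mem ha hb
  add_mem' := by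
    intro a b ha hb
    exact (OV v).add_mem ha hb
  algebraMap_mem' := by
    intro c
    show 0 ≤ v (algebraMap ℂ K c)
    by_cases h : c = 0
    · rw [h, map_zero]; simp
    · rw [hC c h]

theorem mem_OA {x : K} : x ∈ OA v hC ↔ 0 ≤ v x := Iff.rfl

/-- maximal ideal -/
def mA : Ideal (OA v hC) where
  carrier := {x | 0 < v (x : K)}
  add_mem' := by
    intro a b ha hb
    exact AddValuation.map_lt_add v ha hb
  zero_mem' := by
    show 0 < v ((0 : OA v hC) : K)
    simp
  smul_mem' := by
    intro c x hx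
    have hc : 0 ≤ v (c : K) := c.2
    have hx' : 0 < v (x : K) := hx
    show 0 < v ((c : K) * (x : K))
    rw [AddValuation.map_mul]
    exact lt_of_lt_of_le hx' (le_add_of_nonneg_left hc)

theorem mem_mA {x : OA v hC} : x ∈ mA v hC ↔ 0 < v (x : K) := Iff.rfl

instance mA_max : (mA v hC).IsMaximal := by
  rw [Ideal.isMaximal_iff]
  constructor
  · rw [mem_mA]
    have : (((1 : OA v hC)) : K) = 1 := rfl
    rw [this, AddValuation.map_one]
    exact lt_irrefl _
  · intro J x hJ hx hxJ
    rw [mem_mA] at hx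
    have hx0 : 0 ≤ v (x : K) := x.2
    have hxe : v (x : K) = 0 := le_antisymm (not_lt.1 hx) hx0
    have hxn : (x : K) ≠ 0 := by
      intro h; rw [h, AddValuation.map_zero] at hxe; exact absurd hxe (by simp)
    have hinv : (x : K)⁻¹ ∈ OA v hC := by
      rw [mem_OA, nonneg_iff v (inv_ne_zero hxn), vz_inv v hxn]
      have := (eq_zero_iff v hxn).1 hxe
      omega
    have : (1 : OA v hC) = ⟨(x : K)⁻¹, hinv⟩ * x := by
      apply Subtype.ext
      show (1 : K) = (x : K)⁻¹ * (x : K)
      rw [inv_mul_cancel₀ hxn]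
    rw [this]
    exact J.mul_mem_left _ hxJ

/-- the residue field -/
abbrev kap := OA v hC ⧸ mA v hC

noncomputable instance : Field (kap v hC) := Ideal.Quotient.field _

/-- residue map -/
noncomputable def res : OA v hC →ₐ[ℂ] kap v hC := Ideal.Quotient.mkₐ ℂ (mA v hC)

theorem res_eq_zero {x : OA v hC} : res v hC x = 0 ↔ 0 < v (x : K) := by
  rw [← mem_mA]
  exact Ideal.Quotient.eq_zero_iff_mem

theorem rindep_nonneg {ι : Type*} {z : ι → K} (hz : Rindep v z) (i : ι) : v (z i) = 0 := by
  have := hz (MvPolynomial.X i) (MvPolynomial.X_ne_zero i)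
  rwa [MvPolynomial.aeval_X] at this

theorem rindep_iff {ι : Type*} (z : ι → OA v hC) :
    Rindep v (fun i => (z i : K)) ↔ AlgebraicIndependent ℂ (fun i => res v hC (z i)) := by
  have key : ∀ P : MvPolynomial ι ℂ, MvPolynomial.aeval (fun i => res v hC (z i)) P
      = res v hC (MvPolynomial.aeval z P) := by
    intro P
    have h1 : (MvPolynomial.aeval fun i => res v hC (z i))
        = (res v hC).comp (MvPolynomial.aeval z) := by
      apply MvPolynomial.algHom_ext; intro i; simp
    rw [h1]; rfl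
  have key2 : ∀ P : MvPolynomial ι ℂ, ((MvPolynomial.aeval z P : OA v hC) : K)
      = MvPolynomial.aeval (fun i => (z i : K)) P := by
    intro P
    have h1 : ((OA v hC).val.comp (MvPolynomial.aeval z)) = MvPolynomial.aeval
        (fun i => (z i : K)) := by
      apply MvPolynomial.algHom_ext; intro i; simp
    exact DFunLike.congr_fun h1 P
  rw [algebraicIndependent_iff]
  constructor
  · intro h P hP
    by_contra hne
    rw [key, res_eq_zero, key2, h P hne] at hP
    exact lt_irrefl _ hP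
  · intro h P hP
    rw [← key2]
    apply le_antisymm _ (MvPolynomial.aeval z P).2
    rw [← not_lt, ← res_eq_zero, ← key]
    intro h0
    exact hP (h P h0)

/-- elements with residue algebraic over the residues of `w` -/
def AR {ι : Type*} (w : ι → OA v hC) (a : K) : Prop :=
  ∃ h : a ∈ OA v hC, IsAlgebraic (Algebra.adjoin ℂ (Set.range fun i => res v hC (w i)))
    (res v hC ⟨a, h⟩)

section AR

variable {v hC} {ι : Type*} {w : ι → OA v hC}

theorem AR.mul {a b : K} (ha : AR v hC w a) (hb : AR v hC w b) : AR v hC w (a * b) := by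
  obtain ⟨h, ha⟩ := ha
  obtain ⟨h', hb⟩ := hb
  refine ⟨(OA v hC).mul_mem h h', ?_⟩
  have : (⟨a * b, (OA v hC).mul_mem h h'⟩ : OA v hC) = ⟨a, h⟩ * ⟨b, h'⟩ := rfl
  rw [this, map_mul]
  exact ha.mul hb

theorem AR.add {a b : K} (ha : AR v hC w a) (hb : AR v hC w b) : AR v hC w (a + b) := by
  obtain ⟨h, ha⟩ := ha
  obtain ⟨h', hb⟩ := hb
  refine ⟨(OA v hC).add_mem h h', ?_⟩
  have : (⟨a + b, (OA v hC).add_mem h h'⟩ : OA v hC) = ⟨a, h⟩ + ⟨b, h'⟩ := rfl
  rw [this, map_add]
  exact ha.add hb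

theorem AR.of_pos {a : K} (ha : 0 < v a) : AR v hC w a := by
  have h : a ∈ OA v hC := ha.le
  refine ⟨h, ?_⟩
  rw [(res_eq_zero v hC (x := ⟨a, h⟩)).2 ha]
  exact isAlgebraic_zero

theorem AR.const (c : ℂ) : AR v hC w (algebraMap ℂ K c) := by
  refine ⟨(OA v hC).algebraMap_mem c, ?_⟩
  have : (⟨algebraMap ℂ K c, (OA v hC).algebraMap_mem c⟩ : OA v hC) = algebraMap ℂ _ c := rfl
  rw [this, AlgHom.commutes]
  have h2 := isAlgebraic_algebraMap (R := Algebra.adjoin ℂ (Set.range fun i => res v hC (w i)))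
    (A := kap v hC) (algebraMap ℂ _ c)
  exact h2

theorem AR.one : AR v hC w 1 := by
  have := AR.const (v := v) (hC := hC) (w := w) 1
  rwa [map_one] at this

theorem AR.neg {a : K} (ha : AR v hC w a) : AR v hC w (-a) := by
  have := (AR.const (v := v) (hC := hC) (w := w) (-1)).mul ha
  rwa [map_neg, map_one, neg_one_mul] at this

theorem AR.sub {a b : K} (ha : AR v hC w a) (hb : AR v hC w b) : AR v hC w (a - b) := by
  rw [sub_eq_add_neg]; exact ha.add hb.neg

theorem AR.gen (i : ι) : AR v hC w (w i : K) := by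
  refine ⟨(w i).2, ?_⟩
  have : (⟨(w i : K), (w i).2⟩ : OA v hC) = w i := rfl
  rw [this]
  exact isAlgebraic_algebraMap (R := Algebra.adjoin ℂ (Set.range fun i => res v hC (w i)))
    (A := kap v hC) ⟨res v hC (w i), Algebra.subset_adjoin ⟨i, rfl⟩⟩

theorem AR.congr {a b : K} (hb : AR v hC w b) (h : 0 < v (a - b)) : AR v hC w a := by
  have := hb.add (AR.of_pos (w := w) (hC := hC) h)
  rwa [add_sub_cancel] at this

theorem AR.pow {a : K} (ha : AR v hC w a) (k : ℕ) : AR v hC w (a ^ k) := by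
  induction k with
  | zero => rw [pow_zero]; exact AR.one
  | succ k ih => rw [pow_succ]; exact ih.mul ha

theorem AR.root {a : K} {k : ℕ} (hk : 0 < k) (h0 : 0 ≤ v a) (ha : AR v hC w (a ^ k)) :
    AR v hC w a := by
  obtain ⟨h, ha⟩ := ha
  refine ⟨h0, ?_⟩
  have : (⟨a ^ k, h⟩ : OA v hC) = (⟨a, h0⟩ : OA v hC) ^ k := rfl
  rw [this, map_pow] at ha
  exact ha.of_pow hk

theorem AR.inv {a : K} (ha : AR v hC w a) (hv : v a = 0) : AR v hC w a⁻¹ := by
  obtain ⟨h, ha⟩ := ha
  have han : a ≠ 0 := by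
    intro h; rw [h, AddValuation.map_zero] at hv; exact absurd hv (by simp)
  have h' : a⁻¹ ∈ OA v hC := by
    rw [mem_OA, nonneg_iff v (inv_ne_zero han), vz_inv v han]
    have := (eq_zero_iff v han).1 hv
    omega
  refine ⟨h', ?_⟩
  have h1 : res v hC ⟨a⁻¹, h'⟩ = (res v hC ⟨a, h⟩)⁻¹ := by
    apply eq_inv_of_mul_eq_one_left
    rw [← map_mul]
    have : (⟨a⁻¹, h'⟩ * ⟨a, h⟩ : OA v hC) = 1 := by
      apply Subtype.ext
      show a⁻¹ * a = 1
      exact inv_mul_cancel₀ han
    rw [this, map_one]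
  rw [h1]
  exact ha.inv

theorem AR.sum {α : Type*} (s : Finset α) (f : α → K) (h : ∀ i ∈ s, AR v hC w (f i)) :
    AR v hC w (∑ i ∈ s, f i) := by
  classical
  induction s using Finset.induction_on with
  | empty =>
    rw [Finset.sum_empty]
    have := AR.const (v := v) (hC := hC) (w := w) 0
    rwa [map_zero] at this
  | insert i s hi ih =>
    rw [Finset.sum_insert hi]
    exact (h i (Finset.mem_insert_self _ _)).add
      (ih fun j hj => h j (Finset.mem_insert_of_mem hj))

end AR

section T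

variable {n : ℕ}

include hC in
theorem T1' {z : Fin n → K} (hz : Rindep v z) (w : Fin n → K) (hw : ∀ i, 0 ≤ v (w i))
    (h : ∀ l, AR v hC (fun i => ⟨w i, hw i⟩) (z l)) : Rindep v w := by
  have hz' : ∀ i, z i ∈ OA v hC := fun i => le_of_eq (rindep_nonneg v hz i).symm
  have h1 := (rindep_iff v hC (fun i => (⟨z i, hz' i⟩ : OA v hC))).1 hz
  have h2 : AlgebraicIndependent ℂ (fun i => res v hC (⟨w i, hw i⟩ : OA v hC)) := by
    apply T1_indep h1
    intro l
    obtain ⟨_, h3⟩ := h l
    exact h3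
  exact (rindep_iff v hC (fun i => (⟨w i, hw i⟩ : OA v hC))).2 h2

include hC in
theorem T2' (hn : 0 < n) {z : Fin n → K} (hz : Rindep v z) (w : Fin n → K) (e : K)
    (hw : ∀ i, 0 ≤ v (w i)) (he : 0 ≤ v e)
    (htr : Transcendental ℂ (res v hC ⟨e, he⟩))
    (h : ∀ l, AR v hC (fun i : Option (Fin n) => i.elim ⟨e, he⟩ fun i => ⟨w i, hw i⟩) (z l)) :
    ∃ l, Rindep v (Function.update w l e) := by
  have hz' : ∀ i, z i ∈ OA v hC := fun i => le_of_eq (rindep_nonneg v hz i).symm
  have h1 := (rindep_iff v hC (fun i => (⟨z i, hz' i⟩ : OA v hC))).1 hz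
  obtain ⟨l, hl⟩ := T2 hn h1 (fun i => res v hC (⟨w i, hw i⟩ : OA v hC)) (res v hC ⟨e, he⟩) htr
    (by
      intro l
      obtain ⟨_, h3⟩ := h l
      have h4 : (Set.range fun i : Option (Fin n) => res v hC
          (i.elim ⟨e, he⟩ fun i => (⟨w i, hw i⟩ : OA v hC)))
          = insert (res v hC ⟨e, he⟩) (Set.range fun i => res v hC (⟨w i, hw i⟩ : OA v hC)) := by
        ext a
        constructor
        · rintro ⟨i, rfl⟩
          cases i with
          | none => exact Set.mem_insert _ _
          | some i => exact Set.mem_insert_of_mem _ ⟨i, rfl⟩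
        · rintro (rfl | ⟨i, rfl⟩)
          · exact ⟨none, rfl⟩
          · exact ⟨some i, rfl⟩
      rw [h4] at h3
      exact h3)
  refine ⟨l, ?_⟩
  have hu : ∀ i, Function.update w l e i ∈ OA v hC := by
    intro i
    by_cases hi : i = l
    · subst hi; show 0 ≤ v _; simpa using he
    · rw [Function.update_of_ne hi]; exact hw i
  have h5 := (rindep_iff v hC (fun i => (⟨Function.update w l e i, hu i⟩ : OA v hC))).2 ?_
  · exact h5
  · have h6 : (fun i => res v hC (⟨Function.update w l e i, hu i⟩ : OA v hC))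
        = Function.update (fun i => res v hC (⟨w i, hw i⟩ : OA v hC)) l (res v hC ⟨e, he⟩) := by
      funext i
      by_cases hi : i = l
      · subst hi; simp
      · simp [hi]
    rw [h6]; exact hl

end T

end TriIdx
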