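import Pool.Agent.TriIdx.Canon
import Pool.Agent.TriIdx.Res2

/-!
Elements of generated subfields; packaged form of the Kummer lemma.
-/

namespace TriIdx

open Polynomial

variable {K : Type*} [Field K]

theorem frac_of_closure {M : Subfield K} {z r : K}
    (hr : r ∈ Subfield.closure ((M : Set K) ∪ {z})) :
    ∃ A B : M[X], B.eval₂ M.subtype z ≠ 0 ∧ r = A.eval₂ M.subtype z / B.eval₂ M.subtype z := by
  induction hr using Subfield.closure_induction with
  | mem x hx =>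
    rcases hx with hx | hx
    · exact ⟨C ⟨x, hx⟩, 1, by simp, by simp⟩
    · rw [Set.mem_singleton_iff.1 hx]
      exact ⟨X, 1, by simp, by simp⟩
  | one => exact ⟨1, 1, by simp, by simp⟩
  | add x y _ _ hx hy =>
    obtain ⟨A, B, hB, rfl⟩ := hx
    obtain ⟨A', B', hB', rfl⟩ := hy
    refine ⟨A * B' + A' * B, B * B', ?_, ?_⟩
    · rw [eval₂_mul]; exact mul_ne_zero hB hB'
    · rw [eval₂_add, eval₂_mul, eval₂_mul, eval₂_mul]; field_simp
  | neg x _ hx =>
    obtain ⟨A, B, hB, rfl⟩ := hx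
    refine ⟨-A, B, hB, ?_⟩
    rw [eval₂_neg]; ring
  | inv x _ hx =>
    obtain ⟨A, B, hB, rfl⟩ := hx
    by_cases hA : A.eval₂ M.subtype z = 0
    · exact ⟨0, 1, by simp, by simp [hA]⟩
    · exact ⟨B, A, hA, by rw [inv_div]⟩
  | mul x y _ _ hx hy =>
    obtain ⟨A, B, hB, rfl⟩ := hx
    obtain ⟨A', B', hB', rfl⟩ := hy
    refine ⟨A * A', B * B', ?_, ?_⟩
    · rw [eval₂_mul]; exact mul_ne_zero hB hB'
    · rw [eval₂_mul, eval₂_mul]; field_simp

theorem mvfrac_of_closure {ι : Type*} {M : Subfield K} {x : ι → K} {r : K}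
    (hr : r ∈ Subfield.closure ((M : Set K) ∪ Set.range x)) :
    ∃ A B : MvPolynomial ι M, B.eval₂ M.subtype x ≠ 0 ∧
      r = A.eval₂ M.subtype x / B.eval₂ M.subtype x := by
  induction hr using Subfield.closure_induction with
  | mem z hz =>
    rcases hz with hz | ⟨i, rfl⟩
    · exact ⟨MvPolynomial.C ⟨z, hz⟩, 1, by simp, by simp⟩
    · exact ⟨MvPolynomial.X i, 1, by simp, by simp⟩
  | one => exact ⟨1, 1, by simp, by simp⟩
  | add x y _ _ hx hy =>
    obtain ⟨A, B, hB, rfl⟩ := hx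
    obtain ⟨A', B', hB', rfl⟩ := hy
    refine ⟨A * B' + A' * B, B * B', ?_, ?_⟩
    · rw [MvPolynomial.eval₂_mul]; exact mul_ne_zero hB hB'
    · rw [MvPolynomial.eval₂_add, MvPolynomial.eval₂_mul, MvPolynomial.eval₂_mul,
        MvPolynomial.eval₂_mul]; field_simp
  | neg x _ hx =>
    obtain ⟨A, B, hB, rfl⟩ := hx
    refine ⟨-A, B, hB, ?_⟩
    rw [MvPolynomial.eval₂_neg]; ring
  | inv y _ hx =>
    obtain ⟨A, B, hB, rfl⟩ := hx
    by_cases hA : A.eval₂ M.subtype x = 0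
    · exact ⟨0, 1, by simp, by simp [hA]⟩
    · exact ⟨B, A, hA, by rw [inv_div]⟩
  | mul x y _ _ hx hy =>
    obtain ⟨A, B, hB, rfl⟩ := hx
    obtain ⟨A', B', hB', rfl⟩ := hy
    refine ⟨A * A', B * B', ?_, ?_⟩
    · rw [MvPolynomial.eval₂_mul]; exact mul_ne_zero hB hB'
    · rw [MvPolynomial.eval₂_mul, MvPolynomial.eval₂_mul]; field_simp

theorem alg_of_pow {K₁ : Subfield K} {θ : K} {a : ℕ} (ha : 0 < a) (hθa : θ ^ a ∈ K₁) :
    IsAlgebraic K₁ θ := by
  have h1 : IsAlgebraic K₁ (θ ^ a) := isAlgebraic_algebraMap (⟨θ ^ a, hθa⟩ : K₁)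
  exact h1.of_pow ha

theorem gen_of_closure {K₁ : Subfield K} {θ : K} {a : ℕ} (ha : 0 < a) (hθa : θ ^ a ∈ K₁) {z : K}
    (hz : z ∈ Subfield.closure ((K₁ : Set K) ∪ {θ})) :
    ∃ p : K₁[X], z = p.eval₂ K₁.subtype θ := by
  have halg := alg_of_pow ha hθa
  have hmem : ∀ w ∈ Algebra.adjoin K₁ {θ}, IsAlgebraic K₁ w := by
    intro w hw
    induction hw using Algebra.adjoin_induction with
    | mem x hx => rw [Set.mem_singleton_iff.1 hx]; exact halg
    | algebraMap r => exact isAlgebraic_algebraMap r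
    | add x y _ _ hx hy => exact hx.add hy
    | mul x y _ _ hx hy => exact hx.mul hy
  have h1 : z ∈ Algebra.adjoin K₁ {θ} := by
    induction hz using Subfield.closure_induction with
    | mem x hx =>
      rcases hx with hx | hx
      · exact (Algebra.adjoin K₁ {θ}).algebraMap_mem ⟨x, hx⟩
      · exact Algebra.subset_adjoin hx
    | one => exact one_mem _
    | add x y _ _ hx hy => exact add_mem hx hy
    | neg x _ hx => exact neg_mem hx
    | inv x _ hx =>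
      exact Subalgebra.inv_mem_of_algebraic (A := Algebra.adjoin K₁ {θ}) (x := ⟨x, hx⟩) (hmem x hx)
    | mul x y _ _ hx hy => exact mul_mem hx hy
  rw [Algebra.adjoin_singleton_eq_range_aeval] at h1
  obtain ⟨p, hp⟩ := h1
  exact ⟨p, hp.symm⟩

theorem alg_of_closure {K₁ : Subfield K} {θ : K} {a : ℕ} (ha : 0 < a) (hθa : θ ^ a ∈ K₁) {z : K}
    (hz : z ∈ Subfield.closure ((K₁ : Set K) ∪ {θ})) : IsAlgebraic K₁ z := by
  have halg := alg_of_pow ha hθa
  induction hz using Subfield.closure_induction with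
  | mem x hx =>
    rcases hx with hx | hx
    · exact isAlgebraic_algebraMap (⟨x, hx⟩ : K₁)
    · rw [Set.mem_singleton_iff.1 hx]; exact halg
  | one => exact isAlgebraic_one
  | add x y _ _ hx hy => exact hx.add hy
  | neg x _ hx => exact hx.neg
  | inv x _ hx => exact hx.inv
  | mul x y _ _ hx hy => exact hx.mul hy

variable (v : AddValuation K (WithTop ℤ))

theorem min_exists {K₁ : Subfield K} (hsurj : ∃ π : K, v π = ((1 : ℤ) : WithTop ℤ))
    (halg : ∀ z : K, IsAlgebraic K₁ z) :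
    ∃ π ∈ K₁, π ≠ 0 ∧ 0 < vz v π ∧ ∀ r ∈ K₁, r ≠ 0 → ∃ j : ℤ, vz v r = j * vz v π := by
  apply exists_min
  by_contra hcon
  push Not at hcon
  obtain ⟨π, hπ⟩ := hsurj
  have h1 := vz_zero_of_algebraic v (A := K₁) (fun c hc => by
    have hc' : (c : K) ≠ 0 := fun h => hc (Subtype.ext h)
    show v (c : K) = 0
    rw [eq_zero_iff v hc']
    exact hcon c c.2 hc') (halg π) (ne_zero_of_v_eq v hπ)
  rw [vz_of_eq v hπ] at h1
  exact one_ne_zero h1

/-- packaged Kummer lemma -/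
theorem KU' {K₁ : Subfield K} {θ : K} {a : ℕ} (ha : 0 < a) (haK : v (a : K) = 0)
    (hθa : θ ^ a ∈ K₁) (hθ : v θ = 0)
    (hgen : ∀ z : K, z ∈ Subfield.closure ((K₁ : Set K) ∪ {θ}))
    (hsurj : ∃ π : K, v π = ((1 : ℤ) : WithTop ℤ)) (O : Subring K)
    (hO : ∀ r ∈ O, v r = 0 → r⁻¹ ∈ O) (h1 : ∀ r ∈ K₁, 0 ≤ v r → r ∈ O) (hθO : θ ∈ O)
    (r : K) (hr : 0 ≤ v r) : r ∈ O := by
  obtain ⟨π, hπ, hπn, hπ0, hmin⟩ := min_exists v hsurj
    (fun z => alg_of_closure ha hθa (hgen z))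
  exact KU v haK hθa hθ hπ hπ0 hπn hmin (fun z => gen_of_closure ha hθa (hgen z)) O hO h1 hθO hr

/-- if `z` generates the values of `K₁` then it has value one -/
theorem KU_val' {K₁ : Subfield K} {θ : K} {a : ℕ} (ha : 0 < a) (haK : v (a : K) = 0)
    (hθa : θ ^ a ∈ K₁) (hθ : v θ = 0)
    (hgen : ∀ z : K, z ∈ Subfield.closure ((K₁ : Set K) ∪ {θ}))
    (hsurj : ∃ π : K, v π = ((1 : ℤ) : WithTop ℤ)) {z : K} (hz : z ∈ K₁) (hz0 : z ≠ 0)
    (hzpos : 0 < vz v z) (hmin : ∀ r ∈ K₁, r ≠ 0 → ∃ j : ℤ, vz v r = j * vz v z) :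
    vz v z = 1 := by
  obtain ⟨π, hπ⟩ := hsurj
  obtain ⟨j, hj⟩ := KU_val v haK hθa hθ hz hzpos hz0 hmin
    (fun z => gen_of_closure ha hθa (hgen z)) (ne_zero_of_v_eq v hπ)
  rw [vz_of_eq v hπ] at hj
  have : vz v z ∣ 1 := ⟨j, by rw [hj]; ring⟩
  exact Int.eq_one_of_dvd_one hzpos.le this

end TriIdx
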