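import Pool.Agent.TriIdx.Gen

/-!
The function field data.
-/

namespace TriIdx

/-- the data: `h t^m = 1 + ∑ x_i^{a_i}` over the function field `F₀` of an elliptic curve -/
structure Geo (K : Type) [Field K] [Algebra ℂ K] (n m N : ℕ) where
  F₀ : Subfield K
  ξ : K
  y : K
  h : K
  t : K
  x : Fin n → K
  a : Fin n → ℕ
  b : Fin n → ℕ
  D₀ : Derivation ℂ K K
  E : Fin n → Derivation ℂ K K
  hn : 2 ≤ n
  hNm : N < m
  hm2 : m ≤ 2 * N
  ha : ∀ i, 0 < a i
  hab : ∀ i, b i * a i = N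
  hsum : ∑ i, b i + 1 = N
  hconst : ∀ c : ℂ, algebraMap ℂ K c ∈ F₀
  hξ : ξ ∈ F₀
  hξtr : Transcendental ℂ ξ
  hy : y ∈ F₀
  hy0 : y ≠ 0
  hh : h ∈ F₀
  hh0 : h ≠ 0
  hFalg : ∀ f ∈ F₀, IsAlgebraic (Algebra.adjoin ℂ {ξ}) f
  hFD : ∀ f ∈ F₀, ∃ c ∈ F₀, ∀ D : Derivation ℂ K K, D f = c * D ξ
  hD₀ξ : D₀ ξ = y
  hD₀x : ∀ j, D₀ (x j) = 0
  hEξ : ∀ i, E i ξ = 0
  hEx : ∀ i j, E i (x j) = if i = j then 1 else 0
  hx : ∀ i, x i ≠ 0
  hrel : h * t ^ m = 1 + ∑ i, x i ^ a i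
  hτ : (1 + ∑ i, x i ^ a i : K) ≠ 0
  hgen : ∀ z : K, z ∈ Subfield.closure ((F₀ : Set K) ∪ (Set.range x ∪ {t}))

/-- a valuation as needed -/
structure VP {K : Type} [Field K] [Algebra ℂ K] {n m N : ℕ} (G : Geo K n m N)
    (v : AddValuation K (WithTop ℤ)) : Prop where
  hC : ∀ c : ℂ, c ≠ 0 → v (algebraMap ℂ K c) = 0
  hsurj : ∃ π : K, v π = ((1 : ℤ) : WithTop ℤ)
  hell : (∀ f ∈ G.F₀, f ≠ 0 → v f = 0) ∨
    ((∀ f ∈ G.F₀, 0 ≤ v f → ∃ c : ℂ, 0 < v (f - algebraMap ℂ K c)) ∧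
     (∀ f ∈ G.F₀, 0 ≤ v f → 0 ≤ v (G.D₀ f)) ∧
     (∃ r ∈ G.F₀, 0 ≤ v r ∧ v (G.D₀ r) = 0) ∧
     (∃ u ∈ G.F₀, u ≠ 0 ∧ (m : ℤ) * vz v u = vz v G.h))

section

variable {K : Type} [Field K] [Algebra ℂ K] {n m N : ℕ} (G : Geo K n m N)
  {v : AddValuation K (WithTop ℤ)} (V : VP G v)

/-- a valuation trivial on a domain is trivial on algebraic elements -/
theorem vz_zero_of_algebraic' {A : Type*} [CommRing A] [IsDomain A] [Algebra A K]
    [FaithfulSMul A K]
    (hA : ∀ a : A, a ≠ 0 → v (algebraMap A K a) = 0) {z : K} (hz : IsAlgebraic A z)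
    (hz0 : z ≠ 0) : vz v z = 0 := by
  have hA' : ∀ a : A, 0 ≤ v (algebraMap A K a) := by
    intro a
    by_cases ha : a = 0
    · rw [ha]; simp
    · rw [hA a ha]
  have key : ∀ w : K, w ≠ 0 → IsAlgebraic A w → 0 ≤ vz v w := by
    intro w hw0 hw
    obtain ⟨c, hc0, hc⟩ := hw.exists_integral_multiple
    have h1 := nonneg_of_integral v hA' hc
    rw [Algebra.smul_def, AddValuation.map_mul, hA c hc0, zero_add] at h1
    exact (nonneg_iff v hw0).1 h1
  have h1 := key z hz0 hz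
  have h2 := key z⁻¹ (inv_ne_zero hz0) hz.inv
  rw [vz_inv v hz0] at h2
  omega

theorem Geo.t_ne : G.t ≠ 0 := by
  intro h
  have := G.hrel
  have hm : m ≠ 0 := by have := G.hNm; omega
  rw [h, zero_pow hm, mul_zero] at this
  exact G.hτ this.symm

include G in
theorem Geo.mpos : 0 < m := by have := G.hNm; omega

include V in
theorem natv {k : ℕ} (hk : 0 < k) : v (k : K) = 0 := by
  have := int_val v V.hC (k : ℤ) (by omega)
  rwa [Int.cast_natCast] at this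

include V in
/-- value of `τ` is a multiple of `m` -/
theorem val_tau : ∃ u ∈ G.F₀, u ≠ 0 ∧ vz v (G.h / u ^ m) = 0 := by
  rcases V.hell with h1 | ⟨_, _, _, u, hu, hu0, huv⟩
  · refine ⟨1, G.F₀.one_mem, one_ne_zero, ?_⟩
    rw [one_pow, div_one, ← eq_zero_iff v G.hh0]
    exact h1 _ G.hh G.hh0
  · refine ⟨u, hu, hu0, ?_⟩
    rw [vz_div v G.hh0 (pow_ne_zero _ hu0), vz_pow v hu0, huv]; ring

/-- the subfield generated by `F₀` and the `w_i`, `i ≠ l` -/
def Geo.M (w : Fin n → K) (l : Fin n) : Subfield K :=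
  Subfield.closure ((G.F₀ : Set K) ∪ (w '' {i | i ≠ l}))

theorem Geo.F₀_le_M (w : Fin n → K) (l : Fin n) {f : K} (hf : f ∈ G.F₀) : f ∈ G.M w l :=
  Subfield.subset_closure (Or.inl hf)

theorem Geo.w_mem_M (w : Fin n → K) {l i : Fin n} (hi : i ≠ l) : w i ∈ G.M w l :=
  Subfield.subset_closure (Or.inr ⟨i, hi, rfl⟩)

theorem M_triv {w : Fin n → K} {l : Fin n}
    (hR : Rindep v (Function.update w l G.ξ)) {c : K} (hc : c ∈ G.M w l) (hc0 : c ≠ 0) :
    v c = 0 := by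
  classical
  set A := Algebra.adjoin ℂ (Set.range (Function.update w l G.ξ)) with hA
  have hAv : ∀ a : A, a ≠ 0 → v (algebraMap A K a) = 0 := by
    rintro ⟨a, ha⟩ ha0
    have ha' : a ∈ (MvPolynomial.aeval (Function.update w l G.ξ) :
        MvPolynomial (Fin n) ℂ →ₐ[ℂ] K).range := by
      rwa [← Algebra.adjoin_range_eq_range_aeval]
    obtain ⟨P, hP⟩ := ha'
    have hP0 : P ≠ 0 := by
      rintro rfl
      apply ha0
      apply Subtype.ext
      show a = 0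
      rw [← hP]; simp
    have h1 := hR P hP0
    show v a = 0
    rw [← hP]
    exact h1
  have hξA : G.ξ ∈ A := Algebra.subset_adjoin ⟨l, by simp⟩
  have hwA : ∀ i, i ≠ l → w i ∈ A := fun i hi =>
    Algebra.subset_adjoin ⟨i, by rw [Function.update_of_ne hi]⟩
  have hle : Algebra.adjoin ℂ {G.ξ} ≤ A := Algebra.adjoin_le (by simpa using hξA)
  have halg : ∀ z ∈ G.M w l, IsAlgebraic A z := by
    intro z hz
    rw [Geo.M] at hz
    induction hz using Subfield.closure_induction with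
    | mem x hx =>
      rcases hx with hx | ⟨i, hi, rfl⟩
      · have h1 := G.hFalg x hx
        obtain ⟨p, hp, hpx⟩ := h1
        refine ⟨p.map (Subalgebra.inclusion hle).toRingHom, ?_, ?_⟩
        · rw [Ne, Polynomial.map_eq_zero_iff (Subalgebra.inclusion_injective hle)]
          exact hp
        · rw [Polynomial.aeval_def, Polynomial.eval₂_map]
          rw [Polynomial.aeval_def] at hpx
          exact hpx
      · exact isAlgebraic_algebraMap (⟨w i, hwA i hi⟩ : A)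
    | one => exact isAlgebraic_one
    | add x y _ _ hx hy => exact hx.add hy
    | neg x _ hx => exact hx.neg
    | inv x _ hx => exact hx.inv
    | mul x y _ _ hx hy => exact hx.mul hy
  rw [eq_zero_iff v hc0]
  exact vz_zero_of_algebraic' (A := A) hAv (halg c hc) hc0

/-- `F₀` inside `OZ` when the valuation is trivial on `F₀` -/
theorem F₀_OZ (htriv : ∀ f ∈ G.F₀, f ≠ 0 → v f = 0) (z : Fin (n + 1) → K) (hz : z 0 = G.ξ)
    {f : K} (hf : f ∈ G.F₀) : f ∈ OZ v z := by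
  have hnn : ∀ f ∈ G.F₀, 0 ≤ v f := by
    intro f hf
    by_cases h : f = 0
    · rw [h]; simp
    · rw [htriv f hf h]
  obtain ⟨c, hc, hcD⟩ := G.hFD f hf
  refine ⟨hnn f hf, fun l => if l = 0 then c else 0, ?_, ?_⟩
  · intro l
    by_cases h : l = 0
    · simp [h, hnn c hc]
    · simp [h]
  · intro D
    rw [hcD D]
    simp [hz]

theorem M_OZ (htriv : ∀ f ∈ G.F₀, f ≠ 0 → v f = 0) {w : Fin n → K} {l : Fin n}
    (hR : Rindep v (Function.update w l G.ξ)) (z : Fin (n + 1) → K) (hz : z 0 = G.ξ)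
    (hw : ∀ i, i ≠ l → w i ∈ OZ v z) {c : K} (hc : c ∈ G.M w l) : c ∈ OZ v z := by
  rw [Geo.M] at hc
  induction hc using Subfield.closure_induction with
  | mem x hx =>
    rcases hx with hx | ⟨i, hi, rfl⟩
    · exact F₀_OZ G htriv z hz hx
    · exact hw i hi
  | one => exact one_mem _
  | add x y _ _ hx hy => exact add_mem hx hy
  | neg x _ hx => exact neg_mem hx
  | inv x hx' hx =>
    by_cases h : x = 0
    · rw [h, inv_zero]; exact zero_mem _
    · exact OZ_inv v hx (M_triv G hR hx' h)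
  | mul x y _ _ hx hy => exact mul_mem hx hy

end

end TriIdx
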