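import Mathlib

/-!
PROJECT TRI, module KUM (pure algebra, only Mathlib). The field `K = F(x_1..x_n)(t)` with
`h t^m = 1 + ∑ x_i^{a_i}`.

PROOF. `A = MvPolynomial (Fin n) F`, `τ = 1 + ∑ X_i^{a_i}`, `h` a unit of `A`; the polynomial
`T^m - C (h⁻¹ τ) ∈ A[T]` is monic and Eisenstein at the kernel `𝔭` of the evaluation `A → F` at
`(c, 0, …, 0)`, `c ∈ ℂ`, `c^{a_0} = -1` (so `τ` is in it); `τ ∉ 𝔭^2` because `∂τ/∂X_0 = a_0 X_0^{a_0-1}`
does not vanish at the point, whereas `pderiv 0` maps `𝔭^2` into `𝔭`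
(`Polynomial.irreducible_of_eisenstein_criterion`). Here `n > 0` gives the index `0`
(`⟨0, hn⟩ : Fin n`). It stays irreducible over the fraction field (`A` is a UFD:
`Polynomial.Monic.irreducible_iff_irreducible_map_fraction_map`). `K` is `AdjoinRoot` of that
polynomial over `FractionRing A`. `j` is the composite `F → A → FractionRing A → K`, injective.
`σ` by `AdjoinRoot.liftAlgHom`, with inverse given by `ζ⁻¹`.
-/

namespace TriIdx

open MvPolynomial in
private theorem kum_irr {F : Type} [Field F] [Algebra ℂ F] {n m : ℕ} (hn : 0 < n) (hm : 0 < m)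
    (a : Fin n → ℕ) (ha : ∀ i, 0 < a i) (h : F) (hh : h ≠ 0) :
    Irreducible ((Polynomial.X ^ m - Polynomial.C (C h⁻¹ * (1 + ∑ i, X i ^ a i)) :
      Polynomial (MvPolynomial (Fin n) F))) := by
  classical
  obtain ⟨i0, -⟩ : ∃ i0 : Fin n, i0 = ⟨0, hn⟩ := ⟨_, rfl⟩
  obtain ⟨c, hc⟩ : ∃ c : ℂ, c ^ a i0 = -1 := IsAlgClosed.exists_pow_nat_eq (-1) (ha i0)
  have hc0 : c ≠ 0 := by
    rintro rfl
    rw [zero_pow (ha i0).ne'] at hc
    norm_num at hc
  have hinj : Function.Injective (algebraMap ℂ F) := (algebraMap ℂ F).injective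
  have : CharZero F := by
    refine ⟨fun x y hxy => ?_⟩
    have h1 : (algebraMap ℂ F) (x : ℂ) = (algebraMap ℂ F) (y : ℂ) := by
      rw [map_natCast, map_natCast]; exact hxy
    exact_mod_cast hinj h1
  obtain ⟨pt, hpt⟩ : ∃ pt : Fin n → F, pt = fun i => if i = i0 then algebraMap ℂ F c else 0 :=
    ⟨_, rfl⟩
  obtain ⟨τ, hτ⟩ : ∃ τ : MvPolynomial (Fin n) F, τ = 1 + ∑ i, X i ^ a i := ⟨_, rfl⟩
  rw [← hτ]
  let P : Ideal (MvPolynomial (Fin n) F) := RingHom.ker (eval pt)
  have hP : P.IsPrime := RingHom.ker_isPrime _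
  have hmemP : ∀ x, x ∈ P ↔ eval pt x = 0 := fun x => RingHom.mem_ker
  have hτP : τ ∈ P := by
    rw [hmemP, hτ]
    simp only [map_add, map_one, map_sum, map_pow, eval_X]
    rw [Finset.sum_eq_single i0]
    · simp only [hpt, if_true]
      rw [← map_pow, hc, map_neg, map_one]
      ring
    · intro i _ hi
      simp only [hpt, if_neg hi]
      exact zero_pow (ha i).ne'
    · intro hcon
      exact absurd (Finset.mem_univ i0) hcon
  have hder : ∀ x ∈ P ^ 2, pderiv i0 x ∈ P := by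
    intro x hx
    rw [pow_two] at hx
    refine Submodule.mul_induction_on hx ?_ ?_
    · intro u hu v hv
      rw [Derivation.leibniz, smul_eq_mul, smul_eq_mul]
      exact P.add_mem (P.mul_mem_right _ hu) (P.mul_mem_right _ hv)
    · intro u v hu hv
      rw [map_add]
      exact P.add_mem hu hv
  have hτP2 : τ ∉ P ^ 2 := by
    intro hcon
    have h1 := hder τ hcon
    rw [hmemP, hτ] at h1
    have h2 : pderiv i0 (1 + ∑ i, X i ^ a i : MvPolynomial (Fin n) F) =
        (a i0 : MvPolynomial (Fin n) F) * X i0 ^ (a i0 - 1) := by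
      rw [map_add, map_sum, Derivation.map_one_eq_zero, zero_add, Finset.sum_eq_single i0]
      · rw [Derivation.leibniz_pow, pderiv_X_self]
        simp
      · intro i _ hi
        rw [Derivation.leibniz_pow, pderiv_X_of_ne hi]
        simp
      · intro hcon
        exact absurd (Finset.mem_univ i0) hcon
    rw [h2, map_mul, map_pow, eval_X, map_natCast] at h1
    have h3 : pt i0 = algebraMap ℂ F c := by simp [hpt]
    rw [h3] at h1
    rcases mul_eq_zero.mp h1 with h4 | h4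
    · have : a i0 = 0 := by exact_mod_cast h4
      exact (ha i0).ne' this
    · have h6 : algebraMap ℂ F c ≠ 0 := by
        rw [Ne, map_eq_zero_iff _ hinj]; exact hc0
      exact pow_ne_zero _ h6 h4
  have hdeg : (Polynomial.X ^ m - Polynomial.C (C h⁻¹ * τ)).degree = (m : WithBot ℕ) :=
    Polynomial.degree_X_pow_sub_C hm _
  have hmon : (Polynomial.X ^ m - Polynomial.C (C h⁻¹ * τ)).Monic :=
    Polynomial.monic_X_pow_sub_C _ hm.ne'
  refine Polynomial.irreducible_of_eisenstein_criterion hP ?_ ?_ ?_ ?_ hmon.isPrimitive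
  · rw [hmon.leadingCoeff]
    exact fun h1 => hP.ne_top ((Ideal.eq_top_iff_one _).mpr h1)
  · intro k hk
    rw [hdeg] at hk
    have hk' : k < m := by exact_mod_cast hk
    rw [Polynomial.coeff_sub, Polynomial.coeff_X_pow, if_neg hk'.ne, zero_sub, Polynomial.coeff_C]
    split_ifs with h0
    · exact P.neg_mem (P.mul_mem_left _ hτP)
    · rw [neg_zero]; exact P.zero_mem
  · rw [hdeg]; exact_mod_cast hm
  · rw [Polynomial.coeff_sub, Polynomial.coeff_X_pow, if_neg hm.ne, zero_sub,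
      Polynomial.coeff_C_zero]
    intro hcon
    apply hτP2
    have h1 : τ = -C h * (-(C h⁻¹ * τ)) := by
      have : C h * C h⁻¹ = (1 : MvPolynomial (Fin n) F) := by
        rw [← C_mul, mul_inv_cancel₀ hh, C_1]
      linear_combination (-τ) * this
    rw [h1]
    exact (P ^ 2).mul_mem_left _ hcon

open MvPolynomial in
private theorem kum_ring {F : Type} [Field F] [Algebra ℂ F] {n m : ℕ} (hn : 0 < n) (hm : 0 < m)
    (a : Fin n → ℕ) (ha : ∀ i, 0 < a i) (h : F) (hh : h ≠ 0) :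
    ∃ (K : Type) (_ : Field K) (j : F →+* K) (x : Fin n → K) (t : K),
      (∀ P : MvPolynomial (Fin n) F, P.eval₂ j x = 0 → P = 0) ∧
      j h * t ^ m = 1 + ∑ i, x i ^ a i ∧
      (∀ z : K, z ∈ Subfield.closure (Set.range j ∪ (Set.range x ∪ {t}))) ∧
      (∀ ζ : ℂ, ζ ^ m = 1 → ∃ σ : K ≃+* K, (∀ f, σ (j f) = j f) ∧ (∀ i, σ (x i) = x i) ∧
        σ t = j (algebraMap ℂ F ζ) * t) := by
  let A := MvPolynomial (Fin n) F
  let Q := FractionRing A
  obtain ⟨τ, hτ⟩ : ∃ τ : A, τ = 1 + ∑ i, X i ^ a i := ⟨_, rfl⟩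
  have hirr := kum_irr hn hm a ha h hh
  rw [← hτ] at hirr
  have hmon : (Polynomial.X ^ m - Polynomial.C (C h⁻¹ * τ) : Polynomial A).Monic :=
    Polynomial.monic_X_pow_sub_C _ hm.ne'
  have hirrQ := (hmon.irreducible_iff_irreducible_map_fraction_map (K := Q)).mp hirr
  obtain ⟨q, hq⟩ : ∃ q : Q, q = algebraMap A Q (C h⁻¹ * τ) := ⟨_, rfl⟩
  obtain ⟨g, hg⟩ : ∃ g : Polynomial Q, g = Polynomial.X ^ m - Polynomial.C q := ⟨_, rfl⟩
  have hgirr : Irreducible g := by
    rw [hg, hq]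
    simpa [Polynomial.map_sub, Polynomial.map_pow] using hirrQ
  have hge : ∀ (B : Type) [CommRing B] (f : Q →+* B) (y : B), g.eval₂ f y = y ^ m - f q := by
    intro B _ f y
    rw [hg, Polynomial.eval₂_sub, Polynomial.eval₂_X_pow, Polynomial.eval₂_C]
  have : Fact (Irreducible g) := ⟨hgirr⟩
  let φ : A →+* AdjoinRoot g := (AdjoinRoot.of g).comp (algebraMap A Q)
  have hφinj : Function.Injective φ :=
    (AdjoinRoot.of g).injective.comp (IsFractionRing.injective A Q)
  let j : F →+* AdjoinRoot g := φ.comp C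
  let x : Fin n → AdjoinRoot g := fun i => φ (X i)
  have hroot : (AdjoinRoot.root g) ^ m = AdjoinRoot.of g q := by
    have h1 := AdjoinRoot.eval₂_root g
    rw [hge, sub_eq_zero] at h1
    exact h1
  have heval : ∀ P : A, P.eval₂ j x = φ P := by
    intro P
    have : (eval₂Hom j x : A →+* AdjoinRoot g) = φ := by
      apply MvPolynomial.ringHom_ext
      · intro r; rw [coe_eval₂Hom, eval₂_C]; rfl
      · intro i; rw [coe_eval₂Hom, eval₂_X]
    exact congrArg (fun ψ : A →+* AdjoinRoot g => ψ P) this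
  refine ⟨AdjoinRoot g, inferInstance, j, x, AdjoinRoot.root g, ?_, ?_, ?_, ?_⟩
  · intro P hP
    rw [heval] at hP
    exact hφinj (by rw [hP, map_zero])
  · rw [hroot, hq]
    have h1 : φ (C h * (C h⁻¹ * τ)) = j h * AdjoinRoot.of g (algebraMap A Q (C h⁻¹ * τ)) := by
      rw [map_mul]; rfl
    rw [← h1, ← mul_assoc, ← C_mul, mul_inv_cancel₀ hh, C_1, one_mul, hτ, map_add, map_one,
      map_sum]
    simp only [map_pow]
    rfl
  · intro z
    obtain ⟨S, hS⟩ : ∃ S : Subfield (AdjoinRoot g),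
        S = Subfield.closure (Set.range j ∪ (Set.range x ∪ {AdjoinRoot.root g})) := ⟨_, rfl⟩
    rw [← hS]
    have hj : ∀ f, j f ∈ S := fun f => by
      rw [hS]; exact Subfield.subset_closure (Or.inl ⟨f, rfl⟩)
    have hx : ∀ i, x i ∈ S := fun i => by
      rw [hS]; exact Subfield.subset_closure (Or.inr (Or.inl ⟨i, rfl⟩))
    have ht : AdjoinRoot.root g ∈ S := by
      rw [hS]; exact Subfield.subset_closure (Or.inr (Or.inr rfl))
    have hφ : ∀ P : A, φ P ∈ S := by
      intro P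
      induction P using MvPolynomial.induction_on with
      | C f => exact hj f
      | add p q hp hq => rw [map_add]; exact S.add_mem hp hq
      | mul_X p i hp => rw [map_mul]; exact S.mul_mem hp (hx i)
    have hof : ∀ r : Q, AdjoinRoot.of g r ∈ S := by
      intro r
      obtain ⟨u, v, -, rfl⟩ := IsFractionRing.div_surjective (A := A) r
      rw [map_div₀]
      exact S.div_mem (hφ u) (hφ v)
    induction z using AdjoinRoot.induction_on with
    | ih p =>
      rw [← AdjoinRoot.aeval_eq, Polynomial.aeval_eq_sum_range]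
      refine S.sum_mem fun i _ => ?_
      rw [Algebra.smul_def]
      exact S.mul_mem (hof _) (S.pow_mem ht _)
  · intro ζ hζ
    have key : ∀ ξ : ℂ, ξ ^ m = 1 → ∃ ψ : AdjoinRoot g →+* AdjoinRoot g,
        (∀ r, ψ (AdjoinRoot.of g r) = AdjoinRoot.of g r) ∧
        ψ (AdjoinRoot.root g) = j (algebraMap ℂ F ξ) * AdjoinRoot.root g := by
      intro ξ hξ
      have h1 : g.eval₂ (AdjoinRoot.of g) (j (algebraMap ℂ F ξ) * AdjoinRoot.root g) = 0 := by
        rw [hge, mul_pow, hroot, ← map_pow, ← map_pow, hξ, map_one, map_one, one_mul, sub_self]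
      refine ⟨AdjoinRoot.lift (AdjoinRoot.of g) _ h1, fun r => ?_, ?_⟩
      · exact AdjoinRoot.lift_of h1
      · exact AdjoinRoot.lift_root h1
    have hext : ∀ ψ : AdjoinRoot g →+* AdjoinRoot g,
        (∀ r, ψ (AdjoinRoot.of g r) = AdjoinRoot.of g r) →
        ψ (AdjoinRoot.root g) = AdjoinRoot.root g → ψ = RingHom.id _ := by
      intro ψ h1 h2
      refine RingHom.ext fun z => ?_
      induction z using AdjoinRoot.induction_on with
      | ih p =>
        rw [← AdjoinRoot.aeval_eq, Polynomial.aeval_eq_sum_range, map_sum, RingHom.id_apply]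
        refine Finset.sum_congr rfl fun i _ => ?_
        rw [Algebra.smul_def, map_mul, map_pow, h2]
        congr 1
        exact h1 _
    have hζ' : (ζ⁻¹) ^ m = 1 := by rw [inv_pow, hζ, inv_one]
    have hζ0 : ζ ≠ 0 := by
      rintro rfl
      rw [zero_pow hm.ne'] at hζ
      exact zero_ne_one hζ
    obtain ⟨ψ, h1, h2⟩ := key ζ hζ
    obtain ⟨ψ', h1', h2'⟩ := key ζ⁻¹ hζ'
    have hj1 : ∀ f, ψ (j f) = j f := fun f => h1 _
    have hj1' : ∀ f, ψ' (j f) = j f := fun f => h1' _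
    have hc1 : ψ'.comp ψ = RingHom.id _ := by
      apply hext
      · intro r; rw [RingHom.comp_apply, h1, h1']
      · rw [RingHom.comp_apply, h2, map_mul, hj1', h2', ← mul_assoc, ← map_mul, ← map_mul,
          mul_inv_cancel₀ hζ0, map_one, map_one, one_mul]
    have hc2 : ψ.comp ψ' = RingHom.id _ := by
      apply hext
      · intro r; rw [RingHom.comp_apply, h1', h1]
      · rw [RingHom.comp_apply, h2', map_mul, hj1, h2, ← mul_assoc, ← map_mul, ← map_mul,
          inv_mul_cancel₀ hζ0, map_one, map_one, one_mul]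
    exact ⟨RingEquiv.ofRingHom ψ ψ' hc2 hc1, hj1, fun i => h1 _, h2⟩

theorem kummer_field {F : Type} [Field F] [Algebra ℂ F] {n m : ℕ} (hn : 0 < n) (hm : 0 < m)
    (a : Fin n → ℕ) (ha : ∀ i, 0 < a i) (h : F) (hh : h ≠ 0) :
    ∃ (K : Type) (_ : Field K) (_ : Algebra ℂ K) (j : F →ₐ[ℂ] K) (x : Fin n → K) (t : K),
      (∀ P : MvPolynomial (Fin n) F, P.eval₂ (j : F →+* K) x = 0 → P = 0) ∧
      j h * t ^ m = 1 + ∑ i, x i ^ a i ∧
      (∀ z : K, z ∈ Subfield.closure (Set.range j ∪ (Set.range x ∪ {t}))) ∧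
      (∀ ζ : ℂ, ζ ^ m = 1 → ∃ σ : K ≃ₐ[ℂ] K, (∀ f, σ (j f) = j f) ∧ (∀ i, σ (x i) = x i) ∧
        σ t = algebraMap ℂ K ζ * t) := by
  obtain ⟨K, instK, j, x, t, h1, h2, h3, h4⟩ := kum_ring hn hm a ha h hh
  let _ : Algebra ℂ K := (j.comp (algebraMap ℂ F)).toAlgebra
  refine ⟨K, instK, inferInstance, { j with commutes' := fun r => rfl }, x, t, h1, h2, h3, ?_⟩
  intro ζ hζ
  obtain ⟨σ, h5, h6, h7⟩ := h4 ζ hζ
  exact ⟨AlgEquiv.ofRingEquiv (f := σ) (fun r => h5 _), h5, h6, h7⟩

end TriIdx
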