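import Pool.Agent.TriIdx.Val

/-!
PROJECT TRI: abstract interface to the field of meromorphic functions on the plane, and the data
extracted from elliptic functions. No proofs needed in this file.
-/

namespace TriIdx

/-- what is needed of the field `M` of meromorphic functions on the plane -/
structure MerData (M : Type) [Field M] [Algebra ℂ M] where
  /-- order at a point -/
  ord : ℂ → AddValuation M (WithTop ℤ)
  /-- derivative -/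
  d : Derivation ℂ M M
  /-- `tr a f = fun z => f (z + a)` -/
  tr : ℂ → M →ₐ[ℂ] M
  /-- `neg f = fun z => f (-z)` -/
  neg : M →ₐ[ℂ] M
  ord_const : ∀ z : ℂ, ∀ c : ℂ, c ≠ 0 → ord z (algebraMap ℂ M c) = 0
  resid : ∀ (z : ℂ) (f : M), 0 ≤ ord z f → ∃ c : ℂ, 0 < ord z (f - algebraMap ℂ M c)
  ord_d : ∀ (z : ℂ) (f : M), f ≠ 0 → vz (ord z) f ≠ 0 →
    d f ≠ 0 ∧ vz (ord z) (d f) = vz (ord z) f - 1
  ord_d' : ∀ (z : ℂ) (f : M), 0 ≤ ord z f → 0 ≤ ord z (d f)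
  ord_tr : ∀ (z a : ℂ) (f : M), ord z (tr a f) = ord (z + a) f
  tr_tr : ∀ (a b : ℂ) (f : M), tr a (tr b f) = tr (a + b) f
  tr_d : ∀ (a : ℂ) (f : M), tr a (d f) = d (tr a f)
  ord_neg : ∀ (z : ℂ) (f : M), ord z (neg f) = ord (-z) f
  neg_neg : ∀ f : M, neg (neg f) = f
  neg_tr : ∀ (a : ℂ) (f : M), neg (tr a f) = tr (-a) (neg f)
  neg_d : ∀ f : M, neg (d f) = - d (neg f)
  /-- Liouville -/
  liou : ∀ (ω₁ ω₂ : ℂ) (f : M), LinearIndependent ℝ ![ω₁, ω₂] → tr ω₁ f = f → tr ω₂ f = f →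
    (∀ z, 0 ≤ ord z f) → ∃ c : ℂ, f = algebraMap ℂ M c
  /-- the Weierstrass function -/
  wp : ∀ (ω₁ ω₂ : ℂ), LinearIndependent ℝ ![ω₁, ω₂] → ∃ (P : M) (g₂ g₃ : ℂ),
    (d P) ^ 2 = 4 * P ^ 3 - algebraMap ℂ M g₂ * P - algebraMap ℂ M g₃ ∧
    tr ω₁ P = P ∧ tr ω₂ P = P ∧ neg P = P ∧
    (∀ z : ℂ, (∃ i j : ℤ, z = i * ω₁ + j * ω₂) → ord z P = ((-2 : ℤ) : WithTop ℤ)) ∧
    (∀ z : ℂ, (¬ ∃ i j : ℤ, z = i * ω₁ + j * ω₂) → 0 ≤ ord z P)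

/-- the function field of an elliptic curve with an element `h` whose divisor is `m` times a divisor
whose class has order exactly `m` -/
structure EllData (F : Type) [Field F] [Algebra ℂ F] (m : ℕ) where
  ξ : F
  y : F
  h : F
  /-- the derivation dual to the holomorphic differential -/
  δ : Derivation ℂ F F
  hξtr : Transcendental ℂ ξ
  hy0 : y ≠ 0
  hδξ : δ ξ = y
  halg : ∀ f : F, IsAlgebraic (Algebra.adjoin ℂ {ξ}) f
  hfg : IntermediateField.adjoin ℂ {ξ, y} = ⊤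
  hh0 : h ≠ 0
  hroot : ∀ (i : ℕ) (q : F), h ^ i = q ^ m → m ∣ i
  hplace : ∀ w : AddValuation F (WithTop ℤ), (∀ c : ℂ, c ≠ 0 → w (algebraMap ℂ F c) = 0) →
    (∃ f : F, f ≠ 0 ∧ w f ≠ 0) →
    (∀ f : F, 0 ≤ w f → ∃ c : ℂ, 0 < w (f - algebraMap ℂ F c)) ∧
    (∀ f : F, 0 ≤ w f → 0 ≤ w (δ f)) ∧
    (∃ r : F, 0 ≤ w r ∧ w (δ r) = 0) ∧
    (∃ u : F, u ≠ 0 ∧ (m : ℤ) * vz w u = vz w h)

end TriIdx
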