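import Pool.Agent.TriIdx.Geo
import Pool.Agent.TriIdx.MerData
import Pool.Agent.TriIdx.DerEx
import Pool.Agent.TriIdx.Kum

/-!
PROJECT TRI, module GEX (pure algebra; import `DerEx`, `Kum` as black boxes).

PROOF. Take `K, j, x, t` from `kummer_field`, `F₀ = j.fieldRange` (as a `Subfield`), `ξ = j E.ξ`,
`y = j E.y`, `h = j E.h`. `(ξ, x)` is algebraically independent over `ℂ` (a relation
`P(ξ, x) = 0` is a polynomial in `x` over `F₀`, so all its coefficients, polynomials in the
transcendental `ξ`, vanish) and every element of `K` is algebraic over it (closure induction).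
`D₀, E i` from `der_exists` for the family `Fin.cons ξ x` or `Option`-indexed.
`hFD`: `c = j (E.δ f / E.y)`: by `der_ext` for the algebra `F → K` given by `j` and `S = {E.ξ}`, the
derivations `D ∘ j` and `(D ξ / y) • (j ∘ E.δ)` are equal.
`hFalg` from `E.halg`. For `Full`:
`vp`: for `v` as given let `w = v.comap j`; if `w` is `0` on nonzero elements use the left
alternative, otherwise `E.hplace w`; note `D₀ (j f) = j (E.δ f)` by `der_ext`.
-/

namespace TriIdx

open Polynomial

/-- further properties of the function field data -/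
structure Full {K : Type} [Field K] [Algebra ℂ K] {n m N : ℕ} (G : Geo K n m N) : Prop where
  vp : ∀ v : AddValuation K (WithTop ℤ), (∀ c : ℂ, c ≠ 0 → v (algebraMap ℂ K c) = 0) →
    (∃ π : K, v π = ((1 : ℤ) : WithTop ℤ)) → VP G v
  indep : ∀ P : MvPolynomial (Fin n) G.F₀, P.eval₂ G.F₀.subtype G.x = 0 → P = 0
  kum : ∀ ζ : ℂ, ζ ^ m = 1 → ∃ σ : K ≃ₐ[ℂ] K, (∀ f ∈ G.F₀, σ f = f) ∧ (∀ i, σ (G.x i) = G.x i) ∧
    σ G.t = algebraMap ℂ K ζ * G.t
  root : ∀ (i : ℕ) (q : K), q ∈ G.F₀ → G.h ^ i = q ^ m → m ∣ i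
  gen₀ : ∀ f ∈ G.F₀, f ∈ IntermediateField.adjoin ℂ {G.ξ, G.y}
  basis : AlgebraicIndependent ℂ (Fin.cons G.ξ G.x : Fin (n + 1) → K)
  alg : ∀ w : K, IsAlgebraic (Algebra.adjoin ℂ (Set.range (Fin.cons G.ξ G.x : Fin (n + 1) → K))) w

section

variable {F K : Type} [Field F] [Algebra ℂ F] [Field K] [Algebra ℂ K] (j : F →ₐ[ℂ] K)

/-- images of algebraic elements -/
private theorem gex_alg (ξ : F) {f : F} (hf : IsAlgebraic (Algebra.adjoin ℂ {ξ}) f)
    {A : Subalgebra ℂ K} (hA : j ξ ∈ A) : IsAlgebraic A (j f) := by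
  obtain ⟨p, hp0, hp⟩ := hf
  have hmem : ∀ s : Algebra.adjoin ℂ {ξ}, j (s : F) ∈ A := by
    rintro ⟨s, hs⟩
    have h1 : (Algebra.adjoin ℂ {ξ}).map j ≤ A := by
      rw [AlgHom.map_adjoin, Set.image_singleton]
      exact Algebra.adjoin_le (by simpa using hA)
    exact h1 ⟨s, hs, rfl⟩
  let e : Algebra.adjoin ℂ {ξ} →+* A :=
    ((j.comp (Algebra.adjoin ℂ {ξ}).val).codRestrict A hmem : _ →+* _)
  have he : Function.Injective e := by
    intro a b hab
    apply Subtype.ext
    apply j.toRingHom.injective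
    exact congrArg Subtype.val hab
  refine ⟨p.map e, (Polynomial.map_ne_zero_iff he).2 hp0, ?_⟩
  rw [Polynomial.aeval_def, Polynomial.eval₂_map]
  have h2 : (algebraMap A K).comp e = (j : F →+* K).comp (algebraMap (Algebra.adjoin ℂ {ξ}) F) := by
    ext a
    rfl
  rw [h2]
  have h3 := Polynomial.hom_eval₂ p (algebraMap (Algebra.adjoin ℂ {ξ}) F) (j : F →+* K) f
  rw [Polynomial.aeval_def] at hp
  rw [hp, map_zero] at h3
  exact h3.symm

end

theorem exists_geo {F : Type} [Field F] [Algebra ℂ F] {n m N : ℕ} (E : EllData F m) (hn : 2 ≤ n)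
    (hNm : N < m) (hm2 : m ≤ 2 * N) (a b : Fin n → ℕ) (ha : ∀ i, 0 < a i)
    (hab : ∀ i, b i * a i = N) (hsum : ∑ i, b i + 1 = N) :
    ∃ (K : Type) (_ : Field K) (_ : Algebra ℂ K) (G : Geo K n m N), Full G ∧ G.a = a ∧ G.b = b := by
  classical
  have hm : 0 < m := by omega
  have hn0 : 0 < n := by omega
  obtain ⟨K, fK, aK, j, x, t, k1, k2, k3, k4⟩ := kummer_field hn0 hm a ha E.h E.hh0
  let _ : Algebra F K := (j : F →+* K).toAlgebra
  have hmap : ∀ f : F, algebraMap F K f = j f := fun f => rfl
  have tower : IsScalarTower ℂ F K := IsScalarTower.of_algebraMap_eq fun c => (j.commutes c).symm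
  have jinj : Function.Injective j := j.toRingHom.injective
  set F₀ : Subfield K := (j : F →+* K).fieldRange with hF₀
  have memF : ∀ f : F, j f ∈ F₀ := fun f => ⟨f, rfl⟩
  have exF : ∀ g ∈ F₀, ∃ f : F, j f = g := by
    rintro g ⟨f, hf⟩
    exact ⟨f, hf⟩
  set z : Fin (n + 1) → K := Fin.cons (j E.ξ) x with hz
  -- algebraic independence
  have hbasis : AlgebraicIndependent ℂ z := by
    have hy : AlgebraicIndependent F x := by
      rw [algebraicIndependent_iff]
      intro P hP
      exact k1 P hP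
    have hx1 : AlgebraicIndependent ℂ (fun _ : Unit => E.ξ) := by
      rw [algebraicIndependent_unique_type_iff]
      exact E.hξtr
    have h1 := AlgebraicIndependent.sumElim_comp (R := ℂ) (S := F) (A := K) hx1 hy
    let e : Fin (n + 1) → Fin n ⊕ Unit := Fin.cons (Sum.inr ()) Sum.inl
    have he : Function.Injective e := by
      intro a b hab
      induction a using Fin.cases with
      | zero =>
        induction b using Fin.cases with
        | zero => rfl
        | succ b => simp [e] at hab
      | succ a =>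
        induction b using Fin.cases with
        | zero => simp [e] at hab
        | succ b =>
          simp [e] at hab
          rw [hab]
    have h2 := h1.comp e he
    have h3 : (Sum.elim x (algebraMap F K ∘ fun _ : Unit => E.ξ)) ∘ e = z := by
      funext i
      induction i using Fin.cases with
      | zero => rfl
      | succ i => rfl
    rwa [h3] at h2
  have hz0 : z 0 = j E.ξ := rfl
  have hzs : ∀ i : Fin n, z i.succ = x i := fun i => rfl
  have hzA : ∀ i, z i ∈ Algebra.adjoin ℂ (Set.range z) := fun i => Algebra.subset_adjoin ⟨i, rfl⟩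
  have halg : ∀ w : K, IsAlgebraic (Algebra.adjoin ℂ (Set.range z)) w := by
    have hj : ∀ f : F, IsAlgebraic (Algebra.adjoin ℂ (Set.range z)) (j f) := fun f =>
      gex_alg j E.ξ (E.halg f) (hzA 0)
    have hxA : ∀ i, IsAlgebraic (Algebra.adjoin ℂ (Set.range z)) (x i) := fun i =>
      isAlgebraic_algebraMap (⟨x i, hzA i.succ⟩ : Algebra.adjoin ℂ (Set.range z))
    have ht : IsAlgebraic (Algebra.adjoin ℂ (Set.range z)) t := by
      have hh : j E.h ≠ 0 := by
        intro h0
        exact E.hh0 (jinj (by rw [h0, map_zero]))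
      have h1 : t ^ m = (j E.h)⁻¹ * (1 + ∑ i, x i ^ a i) := by
        rw [← k2, ← mul_assoc, inv_mul_cancel₀ hh, one_mul]
      have h2 : IsAlgebraic (Algebra.adjoin ℂ (Set.range z)) (1 + ∑ i, x i ^ a i) := by
        have h3 : (1 + ∑ i, x i ^ a i : K) ∈ Algebra.adjoin ℂ (Set.range z) :=
          add_mem (one_mem _) (sum_mem fun i _ => pow_mem (hzA i.succ) _)
        exact isAlgebraic_algebraMap (⟨_, h3⟩ : Algebra.adjoin ℂ (Set.range z))
      have h4 : IsAlgebraic (Algebra.adjoin ℂ (Set.range z)) (t ^ m) := by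
        rw [h1]
        exact (hj E.h).inv.mul h2
      exact h4.of_pow hm
    intro w
    have hw := k3 w
    induction hw using Subfield.closure_induction with
    | mem y hy =>
      rcases hy with ⟨f, rfl⟩ | ⟨i, rfl⟩ | hy
      · exact hj f
      · exact hxA i
      · rw [Set.mem_singleton_iff.1 hy]; exact ht
    | one => exact isAlgebraic_one
    | add x y _ _ hx hy => exact hx.add hy
    | neg x _ hx => exact hx.neg
    | inv x _ hx => exact hx.inv
    | mul x y _ _ hx hy => exact hx.mul hy
  -- derivations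
  obtain ⟨D₀, hD₀⟩ := der_exists z hbasis halg (Fin.cons (j E.y) (fun _ => 0))
  have hEex : ∀ i : Fin n, ∃ D : Derivation ℂ K K, ∀ l, D (z l) =
      (Fin.cons 0 (fun l => if i = l then 1 else 0) : Fin (n + 1) → K) l := fun i =>
    der_exists z hbasis halg _
  choose Ed hEd using hEex
  have hy0 : j E.y ≠ 0 := fun h0 => E.hy0 (jinj (by rw [h0, map_zero]))
  have hder : ∀ (D : Derivation ℂ K K) (f : F), D (j f) = (D (j E.ξ) / j E.y) * j (E.δ f) := by
    intro D f
    let D₁ : Derivation ℂ F K := D.compAlgebraMap F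
    let D₂ : Derivation ℂ F K := (D (j E.ξ) / j E.y) • ((Algebra.linearMap F K).compDer E.δ)
    have h1 : D₁ = D₂ := by
      refine der_ext {E.ξ} E.halg D₁ D₂ ?_
      intro s hs
      rw [Set.mem_singleton_iff.1 hs]
      show D (j E.ξ) = (D (j E.ξ) / j E.y) * j (E.δ E.ξ)
      rw [E.hδξ, div_mul_cancel₀ _ hy0]
    exact congrArg (fun D' : Derivation ℂ F K => D' f) h1
  have hD₀j : ∀ f : F, D₀ (j f) = j (E.δ f) := by
    intro f
    have h1 : D₀ (j E.ξ) = j E.y := hD₀ 0
    rw [hder D₀ f, h1, div_self hy0, one_mul]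
  have hxne : ∀ i, x i ≠ 0 := by
    intro i h0
    have h1 := k1 (MvPolynomial.X i) (by rw [MvPolynomial.eval₂_X, h0])
    exact MvPolynomial.X_ne_zero i h1
  have hτ : (1 + ∑ i, x i ^ a i : K) ≠ 0 := by
    intro h0
    have h1 := k1 (1 + ∑ i, MvPolynomial.X i ^ a i) (by
      rw [MvPolynomial.eval₂_add, MvPolynomial.eval₂_one, MvPolynomial.eval₂_sum]
      simp only [MvPolynomial.eval₂_pow, MvPolynomial.eval₂_X]
      exact h0)
    have h2 := congrArg (MvPolynomial.eval₂ (RingHom.id F) (fun _ => 0)) h1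
    rw [MvPolynomial.eval₂_add, MvPolynomial.eval₂_one, MvPolynomial.eval₂_sum] at h2
    simp only [MvPolynomial.eval₂_pow, MvPolynomial.eval₂_X, MvPolynomial.eval₂_zero] at h2
    rw [Finset.sum_eq_zero (fun i _ => zero_pow (ha i).ne'), add_zero] at h2
    exact one_ne_zero h2
  let G : Geo K n m N :=
    { F₀ := F₀
      ξ := j E.ξ
      y := j E.y
      h := j E.h
      t := t
      x := x
      a := a
      b := b
      D₀ := D₀
      E := Ed
      hn := hn
      hNm := hNm
      hm2 := hm2
      ha := ha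
      hab := hab
      hsum := hsum
      hconst := fun c => by
        rw [← j.commutes c]
        exact memF _
      hξ := memF _
      hξtr := by
        intro h0
        exact E.hξtr ((isAlgebraic_algHom_iff j jinj).1 h0)
      hy := memF _
      hy0 := hy0
      hh := memF _
      hh0 := fun h0 => E.hh0 (jinj (by rw [h0, map_zero]))
      hFalg := by
        intro f hf
        obtain ⟨g, rfl⟩ := exF f hf
        exact gex_alg j E.ξ (E.halg g) (Algebra.subset_adjoin rfl)
      hFD := by
        intro f hf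
        obtain ⟨g, rfl⟩ := exF f hf
        refine ⟨j (E.δ g / E.y), memF _, fun D => ?_⟩
        rw [hder D g, map_div₀]
        ring
      hD₀ξ := hD₀ 0
      hD₀x := fun l => hD₀ l.succ
      hEξ := fun i => hEd i 0
      hEx := fun i l => hEd i l.succ
      hx := hxne
      hrel := k2
      hτ := hτ
      hgen := fun w => by
        have := k3 w
        have h1 : (F₀ : Set K) = Set.range j := by
          rw [hF₀]; exact RingHom.coe_fieldRange _
        rw [h1]
        exact this }
  refine ⟨K, fK, aK, G, ?_, rfl, rfl⟩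
  refine
    { vp := ?_
      indep := ?_
      kum := ?_
      root := ?_
      gen₀ := ?_
      basis := hbasis
      alg := halg }
  · -- valuations
    intro v hv hs
    refine ⟨hv, hs, ?_⟩
    set w : AddValuation F (WithTop ℤ) := v.comap (j : F →+* K) with hw
    have hwv : ∀ f : F, w f = v (j f) := fun f => rfl
    have hvz : ∀ f : F, vz w f = vz v (j f) := fun f => rfl
    by_cases hnt : ∃ f : F, f ≠ 0 ∧ w f ≠ 0
    · right
      have hwc : ∀ c : ℂ, c ≠ 0 → w (algebraMap ℂ F c) = 0 := by
        intro c hc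
        rw [hwv, j.commutes]
        exact hv c hc
      obtain ⟨p1, p2, ⟨r, hr1, hr2⟩, ⟨u, hu1, hu2⟩⟩ := E.hplace w hwc hnt
      refine ⟨?_, ?_, ⟨j r, memF r, hr1, ?_⟩, ⟨j u, memF u, ?_, hu2⟩⟩
      · intro f hf h0
        obtain ⟨g, rfl⟩ := exF f hf
        obtain ⟨c, hc⟩ := p1 g h0
        refine ⟨c, ?_⟩
        rw [hwv, map_sub, j.commutes] at hc
        exact hc
      · intro f hf h0
        obtain ⟨g, rfl⟩ := exF f hf
        show 0 ≤ v (D₀ (j g))
        rw [hD₀j]
        exact p2 g h0
      · show v (D₀ (j r)) = 0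
        rw [hD₀j]
        exact hr2
      · intro h0
        exact hu1 (jinj (by rw [h0, map_zero]))
    · left
      push Not at hnt
      intro f hf hf0
      obtain ⟨g, rfl⟩ := exF f hf
      exact hnt g (fun h0 => hf0 (by rw [h0, map_zero]))
  · -- independence over `F₀`
    intro P hP
    set e : F ≃+* F₀ := (j : F →+* K).rangeRestrictFieldEquiv with he
    have h1 : MvPolynomial.map (e.symm : F₀ →+* F) P = 0 := by
      apply k1
      rw [MvPolynomial.eval₂_map]
      have h2 : (j : F →+* K).comp (e.symm : F₀ →+* F) = F₀.subtype := by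
        ext f
        exact (j : F →+* K).rangeRestrictFieldEquiv_apply_symm_apply f
      rw [h2]
      exact hP
    exact MvPolynomial.map_injective (e.symm : F₀ →+* F) e.symm.injective (by rw [h1, map_zero])
  · intro ζ hζ
    obtain ⟨σ, s1, s2, s3⟩ := k4 ζ hζ
    refine ⟨σ, ?_, s2, s3⟩
    intro f hf
    obtain ⟨g, rfl⟩ := exF f hf
    exact s1 g
  · intro i q hq h1
    obtain ⟨g, rfl⟩ := exF q hq
    refine E.hroot i g (jinj ?_)
    rw [map_pow, map_pow]
    exact h1
  · intro f hf
    obtain ⟨g, rfl⟩ := exF f hf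
    have h1 : g ∈ IntermediateField.adjoin ℂ {E.ξ, E.y} := by rw [E.hfg]; trivial
    have h2 : j g ∈ (IntermediateField.adjoin ℂ {E.ξ, E.y}).map j := ⟨g, h1, rfl⟩
    rw [IntermediateField.adjoin_map, Set.image_pair] at h2
    exact h2

end TriIdx
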