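import Pool.Agent.TriIdx.IdxDefs

/-!
PROJECT TRI, module IDA (algebra).

PROOF. `jac G.D (ξ, x)` is the diagonal matrix `(y, 1, …, 1)` (`G.D = Fin.cons G.D₀ G.E`,
`G.hD₀ξ`, `G.hD₀x`, `G.hEξ`, `G.hEx`), so `G.D` is linearly independent. By `der_ext` (for `F = K` and
`S` the range of `Fin.cons ξ x`, `hG.alg`) every derivation is
`D' = (D' ξ / y) • D₀ + ∑ i, D' (x i) • E i`. So `D' i = ∑ k, A i k • G.D k` with a matrix `A`,
`c = det A`; if `det A = 0` there is a nonzero row vector `w` with `w A = 0`
(`Matrix.exists_vecMul_eq_zero_iff`), contradicting the independence of `D'`.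
-/

namespace TriIdx

variable {K : Type} [Field K] [Algebra ℂ K] {n m N : ℕ} (G : Geo K n m N)

theorem der_sum_apply {p : ℕ} (g : Fin p → K) (D : Fin p → Derivation ℂ K K) (z : K) :
    (∑ i, g i • D i) z = ∑ i, g i * D i z := by
  have h : (∑ i, g i • D i) z = ∑ i, (g i • D i) z := by
    have h1 := map_sum (Derivation.coeFnAddMonoidHom : Derivation ℂ K K →+ K → K)
      (fun i => g i • D i) Finset.univ
    have h2 := congrFun h1 z
    rw [Finset.sum_apply] at h2
    exact h2
  rw [h]
  rfl

theorem D_indep : LinearIndependent K G.D := by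
  rw [Fintype.linearIndependent_iff]
  intro g hg
  have hz : ∀ z : K, g 0 * G.D₀ z + ∑ i : Fin n, g i.succ * G.E i z = 0 := by
    intro z
    have h1 := congrArg (fun D : Derivation ℂ K K => D z) hg
    simp only [der_sum_apply, Derivation.coe_zero, Pi.zero_apply] at h1
    rw [Fin.sum_univ_succ] at h1
    exact h1
  have h0 : g 0 = 0 := by
    have h1 := hz G.ξ
    rw [G.hD₀ξ, Finset.sum_eq_zero (fun i _ => by rw [G.hEξ, mul_zero]), add_zero] at h1
    exact (mul_eq_zero.1 h1).resolve_right G.hy0
  intro i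
  refine Fin.cases h0 (fun j => ?_) i
  have h1 := hz (G.x j)
  rw [h0, zero_mul, zero_add, Finset.sum_eq_single j] at h1
  · rw [G.hEx, if_pos rfl, mul_one] at h1
    exact h1
  · intro k _ hk
    rw [G.hEx, if_neg hk, mul_zero]
  · intro h
    exact absurd (Finset.mem_univ j) h

/-- the coefficients of a derivation with respect to `G.D` -/
noncomputable def derCoef (D : Derivation ℂ K K) : Fin (n + 1) → K :=
  Fin.cons (D G.ξ / G.y) fun i => D (G.x i)

theorem der_eq (hG : Full G) (D : Derivation ℂ K K) : D = ∑ k, derCoef G D k • G.D k := by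
  refine der_ext (F := K) (K := K) (Set.range (Fin.cons G.ξ G.x : Fin (n + 1) → K)) hG.alg D _ ?_
  rintro _ ⟨j, rfl⟩
  rw [der_sum_apply, Fin.sum_univ_succ]
  have e0 : derCoef G D 0 = D G.ξ / G.y := rfl
  have es : ∀ i : Fin n, derCoef G D i.succ = D (G.x i) := fun i => rfl
  have d0 : G.D 0 = G.D₀ := rfl
  have ds : ∀ i : Fin n, G.D i.succ = G.E i := fun i => rfl
  simp only [e0, es, d0, ds]
  refine Fin.cases ?_ (fun j' => ?_) j
  · show D G.ξ = D G.ξ / G.y * G.D₀ G.ξ + ∑ i, D (G.x i) * G.E i G.ξ
    rw [G.hD₀ξ, Finset.sum_eq_zero (fun i _ => by rw [G.hEξ, mul_zero]), add_zero,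
      div_mul_cancel₀ _ G.hy0]
  · show D (G.x j') = D G.ξ / G.y * G.D₀ (G.x j') + ∑ i, D (G.x i) * G.E i (G.x j')
    rw [G.hD₀x, mul_zero, zero_add, Finset.sum_eq_single j']
    · rw [G.hEx, if_pos rfl, mul_one]
    · intro k _ hk
      rw [G.hEx, if_neg hk, mul_zero]
    · intro h
      exact absurd (Finset.mem_univ j') h

theorem der_matrix (hG : Full G) (D' : Fin (n + 1) → Derivation ℂ K K)
    (hD' : LinearIndependent K D') :
    ∃ c : K, c ≠ 0 ∧ ∀ y : Fin (n + 1) → K,
      (Matrix.of fun i j => D' i (y j)).det = c * (jac G.D y).det := by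
  set A : Matrix (Fin (n + 1)) (Fin (n + 1)) K := Matrix.of fun i k => derCoef G (D' i) k with hA
  refine ⟨A.det, ?_, ?_⟩
  · intro h0
    obtain ⟨w, hw0, hw⟩ := Matrix.exists_vecMul_eq_zero_iff.2 h0
    apply hw0
    have h1 : ∑ i, w i • D' i = 0 := by
      refine Derivation.ext fun z => ?_
      rw [der_sum_apply]
      have h2 : ∀ i, D' i z = ∑ k, A i k * G.D k z := by
        intro i
        have h3 := congrArg (fun D : Derivation ℂ K K => D z) (der_eq G hG (D' i))
        simp only [der_sum_apply] at h3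
        exact h3
      calc ∑ i, w i * D' i z = ∑ i, ∑ k, w i * A i k * G.D k z := by
            refine Finset.sum_congr rfl fun i _ => ?_
            rw [h2, Finset.mul_sum]
            refine Finset.sum_congr rfl fun k _ => ?_
            ring
        _ = ∑ k, (∑ i, w i * A i k) * G.D k z := by
            rw [Finset.sum_comm]
            refine Finset.sum_congr rfl fun k _ => ?_
            rw [Finset.sum_mul]
        _ = 0 := by
            refine Finset.sum_eq_zero fun k _ => ?_
            have h4 := congrFun hw k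
            rw [Matrix.vecMul, dotProduct] at h4
            rw [h4, Pi.zero_apply, zero_mul]
    exact funext fun i => Fintype.linearIndependent_iff.1 hD' w h1 i
  · intro y
    rw [← Matrix.det_mul]
    congr 1
    ext i j
    rw [Matrix.mul_apply]
    simp only [jac, Matrix.of_apply]
    have h3 := congrArg (fun D : Derivation ℂ K K => D (y j)) (der_eq G hG (D' i))
    simp only [der_sum_apply] at h3
    exact h3

end TriIdx
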