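import Pool.Agent.TriIdx.IdxDefs

/-!
PROJECT TRI, module IDB (algebra). Kummer decomposition.

PROOF. `K = K₁(t)` with `t ^ m = τ / h ∈ K₁` (`t_pow`, `tau_mem`), so `w = p(t)` for a polynomial `p` over
`K₁` (`gen_of_closure`), which may be taken of degree `< m` (reduce modulo `X ^ m - C (t ^ m)`, or
directly group exponents modulo `m`). `σ ^ i w = ∑ j, g j (ζ ^ i t) ^ j` as `σ` fixes `K₁`; orthogonality
`∑ i < m, ζ^{i (j' - j)} = 0` for `j ≠ j'` (`IsPrimitiveRoot.geom_sum_eq_zero` and variants).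
-/

namespace TriIdx

private theorem idb_sum {ζ : ℂ} {m : ℕ} (hm : 0 < m) (hζ : IsPrimitiveRoot ζ m) {j j' : ℕ}
    (hj : j < m) (hj' : j' < m) :
    ∑ i ∈ Finset.range m, ζ⁻¹ ^ (i * j) * ζ ^ (i * j') = if j' = j then (m : ℂ) else 0 := by
  have hζ0 : ζ ≠ 0 := hζ.ne_zero hm.ne'
  have h1 : ∀ i ∈ Finset.range m, ζ⁻¹ ^ (i * j) * ζ ^ (i * j') = (ζ⁻¹ ^ j * ζ ^ j') ^ i := by
    intro i _
    rw [mul_pow, ← pow_mul, ← pow_mul, mul_comm j i, mul_comm j' i]
  rw [Finset.sum_congr rfl h1]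
  split_ifs with h
  · rw [h, ← mul_pow, inv_mul_cancel₀ hζ0]
    simp
  · have h2 : ζ⁻¹ ^ j * ζ ^ j' ≠ 1 := by
      intro hcon
      apply h
      have h3 : ζ ^ j' = ζ ^ j := by
        have h4 := congrArg (fun z => ζ ^ j * z) hcon
        rw [← mul_assoc, ← mul_pow, mul_inv_cancel₀ hζ0, one_pow, one_mul, mul_one] at h4
        exact h4
      exact hζ.pow_inj hj' hj h3
    have h3 := geom_sum_mul (ζ⁻¹ ^ j * ζ ^ j') m
    have h4 : (ζ⁻¹ ^ j * ζ ^ j') ^ m = 1 := by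
      rw [mul_pow, ← pow_mul, ← pow_mul, mul_comm j m, mul_comm j' m, pow_mul, pow_mul, inv_pow,
        hζ.pow_eq_one, inv_one, one_pow, one_pow, one_mul]
    rw [h4, sub_self] at h3
    exact (mul_eq_zero.mp h3).resolve_right (sub_ne_zero.mpr h2)

variable {K : Type} [Field K] [Algebra ℂ K] {n m N : ℕ} (G : Geo K n m N)

theorem kum_decomp (ζ : ℂ) (hζ : IsPrimitiveRoot ζ m) (σ : K ≃ₐ[ℂ] K)
    (hσF : ∀ f ∈ G.F₀, σ f = f) (hσx : ∀ i, σ (G.x i) = G.x i)
    (hσt : σ G.t = algebraMap ℂ K ζ * G.t) (w : K) :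
    ∃ g : ℕ → K, (∀ j, g j ∈ G.K₁) ∧ w = ∑ j ∈ Finset.range m, g j * G.t ^ j ∧
      ∀ j < m, (m : K) * (g j * G.t ^ j)
        = ∑ i ∈ Finset.range m, algebraMap ℂ K (ζ⁻¹ ^ (i * j)) * (σ ^ i) w := by
  classical
  have hm : 0 < m := lt_of_le_of_lt (Nat.zero_le _) G.hNm
  have hF : ∀ f ∈ G.F₀, f ∈ G.K₁ := fun f hf => Subfield.subset_closure (Or.inl hf)
  have hx : ∀ i, G.x i ∈ G.K₁ := fun i => Subfield.subset_closure (Or.inr ⟨i, rfl⟩)
  have htm : G.t ^ m ∈ G.K₁ := by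
    rw [t_pow G]
    exact G.K₁.div_mem (tau_mem G hx) (hF _ G.hh)
  have hgen : w ∈ Subfield.closure ((G.K₁ : Set K) ∪ {G.t}) := by
    refine Subfield.closure_le.2 ?_ (G.hgen w)
    rintro c (hc | hc)
    · exact Subfield.subset_closure (Or.inl (hF c hc))
    · rcases hc with ⟨i, rfl⟩ | hc
      · exact Subfield.subset_closure (Or.inl (hx i))
      · exact Subfield.subset_closure (Or.inr hc)
  obtain ⟨p, hp⟩ := gen_of_closure hm htm hgen
  rw [Polynomial.eval₂_eq_sum_range] at hp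
  obtain ⟨M, hM⟩ : ∃ M, M = p.natDegree + 1 := ⟨_, rfl⟩
  rw [← hM] at hp
  let g : ℕ → K := fun j => ∑ k ∈ (Finset.range M).filter (fun k => k % m = j),
    (G.K₁.subtype (p.coeff k)) * (G.t ^ m) ^ (k / m)
  have hgK : ∀ j, g j ∈ G.K₁ := by
    intro j
    refine G.K₁.sum_mem fun k _ => G.K₁.mul_mem ?_ (G.K₁.pow_mem htm _)
    exact (p.coeff k).2
  have hw : w = ∑ j ∈ Finset.range m, g j * G.t ^ j := by
    rw [hp]
    rw [← Finset.sum_fiberwise_of_maps_to (s := Finset.range M) (t := Finset.range m)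
      (g := fun k => k % m) (fun k _ => Finset.mem_range.mpr (Nat.mod_lt _ hm))]
    refine Finset.sum_congr rfl fun j _ => ?_
    rw [Finset.sum_mul]
    refine Finset.sum_congr rfl fun k hk => ?_
    have hk' := (Finset.mem_filter.mp hk).2
    rw [mul_assoc, ← pow_mul, ← pow_add, ← hk', Nat.div_add_mod]
  -- the automorphism
  have hσK : ∀ f ∈ G.K₁, σ f = f := by
    intro f hf
    have h1 : G.K₁ ≤ RingHom.eqLocusField (σ : K →+* K) (RingHom.id K) := by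
      rw [Geo.K₁, Subfield.closure_le]
      rintro c (hc | ⟨i, rfl⟩)
      · exact hσF c hc
      · exact hσx i
    exact h1 hf
  have hσiK : ∀ i : ℕ, ∀ f ∈ G.K₁, (σ ^ i) f = f := by
    intro i f hf
    induction i with
    | zero => rfl
    | succ i ih =>
      rw [pow_succ', AlgEquiv.mul_apply, ih, hσK f hf]
  have hσit : ∀ i : ℕ, (σ ^ i) G.t = algebraMap ℂ K (ζ ^ i) * G.t := by
    intro i
    induction i with
    | zero => simp
    | succ i ih =>
      rw [pow_succ', AlgEquiv.mul_apply, ih, map_mul, AlgEquiv.commutes, hσt, ← mul_assoc,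
        ← map_mul, ← pow_succ]
  refine ⟨g, hgK, hw, fun j hj => ?_⟩
  have h1 : ∀ i ∈ Finset.range m, algebraMap ℂ K (ζ⁻¹ ^ (i * j)) * (σ ^ i) w =
      ∑ j' ∈ Finset.range m, algebraMap ℂ K (ζ⁻¹ ^ (i * j) * ζ ^ (i * j')) *
        (g j' * G.t ^ j') := by
    intro i _
    conv_lhs => rw [hw]
    rw [map_sum, Finset.mul_sum]
    refine Finset.sum_congr rfl fun j' _ => ?_
    have e1 : (σ ^ i) (g j' * G.t ^ j') = g j' * (algebraMap ℂ K (ζ ^ (i * j')) * G.t ^ j') := by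
      rw [map_mul, hσiK i _ (hgK j'), map_pow (σ ^ i), hσit, mul_pow, ← map_pow, ← pow_mul]
    rw [e1, map_mul (algebraMap ℂ K)]
    ring
  rw [Finset.sum_congr rfl h1, Finset.sum_comm]
  have h2 : ∀ j' ∈ Finset.range m, ∑ i ∈ Finset.range m,
      algebraMap ℂ K (ζ⁻¹ ^ (i * j) * ζ ^ (i * j')) * (g j' * G.t ^ j') =
      if j' = j then (m : K) * (g j' * G.t ^ j') else 0 := by
    intro j' hj'
    rw [← Finset.sum_mul, ← map_sum, idb_sum hm hζ hj (Finset.mem_range.mp hj')]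
    split_ifs
    · rw [map_natCast]
    · rw [map_zero, zero_mul]
  rw [Finset.sum_congr rfl h2, Finset.sum_ite_eq', if_pos (Finset.mem_range.mpr hj)]

end TriIdx
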