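import Pool.Agent.TriIdx.Val

/-!
PROJECT TRI, module PLX (pure commutative algebra). Existence of discrete valuations on a finite
extension `K` of `M(z)` above a given irreducible polynomial `p ∈ M[X]`.

PROOF. Make `K` an algebra over `M[X]` by `X ↦ z` (injective since `z` is transcendental over `M`).
`K` is a finite separable (characteristic zero) extension of the fraction field `RatFunc M` or
`FractionRing M[X]` or `IntermediateField.adjoin M {z}` (finitely generated and algebraic), so the
integral closure `B` of `M[X]` in `K` is a Dedekind domain with fraction field `K`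
(`integralClosure.isDedekindDomain`, `integralClosure.isFractionRing_of_finite_extension`).
There is a maximal ideal `𝔓` of `B` over `(p)` (`Ideal.exists_ideal_over_maximal_of_isIntegral`);
the valuation of `K` at the height one prime `𝔓` (`IsDedekindDomain.HeightOneSpectrum.valuation`,
values in `ℤᵐ⁰`) is turned into an additive valuation with values in `WithTop ℤ`
(`V x = ⊤` if `x = 0`, else `-` of the integer); `valuation_exists_uniformizer`.
For `c ∈ M`, `c ≠ 0`, both `c` and `c⁻¹` are in `B`, so the value is `0`. If `p ∤ A` then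
`u A + w p = 1` in `M[X]`, so `A(z)` is not in `𝔓`, value `0`.
`exists_pole`: `z = c⁻¹`, `p = X`. `ξ` (and so every element of `K`) is algebraic over `M(z)` because
`c` is algebraic over `M(ξ)` and not over `M` (exchange; e.g. the matroid
`AlgebraicIndependent.matroid`, or a two variable polynomial relation).
-/

namespace TriIdx

open Polynomial

/-- the additive valuation of a valuation with values in the integers -/
private noncomputable def plxAdd {K : Type} [Field K] (w : Valuation K (WithZero (Multiplicative ℤ))) :
    AddValuation K (WithTop ℤ) :=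
  AddValuation.of (fun x => if w x = 0 then (⊤ : WithTop ℤ) else ((-(WithZero.log (w x)) : ℤ) : WithTop ℤ))
    (by simp) (by simp)
    (by
      intro x y
      show min (if w x = 0 then (⊤ : WithTop ℤ) else ((-(WithZero.log (w x)) : ℤ) : WithTop ℤ))
        (if w y = 0 then (⊤ : WithTop ℤ) else ((-(WithZero.log (w y)) : ℤ) : WithTop ℤ)) ≤
        (if w (x + y) = 0 then (⊤ : WithTop ℤ) else ((-(WithZero.log (w (x + y))) : ℤ) : WithTop ℤ))
      have h := w.map_add x y
      by_cases hxy : w (x + y) = 0
      · rw [if_pos hxy]
        exact le_top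
      rw [if_neg hxy]
      rcases le_total (w x) (w y) with hle | hle
      · rw [max_eq_right hle] at h
        have hy : w y ≠ 0 := by
          intro h0
          rw [h0] at h
          exact hxy (le_antisymm h zero_le)
        refine (min_le_right _ _).trans ?_
        rw [if_neg hy]
        exact WithTop.coe_le_coe.2 (neg_le_neg ((WithZero.log_le_log hxy hy).2 h))
      · rw [max_eq_left hle] at h
        have hx : w x ≠ 0 := by
          intro h0
          rw [h0] at h
          exact hxy (le_antisymm h zero_le)
        refine (min_le_left _ _).trans ?_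
        rw [if_neg hx]
        exact WithTop.coe_le_coe.2 (neg_le_neg ((WithZero.log_le_log hxy hx).2 h)))
    (by
      intro x y
      show (if w (x * y) = 0 then (⊤ : WithTop ℤ) else ((-(WithZero.log (w (x * y))) : ℤ) : WithTop ℤ)) =
        (if w x = 0 then (⊤ : WithTop ℤ) else ((-(WithZero.log (w x)) : ℤ) : WithTop ℤ)) +
        (if w y = 0 then (⊤ : WithTop ℤ) else ((-(WithZero.log (w y)) : ℤ) : WithTop ℤ))
      by_cases hx : w x = 0
      · rw [if_pos (by rw [map_mul, hx, zero_mul]), if_pos hx, WithTop.top_add]
      by_cases hy : w y = 0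
      · rw [if_pos (by rw [map_mul, hy, mul_zero]), if_pos hy, WithTop.add_top]
      rw [if_neg (by rw [map_mul]; exact mul_ne_zero hx hy), if_neg hx, if_neg hy, map_mul,
        WithZero.log_mul hx hy, neg_add]
      rfl)

private theorem plxAdd_apply {K : Type} [Field K] (w : Valuation K (WithZero (Multiplicative ℤ))) (x : K) :
    plxAdd w x = if w x = 0 then (⊤ : WithTop ℤ) else ((-(WithZero.log (w x)) : ℤ) : WithTop ℤ) := rfl

private theorem plxAdd_nonneg {K : Type} [Field K] (w : Valuation K (WithZero (Multiplicative ℤ))) {x : K}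
    (h : w x ≤ 1) : 0 ≤ plxAdd w x := by
  rw [plxAdd_apply]
  split_ifs with h0
  · exact le_top
  · have h1 : WithZero.log (w x) ≤ WithZero.log (1 : WithZero (Multiplicative ℤ)) :=
      (WithZero.log_le_log h0 one_ne_zero).2 h
    rw [WithZero.log_one] at h1
    have h2 : (0 : ℤ) ≤ -WithZero.log (w x) := by linarith
    exact_mod_cast h2

private theorem plxAdd_pos {K : Type} [Field K] (w : Valuation K (WithZero (Multiplicative ℤ))) {x : K}
    (h : w x < 1) : 0 < plxAdd w x := by
  rw [plxAdd_apply]
  split_ifs with h0
  · exact WithTop.coe_lt_top 0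
  · have h1 : WithZero.log (w x) < WithZero.log (1 : WithZero (Multiplicative ℤ)) :=
      (WithZero.log_lt_log h0 one_ne_zero).2 h
    rw [WithZero.log_one] at h1
    have h2 : (0 : ℤ) < -WithZero.log (w x) := by linarith
    exact_mod_cast h2

private theorem plxAdd_zero {K : Type} [Field K] (w : Valuation K (WithZero (Multiplicative ℤ))) {x : K}
    (h : w x = 1) : plxAdd w x = 0 := by
  rw [plxAdd_apply, h, if_neg one_ne_zero, WithZero.log_one]
  rfl

private theorem place_aux {R F K : Type} [CommRing R] [IsDomain R] [IsPrincipalIdealRing R] [Field F]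
    [Field K] [Algebra R F] [Algebra R K] [Algebra F K] [IsScalarTower R F K] [IsFractionRing R F]
    [FiniteDimensional F K] [Algebra.IsSeparable F K] (p : R) (hp : Irreducible p) :
    ∃ V : AddValuation K (WithTop ℤ), (∃ π : K, V π = ((1 : ℤ) : WithTop ℤ)) ∧
      (∀ r : R, 0 ≤ V (algebraMap R K r)) ∧ 0 < V (algebraMap R K p) ∧
      ∀ A : R, ¬ p ∣ A → V (algebraMap R K A) = 0 := by
  have hinj : Function.Injective (algebraMap R K) := by
    rw [IsScalarTower.algebraMap_eq R F K]
    exact (algebraMap F K).injective.comp (IsFractionRing.injective R F)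
  have : IsDedekindDomain (integralClosure R K) := integralClosure.isDedekindDomain R F K
  have : IsFractionRing (integralClosure R K) K :=
    integralClosure.isFractionRing_of_finite_extension F K
  have hmax : (Ideal.span {p}).IsMaximal :=
    PrincipalIdealRing.isMaximal_of_irreducible hp
  have hker : RingHom.ker (algebraMap R (integralClosure R K)) ≤ Ideal.span {p} := by
    intro r hr
    have h1 : algebraMap R (integralClosure R K) r = 0 := hr
    have h2 : algebraMap R K r = 0 := by
      have := congrArg (algebraMap (integralClosure R K) K) h1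
      rw [← IsScalarTower.algebraMap_apply, map_zero] at this
      exact this
    have h3 : r = 0 := hinj (by rw [h2, map_zero])
    rw [h3]
    exact Ideal.zero_mem _
  obtain ⟨Q, hQ, hQc⟩ := Ideal.exists_ideal_over_maximal_of_isIntegral
    (S := integralClosure R K) (Ideal.span {p}) hker
  have hpQ : algebraMap R (integralClosure R K) p ∈ Q := by
    have : p ∈ Q.comap (algebraMap R (integralClosure R K)) := by
      rw [hQc]
      exact Ideal.mem_span_singleton_self p
    exact this
  have hQ0 : Q ≠ ⊥ := by
    rintro rfl
    have h1 : algebraMap R (integralClosure R K) p = 0 := by simpa using hpQ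
    have h2 : algebraMap R K p = 0 := by
      have := congrArg (algebraMap (integralClosure R K) K) h1
      rw [← IsScalarTower.algebraMap_apply, map_zero] at this
      exact this
    exact hp.ne_zero (hinj (by rw [h2, map_zero]))
  obtain ⟨v, hv⟩ : ∃ v : IsDedekindDomain.HeightOneSpectrum (integralClosure R K), v.asIdeal = Q :=
    ⟨⟨Q, hQ.isPrime, hQ0⟩, rfl⟩
  have hle : ∀ r : R, v.valuation K (algebraMap R K r) ≤ 1 := by
    intro r
    rw [IsScalarTower.algebraMap_apply R (integralClosure R K) K]
    exact v.valuation_le_one _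
  refine ⟨plxAdd (v.valuation K), ?_, ?_, ?_, ?_⟩
  · obtain ⟨π, hπ⟩ := v.valuation_exists_uniformizer K
    refine ⟨π, ?_⟩
    rw [plxAdd_apply, hπ, if_neg WithZero.exp_ne_zero, WithZero.log_exp]
    norm_num
  · intro r
    exact plxAdd_nonneg _ (hle r)
  · refine plxAdd_pos _ ?_
    rw [IsScalarTower.algebraMap_apply R (integralClosure R K) K, v.valuation_lt_one_iff_mem, hv]
    exact hpQ
  · intro A hA
    refine plxAdd_zero _ (le_antisymm (hle A) (not_lt.1 fun h => hA ?_))
    rw [IsScalarTower.algebraMap_apply R (integralClosure R K) K, v.valuation_lt_one_iff_mem, hv] at h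
    have h2 : A ∈ Q.comap (algebraMap R (integralClosure R K)) := h
    rw [hQc] at h2
    exact Ideal.mem_span_singleton.1 h2

theorem exists_place {K : Type} [Field K] [CharZero K] (M : Subfield K) (z : K)
    (hz : Transcendental M z) (s : Finset K)
    (hs : ∀ w ∈ s, IsAlgebraic (Algebra.adjoin M {z}) w)
    (hgen : ∀ w : K, w ∈ Subfield.closure ((M : Set K) ∪ ({z} ∪ (s : Set K))))
    (p : M[X]) (hp : Irreducible p) :
    ∃ V : AddValuation K (WithTop ℤ), (∃ π : K, V π = ((1 : ℤ) : WithTop ℤ)) ∧
      (∀ c ∈ M, c ≠ 0 → V c = 0) ∧ 0 ≤ V z ∧ 0 < V (p.eval₂ M.subtype z) ∧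
      ∀ A : M[X], ¬ p ∣ A → V (A.eval₂ M.subtype z) = 0 := by
  classical
  let alg : Algebra M[X] K := (aeval z : M[X] →ₐ[M] K).toRingHom.toAlgebra
  have hmap : ∀ q : M[X], algebraMap M[X] K q = q.eval₂ M.subtype z := fun q => rfl
  have hinj : Function.Injective (algebraMap M[X] K) := transcendental_iff_injective.1 hz
  have : FaithfulSMul M[X] K := (faithfulSMul_iff_algebraMap_injective _ _).2 hinj
  let algF : Algebra (FractionRing M[X]) K := FractionRing.liftAlgebra M[X] K
  have tow : IsScalarTower M[X] (FractionRing M[X]) K := FractionRing.isScalarTower_liftAlgebra M[X] K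
  have hsF : ∀ w ∈ s, IsIntegral (FractionRing M[X]) w := by
    intro w hw
    have h1 : IsAlgebraic M[X] w := by
      have hmem : ∀ q : M[X], aeval z q ∈ Algebra.adjoin M {z} := by
        intro q
        exact Polynomial.aeval_mem_adjoin_singleton M z
      have hsurj : Function.Surjective
          ((aeval z : M[X] →ₐ[M] K).codRestrict (Algebra.adjoin M {z}) hmem).toRingHom := by
        rintro ⟨y, hy⟩
        obtain ⟨q, hq⟩ := Algebra.adjoin_singleton_eq_range_aeval M z ▸ hy
        exact ⟨q, Subtype.ext hq⟩
      exact IsAlgebraic.of_ringHom_of_comp_eq (f := ((aeval z : M[X] →ₐ[M] K).codRestrict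
        (Algebra.adjoin M {z}) hmem).toRingHom) (g := RingHom.id K) (a := w) (hs w hw) hsurj
        Function.injective_id rfl
    exact (isAlgebraic_iff_isIntegral).1 ((IsFractionRing.isAlgebraic_iff M[X] (FractionRing M[X]) K).1 h1)
  have htop : IntermediateField.adjoin (FractionRing M[X]) (s : Set K) = ⊤ := by
    rw [eq_top_iff]
    intro w _
    have h1 : Subfield.closure ((M : Set K) ∪ ({z} ∪ (s : Set K))) ≤
        (IntermediateField.adjoin (FractionRing M[X]) (s : Set K)).toSubfield := by
      rw [Subfield.closure_le]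
      rintro x (hx | hx | hx)
      · have : x = algebraMap (FractionRing M[X]) K (algebraMap M[X] (FractionRing M[X]) (C ⟨x, hx⟩)) := by
          rw [← IsScalarTower.algebraMap_apply, hmap, eval₂_C]
          rfl
        rw [this]
        exact IntermediateField.algebraMap_mem _ _
      · have hxz : x = z := hx
        have : x = algebraMap (FractionRing M[X]) K (algebraMap M[X] (FractionRing M[X]) X) := by
          rw [← IsScalarTower.algebraMap_apply, hmap, eval₂_X, hxz]
        rw [this]
        exact IntermediateField.algebraMap_mem _ _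
      · exact IntermediateField.subset_adjoin _ _ hx
    exact h1 (hgen w)
  have fin : FiniteDimensional (FractionRing M[X]) K := by
    have h1 : FiniteDimensional (FractionRing M[X]) (IntermediateField.adjoin (FractionRing M[X]) (s : Set K)) :=
      IntermediateField.finiteDimensional_adjoin fun w hw => hsF w hw
    rw [htop] at h1
    exact IntermediateField.topEquiv.toLinearEquiv.finiteDimensional
  have : CharZero (FractionRing M[X]) :=
    RingHom.charZero (algebraMap (FractionRing M[X]) K)
  obtain ⟨V, h1, h2, h3, h4⟩ := place_aux (R := M[X]) (F := FractionRing M[X]) (K := K) p hp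
  refine ⟨V, h1, ?_, ?_, ?_, ?_⟩
  · intro c hc hc0
    have e1 := h2 (C ⟨c, hc⟩)
    have e2 := h2 (C ⟨c⁻¹, M.inv_mem hc⟩)
    rw [hmap, eval₂_C] at e1 e2
    have e3 : V c + V c⁻¹ = 0 := by
      rw [← AddValuation.map_mul, mul_inv_cancel₀ hc0, AddValuation.map_one]
    exact ((add_eq_zero_iff_of_nonneg e1 e2).1 e3).1
  · have := h2 X
    rw [hmap, eval₂_X] at this
    exact this
  · rw [← hmap]
    exact h3
  · intro A hA
    rw [← hmap]
    exact h4 A hA

theorem exists_pole {K : Type} [Field K] [CharZero K] (M : Subfield K) (ξ : K) (s : Finset K)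
    (hs : ∀ w ∈ s, IsAlgebraic (Algebra.adjoin M {ξ}) w)
    (hgen : ∀ w : K, w ∈ Subfield.closure ((M : Set K) ∪ ({ξ} ∪ (s : Set K))))
    (c : K) (hc : Transcendental M c) :
    ∃ V : AddValuation K (WithTop ℤ), (∃ π : K, V π = ((1 : ℤ) : WithTop ℤ)) ∧
      (∀ a ∈ M, a ≠ 0 → V a = 0) ∧ V c < 0 := by
  classical
  have halg : ∀ w : K, IsAlgebraic (Algebra.adjoin M {ξ}) w := by
    intro w
    refine Subfield.closure_induction (p := fun w _ => IsAlgebraic (Algebra.adjoin M {ξ}) w)
      ?_ ?_ ?_ ?_ ?_ ?_ (hgen w)
    · rintro x (hx | hx | hx)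
      · exact isAlgebraic_algebraMap (R := Algebra.adjoin M {ξ}) (A := K)
          (algebraMap M (Algebra.adjoin M {ξ}) ⟨x, hx⟩)
      · have hx' : x = ξ := hx
        rw [hx']
        exact isAlgebraic_algebraMap (R := Algebra.adjoin M {ξ}) (A := K)
          ⟨ξ, Algebra.self_mem_adjoin_singleton M ξ⟩
      · exact hs x hx
    · exact isAlgebraic_one
    · intro x y _ _ hx hy
      exact hx.add hy
    · intro x _ hx
      exact hx.neg
    · intro x _ hx
      exact hx.inv
    · intro x y _ _ hx hy
      exact hx.mul hy
  have h1 : Algebra.IsAlgebraic (Algebra.adjoin M {ξ}) K := ⟨halg⟩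
  have h2 : Algebra.trdeg M K ≤ 1 := by
    have := Algebra.IsAlgebraic.trdeg_le_cardinalMk M ({ξ} : Set K)
    rwa [Cardinal.mk_singleton] at this
  have hz : Transcendental M c⁻¹ := by
    intro h
    have := h.inv
    rw [inv_inv] at this
    exact hc this
  have h3 : AlgebraicIndependent M (fun _ : Unit => c⁻¹) :=
    (algebraicIndependent_unique_type_iff).2 hz
  have h4 : IsTranscendenceBasis M (fun _ : Unit => c⁻¹) :=
    h3.isTranscendenceBasis_of_trdeg_le_of_finite (by simpa using h2)
  have h5 := h4.isAlgebraic
  have h6 : ∀ w : K, IsAlgebraic (Algebra.adjoin M {c⁻¹}) w := by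
    have h7 : Set.range (fun _ : Unit => c⁻¹) = {c⁻¹} := Set.range_const
    rw [h7] at h5
    exact fun w => h5.isAlgebraic w
  obtain ⟨V, v1, v2, v3, v4, v5⟩ := exists_place M c⁻¹ hz (insert ξ s) (fun w _ => h6 w)
    (fun w => by
      refine Subfield.closure_mono ?_ (hgen w)
      rintro x (hx | hx | hx)
      · exact Or.inl hx
      · exact Or.inr (Or.inr (by
          rw [Finset.coe_insert]
          exact Or.inl hx))
      · exact Or.inr (Or.inr (by
          rw [Finset.coe_insert]
          exact Or.inr hx))) X irreducible_X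
  refine ⟨V, v1, v2, ?_⟩
  rw [eval₂_X] at v4
  have hc0 : c ≠ 0 := by
    rintro rfl
    exact hc isAlgebraic_zero
  have e3 : V c + V c⁻¹ = 0 := by
    rw [← AddValuation.map_mul, mul_inv_cancel₀ hc0, AddValuation.map_one]
  by_contra hneg
  rw [not_lt] at hneg
  have := ((add_eq_zero_iff_of_nonneg hneg v4.le).1 e3).2
  rw [this] at v4
  exact lt_irrefl _ v4

end TriIdx
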