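import Pool.Agent.TriIdx.IdxDefs
import Pool.Agent.TriIdx.PlaceEx

/-!
PROJECT TRI, module IDC (algebra; import `PlaceEx` as a black box).

`tau_place`: a valuation over a component of the divisor `τ = 0`. PROOF. Fix `l : Fin n` (`0`),
`M = G.M G.x l` (generated by `F₀` and `x i`, `i ≠ l`), `z = x l`, transcendental over `M` by
`hG.indep`, `c = 1 + ∑_{i ≠ l} x_i^{a_i} ∈ M`, `c ≠ 0`. Let `p` be an irreducible factor of
`q = X ^ a_l + C c ∈ M[X]` and `V` from `exists_place` (`s = {t}`). `V τ > 0` since `τ = q(z)`.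
`q` is separable (derivative `a_l X^(a_l - 1)`, `q(0) = c ≠ 0`), so `q = p * p₁`, `p ∤ p₁`,
`V τ = V (p z)`. Every nonzero element of `K₁ = M(z)` is a quotient of `A(z)`, `A ∈ M[X]`
(`frac_of_closure`), `A = p ^ k * A'`, `p ∤ A'`, so its value is a multiple of `V τ`.
`Rindep V (Function.update G.x l G.ξ)`: `V` is trivial on `M`, and for `P ≠ 0` the element
`P(x_i (i ≠ l), ξ)` of `M` is nonzero by `hG.basis` (reindex).

`alg_of_no_pole`: if `c` is transcendental over `M₀ = ℂ(x)` apply `exists_pole` with `M = G.M₀`, `ξ`,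
`s = {y, t}` (all of `F₀` is in the field generated by `ℂ, ξ, y`: `hG.gen₀`; `y` is algebraic over
`ℂ[ξ]`, `t ^ m = τ / h`) to get `V c < 0`. Algebraic over the field `M₀` gives algebraic over
`Algebra.adjoin ℂ (Set.range G.x)` (`IsFractionRing.isAlgebraic_iff` or by hand, clearing
denominators).
-/

namespace TriIdx

open Polynomial

section general

variable {K : Type} [Field K] [Algebra ℂ K]

/-- elements of a generated subfield are algebraic -/
private theorem idc_closure {A : Type*} [CommRing A] [IsDomain A] [Algebra A K]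
    {S : Set K} (h : ∀ s ∈ S, IsAlgebraic A s) {w : K} (hw : w ∈ Subfield.closure S) :
    IsAlgebraic A w := by
  induction hw using Subfield.closure_induction with
  | mem x hx => exact h x hx
  | one => exact isAlgebraic_one
  | add x y _ _ hx hy => exact hx.add hy
  | neg x _ hx => exact hx.neg
  | inv x _ hx => exact hx.inv
  | mul x y _ _ hx hy => exact hx.mul hy

/-- larger base -/
private theorem idc_mono {A : Subalgebra ℂ K} {B : Type*} [CommRing B] [Algebra B K]
    (hBK : Function.Injective (algebraMap B K)) (hA : ∀ a ∈ A, ∃ b : B, algebraMap B K b = a)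
    {w : K} (h : IsAlgebraic A w) : IsAlgebraic B w := by
  choose f hf using hA
  let g : A →+* B :=
    { toFun := fun a => f a a.2
      map_one' := hBK (by rw [hf, map_one]; rfl)
      map_mul' := fun a b => hBK (by rw [hf, map_mul, hf, hf]; rfl)
      map_zero' := hBK (by rw [hf, map_zero]; rfl)
      map_add' := fun a b => hBK (by rw [hf, map_add, hf, hf]; rfl) }
  have hg : ∀ a : A, algebraMap B K (g a) = a := fun a => hf a a.2
  have hinj : Function.Injective g := by
    intro a b hab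
    apply Subtype.ext
    rw [← hg a, ← hg b, hab]
  refine h.ringHom_of_comp_eq g (RingHom.id K) hinj ?_
  refine RingHom.ext fun a => ?_
  exact hg a

/-- transitivity -/
private theorem idc_trans {A : Subalgebra ℂ K} {M : Subfield K} (hA : ∀ a ∈ A, a ∈ M)
    (hM : ∀ w ∈ M, IsAlgebraic A w) {c : K} (hc : IsAlgebraic M c) : IsAlgebraic A c := by
  let g : A →+* M :=
    { toFun := fun a => ⟨a, hA a a.2⟩
      map_one' := rfl
      map_mul' := fun a b => rfl
      map_zero' := rfl
      map_add' := fun a b => rfl }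
  letI : Algebra A M := g.toAlgebra
  have hg : ∀ a : A, ((algebraMap A M a : M) : K) = a := fun a => rfl
  have : IsScalarTower A M K := IsScalarTower.of_algebraMap_eq fun a => rfl
  have : Algebra.IsAlgebraic A M := by
    refine ⟨fun w => ?_⟩
    exact (isAlgebraic_algebraMap_iff (R := A) (S := M) (A := K)
      (algebraMap M K).injective).1 (hM w w.2)
  exact hc.restrictScalars A

/-- values of polynomials -/
private theorem idc_val {M : Subfield K} {z : K} (V : AddValuation K (WithTop ℤ)) (p : M[X])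
    (hp : Irreducible p) (hpz : p.eval₂ M.subtype z ≠ 0)
    (hV : ∀ A : M[X], ¬ p ∣ A → V (A.eval₂ M.subtype z) = 0) (A : M[X])
    (hA : A.eval₂ M.subtype z ≠ 0) :
    ∃ k : ℕ, vz V (A.eval₂ M.subtype z) = k * vz V (p.eval₂ M.subtype z) := by
  have hA0 : A ≠ 0 := by
    rintro rfl
    exact hA (by simp)
  have hfin : FiniteMultiplicity p A := FiniteMultiplicity.of_not_isUnit hp.not_isUnit hA0
  obtain ⟨A', hA', hd⟩ := hfin.exists_eq_pow_mul_and_not_dvd
  refine ⟨multiplicity p A, ?_⟩
  have h1 : A.eval₂ M.subtype z =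
      (p.eval₂ M.subtype z) ^ (multiplicity p A) * A'.eval₂ M.subtype z := by
    conv_lhs => rw [hA']
    rw [eval₂_mul, eval₂_pow]
  have h2 : A'.eval₂ M.subtype z ≠ 0 := by
    intro h
    rw [h1, h, mul_zero] at hA
    exact hA rfl
  rw [h1, vz_mul V (pow_ne_zero _ hpz) h2, vz_pow V hpz, (eq_zero_iff V h2).1 (hV A' hd), add_zero]

end general

variable {K : Type} [Field K] [Algebra ℂ K] {n m N : ℕ} (G : Geo K n m N)

/-- `x`, `ξ` without one of the `x` -/
private theorem idc_upd (l : Fin n) : (Function.update G.x l G.ξ : Fin n → K) =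
    (Fin.cons G.ξ G.x : Fin (n + 1) → K) ∘ (fun i => if i = l then 0 else Fin.succ i) := by
  funext i
  by_cases h : i = l
  · subst h; simp
  · simp [h]

private theorem idc_inj (l : Fin n) :
    Function.Injective (fun i : Fin n => if i = l then (0 : Fin (n + 1)) else Fin.succ i) := by
  intro i j h
  by_cases hi : i = l <;> by_cases hj : j = l
  · rw [hi, hj]
  · simp only [hi, hj, if_true, if_false] at h
    exact absurd h.symm (Fin.succ_ne_zero j)
  · simp only [hi, hj, if_true, if_false] at h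
    exact absurd h (Fin.succ_ne_zero i)
  · simp only [hi, hj, if_false] at h
    exact Fin.succ_injective n h

private theorem idc_algM (l : Fin n) {w : K} (hw : w ∈ G.M G.x l) :
    IsAlgebraic (Algebra.adjoin ℂ (Set.range (Function.update G.x l G.ξ))) w := by
  have hξA : G.ξ ∈ Algebra.adjoin ℂ (Set.range (Function.update G.x l G.ξ)) :=
    Algebra.subset_adjoin ⟨l, by simp⟩
  have hle : Algebra.adjoin ℂ {G.ξ} ≤ Algebra.adjoin ℂ (Set.range (Function.update G.x l G.ξ)) :=
    Algebra.adjoin_le (by simpa using hξA)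
  refine idc_closure ?_ hw
  rintro s (hs | ⟨i, hi, rfl⟩)
  · refine idc_mono (FaithfulSMul.algebraMap_injective _ K) ?_ (G.hFalg s hs)
    intro a ha
    exact ⟨⟨a, hle ha⟩, rfl⟩
  · have hi' : G.x i ∈ Algebra.adjoin ℂ (Set.range (Function.update G.x l G.ξ)) :=
      Algebra.subset_adjoin ⟨i, by rw [Function.update_of_ne hi]⟩
    exact isAlgebraic_algebraMap
      (⟨G.x i, hi'⟩ : Algebra.adjoin ℂ (Set.range (Function.update G.x l G.ξ)))

private theorem idc_adjM (l : Fin n) {w : K}
    (hw : w ∈ Algebra.adjoin ℂ (Set.range (Function.update G.x l G.ξ))) : w ∈ G.M G.x l := by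
  induction hw using Algebra.adjoin_induction with
  | mem x hx =>
    obtain ⟨i, rfl⟩ := hx
    by_cases h : i = l
    · subst h
      rw [Function.update_self]
      exact G.F₀_le_M _ _ G.hξ
    · rw [Function.update_of_ne h]
      exact G.w_mem_M _ h
  | algebraMap r => exact G.F₀_le_M _ _ (G.hconst r)
  | add x y _ _ hx hy => exact add_mem hx hy
  | mul x y _ _ hx hy => exact mul_mem hx hy

private theorem idc_trM (hG : Full G) (l : Fin n) : Transcendental (G.M G.x l) (G.x l) := by
  intro halg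
  have h1 : IsAlgebraic (Algebra.adjoin ℂ (Set.range (Function.update G.x l G.ξ))) (G.x l) :=
    idc_trans (fun a ha => idc_adjM G l ha) (fun w hw => idc_algM G l hw) halg
  have h2 : Transcendental (Algebra.adjoin ℂ ((Fin.cons G.ξ G.x : Fin (n + 1) → K) ''
      (Set.range (fun i : Fin n => if i = l then (0 : Fin (n + 1)) else Fin.succ i))))
      ((Fin.cons G.ξ G.x : Fin (n + 1) → K) l.succ) := by
    refine hG.basis.transcendental_adjoin ?_
    rintro ⟨i, hi⟩
    by_cases h : i = l
    · simp only [h, if_true] at hi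
      exact absurd hi.symm (Fin.succ_ne_zero l)
    · simp only [h, if_false] at hi
      exact h (Fin.succ_injective n hi)
  rw [← Set.range_comp, ← idc_upd G l, Fin.cons_succ] at h2
  exact h2 h1

private theorem idc_ne (hG : Full G) (l : Fin n) (P : MvPolynomial (Fin n) ℂ) (hP : P ≠ 0) :
    MvPolynomial.aeval (Function.update G.x l G.ξ) P ≠ 0 := by
  have h : AlgebraicIndependent ℂ (Function.update G.x l G.ξ) := by
    rw [idc_upd]
    exact hG.basis.comp _ (idc_inj l)
  intro h0
  exact hP ((injective_iff_map_eq_zero _).1 h P h0)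

theorem tau_place (hG : Full G) :
    ∃ (V : AddValuation K (WithTop ℤ)) (l : Fin n),
      (∀ c : ℂ, c ≠ 0 → V (algebraMap ℂ K c) = 0) ∧ (∃ π : K, V π = ((1 : ℤ) : WithTop ℤ)) ∧
      (∀ f ∈ G.F₀, f ≠ 0 → V f = 0) ∧ (∀ i, 0 ≤ V (G.x i)) ∧
      Rindep V (Function.update G.x l G.ξ) ∧ 0 < vz V G.τ ∧
      ∀ r ∈ G.K₁, r ≠ 0 → ∃ k : ℤ, vz V r = k * vz V G.τ := by
  classical
  have : CharZero K := charZero_of_injective_algebraMap (algebraMap ℂ K).injective
  have hn0 : 0 < n := by have := G.hn; omega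
  obtain ⟨l⟩ : Nonempty (Fin n) := ⟨⟨0, hn0⟩⟩
  have hFM : ∀ f ∈ G.F₀, f ∈ G.M G.x l := fun f hf => G.F₀_le_M _ _ hf
  -- the constant `c`
  set c : K := 1 + ∑ i ∈ Finset.univ.erase l, G.x i ^ G.a i with hc
  have hcM : c ∈ G.M G.x l := by
    refine add_mem (one_mem _) (sum_mem fun i hi => pow_mem ?_ _)
    exact G.w_mem_M _ (Finset.ne_of_mem_erase hi)
  have hτ : G.τ = c + G.x l ^ G.a l := by
    rw [hc, Geo.τ, ← Finset.sum_erase_add _ _ (Finset.mem_univ l)]
    ring
  have hτ0 : G.τ ≠ 0 := G.hτ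
  have hc0 : c ≠ 0 := by
    set P : MvPolynomial (Fin n) ℂ :=
      1 + ∑ i ∈ Finset.univ.erase l, MvPolynomial.X i ^ G.a i with hPdef
    have hP : P ≠ 0 := by
      intro h
      have h1 := congrArg MvPolynomial.constantCoeff h
      rw [hPdef, map_add, map_one, map_sum, map_zero] at h1
      rw [Finset.sum_eq_zero] at h1
      · simp at h1
      · intro i _
        rw [map_pow, MvPolynomial.constantCoeff_X, zero_pow (G.ha i).ne']
    have h1 := idc_ne G hG l P hP
    rw [hPdef, map_add, map_one, map_sum] at h1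
    have h2 : ∀ i ∈ Finset.univ.erase l, MvPolynomial.aeval (Function.update G.x l G.ξ)
        (MvPolynomial.X i ^ G.a i : MvPolynomial (Fin n) ℂ) = G.x i ^ G.a i := by
      intro i hi
      rw [map_pow, MvPolynomial.aeval_X, Function.update_of_ne (Finset.ne_of_mem_erase hi)]
    rw [Finset.sum_congr rfl h2] at h1
    exact h1
  -- the polynomial `q`
  let cM : G.M G.x l := ⟨c, hcM⟩
  have hcM0 : -cM ≠ 0 := by
    intro h
    apply hc0
    have h1 := congrArg (fun w : G.M G.x l => (w : K)) h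
    simpa [cM] using h1
  have : CharZero (G.M G.x l) := charZero_of_injective_algebraMap (algebraMap ℚ (G.M G.x l)).injective
  have hal : ((G.a l : ℕ) : G.M G.x l) ≠ 0 := Nat.cast_ne_zero.2 (G.ha l).ne'
  set q : (G.M G.x l)[X] := X ^ G.a l - C (-cM) with hq
  have hqsep : q.Separable := separable_X_pow_sub_C (-cM) hal hcM0
  have hqdeg : q.natDegree = G.a l := natDegree_X_pow_sub_C
  have hq0 : q ≠ 0 := by
    intro h
    rw [h, natDegree_zero] at hqdeg
    exact (G.ha l).ne hqdeg
  have hqu : ¬ IsUnit q := by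
    intro h
    rw [natDegree_eq_zero_of_isUnit h] at hqdeg
    exact (G.ha l).ne hqdeg
  obtain ⟨p, hp, p₁, hp₁⟩ := WfDvdMonoid.exists_irreducible_factor hqu hq0
  have hpp₁ : ¬ p ∣ p₁ := by
    rintro ⟨r, hr⟩
    have h1 : p * p ∣ q := ⟨r, by rw [hp₁, hr]; ring⟩
    exact hp.not_isUnit (hqsep.squarefree p h1)
  have hqz : q.eval₂ (G.M G.x l).subtype (G.x l) = G.τ := by
    rw [hq, eval₂_sub, eval₂_pow, eval₂_X, eval₂_C, map_neg, hτ]
    change G.x l ^ G.a l - -c = _
    ring
  have hqz' : p.eval₂ (G.M G.x l).subtype (G.x l) * p₁.eval₂ (G.M G.x l).subtype (G.x l) = G.τ := by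
    rw [← hqz, hp₁, eval₂_mul]
  -- the valuation
  have hzmem : G.x l ∈ Algebra.adjoin (G.M G.x l) {G.x l} :=
    Algebra.subset_adjoin (Set.mem_singleton _)
  have hMmem : ∀ w ∈ G.M G.x l, w ∈ Algebra.adjoin (G.M G.x l) {G.x l} := fun w hw =>
    (Algebra.adjoin (G.M G.x l) {G.x l}).algebraMap_mem ⟨w, hw⟩
  obtain ⟨V, hVπ, hVM, hVz, hVp, hVA⟩ := exists_place (G.M G.x l) (G.x l) (idc_trM G hG l) {G.t}
    (by
      intro w hw
      rw [Finset.mem_singleton] at hw
      subst hw
      refine IsAlgebraic.of_pow G.mpos ?_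
      have h1 : G.t ^ m = G.τ / G.h := by
        rw [eq_div_iff G.hh0, mul_comm]
        exact G.hrel
      have h2 : G.t ^ m = G.h⁻¹ * G.τ := by rw [h1]; field_simp
      have h3 : G.t ^ m ∈ Algebra.adjoin (G.M G.x l) {G.x l} := by
        rw [h2, hτ]
        exact mul_mem (hMmem _ (inv_mem (hFM _ G.hh)))
          (add_mem (hMmem _ hcM) (pow_mem hzmem _))
      exact isAlgebraic_algebraMap (⟨_, h3⟩ : Algebra.adjoin (G.M G.x l) {G.x l}))
    (by
      intro w
      refine Subfield.closure_mono ?_ (G.hgen w)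
      rintro u (hu | ⟨i, rfl⟩ | hu)
      · exact Or.inl (hFM u hu)
      · by_cases hi : i = l
        · subst hi
          exact Or.inr (Or.inl rfl)
        · exact Or.inl (G.w_mem_M _ hi)
      · rw [Set.mem_singleton_iff.1 hu]
        exact Or.inr (Or.inr (by simp)))
    p hp
  have hpz : p.eval₂ (G.M G.x l).subtype (G.x l) ≠ 0 := by
    intro h
    rw [h, zero_mul] at hqz'
    exact hτ0 hqz'.symm
  have hp₁z : p₁.eval₂ (G.M G.x l).subtype (G.x l) ≠ 0 := by
    intro h
    rw [h, mul_zero] at hqz'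
    exact hτ0 hqz'.symm
  have hvτ : vz V G.τ = vz V (p.eval₂ (G.M G.x l).subtype (G.x l)) := by
    rw [← hqz', vz_mul V hpz hp₁z, (eq_zero_iff V hp₁z).1 (hVA p₁ hpp₁), add_zero]
  refine ⟨V, l, ?_, hVπ, ?_, ?_, ?_, ?_, ?_⟩
  · intro a ha
    refine hVM _ (hFM _ (G.hconst a)) ?_
    rw [Ne, map_eq_zero]
    exact ha
  · exact fun f hf hf0 => hVM f (hFM f hf) hf0
  · intro i
    by_cases hi : i = l
    · rw [hi]; exact hVz
    · rw [hVM _ (G.w_mem_M _ hi) (G.hx i)]
  · intro P hP
    refine hVM _ ?_ (idc_ne G hG l P hP)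
    refine idc_adjM G l ?_
    rw [Algebra.adjoin_range_eq_range_aeval]
    exact ⟨P, rfl⟩
  · rw [hvτ]
    exact (pos_iff V hpz).1 hVp
  · intro r hr hr0
    have hr' : r ∈ Subfield.closure ((G.M G.x l : Set K) ∪ {G.x l}) := by
      refine Subfield.closure_mono ?_ hr
      rintro u (hu | ⟨i, rfl⟩)
      · exact Or.inl (hFM u hu)
      · by_cases hi : i = l
        · subst hi
          exact Or.inr rfl
        · exact Or.inl (G.w_mem_M _ hi)
    obtain ⟨A, B, hB, hrAB⟩ := frac_of_closure hr'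
    have hA : A.eval₂ (G.M G.x l).subtype (G.x l) ≠ 0 := by
      intro h
      rw [h, zero_div] at hrAB
      exact hr0 hrAB
    obtain ⟨k, hk⟩ := idc_val V p hp hpz hVA A hA
    obtain ⟨k', hk'⟩ := idc_val V p hp hpz hVA B hB
    refine ⟨(k : ℤ) - k', ?_⟩
    rw [hrAB, vz_div V hA hB, hk, hk', hvτ]
    ring

theorem alg_of_no_pole (hG : Full G) (c : K)
    (h : ∀ V : AddValuation K (WithTop ℤ), (∃ π : K, V π = ((1 : ℤ) : WithTop ℤ)) →
      (∀ a ∈ G.M₀, a ≠ 0 → V a = 0) → 0 ≤ V c) :
    IsAlgebraic (Algebra.adjoin ℂ (Set.range G.x)) c := by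
  classical
  have : CharZero K := charZero_of_injective_algebraMap (algebraMap ℂ K).injective
  by_contra hc
  -- elements of `M₀`
  have hCM : ∀ a : ℂ, algebraMap ℂ K a ∈ G.M₀ := fun a =>
    Subfield.subset_closure (Or.inl ⟨a, rfl⟩)
  have hxM : ∀ i, G.x i ∈ G.M₀ := fun i => Subfield.subset_closure (Or.inr ⟨i, rfl⟩)
  have hAM : ∀ a ∈ Algebra.adjoin ℂ (Set.range G.x), a ∈ G.M₀ := by
    intro a ha
    induction ha using Algebra.adjoin_induction with
    | mem x hx =>
      obtain ⟨i, rfl⟩ := hx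
      exact hxM i
    | algebraMap r => exact hCM r
    | add x y _ _ hx hy => exact add_mem hx hy
    | mul x y _ _ hx hy => exact mul_mem hx hy
  have hMA : ∀ w ∈ G.M₀, IsAlgebraic (Algebra.adjoin ℂ (Set.range G.x)) w := by
    intro w hw
    refine idc_closure ?_ hw
    rintro s (⟨a, rfl⟩ | ⟨i, rfl⟩)
    · exact isAlgebraic_algebraMap (algebraMap ℂ (Algebra.adjoin ℂ (Set.range G.x)) a)
    · exact isAlgebraic_algebraMap
        (⟨G.x i, Algebra.subset_adjoin ⟨i, rfl⟩⟩ : Algebra.adjoin ℂ (Set.range G.x))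
  have hcM : Transcendental G.M₀ c := fun h' => hc (idc_trans hAM hMA h')
  have hξmem : G.ξ ∈ Algebra.adjoin G.M₀ {G.ξ} := Algebra.subset_adjoin (Set.mem_singleton _)
  have hMmem : ∀ w ∈ G.M₀, w ∈ Algebra.adjoin G.M₀ {G.ξ} := fun w hw =>
    (Algebra.adjoin G.M₀ {G.ξ}).algebraMap_mem ⟨w, hw⟩
  have hFalg : ∀ f ∈ G.F₀, IsAlgebraic (Algebra.adjoin G.M₀ {G.ξ}) f := by
    intro f hf
    refine idc_mono (FaithfulSMul.algebraMap_injective _ K) ?_ (G.hFalg f hf)
    intro a ha
    have ha' : a ∈ Algebra.adjoin G.M₀ {G.ξ} := by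
      induction ha using Algebra.adjoin_induction with
      | mem x hx =>
        rw [Set.mem_singleton_iff.1 hx]
        exact hξmem
      | algebraMap r => exact hMmem _ (hCM r)
      | add x y _ _ hx hy => exact add_mem hx hy
      | mul x y _ _ hx hy => exact mul_mem hx hy
    exact ⟨⟨a, ha'⟩, rfl⟩
  have hτM : G.τ ∈ G.M₀ := by
    rw [Geo.τ]
    exact add_mem (one_mem _) (sum_mem fun i _ => pow_mem (hxM i) _)
  obtain ⟨V, hVπ, hVM, hVc⟩ := exists_pole G.M₀ G.ξ {G.y, G.t}
    (by
      intro w hw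
      rw [Finset.mem_insert, Finset.mem_singleton] at hw
      rcases hw with rfl | rfl
      · exact hFalg _ G.hy
      · refine IsAlgebraic.of_pow G.mpos ?_
        have h2 : G.t ^ m = G.h⁻¹ * G.τ := by
          have h1 : G.h * G.t ^ m = G.τ := G.hrel
          rw [← h1]
          have := G.hh0
          field_simp
        rw [h2]
        refine (hFalg _ G.hh).inv.mul ?_
        exact isAlgebraic_algebraMap (⟨_, hMmem _ hτM⟩ : Algebra.adjoin G.M₀ {G.ξ}))
    (by
      intro w
      have hsub : ((G.F₀ : Set K) ∪ (Set.range G.x ∪ {G.t})) ⊆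
          (Subfield.closure ((G.M₀ : Set K) ∪ ({G.ξ} ∪ (({G.y, G.t} : Finset K) : Set K))) :
            Set K) := by
        rintro u (hu | ⟨i, rfl⟩ | hu)
        · have h1 := hG.gen₀ u hu
          have h2 : u ∈ Subfield.closure (Set.range (algebraMap ℂ K) ∪ {G.ξ, G.y}) := h1
          refine Subfield.closure_mono ?_ h2
          rintro w (⟨a, rfl⟩ | hw)
          · exact Or.inl (hCM a)
          · rcases hw with rfl | hw
            · exact Or.inr (Or.inl rfl)
            · rw [Set.mem_singleton_iff.1 hw]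
              exact Or.inr (Or.inr (by simp))
        · exact Subfield.subset_closure (Or.inl (hxM i))
        · rw [Set.mem_singleton_iff.1 hu]
          exact Subfield.subset_closure (Or.inr (Or.inr (by simp)))
      have h3 := Subfield.closure_mono hsub (G.hgen w)
      rwa [Subfield.closure_eq] at h3)
    c hcM
  exact absurd (h V hVπ hVM) (not_le.2 hVc)

end TriIdx
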