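import Pool.Agent.TriIdx.IdxDefs
import Pool.Agent.TriIdx.Res2

/-!
PROJECT TRI, module IDD (algebra). The family `G.fam` gives a model; two kinds of prime divisors.

`isModel`: `K` is generated by `ξ, y, t, x i` (`hG.gen₀`, `G.hgen`); transcendence basis from
`hG.basis`, `hG.alg`; for the last point, the field generated by the quotients `f j / f i` contains all
`f j / f k`, in particular `x_j^(a_j m)` and `ξ`, over which everything is algebraic.
`prime_M₀`: `V` trivial on `ℂ(x)`: take `i = (none, β)` with `β = false` if `0 ≤ V ξ` and `β = true`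
otherwise, `s l = (some (some l), β)`, quotients `x_l ^ (a_l m)`; for `P ≠ 0` the element
`P(x_l ^ (a_l m))` of `M₀` is nonzero (`x` algebraically independent).
`prime_τ`: `i = (none, false)`, `s j = (some (some j), false)` for `j ≠ l`, `s l = (none, true)`;
the residue classes of `x_j ^ (a_j m)` (`j ≠ l`), `ξ` are algebraically independent: for `P ≠ 0` apply
the hypothesis to the nonzero polynomial obtained by substituting powers
(`MvPolynomial.expand`-like, injective).
-/

namespace TriIdx

variable {K : Type} [Field K] [Algebra ℂ K] {n m N : ℕ} (G : Geo K n m N)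

theorem ξ_ne_zero : G.ξ ≠ 0 := by
  intro h
  apply G.hξtr
  rw [h]
  exact isAlgebraic_zero

theorem fa_ne_zero (i : Option (Option (Fin n))) : G.fa i ≠ 0 := by
  match i with
  | none => exact one_ne_zero
  | some none => exact pow_ne_zero _ G.hτ
  | some (some j) => exact pow_ne_zero _ (G.hx j)

theorem fb_ne_zero (b : Bool) : G.fb b ≠ 0 := by
  match b with
  | false => exact one_ne_zero
  | true => exact ξ_ne_zero G

theorem fam_ne_zero (i : FI n) : G.fam i ≠ 0 := mul_ne_zero (fa_ne_zero G _) (fb_ne_zero G _)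

theorem fam_one : G.fam (none, false) = 1 := by
  show (1 : K) * 1 = 1
  rw [mul_one]

theorem fam_ξ : G.fam (none, true) = G.ξ := by
  show (1 : K) * G.ξ = G.ξ
  rw [one_mul]

theorem fam_x (j : Fin n) : G.fam (some (some j), false) = G.x j ^ (G.a j * m) := by
  show G.x j ^ (G.a j * m) * 1 = _
  rw [mul_one]

theorem algebraic_over_gens {L : IntermediateField ℂ K} (hG : Full G) (hξ : G.ξ ∈ L)
    (hx : ∀ j, G.x j ^ (G.a j * m) ∈ L) (z : K) : IsAlgebraic L z := by
  set C := algebraicClosure L K with hC
  have hxC : ∀ j, IsAlgebraic L (G.x j) := by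
    intro j
    have hk : 0 < G.a j * m := Nat.mul_pos (G.ha j) G.mpos
    have h1 : IsAlgebraic L (G.x j ^ (G.a j * m)) :=
      isAlgebraic_algebraMap (⟨_, hx j⟩ : L)
    exact h1.of_pow hk
  have hξC : IsAlgebraic L G.ξ := isAlgebraic_algebraMap (⟨_, hξ⟩ : L)
  have hle : Algebra.adjoin ℂ (Set.range (Fin.cons G.ξ G.x : Fin (n + 1) → K)) ≤
      (C.toSubalgebra.restrictScalars ℂ) := by
    rw [Algebra.adjoin_le_iff]
    rintro _ ⟨i, rfl⟩
    refine Fin.cases ?_ (fun j => ?_) i
    · exact mem_algebraicClosure_iff.2 hξC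
    · exact mem_algebraicClosure_iff.2 (hxC j)
  obtain ⟨p, hp, hpz⟩ := hG.alg z
  have hz : IsAlgebraic C z := by
    let φ : Algebra.adjoin ℂ (Set.range (Fin.cons G.ξ G.x : Fin (n + 1) → K)) →+* C :=
      { toFun := fun a => ⟨a.1, hle a.2⟩
        map_one' := rfl
        map_mul' := fun _ _ => rfl
        map_zero' := rfl
        map_add' := fun _ _ => rfl }
    have hφ : Function.Injective φ := by
      intro a b hab
      apply Subtype.ext
      exact congrArg (fun c : C => (c : K)) hab
    refine ⟨p.map φ, ?_, ?_⟩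
    · rwa [Ne, Polynomial.map_eq_zero_iff hφ]
    · rw [Polynomial.aeval_def, Polynomial.eval₂_map]
      rw [Polynomial.aeval_def] at hpz
      exact hpz
  exact IsAlgebraic.restrictScalars L hz

theorem isModel (hG : Full G) : IsModel n G.fam := by
  classical
  refine ⟨?_, ?_, fam_ne_zero G, ?_⟩
  · refine ⟨insert G.ξ (insert G.y (insert G.t (Finset.univ.image G.x))), ?_⟩
    rw [eq_top_iff]
    intro z _
    set L := IntermediateField.adjoin ℂ
      ((insert G.ξ (insert G.y (insert G.t (Finset.univ.image G.x))) : Finset K) : Set K) with hL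
    have hsub : ∀ w : K, w ∈ insert G.ξ (insert G.y (insert G.t (Finset.univ.image G.x))) →
        w ∈ L := fun w hw => IntermediateField.subset_adjoin ℂ _ (by exact_mod_cast hw)
    have hle : Subfield.closure ((G.F₀ : Set K) ∪ (Set.range G.x ∪ {G.t})) ≤ L.toSubfield := by
      rw [Subfield.closure_le]
      rintro w (hw | hw | hw)
      · have h1 := hG.gen₀ w hw
        have h2 : IntermediateField.adjoin ℂ {G.ξ, G.y} ≤ L := by
          rw [IntermediateField.adjoin_le_iff]
          rintro c (rfl | hc)
          · exact hsub _ (by simp)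
          · rw [Set.mem_singleton_iff.1 hc]
            exact hsub _ (by simp)
        exact h2 h1
      · obtain ⟨i, rfl⟩ := hw
        exact hsub _ (by simp)
      · rw [Set.mem_singleton_iff.1 hw]
        exact hsub _ (by simp)
    exact hle (G.hgen z)
  · refine ⟨Fin.cons G.ξ G.x, ?_⟩
    rw [hG.basis.isTranscendenceBasis_iff_isAlgebraic]
    exact ⟨hG.alg⟩
  · intro i z
    set L := IntermediateField.adjoin ℂ (Set.range fun j => G.fam j / G.fam i) with hL
    have hq : ∀ j, G.fam j / G.fam i ∈ L := fun j =>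
      IntermediateField.subset_adjoin ℂ _ ⟨j, rfl⟩
    have hq2 : ∀ j, G.fam j ∈ L := by
      intro j
      have h1 := L.div_mem (hq j) (hq (none, false))
      rw [fam_one, div_div_div_cancel_right₀ (fam_ne_zero G i), div_one] at h1
      exact h1
    refine algebraic_over_gens G hG ?_ ?_ z
    · have := hq2 (none, true)
      rwa [fam_ξ] at this
    · intro j
      have := hq2 (some (some j), false)
      rwa [fam_x] at this

theorem x_mem_M₀ (i : Fin n) : G.x i ∈ G.M₀ := Subfield.subset_closure (Or.inr ⟨i, rfl⟩)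

theorem c_mem_M₀ (c : ℂ) : algebraMap ℂ K c ∈ G.M₀ := Subfield.subset_closure (Or.inl ⟨c, rfl⟩)

theorem aeval_mem_M₀ (P : MvPolynomial (Fin n) ℂ) : MvPolynomial.aeval G.x P ∈ G.M₀ := by
  induction P using MvPolynomial.induction_on with
  | C c => rw [MvPolynomial.aeval_C]; exact c_mem_M₀ G c
  | add p q hp hq => rw [map_add]; exact G.M₀.add_mem hp hq
  | mul_X p i hp => rw [map_mul, MvPolynomial.aeval_X]; exact G.M₀.mul_mem hp (x_mem_M₀ G i)

theorem fa_mem_M₀ (i : Option (Option (Fin n))) : G.fa i ∈ G.M₀ := by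
  match i with
  | none => exact G.M₀.one_mem
  | some none =>
    exact G.M₀.pow_mem (G.M₀.add_mem G.M₀.one_mem
      (G.M₀.sum_mem fun j _ => G.M₀.pow_mem (x_mem_M₀ G j) _)) _
  | some (some j) => exact G.M₀.pow_mem (x_mem_M₀ G j) _

theorem prime_M₀ (hG : Full G) (V : AddValuation K (WithTop ℤ))
    (h1 : ∃ π : K, V π = ((1 : ℤ) : WithTop ℤ)) (h : ∀ a ∈ G.M₀, a ≠ 0 → V a = 0) :
    IsPrimeDivisor n G.fam V := by
  have hC : ∀ c : ℂ, c ≠ 0 → V (algebraMap ℂ K c) = 0 := by
    intro c hc
    refine h _ (c_mem_M₀ G c) ?_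
    rwa [Ne, map_eq_zero]
  have hfa : ∀ i, V (G.fa i) = 0 := fun i => h _ (fa_mem_M₀ G i) (fa_ne_zero G i)
  -- the powers
  have hind : AlgebraicIndependent ℂ G.x := by
    have h2 := hG.basis.comp Fin.succ (Fin.succ_injective n)
    exact h2
  have hx : Rindep V G.x := by
    intro P hP
    refine h _ (aeval_mem_M₀ G P) ?_
    intro h0
    exact hP (hind.eq_zero_of_aeval_eq_zero P h0)
  have hxv : ∀ i, V (G.x i) = 0 := fun i => rindep_nonneg V hx i
  have hw : ∀ i, 0 ≤ V (G.x i ^ (G.a i * m)) := by
    intro i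
    rw [AddValuation.map_pow, hxv, smul_zero]
  have hpow : Rindep V (fun l => G.x l ^ (G.a l * m)) := by
    refine T1' V hC hx _ hw fun l => ?_
    refine AR.root (Nat.mul_pos (G.ha l) G.mpos) (hxv l).ge ?_
    exact AR.gen (v := V) (hC := hC) (w := fun i => ⟨G.x i ^ (G.a i * m), hw i⟩) l
  have hξ0 := ξ_ne_zero G
  refine ⟨⟨hC, h1⟩, ?_⟩
  by_cases hξ : 0 ≤ V G.ξ
  · refine ⟨(none, false), ?_, fun l => (some (some l), false), ?_⟩
    · rintro ⟨j, b⟩
      rw [fam_one, div_one]
      show 0 ≤ V (G.fa j * G.fb b)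
      rw [AddValuation.map_mul, hfa, zero_add]
      cases b
      · show 0 ≤ V (1 : K)
        simp
      · exact hξ
    · have h2 : (fun l : Fin n => G.fam (some (some l), false) / G.fam (none, false)) =
          fun l => G.x l ^ (G.a l * m) := by
        funext l
        rw [fam_one, div_one, fam_x]
      rw [h2]
      exact hpow
  · refine ⟨(none, true), ?_, fun l => (some (some l), true), ?_⟩
    · rintro ⟨j, b⟩
      rw [fam_ξ]
      show 0 ≤ V (G.fa j * G.fb b / G.ξ)
      rw [mul_div_assoc, AddValuation.map_mul, hfa, zero_add]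
      cases b
      · show 0 ≤ V (1 / G.ξ)
        rw [one_div, nonneg_iff V (inv_ne_zero hξ0), vz_inv V hξ0]
        rw [nonneg_iff V hξ0] at hξ
        omega
      · show 0 ≤ V (G.ξ / G.ξ)
        rw [div_self hξ0]
        simp
    · have h2 : (fun l : Fin n => G.fam (some (some l), true) / G.fam (none, true)) =
          fun l => G.x l ^ (G.a l * m) := by
        funext l
        rw [fam_ξ]
        show G.x l ^ (G.a l * m) * G.ξ / G.ξ = _
        rw [mul_div_cancel_right₀ _ hξ0]
      rw [h2]
      exact hpow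

theorem prime_τ (V : AddValuation K (WithTop ℤ)) (l : Fin n)
    (hC : ∀ c : ℂ, c ≠ 0 → V (algebraMap ℂ K c) = 0) (h1 : ∃ π : K, V π = ((1 : ℤ) : WithTop ℤ))
    (hx : ∀ i, 0 ≤ V (G.x i)) (hτ : 0 ≤ V G.τ)
    (hR : Rindep V (Function.update G.x l G.ξ)) : IsPrimeDivisor n G.fam V := by
  classical
  have hξ : V G.ξ = 0 := by
    have := rindep_nonneg V hR l
    rwa [Function.update_self] at this
  refine ⟨⟨hC, h1⟩, (none, false), ?_,
    fun j => if j = l then (none, true) else (some (some j), false), ?_⟩
  · rintro ⟨j, b⟩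
    rw [fam_one, div_one]
    show 0 ≤ V (G.fa j * G.fb b)
    rw [AddValuation.map_mul]
    refine add_nonneg ?_ ?_
    · match j with
      | none => show 0 ≤ V (1 : K); simp
      | some none =>
        show 0 ≤ V (G.τ ^ (2 * N))
        rw [AddValuation.map_pow]
        exact nsmul_nonneg hτ _
      | some (some j) =>
        show 0 ≤ V (G.x j ^ (G.a j * m))
        rw [AddValuation.map_pow]
        exact nsmul_nonneg (hx j) _
    · cases b
      · show 0 ≤ V (1 : K)
        simp
      · exact hξ.ge
  · have h2 : (fun j : Fin n => G.fam (if j = l then (none, true) else (some (some j), false)) /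
        G.fam (none, false)) = fun j => if j = l then G.ξ else G.x j ^ (G.a j * m) := by
      funext j
      rw [fam_one, div_one]
      split_ifs with hj
      · exact fam_ξ G
      · exact fam_x G j
    rw [h2]
    have hw : ∀ j, 0 ≤ V (if j = l then G.ξ else G.x j ^ (G.a j * m)) := by
      intro j
      split_ifs with hj
      · exact hξ.ge
      · rw [AddValuation.map_pow]
        exact nsmul_nonneg (hx j) _
    refine T1' V hC hR _ hw fun j => ?_
    have hg := AR.gen (v := V) (hC := hC)
      (w := fun i => ⟨if i = l then G.ξ else G.x i ^ (G.a i * m), hw i⟩) j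
    by_cases hj : j = l
    · subst hj
      rw [Function.update_self]
      have h3 : (if j = j then G.ξ else G.x j ^ (G.a j * m)) = G.ξ := if_pos rfl
      simp only [if_true] at hg
      exact hg
    · rw [Function.update_of_ne hj]
      refine AR.root (Nat.mul_pos (G.ha j) G.mpos) (hx j) ?_
      simp only [if_neg hj] at hg
      exact hg

end TriIdx
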