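import Pool.Agent.TriIdx.Geo

/-!
Upper bounds for the order: valuations trivial on `F₀`, chart `τ` integral.
-/

namespace TriIdx

section

variable {K : Type} [Field K] [Algebra ℂ K] {n m N : ℕ} (G : Geo K n m N)
  {v : AddValuation K (WithTop ℤ)} (V : VP G v)

/-- the full tuple of derivations -/
def Geo.D : Fin (n + 1) → Derivation ℂ K K := Fin.cons G.D₀ G.E

omit [Algebra ℂ K] in
theorem ne_zero_of_v_zero {x : K} (h : v x = 0) : x ≠ 0 := by
  intro h'; rw [h', AddValuation.map_zero] at h; exact absurd h (by simp)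

theorem E_F₀ (i : Fin n) {f : K} (hf : f ∈ G.F₀) : G.E i f = 0 := by
  obtain ⟨c, _, hcD⟩ := G.hFD f hf
  rw [hcD, G.hEξ, mul_zero]

/-- derivative of `t` -/
theorem E_t (l : Fin n) : G.h * (m * G.t ^ (m - 1) * G.E l G.t)
    = G.a l * G.x l ^ (G.a l - 1) := by
  have h1 : G.E l (G.h * G.t ^ m) = G.E l (1 + ∑ i, G.x i ^ G.a i) := by rw [G.hrel]
  rw [E_tau G.E G.x G.hEx G.ha l, Derivation.leibniz, E_F₀ G l G.hh, Derivation.leibniz_pow] at h1
  rw [← h1]
  simp only [smul_eq_mul, nsmul_eq_mul, mul_zero, add_zero]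
  ring

include V in
theorem vz_E_t (l : Fin n) : ∃ hne : G.E l G.t ≠ 0, vz v (G.E l G.t)
    = (G.a l - 1) * vz v (G.x l) - vz v G.h - (m - 1) * vz v G.t := by
  have h := E_t G l
  have hm : 0 < m := G.mpos
  have hal := G.ha l
  have hane : (G.a l : K) ≠ 0 := ne_zero_of_v_zero (natv G V hal)
  have hmne : (m : K) ≠ 0 := ne_zero_of_v_zero (natv G V hm)
  have hR : (G.a l : K) * G.x l ^ (G.a l - 1) ≠ 0 := mul_ne_zero hane (pow_ne_zero _ (G.hx l))
  have hne : G.E l G.t ≠ 0 := by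
    intro h0; rw [h0] at h; simp only [mul_zero] at h; exact hR h.symm
  refine ⟨hne, ?_⟩
  have h2 := congrArg (vz v) h
  have htp : G.t ^ (m - 1) ≠ 0 := pow_ne_zero _ G.t_ne
  rw [vz_mul v G.hh0 (mul_ne_zero (mul_ne_zero hmne htp) hne),
    vz_mul v (mul_ne_zero hmne htp) hne, vz_mul v hmne htp, vz_pow v G.t_ne,
    vz_mul v hane (pow_ne_zero _ (G.hx l)), vz_pow v (G.hx l),
    (eq_zero_iff v hane).1 (natv G V hal), (eq_zero_iff v hmne).1 (natv G V hm)] at h2
  have h3 : ((m - 1 : ℕ) : ℤ) = m - 1 := by omega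
  have h4 : ((G.a l - 1 : ℕ) : ℤ) = G.a l - 1 := by omega
  rw [h3, h4] at h2
  linarith

theorem vz_rel : vz v (1 + ∑ i, G.x i ^ G.a i : K) = vz v G.h + m * vz v G.t := by
  rw [← G.hrel, vz_mul v G.hh0 (pow_ne_zero _ G.t_ne), vz_pow v G.t_ne]

theorem tau_mem {K₁ : Subfield K} (h : ∀ i, G.x i ∈ K₁) : (1 + ∑ i, G.x i ^ G.a i : K) ∈ K₁ :=
  K₁.add_mem K₁.one_mem (K₁.sum_mem fun i _ => K₁.pow_mem (h i) _)

theorem t_pow : G.t ^ m = (1 + ∑ i, G.x i ^ G.a i) / G.h := by
  have h0 := G.hh0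
  rw [← G.hrel]
  field_simp

include V in
/-- chart at finite distance, `τ` a unit, valuation trivial on `F₀` -/
theorem upB0 (htriv : ∀ f ∈ G.F₀, f ≠ 0 → v f = 0) (hx0 : ∀ i, 0 ≤ v (G.x i)) {l : Fin n}
    (hR : Rindep v (Function.update G.x l G.ξ))
    (hτ0 : vz v (1 + ∑ i, G.x i ^ G.a i : K) = 0) (r : Fin (n + 1) → K) (hr : ∀ j, 0 ≤ v (r j)) :
    0 ≤ v (jac G.D r).det := by
  classical
  set z : Fin (n + 1) → K := Fin.cons G.ξ G.x with hz
  have hz0 : z 0 = G.ξ := rfl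
  have hzs : ∀ i : Fin n, z i.succ = G.x i := fun i => by simp [hz]
  have hxO : ∀ i, G.x i ∈ OZ v z := by
    intro i
    rw [← hzs i]
    exact z_mem_OZ v i.succ (by rw [hzs i]; exact hx0 i)
  set K₁ := Subfield.closure ((G.M G.x l : Set K) ∪ {G.x l}) with hK₁
  have hMle : ∀ c ∈ G.M G.x l, c ∈ K₁ := fun c hc => Subfield.subset_closure (Or.inl hc)
  have hxK : ∀ i, G.x i ∈ K₁ := by
    intro i
    by_cases hi : i = l
    · rw [hi]; exact Subfield.subset_closure (Or.inr rfl)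
    · exact hMle _ (G.w_mem_M G.x hi)
  have hbase : ∀ c ∈ K₁, 0 ≤ v c → c ∈ OZ v z := fun c hc hc0 =>
    base_triv v (fun c hc h => M_triv G hR hc h) (hx0 l)
      (fun r hr => frac_of_closure hr) (OZ v z) (fun r hr h => OZ_inv v hr h)
      (fun c hc => M_OZ G htriv hR z hz0 (fun i _ => hxO i) hc) (hxO l) hc hc0
  have hvh : vz v G.h = 0 := (eq_zero_iff v G.hh0).1 (htriv _ G.hh G.hh0)
  have hvt : vz v G.t = 0 := by
    have h1 := vz_rel (v := v) G
    rw [hτ0, hvh, zero_add] at h1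
    have hm : (m : ℤ) ≠ 0 := by have := G.mpos; omega
    exact (mul_eq_zero.1 h1.symm).resolve_left hm
  have hvt' : v G.t = 0 := (eq_zero_iff v G.t_ne).2 hvt
  have htm : G.t ^ m ∈ K₁ := by
    rw [t_pow G]
    exact K₁.div_mem (tau_mem G hxK) (hMle _ (G.F₀_le_M G.x l G.hh))
  have htO : G.t ∈ OZ v z := by
    apply root_mem_OZ v G.mpos.ne' (natv G V G.mpos) hvt'
    apply hbase _ htm
    rw [AddValuation.map_pow, hvt']; simp
  have hgen : ∀ w : K, w ∈ Subfield.closure ((K₁ : Set K) ∪ {G.t}) := by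
    intro w
    refine Subfield.closure_le.2 ?_ (G.hgen w)
    rintro c (hc | hc)
    · exact Subfield.subset_closure (Or.inl (hMle _ (G.F₀_le_M G.x l hc)))
    · rcases hc with ⟨i, rfl⟩ | hc
      · exact Subfield.subset_closure (Or.inl (hxK i))
      · exact Subfield.subset_closure (Or.inr hc)
  have hall := KU' v G.mpos (natv G V G.mpos) htm hvt' hgen V.hsurj (OZ v z)
    (fun r hr h => OZ_inv v hr h) hbase htO
  have hle := jac_le v G.D z r (fun j => hall _ (hr j))
  refine le_trans ?_ hle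
  rw [Geo.D, hz, det_cons _ _ _ _ G.hEξ, jac_x G.E G.x G.hEx, Matrix.det_one, mul_one, G.hD₀ξ,
    htriv _ G.hy G.hy0]

include V in
/-- chart at finite distance, `τ` not a unit, valuation trivial on `F₀` -/
theorem upB1 (htriv : ∀ f ∈ G.F₀, f ≠ 0 → v f = 0) (hx0 : ∀ i, 0 ≤ v (G.x i)) {l : Fin n}
    (hR : Rindep v (Function.update G.x l G.ξ))
    (hτ0 : 0 < vz v (1 + ∑ i, G.x i ^ G.a i : K)) :
    vz v (1 + ∑ i, G.x i ^ G.a i : K) = m ∧
    ∀ (r : Fin (n + 1) → K), (∀ j, 0 ≤ v (r j)) →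
      ((-(m - 1) : ℤ) : WithTop ℤ) ≤ v (jac G.D r).det := by
  classical
  set z : Fin (n + 1) → K := Fin.cons G.ξ (Function.update G.x l G.t) with hz
  have hz0 : z 0 = G.ξ := rfl
  have hzs : ∀ i : Fin n, z i.succ = Function.update G.x l G.t i := fun i => by
    rw [hz, Fin.cons_succ]
  have hvh : vz v G.h = 0 := (eq_zero_iff v G.hh0).1 (htriv _ G.hh G.hh0)
  have hvt : 0 < vz v G.t := by
    have h1 := vz_rel (v := v) G
    rw [hvh, zero_add] at h1
    rw [h1] at hτ0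
    exact pos_right (by positivity) hτ0
  have hvt' : 0 < v G.t := (pos_iff v G.t_ne).2 hvt
  have hxO : ∀ i, i ≠ l → G.x i ∈ OZ v z := by
    intro i hi
    have h1 : z i.succ = G.x i := by rw [hzs, Function.update_of_ne hi]
    rw [← h1]
    exact z_mem_OZ v i.succ (by rw [h1]; exact hx0 i)
  have htO : G.t ∈ OZ v z := by
    have h1 : z l.succ = G.t := by rw [hzs, Function.update_self]
    rw [← h1]
    exact z_mem_OZ v l.succ (by rw [h1]; exact hvt'.le)
  set K₁ := Subfield.closure ((G.M G.x l : Set K) ∪ {G.t}) with hK₁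
  have hMle : ∀ c ∈ G.M G.x l, c ∈ K₁ := fun c hc => Subfield.subset_closure (Or.inl hc)
  have htK : G.t ∈ K₁ := Subfield.subset_closure (Or.inr rfl)
  have hMv : ∀ c ∈ G.M G.x l, c ≠ 0 → v c = 0 := fun c hc h => M_triv G hR hc h
  have hbase : ∀ c ∈ K₁, 0 ≤ v c → c ∈ OZ v z := fun c hc hc0 =>
    base_triv v hMv hvt'.le
      (fun r hr => frac_of_closure hr) (OZ v z) (fun r hr h => OZ_inv v hr h)
      (fun c hc => M_OZ G htriv hR z hz0 (fun i hi => hxO i hi) hc) htO hc hc0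
  -- the element c = 1 + ∑_{i ≠ l} x_i^{a_i}
  set c : K := 1 + ∑ i ∈ Finset.univ.erase l, G.x i ^ G.a i with hc
  have hcM : c ∈ G.M G.x l := by
    refine (G.M G.x l).add_mem (G.M G.x l).one_mem ((G.M G.x l).sum_mem fun i hi => ?_)
    exact (G.M G.x l).pow_mem (G.w_mem_M G.x (Finset.ne_of_mem_erase hi)) _
  have hsplit : G.x l ^ G.a l = G.h * G.t ^ m - c := by
    rw [G.hrel, hc, ← Finset.add_sum_erase Finset.univ (fun i => G.x i ^ G.a i)
      (Finset.mem_univ l)]
    ring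
  have hc0 : c ≠ 0 := by
    intro h0
    set P : MvPolynomial (Fin n) ℂ := 1 + ∑ i ∈ Finset.univ.erase l,
      MvPolynomial.X i ^ G.a i with hP
    have hP0 : P ≠ 0 := by
      intro h
      have h1 := congrArg MvPolynomial.constantCoeff h
      rw [hP, map_add, map_one, map_sum, map_zero] at h1
      rw [Finset.sum_eq_zero (fun i _ => by
        rw [map_pow, MvPolynomial.constantCoeff_X, zero_pow (G.ha i).ne'])] at h1
      simp at h1
    have h1 := hR P hP0
    have h2 : MvPolynomial.aeval (Function.update G.x l G.ξ) P = c := by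
      rw [hP, map_add, map_one, map_sum, hc]
      congr 1
      refine Finset.sum_congr rfl fun i hi => ?_
      rw [map_pow, MvPolynomial.aeval_X, Function.update_of_ne (Finset.ne_of_mem_erase hi)]
    rw [h2, h0, AddValuation.map_zero] at h1
    exact absurd h1 (by simp)
  have hcv : v c = 0 := hMv c hcM hc0
  have hθv : v (G.x l) = 0 := by
    have h1 : 0 < v (G.h * G.t ^ m) := by
      rw [G.hrel, pos_iff v G.hτ]; exact hτ0
    have h2 : v (G.x l ^ G.a l) = 0 := by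
      rw [hsplit, AddValuation.map_sub_swap, AddValuation.map_sub_eq_of_lt_left, hcv]
      rw [hcv]; exact h1
    rw [eq_zero_iff v (pow_ne_zero _ (G.hx l)), vz_pow v (G.hx l)] at h2
    rw [eq_zero_iff v (G.hx l)]
    exact (mul_eq_zero.1 h2).resolve_left (by have := G.ha l; omega)
  have hθK : G.x l ^ G.a l ∈ K₁ := by
    rw [hsplit]
    exact K₁.sub_mem (K₁.mul_mem (hMle _ (G.F₀_le_M G.x l G.hh)) (K₁.pow_mem htK _))
      (hMle _ hcM)
  have hθO : G.x l ∈ OZ v z := by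
    apply root_mem_OZ v (G.ha l).ne' (natv G V (G.ha l)) hθv
    apply hbase _ hθK
    rw [AddValuation.map_pow, hθv]; simp
  have hgen : ∀ w : K, w ∈ Subfield.closure ((K₁ : Set K) ∪ {G.x l}) := by
    intro w
    refine Subfield.closure_le.2 ?_ (G.hgen w)
    rintro c (hc | hc)
    · exact Subfield.subset_closure (Or.inl (hMle _ (G.F₀_le_M G.x l hc)))
    · rcases hc with ⟨i, rfl⟩ | hc
      · by_cases hi : i = l
        · rw [hi]; exact Subfield.subset_closure (Or.inr rfl)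
        · exact Subfield.subset_closure (Or.inl (hMle _ (G.w_mem_M G.x hi)))
      · rw [Set.mem_singleton_iff.1 hc]
        exact Subfield.subset_closure (Or.inl htK)
  have hall := KU' v (G.ha l) (natv G V (G.ha l)) hθK hθv hgen V.hsurj (OZ v z)
    (fun r hr h => OZ_inv v hr h) hbase hθO
  have ht1 : vz v G.t = 1 := KU_val' v (G.ha l) (natv G V (G.ha l)) hθK hθv hgen V.hsurj htK
    G.t_ne hvt (fun r hr hr0 => val_triv v hMv hvt' G.t_ne (fun r hr => frac_of_closure hr) hr hr0)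
  constructor
  · rw [vz_rel (v := v) G, hvh, ht1]; ring
  · intro r hr
    have hle := jac_le v G.D z r (fun j => hall _ (hr j))
    refine le_trans ?_ hle
    obtain ⟨hne, hEt⟩ := vz_E_t G V l
    rw [Geo.D, hz, det_cons _ _ _ _ G.hEξ, det_jac_update G.E G.x G.hEx, G.hD₀ξ,
      v_eq v (mul_ne_zero G.hy0 hne), vz_mul v G.hy0 hne, hEt, hvh, ht1,
      (eq_zero_iff v (G.hx l)).1 hθv, (eq_zero_iff v G.hy0).1 (htriv _ G.hy G.hy0)]
    apply WithTop.coe_le_coe.2
    linarith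

end

end TriIdx
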