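import Pool.Agent.TriIdx.GeoEx
import Pool.Agent.TriIdx.Up1
import Pool.Agent.TriIdx.Fam

/-!
PROJECT TRI: the definitions are in `Fam` (the family of functions defining the projective model).
-/
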