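import Mathlib

/-!
PROJECT TRI, module SPEC (pure algebra, only Mathlib). Specialisation.

PROOF. Let `c = A(x)^m / (B(x)^m h^I)`. It is a root of a nonzero polynomial with coefficients in
`ℂ[x] = Algebra.adjoin ℂ (range x)`: `∑ k, R_k(x) c^k = 0`, `R_k : MvPolynomial (Fin n) ℂ`, not all
zero, degree `d`, `R_d ≠ 0`. Multiply by `(B^m h^I)^d`: the polynomial
`∑ k, R_k A^(m k) (B^m h^I)^(d-k)` over `F₀` vanishes at `x`, so it is zero (`hx`).
Choose `p : Fin n → ℂ` with `R_d(p) ≠ 0`, `A(p) ≠ 0`, `B(p) ≠ 0` (a nonzero polynomial over an infinite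
field does not vanish everywhere on `ℂ^n`; the coefficients of `A`, `B` are in `F₀`: use
`MvPolynomial.funext_set` or the like for the infinite set `ℂ ⊆ F₀`, applied to `A * B * R_d`).
Evaluating at `p`: `c₀ = A(p)^m / (B(p)^m h^I) ∈ F₀` is algebraic over `ℂ`, hence a constant
`c₀ ∈ ℂ`, nonzero, `c₀ = e ^ m`. So `h ^ I = (A(p) / (e B(p))) ^ m`.
-/

namespace TriIdx

open MvPolynomial in
theorem spec_root {K : Type} [Field K] [Algebra ℂ K] {n m : ℕ} (hm : 0 < m) (F₀ : Subfield K)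
    (hconst : ∀ c : ℂ, algebraMap ℂ K c ∈ F₀) (x : Fin n → K)
    (hx : ∀ P : MvPolynomial (Fin n) F₀, P.eval₂ F₀.subtype x = 0 → P = 0)
    (h : K) (hh : h ∈ F₀) (hh0 : h ≠ 0) (A B : MvPolynomial (Fin n) F₀)
    (hA : A.eval₂ F₀.subtype x ≠ 0) (hB : B.eval₂ F₀.subtype x ≠ 0) (I : ℕ)
    (halg : IsAlgebraic (Algebra.adjoin ℂ (Set.range x))
      ((A.eval₂ F₀.subtype x / B.eval₂ F₀.subtype x) ^ m / h ^ I)) :
    ∃ q ∈ F₀, h ^ I = q ^ m := by
  classical
  set ι : ℂ →+* F₀ := (algebraMap ℂ K).codRestrict F₀.toSubring hconst with hι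
  have hιc : ∀ c : ℂ, ((ι c : F₀) : K) = algebraMap ℂ K c := fun c => rfl
  have hιinj : Function.Injective ι := ι.injective
  obtain ⟨p, hp0, hp⟩ := halg
  set c : K := (A.eval₂ F₀.subtype x / B.eval₂ F₀.subtype x) ^ m / h ^ I with hc
  -- the coefficients
  have hR : ∀ k : ℕ, ∃ R : MvPolynomial (Fin n) ℂ, aeval x R = ((p.coeff k : _) : K) := by
    intro k
    have h2 : ((p.coeff k : _) : K) ∈ (aeval (R := ℂ) x).range := by
      rw [← Algebra.adjoin_range_eq_range_aeval]
      exact (p.coeff k).2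
    exact h2
  choose R hRe using hR
  set d := p.natDegree with hd
  have hRd : R d ≠ 0 := by
    intro h1
    have h2 := hRe d
    rw [h1, map_zero] at h2
    have h3 : p.coeff d = 0 := by
      apply Subtype.ext
      exact h2.symm
    exact hp0 (Polynomial.leadingCoeff_eq_zero.1 h3)
  have hmapR : ∀ k, (MvPolynomial.map ι (R k)).eval₂ F₀.subtype x = ((p.coeff k : _) : K) := by
    intro k
    rw [eval₂_map, ← hRe k, aeval_def]
    rfl
  have hA0 : A ≠ 0 := by
    rintro rfl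
    exact hA (eval₂_zero _ _)
  have hB0 : B ≠ 0 := by
    rintro rfl
    exact hB (eval₂_zero _ _)
  -- the relation
  set hF : F₀ := ⟨h, hh⟩ with hhF
  set S : MvPolynomial (Fin n) F₀ := ∑ k ∈ Finset.range (d + 1),
    MvPolynomial.map ι (R k) * (A ^ m) ^ k * (B ^ m * MvPolynomial.C (hF ^ I)) ^ (d - k) with hS
  have hBm : (B.eval₂ F₀.subtype x) ^ m * h ^ I ≠ 0 := mul_ne_zero (pow_ne_zero _ hB)
    (pow_ne_zero _ hh0)
  have hcmul : (A.eval₂ F₀.subtype x) ^ m = c * ((B.eval₂ F₀.subtype x) ^ m * h ^ I) := by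
    rw [hc, div_pow]
    have := pow_ne_zero m hB
    have := pow_ne_zero I hh0
    field_simp
  have hSx : S.eval₂ F₀.subtype x = 0 := by
    rw [hS, eval₂_sum]
    have h1 : ∀ k ∈ Finset.range (d + 1),
        (MvPolynomial.map ι (R k) * (A ^ m) ^ k *
          (B ^ m * MvPolynomial.C (hF ^ I)) ^ (d - k)).eval₂ F₀.subtype x =
        ((p.coeff k : _) : K) * c ^ k * ((B.eval₂ F₀.subtype x) ^ m * h ^ I) ^ d := by
      intro k hk
      have hkd : k ≤ d := Nat.lt_succ_iff.1 (Finset.mem_range.1 hk)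
      rw [eval₂_mul, eval₂_mul, hmapR, eval₂_pow, eval₂_pow, eval₂_pow, eval₂_mul, eval₂_pow,
        eval₂_C, hcmul]
      have h2 : (F₀.subtype) (hF ^ I) = h ^ I := by rw [map_pow]; rfl
      rw [h2, mul_pow c]
      have h3 : ((B.eval₂ F₀.subtype x) ^ m * h ^ I) ^ d =
          ((B.eval₂ F₀.subtype x) ^ m * h ^ I) ^ k *
            ((B.eval₂ F₀.subtype x) ^ m * h ^ I) ^ (d - k) := by
        rw [← pow_add]
        congr 1
        omega
      rw [h3]
      ring
    rw [Finset.sum_congr rfl h1, ← Finset.sum_mul]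
    have h4 : ∑ k ∈ Finset.range (d + 1), ((p.coeff k : _) : K) * c ^ k = 0 := by
      have h5 := hp
      rw [Polynomial.aeval_eq_sum_range] at h5
      rw [← h5]
      refine Finset.sum_congr rfl (fun k _ => ?_)
      rw [Algebra.smul_def]
      rfl
    rw [h4, zero_mul]
  have hS0 := hx S hSx
  -- the specialisation
  have hT0 : A * B * MvPolynomial.map ι (R d) ≠ 0 := by
    refine mul_ne_zero (mul_ne_zero hA0 hB0) ?_
    intro h1
    apply hRd
    exact MvPolynomial.map_injective ι hιinj (by rw [h1, map_zero])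
  obtain ⟨y, hy, hTy⟩ : ∃ y : Fin n → F₀, (∀ i, y i ∈ Set.range ι) ∧
      MvPolynomial.eval y (A * B * MvPolynomial.map ι (R d)) ≠ 0 := by
    by_contra hcon
    push Not at hcon
    apply hT0
    refine MvPolynomial.funext_set (fun _ => Set.range ι)
      (fun _ => Set.infinite_range_of_injective hιinj) ?_
    intro y hy
    rw [map_zero]
    exact hcon y (fun i => hy i (Set.mem_univ i))
  choose z hz using hy
  rw [map_mul, map_mul] at hTy
  have hAy : MvPolynomial.eval y A ≠ 0 := fun h1 => hTy (by rw [h1, zero_mul, zero_mul])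
  have hBy : MvPolynomial.eval y B ≠ 0 := fun h1 => hTy (by rw [h1, mul_zero, zero_mul])
  have hRy : MvPolynomial.eval y (MvPolynomial.map ι (R d)) ≠ 0 :=
    fun h1 => hTy (by rw [h1, mul_zero])
  have hmapz : ∀ k, MvPolynomial.eval y (MvPolynomial.map ι (R k)) =
      ι (MvPolynomial.eval z (R k)) := by
    intro k
    have h1 : y = fun i => ι (z i) := by
      funext i
      exact (hz i).symm
    rw [h1, eval_map]
    exact (MvPolynomial.eval₂_comp _ _ _).symm
  set a₀ : F₀ := MvPolynomial.eval y A with ha₀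
  set b₀ : F₀ := MvPolynomial.eval y B with hb₀
  have hhF0 : hF ≠ 0 := by
    intro h1
    apply hh0
    have := congrArg Subtype.val h1
    exact this
  set c₀ : F₀ := a₀ ^ m / (b₀ ^ m * hF ^ I) with hc₀
  have hbI : b₀ ^ m * hF ^ I ≠ 0 := mul_ne_zero (pow_ne_zero _ hBy) (pow_ne_zero _ hhF0)
  have hac : a₀ ^ m = c₀ * (b₀ ^ m * hF ^ I) := by
    rw [hc₀, div_mul_cancel₀ _ hbI]
  set W : Polynomial ℂ := ∑ k ∈ Finset.range (d + 1),
    Polynomial.C (MvPolynomial.eval z (R k)) * Polynomial.X ^ k with hW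
  have hW0 : W ≠ 0 := by
    intro h1
    have h2 : W.coeff d = MvPolynomial.eval z (R d) := by
      rw [hW, Polynomial.finsetSum_coeff, Finset.sum_eq_single d]
      · simp
      · intro k _ hk
        rw [Polynomial.coeff_C_mul, Polynomial.coeff_X_pow, if_neg (Ne.symm hk), mul_zero]
      · intro h3
        exact absurd (Finset.mem_range.2 (Nat.lt_succ_self d)) h3
    rw [h1, Polynomial.coeff_zero] at h2
    apply hRy
    rw [hmapz, ← h2, map_zero]
  have hWc : Polynomial.aeval (c₀ : K) W = 0 := by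
    have h1 : MvPolynomial.eval y S = 0 := by rw [hS0, map_zero]
    rw [hS, map_sum] at h1
    have h2 : ∀ k ∈ Finset.range (d + 1),
        MvPolynomial.eval y (MvPolynomial.map ι (R k) * (A ^ m) ^ k *
          (B ^ m * MvPolynomial.C (hF ^ I)) ^ (d - k)) =
        (ι (MvPolynomial.eval z (R k)) * c₀ ^ k) * (b₀ ^ m * hF ^ I) ^ d := by
      intro k hk
      have hkd : k ≤ d := Nat.lt_succ_iff.1 (Finset.mem_range.1 hk)
      rw [map_mul, map_mul, hmapz, map_pow, map_pow, map_pow, map_mul, map_pow,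
        MvPolynomial.eval_C, ← ha₀, ← hb₀, hac, mul_pow c₀]
      have h3 : (b₀ ^ m * hF ^ I) ^ d = (b₀ ^ m * hF ^ I) ^ k * (b₀ ^ m * hF ^ I) ^ (d - k) := by
        rw [← pow_add]
        congr 1
        omega
      rw [h3]
      ring
    rw [Finset.sum_congr rfl h2, ← Finset.sum_mul] at h1
    have h3 := (mul_eq_zero.1 h1).resolve_right (pow_ne_zero _ hbI)
    rw [hW, map_sum]
    have h4 := congrArg (F₀.subtype) h3
    rw [map_sum, map_zero] at h4
    rw [← h4]
    refine Finset.sum_congr rfl (fun k _ => ?_)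
    rw [map_mul, map_pow, Polynomial.aeval_C, Polynomial.aeval_X, map_mul, map_pow]
    rfl
  have halg0 : IsIntegral ℂ (c₀ : K) := by
    have : IsAlgebraic ℂ (c₀ : K) := ⟨W, hW0, hWc⟩
    exact this.isIntegral
  obtain ⟨c₁, hc₁⟩ : (c₀ : K) ∈ (algebraMap ℂ K).range :=
    minpoly.mem_range_of_degree_eq_one ℂ (c₀ : K)
      (IsAlgClosed.degree_eq_one_of_irreducible ℂ (minpoly.irreducible halg0))
  obtain ⟨e, he⟩ := IsAlgClosed.exists_pow_nat_eq c₁ hm
  have hc₁0 : c₁ ≠ 0 := by
    intro h1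
    rw [h1, map_zero] at hc₁
    have h2 : c₀ = 0 := Subtype.ext hc₁.symm
    rw [h2, zero_mul] at hac
    exact pow_ne_zero m hAy hac
  have he0 : e ≠ 0 := by
    rintro rfl
    rw [zero_pow hm.ne'] at he
    exact hc₁0 he.symm
  have hιe : ι e ≠ 0 := by
    intro h1
    exact he0 (hιinj (by rw [h1, map_zero]))
  refine ⟨((a₀ / (ι e * b₀) : F₀) : K), (a₀ / (ι e * b₀)).2, ?_⟩
  have h1 : hF ^ I = (a₀ / (ι e * b₀)) ^ m := by
    have h2 : c₀ = (ι e) ^ m := by
      rw [← map_pow, he]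
      exact Subtype.ext hc₁.symm
    rw [div_pow, hac, h2, mul_pow]
    have := pow_ne_zero m hιe
    have := pow_ne_zero m hBy
    field_simp
  have h2 := congrArg (F₀.subtype) h1
  rw [map_pow, map_pow] at h2
  exact h2

end TriIdx
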