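import Pool.Agent.TriIdx.IdxB
import Pool.Agent.TriIdx.IdxC
import Pool.Agent.TriIdx.IdxD
import Pool.Agent.TriIdx.Spec

/-!
PROJECT TRI, module IDE (algebra; import the others as black boxes).

PROOF. `u₀ = g₁^m τ^{(m-1) I}` has value `0` at all prime divisors. With `τ = h t^m` and
`W = g₁ h^I t^{(m-1) I}` (if `m ≥ 1`): `W ^ m = u₀ h ^ I` (check: `g₁^m h^{m I} t^{m (m-1) I}
= g₁^m (h t^m)^{(m-1) I} h^I`). Let `ζ` be a primitive `m`-th root of unity, `σ` from `hG.kum`,
`W = ∑ j < m, g j t^j` from `kum_decomp`.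
(1) `g 0 ≠ 0`: take `V, l` from `tau_place`; it is a prime divisor (`prime_τ`) with `vz V τ = m`
(`upB1`, with `hG.vp`), `V` is trivial on `F₀`, so `V u₀ = 0` gives `vz V W = 0`. `vz V (g j t^j)` is
congruent to `j` modulo `m` when `g j ≠ 0` (`vz V t = 1` because `τ = h t^m`), so these values are distinct, the
value of the sum is the minimum, attained at some `j ≡ 0`, i.e. `j = 0`
(e.g. if `g 0 = 0` all summands have value not divisible by `m`; the value of a sum of elements with
distinct values is the minimum).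
(2) `c = (g 0)^m / h^I` satisfies `0 ≤ V c` for every normalised `V` trivial on `M₀`:
`V' = V.comap (σ ^ i)` is again such a valuation, so a prime divisor (`prime_M₀`), `V' u₀ = 0`,
so `m * vz V (σ ^ i W) = vz V (h ^ I)` (`σ` fixes `h`); by the formula for `m * (g 0 * t^0)`:
`m * vz V (g 0) ≥ vz V (h^I)`. By `alg_of_no_pole` `c` is algebraic over `ℂ[x]`.
(3) `g 0 ∈ K₁` is `A(x) / B(x)` (`mvfrac_of_closure`); `spec_root` gives `q ∈ F₀` with `h ^ I = q ^ m`;
`hG.root` gives `m ∣ I`.
-/

namespace TriIdx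

variable {K : Type} [Field K] [Algebra ℂ K] {n m N : ℕ} (G : Geo K n m N)

/-- the value of a sum of elements with distinct values is one of the values -/
private theorem ide_sum {L : Type} [Field L] (V : AddValuation L (WithTop ℤ)) (f : ℕ → L)
    (S : Finset ℕ)
    (hd : ∀ i ∈ S, ∀ j ∈ S, i ≠ j → f i ≠ 0 → f j ≠ 0 → vz V (f i) ≠ vz V (f j))
    (hne : ∑ j ∈ S, f j ≠ 0) : ∃ j ∈ S, f j ≠ 0 ∧ vz V (∑ j ∈ S, f j) = vz V (f j) := by
  classical
  induction S using Finset.induction_on with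
  | empty => exact absurd (Finset.sum_empty) hne
  | insert j S hj ih =>
    rw [Finset.sum_insert hj] at hne ⊢
    have ih' := ih (fun i hi k hk => hd i (Finset.mem_insert_of_mem hi) k
      (Finset.mem_insert_of_mem hk))
    by_cases h1 : ∑ j ∈ S, f j = 0
    · rw [h1, add_zero] at hne ⊢
      exact ⟨j, Finset.mem_insert_self _ _, hne, rfl⟩
    · obtain ⟨i, hi, hi0, hiv⟩ := ih' h1
      by_cases h2 : f j = 0
      · rw [h2, zero_add]
        exact ⟨i, Finset.mem_insert_of_mem hi, hi0, hiv⟩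
      · have h3 : vz V (f j) ≠ vz V (f i) := hd j (Finset.mem_insert_self _ _) i
          (Finset.mem_insert_of_mem hi) (fun h => hj (h ▸ hi)) h2 hi0
        have h4 : V (f j) ≠ V (∑ j ∈ S, f j) := by
          rw [v_eq V h2, v_eq V h1, hiv]
          intro h
          exact h3 (by exact_mod_cast h)
        have h5 := AddValuation.map_add_of_distinct_val (v := V) h4
        rw [v_eq V h2, v_eq V h1, v_eq V hne, hiv] at h5
        have h6 : vz V (f j + ∑ j ∈ S, f j) = min (vz V (f j)) (vz V (f i)) := by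
          have h7 : ((vz V (f j + ∑ j ∈ S, f j) : ℤ) : WithTop ℤ) =
              ((min (vz V (f j)) (vz V (f i)) : ℤ) : WithTop ℤ) := by
            rw [h5]
            simp
          exact_mod_cast h7
        rcases min_choice (vz V (f j)) (vz V (f i)) with h8 | h8
        · exact ⟨j, Finset.mem_insert_self _ _, h2, h6.trans h8⟩
        · exact ⟨i, Finset.mem_insert_of_mem hi, hi0, h6.trans h8⟩

theorem index_dvd (hG : Full G) (I : ℕ) (g₁ : K) (hg : g₁ ≠ 0)
    (hv : ∀ V : AddValuation K (WithTop ℤ), IsPrimeDivisor n G.fam V →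
      (m : ℤ) * vz V g₁ = -((I : ℤ) * (m - 1)) * vz V G.τ) : m ∣ I := by
  classical
  have hm : 0 < m := G.mpos
  have ht := G.t_ne
  have hh := G.hh0
  have hτ : G.τ = G.h * G.t ^ m := by rw [G.hrel]; rfl
  have hτ0 : G.τ ≠ 0 := G.hτ
  set W : K := g₁ * G.h ^ I * G.t ^ ((m - 1) * I) with hWdef
  have hW0 : W ≠ 0 := mul_ne_zero (mul_ne_zero hg (pow_ne_zero _ hh)) (pow_ne_zero _ ht)
  have hvW : ∀ V : AddValuation K (WithTop ℤ), IsPrimeDivisor n G.fam V →
      (m : ℤ) * vz V W = I * vz V G.h := by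
    intro V hV
    have h1 := hv V hV
    rw [hτ, vz_mul V hh (pow_ne_zero _ ht), vz_pow V ht] at h1
    rw [hWdef, vz_mul V (mul_ne_zero hg (pow_ne_zero _ hh)) (pow_ne_zero _ ht),
      vz_mul V hg (pow_ne_zero _ hh), vz_pow V hh, vz_pow V ht]
    have h2 : (((m - 1) * I : ℕ) : ℤ) = ((m : ℤ) - 1) * I := by
      rw [Nat.cast_mul, Nat.cast_sub hm]
      simp
    rw [h2]
    linear_combination h1
  have hmc : (m : ℕ) ≠ 0 := hm.ne'
  obtain ⟨ζ, hζ⟩ : ∃ ζ : ℂ, IsPrimitiveRoot ζ m := ⟨_, Complex.isPrimitiveRoot_exp m hmc⟩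
  obtain ⟨σ, hσF, hσx, hσt⟩ := hG.kum ζ hζ.pow_eq_one
  obtain ⟨g, hgK, hWsum, hgj⟩ := kum_decomp G ζ hζ σ hσF hσx hσt W
  -- (1)
  have hg0 : g 0 ≠ 0 := by
    obtain ⟨V, l, hC, h1, hF, hx, hR, hτp, hK⟩ := tau_place G hG
    have hVP := hG.vp V hC h1
    have hτm : vz V G.τ = m := (upB1 G hVP hF hx hR hτp).1
    have hprime := prime_τ G V l hC h1 hx
      ((nonneg_iff V hτ0).2 hτp.le) hR
    have hVh : vz V G.h = 0 := (eq_zero_iff V hh).1 (hF _ G.hh hh)
    have hVW : vz V W = 0 := by
      have h2 := hvW V hprime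
      rw [hVh, mul_zero] at h2
      rcases mul_eq_zero.1 h2 with h3 | h3
      · exact absurd h3 (by exact_mod_cast hmc)
      · exact h3
    have hVt : vz V G.t = 1 := by
      have h2 := hτm
      rw [hτ, vz_mul V hh (pow_ne_zero _ ht), vz_pow V ht, hVh, zero_add] at h2
      have hm' : (m : ℤ) ≠ 0 := by exact_mod_cast hmc
      exact mul_left_cancel₀ hm' (by rw [h2, mul_one])
    have hval : ∀ j, g j * G.t ^ j ≠ 0 → ∃ k : ℤ, vz V (g j * G.t ^ j) = k * m + j := by
      intro j hj
      have hgj0 : g j ≠ 0 := left_ne_zero_of_mul hj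
      obtain ⟨k, hk⟩ := hK (g j) (hgK j) hgj0
      refine ⟨k, ?_⟩
      rw [vz_mul V hgj0 (pow_ne_zero _ ht), vz_pow V ht, hVt, hk, hτm, mul_one]
    have hmod : ∀ j ∈ Finset.range m, ∀ i ∈ Finset.range m, ∀ k k' : ℤ,
        k * m + j = k' * m + i → j = i := by
      intro j hj i hi k k' h
      rw [Finset.mem_range] at hj hi
      have h2 : (j : ℤ) - i = (k' - k) * m := by linear_combination h
      have h3 : |(j : ℤ) - i| < m := by
        rw [abs_lt]
        constructor <;> omega
      rw [h2, abs_mul] at h3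
      have h4 : |k' - k| < 1 := by
        by_contra h5
        push Not at h5
        have h6 : |((m : ℕ) : ℤ)| = m := abs_of_nonneg (by positivity)
        rw [h6] at h3
        have h7 : (0 : ℤ) < m := by exact_mod_cast hm
        nlinarith
      have h5 : k' - k = 0 := Int.abs_lt_one_iff.1 h4
      rw [h5, zero_mul] at h2
      omega
    obtain ⟨j, hj, hj0, hjv⟩ := ide_sum V (fun j => g j * G.t ^ j) (Finset.range m) (by
        intro i hi j hj hij hi0 hj0 h
        obtain ⟨k, hk⟩ := hval i hi0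
        obtain ⟨k', hk'⟩ := hval j hj0
        rw [hk, hk'] at h
        exact hij (hmod i hi j hj k k' h)) (by rw [← hWsum]; exact hW0)
    rw [← hWsum, hVW] at hjv
    obtain ⟨k, hk⟩ := hval j hj0
    rw [hk] at hjv
    have h2 := hmod j hj 0 (Finset.mem_range.2 hm) k 0 (by rw [← hjv]; simp)
    rw [h2] at hj0
    exact left_ne_zero_of_mul hj0
  -- (2)
  have hσi : ∀ (i : ℕ) (f : K), (f ∈ G.F₀ ∨ f ∈ G.M₀) → (σ ^ i) f = f := by
    intro i f hf
    have h1 : σ f = f := by
      rcases hf with hf | hf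
      · exact hσF f hf
      · unfold Geo.M₀ at hf
        induction hf using Subfield.closure_induction with
        | mem x hx =>
          rcases hx with ⟨c, rfl⟩ | ⟨i, rfl⟩
          · exact σ.commutes c
          · exact hσx i
        | one => exact map_one σ
        | add x y _ _ hx hy => rw [map_add, hx, hy]
        | neg x _ hx => rw [map_neg, hx]
        | inv x _ hx => rw [map_inv₀, hx]
        | mul x y _ _ hx hy => rw [map_mul, hx, hy]
    induction i with
    | zero => rfl
    | succ i ih => rw [pow_succ, AlgEquiv.mul_apply, h1, ih]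
  have halg : IsAlgebraic (Algebra.adjoin ℂ (Set.range G.x)) ((g 0) ^ m / G.h ^ I) := by
    refine alg_of_no_pole G hG _ fun V h1 hM => ?_
    have hconst : ∀ c : ℂ, c ≠ 0 → V (algebraMap ℂ K c) = 0 := fun c hc =>
      hM _ (Subfield.subset_closure (Or.inl ⟨c, rfl⟩))
        ((map_ne_zero_iff _ (algebraMap ℂ K).injective).2 hc)
    have hVi : ∀ i : ℕ, (m : ℤ) * vz V ((σ ^ i) W) = I * vz V G.h := by
      intro i
      set V' : AddValuation K (WithTop ℤ) := V.comap ((σ ^ i : K ≃ₐ[ℂ] K) : K →+* K) with hV'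
      have hap : ∀ z : K, V' z = V ((σ ^ i) z) := fun z => rfl
      have hprime := prime_M₀ G hG V' (by
        obtain ⟨π, hπ⟩ := h1
        refine ⟨(σ ^ i).symm π, ?_⟩
        rw [hap, AlgEquiv.apply_symm_apply, hπ]) (fun a ha ha0 => by
          rw [hap, hσi i a (Or.inr ha)]
          exact hM a ha ha0)
      have h2 := hvW V' hprime
      have h3 : vz V' W = vz V ((σ ^ i) W) := rfl
      have h4 : vz V' G.h = vz V G.h := by
        have : vz V' G.h = vz V ((σ ^ i) G.h) := rfl
        rw [this, hσi i _ (Or.inl G.hh)]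
      rw [h3, h4] at h2
      exact h2
    have hm' : (m : ℤ) ≠ 0 := by exact_mod_cast hmc
    have hmK : V ((m : ℕ) : K) = 0 := by
      have h2 : ((m : ℕ) : K) = algebraMap ℂ K (m : ℂ) := by simp
      rw [h2]
      exact hconst _ (by exact_mod_cast hmc)
    have hmK0 : ((m : ℕ) : K) ≠ 0 := by
      intro h2
      rw [h2, AddValuation.map_zero] at hmK
      exact absurd hmK (by simp)
    have h5 := hgj 0 hm
    have h6 : ((vz V W : ℤ) : WithTop ℤ) ≤ V ((m : K) * (g 0 * G.t ^ 0)) := by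
      rw [h5]
      refine AddValuation.map_le_sum V fun i _ => ?_
      have hi0 : (σ ^ i) W ≠ 0 := (map_ne_zero_iff _ (σ ^ i).injective).2 hW0
      rw [AddValuation.map_mul, mul_zero, pow_zero, map_one, AddValuation.map_one, zero_add,
        v_eq V hi0]
      have h7 : vz V ((σ ^ i) W) = vz V W := by
        have a1 := hVi i
        have a2 := hVi 0
        have a3 : (σ ^ 0) W = W := rfl
        rw [a3] at a2
        exact mul_left_cancel₀ hm' (a1.trans a2.symm)
      rw [h7]
    have h8 : V ((m : K) * (g 0 * G.t ^ 0)) = ((vz V (g 0) : ℤ) : WithTop ℤ) := by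
      rw [AddValuation.map_mul, hmK, zero_add, pow_zero, mul_one, v_eq V hg0]
    rw [h8] at h6
    have h9 : vz V W ≤ vz V (g 0) := by exact_mod_cast h6
    have h10 : (m : ℤ) * vz V W = I * vz V G.h := by
      have a2 := hVi 0
      have a3 : (σ ^ 0) W = W := rfl
      rwa [a3] at a2
    rw [nonneg_iff V (div_ne_zero (pow_ne_zero _ hg0) (pow_ne_zero _ hh)),
      vz_div V (pow_ne_zero _ hg0) (pow_ne_zero _ hh), vz_pow V hg0, vz_pow V hh]
    have h11 : (0 : ℤ) < m := by exact_mod_cast hm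
    nlinarith
  -- (3)
  obtain ⟨A, B, hB, hAB⟩ := mvfrac_of_closure (M := G.F₀) (x := G.x) (hgK 0)
  have hA : A.eval₂ G.F₀.subtype G.x ≠ 0 := by
    intro h
    rw [h, zero_div] at hAB
    exact hg0 hAB
  obtain ⟨q, hq, hqm⟩ := spec_root hm G.F₀ G.hconst G.x hG.indep G.h G.hh hh A B hA hB I
    (by rw [← hAB]; exact halg)
  exact hG.root I q hq hqm

end TriIdx
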