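import Pool.Agent.TriIdx.Val

/-!
Kummer extensions by a unit: a subring of the valuation ring closed under inverses of units which
contains the valuation ring of the base and the Kummer generator is everything.
-/

namespace TriIdx

open Polynomial

/-- in `κ[T]/(f)`, `f` separable, every element is von Neumann regular -/
theorem vnr {κ : Type*} [Field κ] (f A : κ[X]) (hf : f.Separable) :
    ∃ Y Q : κ[X], A - A ^ 2 * Y = f * Q := by
  classical
  have hf0 : f ≠ 0 := hf.ne_zero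
  obtain ⟨d, hdA, hdf, p, q, hpq⟩ : ∃ d : κ[X], d ∣ A ∧ d ∣ f ∧ ∃ p q, d = A * p + f * q :=
    ⟨EuclideanDomain.gcd A f, EuclideanDomain.gcd_dvd_left A f, EuclideanDomain.gcd_dvd_right A f,
      _, _, EuclideanDomain.gcd_eq_gcd_ab A f⟩
  obtain ⟨A', hA'⟩ := hdA
  obtain ⟨f', hf'⟩ := hdf
  have hd0 : d ≠ 0 := by
    intro h; rw [h, zero_mul] at hf'; exact hf0 hf'
  have hcop : IsCoprime A' f' := by
    refine ⟨p, q, ?_⟩
    have h2 : d * (p * A' + q * f') = d * 1 := by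
      calc d * (p * A' + q * f') = (d * A') * p + (d * f') * q := by ring
        _ = A * p + f * q := by rw [← hA', ← hf']
        _ = d * 1 := by rw [← hpq, mul_one]
    exact mul_left_cancel₀ hd0 h2
  have hcop2 : IsCoprime d f' := by
    have h := hf
    rw [hf'] at h
    exact h.isCoprime
  have hcop3 : IsCoprime A f' := by
    rw [hA']; exact IsCoprime.mul_left hcop2 hcop
  obtain ⟨α, β, hαβ⟩ := hcop3
  refine ⟨α, β * A', ?_⟩
  have h2 : A * (β * f') = f * (β * A') := by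
    rw [hA', hf']; ring
  calc A - A ^ 2 * α = A * 1 - A ^ 2 * α := by rw [mul_one]
    _ = A * (α * A + β * f') - A ^ 2 * α := by rw [← hαβ]
    _ = A * (β * f') := by ring
    _ = f * (β * A') := h2

variable {K : Type*} [Field K] (v : AddValuation K (WithTop ℤ))

/-- valuation subring of a subfield, as a subring of the subfield -/
def OV1 (K₁ : Subfield K) : Subring K₁ := (OV v).comap K₁.subtype

theorem mem_OV1 {K₁ : Subfield K} {x : K₁} : x ∈ OV1 v K₁ ↔ 0 ≤ v (x : K) := Iff.rfl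

/-- the maximal ideal -/
def m1 (K₁ : Subfield K) : Ideal (OV1 v K₁) where
  carrier := {x | 0 < v ((x : K₁) : K)}
  add_mem' := by
    intro a b ha hb
    exact AddValuation.map_lt_add v ha hb
  zero_mem' := by
    show 0 < v ((0 : K₁) : K)
    simp
  smul_mem' := by
    intro c x hx
    have hc : 0 ≤ v ((c : K₁) : K) := c.2
    have hx' : 0 < v ((x : K₁) : K) := hx
    show 0 < v (((c : K₁) : K) * ((x : K₁) : K))
    rw [AddValuation.map_mul]
    exact lt_of_lt_of_le hx' (le_add_of_nonneg_left hc)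

theorem mem_m1 {K₁ : Subfield K} {x : OV1 v K₁} : x ∈ m1 v K₁ ↔ 0 < v ((x : K₁) : K) := Iff.rfl

instance m1_max (K₁ : Subfield K) : (m1 v K₁).IsMaximal := by
  rw [Ideal.isMaximal_iff]
  constructor
  · rw [mem_m1]
    have : (((1 : OV1 v K₁) : K₁) : K) = 1 := rfl
    rw [this, AddValuation.map_one]
    exact lt_irrefl _
  · intro J x hJ hx hxJ
    rw [mem_m1] at hx
    have hx0 : 0 ≤ v ((x : K₁) : K) := x.2
    have hxe : v ((x : K₁) : K) = 0 := le_antisymm (not_lt.1 hx) hx0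
    have hxn : ((x : K₁) : K) ≠ 0 := by
      intro h; rw [h, AddValuation.map_zero] at hxe; exact absurd hxe (by simp)
    have hinv : (x : K₁)⁻¹ ∈ OV1 v K₁ := by
      rw [mem_OV1]
      have : (((x : K₁)⁻¹ : K₁) : K) = ((x : K₁) : K)⁻¹ := rfl
      rw [this, nonneg_iff v (inv_ne_zero hxn), vz_inv v hxn]
      have := (eq_zero_iff v hxn).1 hxe
      omega
    have : (1 : OV1 v K₁) = ⟨(x : K₁)⁻¹, hinv⟩ * x := by
      apply Subtype.ext
      have hxn' : (x : K₁) ≠ 0 := by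
        intro h; apply hxn; rw [h]; rfl
      show (1 : K₁) = (x : K₁)⁻¹ * (x : K₁)
      rw [inv_mul_cancel₀ hxn']
    rw [this]
    exact J.mul_mem_left _ hxJ

/-- embedding of the valuation ring of the subfield -/
def io (K₁ : Subfield K) : OV1 v K₁ →+* K := K₁.subtype.comp (OV1 v K₁).subtype

/-- `R₁[θ]` -/
noncomputable def BB (K₁ : Subfield K) (θ : K) : Subring K := (eval₂RingHom (io v K₁) θ).range

theorem mem_BB {K₁ : Subfield K} {θ x : K} :
    x ∈ BB v K₁ θ ↔ ∃ p : (OV1 v K₁)[X], p.eval₂ (io v K₁) θ = x := Iff.rfl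

theorem base_mem_BB {K₁ : Subfield K} {θ x : K} (hx : x ∈ K₁) (h0 : 0 ≤ v x) :
    x ∈ BB v K₁ θ := ⟨C ⟨⟨x, hx⟩, h0⟩, by simp [io]⟩

theorem theta_mem_BB {K₁ : Subfield K} {θ : K} : θ ∈ BB v K₁ θ := ⟨X, by simp⟩

theorem BB_le {K₁ : Subfield K} {θ : K} (O : Subring K) (h1 : ∀ r ∈ K₁, 0 ≤ v r → r ∈ O)
    (hθ : θ ∈ O) : BB v K₁ θ ≤ O := by
  rintro x ⟨p, rfl⟩
  show p.eval₂ (io v K₁) θ ∈ O
  rw [Polynomial.eval₂_eq_sum_range]
  refine O.sum_mem fun i _ => O.mul_mem (h1 _ (p.coeff i : K₁).2 (p.coeff i).2) (O.pow_mem hθ i)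

theorem BB_nonneg {K₁ : Subfield K} {θ : K} (hθ : 0 ≤ v θ) {x : K} (hx : x ∈ BB v K₁ θ) :
    0 ≤ v x := BB_le v (OV v) (fun _ _ h => h) hθ hx

section main

variable {K₁ : Subfield K} {θ π : K} {a : ℕ} (ha : v (a : K) = 0)
  (hθa : θ ^ a ∈ K₁) (hθ : v θ = 0) (hπ : π ∈ K₁) (hπ0 : 0 < vz v π) (hπn : π ≠ 0)
  (hmin : ∀ r ∈ K₁, r ≠ 0 → ∃ j : ℤ, vz v r = j * vz v π)

include hπ hπ0 hπn hmin in
theorem m1_div {r : K} (hr : r ∈ K₁) (h : 0 < v r) : ∃ r' ∈ K₁, 0 ≤ v r' ∧ r = π * r' := by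
  by_cases hr0 : r = 0
  · exact ⟨0, K₁.zero_mem, by simp, by rw [hr0]; simp⟩
  obtain ⟨j, hj⟩ := hmin r hr hr0
  have h' := (pos_iff v hr0).1 h
  have hj1 : 1 ≤ j := by
    by_contra hc
    have : j ≤ 0 := by omega
    nlinarith
  refine ⟨r / π, K₁.div_mem hr hπ, ?_, by field_simp⟩
  rw [nonneg_iff v (div_ne_zero hr0 hπn), vz_div v hr0 hπn, hj]
  nlinarith

include ha hθa hθ hπ hπ0 hπn hmin in
theorem step1 {x : K} (hx : x ∈ BB v K₁ θ) (hx0 : 0 < v x) :
    ∃ s ∈ BB v K₁ θ, v s = 0 ∧ ∃ z ∈ BB v K₁ θ, s * x = π * z := by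
  obtain ⟨A, rfl⟩ := hx
  have hθn : θ ≠ 0 := by
    intro h; rw [h, AddValuation.map_zero] at hθ; exact absurd hθ (by simp)
  have hc : v (θ ^ a) = 0 := by rw [AddValuation.map_pow, hθ]; simp
  let c : OV1 v K₁ := ⟨⟨θ ^ a, hθa⟩, le_of_eq hc.symm⟩
  let _ : Field (OV1 v K₁ ⧸ m1 v K₁) := Ideal.Quotient.field _
  let mk := Ideal.Quotient.mk (m1 v K₁)
  have hsep : (X ^ a - C (mk c) : (OV1 v K₁ ⧸ m1 v K₁)[X]).Separable := by
    apply separable_X_pow_sub_C
    · intro h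
      have h2 : mk ((a : ℕ) : OV1 v K₁) = 0 := by rw [map_natCast]; exact h
      rw [Ideal.Quotient.eq_zero_iff_mem, mem_m1] at h2
      have h3 : ((((a : ℕ) : OV1 v K₁) : K₁) : K) = (a : K) := by push_cast; rfl
      rw [h3, ha] at h2
      exact lt_irrefl _ h2
    · intro h
      have h2 : mk c = 0 := h
      rw [Ideal.Quotient.eq_zero_iff_mem, mem_m1] at h2
      have h3 : ((c : K₁) : K) = θ ^ a := rfl
      rw [h3, hc] at h2
      exact lt_irrefl _ h2
  obtain ⟨Y, Q, hYQ⟩ := vnr _ (A.map mk) hsep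
  obtain ⟨Y', rfl⟩ := Polynomial.map_surjective mk Ideal.Quotient.mk_surjective Y
  obtain ⟨Q', rfl⟩ := Polynomial.map_surjective mk Ideal.Quotient.mk_surjective Q
  set P : (OV1 v K₁)[X] := A - A ^ 2 * Y' - (X ^ a - C c) * Q' with hP
  have hP0 : P.map mk = 0 := by
    rw [hP]
    simp only [Polynomial.map_sub, Polynomial.map_mul, Polynomial.map_pow, Polynomial.map_X,
      Polynomial.map_C]
    rw [hYQ, sub_self]
  have hPc : ∀ i, ∃ r' ∈ K₁, 0 ≤ v r' ∧ ((P.coeff i : K₁) : K) = π * r' := by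
    intro i
    apply m1_div v hπ hπ0 hπn hmin (P.coeff i : K₁).2
    have h2 : mk (P.coeff i) = 0 := by
      have := congrArg (fun q => q.coeff i) hP0
      simpa using this
    rw [Ideal.Quotient.eq_zero_iff_mem, mem_m1] at h2
    exact h2
  choose r' hr'1 hr'2 hr'3 using hPc
  have hev : P.eval₂ (io v K₁) θ = π * ∑ i ∈ Finset.range (P.natDegree + 1), r' i * θ ^ i := by
    rw [Polynomial.eval₂_eq_sum_range, Finset.mul_sum]
    refine Finset.sum_congr rfl fun i _ => ?_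
    have : io v K₁ (P.coeff i) = π * r' i := hr'3 i
    rw [this]; ring
  set x := A.eval₂ (io v K₁) θ with hx
  set y := Y'.eval₂ (io v K₁) θ with hy
  have hev2 : P.eval₂ (io v K₁) θ = x - x ^ 2 * y := by
    rw [hP]
    simp only [Polynomial.eval₂_sub, Polynomial.eval₂_mul, Polynomial.eval₂_pow,
      Polynomial.eval₂_X, Polynomial.eval₂_C]
    have : io v K₁ c = θ ^ a := rfl
    rw [this, sub_self, zero_mul, sub_zero]
  have hyB : y ∈ BB v K₁ θ := ⟨Y', rfl⟩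
  have hxB : x ∈ BB v K₁ θ := ⟨A, rfl⟩
  have hx0' : 0 < v x := hx0
  refine ⟨1 - x * y, Subring.sub_mem _ (Subring.one_mem _) (Subring.mul_mem _ hxB hyB), ?_,
    ∑ i ∈ Finset.range (P.natDegree + 1), r' i * θ ^ i, ?_, ?_⟩
  · have hxy : 0 < v (x * y) := by
      rw [AddValuation.map_mul]
      exact lt_of_lt_of_le hx0' (le_add_of_nonneg_right (BB_nonneg v (le_of_eq hθ.symm) hyB))
    have : v (1 - x * y) = v 1 := by
      apply AddValuation.map_sub_eq_of_lt_left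
      rw [AddValuation.map_one]; exact hxy
    rw [this, AddValuation.map_one]
  · refine Subring.sum_mem _ fun i _ => Subring.mul_mem _ (base_mem_BB v (hr'1 i) (hr'2 i))
      (Subring.pow_mem _ (theta_mem_BB v) i)
  · show (1 - x * y) * x = _
    rw [← hev, hev2]; ring

include ha hθa hθ hπ hπ0 hπn hmin in
theorem step2 (k : ℕ) : ∀ x ∈ BB v K₁ θ, x ≠ 0 → vz v x = k →
    ∃ j : ℕ, ∃ s ∈ BB v K₁ θ, ∃ w ∈ BB v K₁ θ, v s = 0 ∧ v w = 0 ∧ s * x = π ^ j * w := by
  induction k using Nat.strong_induction_on with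
  | _ k ih =>
    intro x hx hx0 hk
    rcases Nat.eq_zero_or_pos k with rfl | hkpos
    · refine ⟨0, 1, Subring.one_mem _, x, hx, by simp, ?_, by simp⟩
      rw [eq_zero_iff v hx0, hk]; simp
    · have hxp : 0 < v x := by rw [pos_iff v hx0, hk]; exact_mod_cast hkpos
      obtain ⟨s, hs, hvs, z, hz, hsz⟩ := step1 v ha hθa hθ hπ hπ0 hπn hmin hx hxp
      have hsn : s ≠ 0 := by
        intro h; rw [h, AddValuation.map_zero] at hvs; exact absurd hvs (by simp)
      have hzn : z ≠ 0 := by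
        intro h; rw [h, mul_zero] at hsz; exact (mul_ne_zero hsn hx0) hsz
      have hval : vz v s + vz v x = vz v π + vz v z := by
        rw [← vz_mul v hsn hx0, ← vz_mul v hπn hzn, hsz]
      have hvs' := (eq_zero_iff v hsn).1 hvs
      have hz0 : 0 ≤ vz v z := (nonneg_iff v hzn).1 (BB_nonneg v (le_of_eq hθ.symm) hz)
      obtain ⟨k', hk'⟩ := Int.eq_ofNat_of_zero_le hz0
      have hlt : k' < k := by omega
      obtain ⟨j, s', hs', w, hw, hvs2, hvw, hj⟩ := ih k' hlt z hz hzn hk'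
      refine ⟨j + 1, s' * s, Subring.mul_mem _ hs' hs, w, hw, ?_, hvw, ?_⟩
      · rw [AddValuation.map_mul, hvs2, hvs]; simp
      · rw [mul_assoc, hsz, pow_succ]
        calc s' * (π * z) = π * (s' * z) := by ring
          _ = π * (π ^ j * w) := by rw [hj]
          _ = π ^ j * π * w := by ring

include hθ hπ hπ0 hπn hmin in
theorem clear_denom (p : K₁[X]) : ∃ M : ℕ, π ^ M * p.eval₂ K₁.subtype θ ∈ BB v K₁ θ := by
  induction p using Polynomial.induction_on' with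
  | add p q hp hq =>
    obtain ⟨M, hM⟩ := hp
    obtain ⟨M', hM'⟩ := hq
    refine ⟨M + M', ?_⟩
    rw [Polynomial.eval₂_add]
    have hπB : ∀ k : ℕ, π ^ k ∈ BB v K₁ θ := fun k => Subring.pow_mem _
      (base_mem_BB v hπ ((nonneg_iff v hπn).2 hπ0.le)) k
    have : π ^ (M + M') * (p.eval₂ K₁.subtype θ + q.eval₂ K₁.subtype θ)
        = π ^ M' * (π ^ M * p.eval₂ K₁.subtype θ) + π ^ M * (π ^ M' * q.eval₂ K₁.subtype θ) := by
      ring
    rw [this]
    exact Subring.add_mem _ (Subring.mul_mem _ (hπB _) hM) (Subring.mul_mem _ (hπB _) hM')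
  | monomial i c =>
    rw [Polynomial.eval₂_monomial]
    by_cases hc : (c : K) = 0
    · refine ⟨0, ?_⟩
      have : K₁.subtype c = 0 := hc
      rw [this]; simp
    · refine ⟨(vz v (c : K)).natAbs, ?_⟩
      rw [← mul_assoc]
      refine Subring.mul_mem _ (base_mem_BB v (K₁.mul_mem (K₁.pow_mem hπ _) c.2) ?_)
        (Subring.pow_mem _ (theta_mem_BB v) i)
      show 0 ≤ v (π ^ (vz v (c : K)).natAbs * (c : K))
      rw [nonneg_iff v (mul_ne_zero (pow_ne_zero _ hπn) hc), vz_mul v (pow_ne_zero _ hπn) hc,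
        vz_pow v hπn]
      have h1 : - (vz v (c : K)) ≤ ((vz v (c : K)).natAbs : ℤ) := by omega
      nlinarith [Int.natCast_nonneg (vz v (c : K)).natAbs]

include ha hθa hθ hπ hπ0 hπn hmin in
/-- structure of all elements -/
theorem KU_struct (hgen : ∀ z : K, ∃ p : K₁[X], z = p.eval₂ K₁.subtype θ) {r : K} (hr : r ≠ 0) :
    ∃ j : ℤ, ∃ s ∈ BB v K₁ θ, ∃ w ∈ BB v K₁ θ, v s = 0 ∧ v w = 0 ∧ r = π ^ j * w * s⁻¹ := by
  obtain ⟨p, hp⟩ := hgen r
  obtain ⟨M, hM⟩ := clear_denom v hθ hπ hπ0 hπn hmin p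
  rw [← hp] at hM
  have hne : π ^ M * r ≠ 0 := mul_ne_zero (pow_ne_zero _ hπn) hr
  obtain ⟨k, hk⟩ := Int.eq_ofNat_of_zero_le
    ((nonneg_iff v hne).1 (BB_nonneg v (le_of_eq hθ.symm) hM))
  obtain ⟨j, s, hs, w, hw, hvs, hvw, hj⟩ :=
    step2 v ha hθa hθ hπ hπ0 hπn hmin k _ hM hne hk
  have hsn : s ≠ 0 := by
    intro h; rw [h, AddValuation.map_zero] at hvs; exact absurd hvs (by simp)
  refine ⟨(j : ℤ) - M, s, hs, w, hw, hvs, hvw, ?_⟩
  rw [zpow_sub₀ hπn, zpow_natCast, zpow_natCast]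
  field_simp
  linear_combination hj

include ha hθa hθ hπ hπ0 hπn hmin in
/-- values of `K` are multiples of `v π` -/
theorem KU_val (hgen : ∀ z : K, ∃ p : K₁[X], z = p.eval₂ K₁.subtype θ) {r : K} (hr : r ≠ 0) :
    ∃ j : ℤ, vz v r = j * vz v π := by
  obtain ⟨j, s, hs, w, hw, hvs, hvw, hrr⟩ := KU_struct v ha hθa hθ hπ hπ0 hπn hmin hgen hr
  have hsn : s ≠ 0 := by
    intro h; rw [h, AddValuation.map_zero] at hvs; exact absurd hvs (by simp)
  have hwn : w ≠ 0 := by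
    intro h; rw [h, AddValuation.map_zero] at hvw; exact absurd hvw (by simp)
  refine ⟨j, ?_⟩
  rw [hrr, vz_mul v (mul_ne_zero (zpow_ne_zero _ hπn) hwn) (inv_ne_zero hsn),
    vz_mul v (zpow_ne_zero _ hπn) hwn, vz_inv v hsn, vz_zpow v hπn,
    (eq_zero_iff v hsn).1 hvs, (eq_zero_iff v hwn).1 hvw]
  ring

include ha hθa hθ hπ hπ0 hπn hmin in
/-- the valuation ring is contained in every subring containing `R₁` and `θ` and closed under
inverses of units -/
theorem KU (hgen : ∀ z : K, ∃ p : K₁[X], z = p.eval₂ K₁.subtype θ) (O : Subring K)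
    (hO : ∀ r ∈ O, v r = 0 → r⁻¹ ∈ O) (h1 : ∀ r ∈ K₁, 0 ≤ v r → r ∈ O) (hθO : θ ∈ O)
    {r : K} (hr : 0 ≤ v r) : r ∈ O := by
  by_cases hr0 : r = 0
  · rw [hr0]; exact O.zero_mem
  obtain ⟨j, s, hs, w, hw, hvs, hvw, hrr⟩ := KU_struct v ha hθa hθ hπ hπ0 hπn hmin hgen hr0
  have hsn : s ≠ 0 := by
    intro h; rw [h, AddValuation.map_zero] at hvs; exact absurd hvs (by simp)
  have hwn : w ≠ 0 := by
    intro h; rw [h, AddValuation.map_zero] at hvw; exact absurd hvw (by simp)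
  have hv : vz v r = j * vz v π := by
    rw [hrr, vz_mul v (mul_ne_zero (zpow_ne_zero _ hπn) hwn) (inv_ne_zero hsn),
      vz_mul v (zpow_ne_zero _ hπn) hwn, vz_inv v hsn, vz_zpow v hπn,
      (eq_zero_iff v hsn).1 hvs, (eq_zero_iff v hwn).1 hvw]
    ring
  have hj : 0 ≤ j := by
    have h0 := (nonneg_iff v hr0).1 hr
    rw [hv] at h0
    by_contra hc
    have : j ≤ -1 := by omega
    nlinarith
  obtain ⟨k, rfl⟩ := Int.eq_ofNat_of_zero_le hj
  have hle := BB_le v O h1 hθO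
  rw [hrr, zpow_natCast]
  exact O.mul_mem (O.mul_mem (O.pow_mem (h1 _ hπ ((nonneg_iff v hπn).2 hπ0.le)) _) (hle hw))
    (hO _ (hle hs) hvs)

end main

end TriIdx
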