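import Pool.Agent.TriIdx.Det

/-!
Logarithmic forms have at most a simple pole.
-/

namespace TriIdx

variable {K : Type*} [Field K] [Algebra ℂ K] (v : AddValuation K (WithTop ℤ))

omit [Algebra ℂ K] in
theorem det_col {n : ℕ} {A B : Matrix (Fin n) (Fin n) K} (c : Fin n → K) (k : Fin n)
    (hk : c k = 0) (h : ∀ i j, A i j = B i j + c j * B i k) : A.det = B.det := by
  rw [← Matrix.det_transpose A, ← Matrix.det_transpose B]
  exact Matrix.det_eq_of_forall_row_eq_smul_add_const c k hk (fun i j => h j i)

/-- logarithmic derivative -/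
def dl (D : Derivation ℂ K K) (x : K) : K := D x / x

theorem dl_mul (D : Derivation ℂ K K) {x y : K} (hx : x ≠ 0) (hy : y ≠ 0) :
    dl D (x * y) = dl D x + dl D y := by
  rw [dl, dl, dl, Derivation.leibniz, smul_eq_mul, smul_eq_mul]; field_simp; ring

theorem dl_one (D : Derivation ℂ K K) : dl D (1 : K) = 0 := by simp [dl]

theorem dl_inv (D : Derivation ℂ K K) {x : K} (hx : x ≠ 0) : dl D x⁻¹ = - dl D x := by
  have h := dl_mul D hx (inv_ne_zero hx)
  rw [mul_inv_cancel₀ hx, dl_one] at h
  linear_combination -h

theorem dl_pow (D : Derivation ℂ K K) {x : K} (hx : x ≠ 0) (n : ℕ) :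
    dl D (x ^ n) = n * dl D x := by
  induction n with
  | zero => simp [dl_one]
  | succ n ih => rw [pow_succ, dl_mul D (pow_ne_zero _ hx) hx, ih]; push_cast; ring

theorem dl_zpow (D : Derivation ℂ K K) {x : K} (hx : x ≠ 0) (n : ℤ) :
    dl D (x ^ n) = n * dl D x := by
  cases n with
  | ofNat n => simpa using dl_pow D hx n
  | negSucc n =>
    rw [zpow_negSucc, dl_inv D (pow_ne_zero _ hx), dl_pow D hx, Int.cast_negSucc]
    push_cast; ring

/-- matrix of logarithmic derivatives -/
def ljac {n : ℕ} (E : Fin n → Derivation ℂ K K) (u : Fin n → K) : Matrix (Fin n) (Fin n) K :=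
  Matrix.of fun i j => dl (E i) (u j)

theorem det_jac_eq {n : ℕ} (E : Fin n → Derivation ℂ K K) (u : Fin n → K)
    (hu : ∀ j, u j ≠ 0) : (jac E u).det = (∏ j, u j) * (ljac E u).det := by
  rw [← Matrix.det_mul_row]
  congr 1
  ext i j
  simp only [jac, ljac, Matrix.of_apply, dl]
  rw [mul_div_cancel₀ _ (hu j)]

theorem det_ljac_update {n : ℕ} (E : Fin n → Derivation ℂ K K) (w : Fin n → K) (l : Fin n)
    (x y : K) (hx : x ≠ 0) (hy : y ≠ 0) :
    (ljac E (Function.update w l (x * y))).det = (ljac E (Function.update w l x)).det +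
      (ljac E (Function.update w l y)).det := by
  have h : ∀ z : K, ljac E (Function.update w l z)
      = (ljac E w).updateCol l (fun i => dl (E i) z) := by
    intro z
    ext i j
    by_cases hj : j = l
    · subst hj; simp [ljac]
    · simp [ljac, hj]
  rw [h, h, h, ← Matrix.det_updateCol_add]
  congr 2
  funext i
  exact dl_mul _ hx hy

theorem det_ljac_update_zpow {n : ℕ} (E : Fin n → Derivation ℂ K K) (w : Fin n → K) (l : Fin n)
    (x : K) (hx : x ≠ 0) (k : ℤ) :
    (ljac E (Function.update w l (x ^ k))).det = k * (ljac E (Function.update w l x)).det := by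
  have h : ∀ z : K, ljac E (Function.update w l z)
      = (ljac E w).updateCol l (fun i => dl (E i) z) := by
    intro z
    ext i j
    by_cases hj : j = l
    · subst hj; simp [ljac]
    · simp [ljac, hj]
  rw [h, h, ← Matrix.det_updateCol_smul]
  congr 2
  funext i
  exact dl_zpow _ hx k

omit [Algebra ℂ K] in
theorem prod_update {n : ℕ} (w : Fin n → K) (l : Fin n) (x : K) :
    ∏ j, Function.update w l x j = x * ∏ j ∈ Finset.univ.erase l, w j := by
  rw [← Finset.mul_prod_erase Finset.univ _ (Finset.mem_univ l), Function.update_self]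
  congr 1
  refine Finset.prod_congr rfl fun j hj => ?_
  rw [Function.update_of_ne (Finset.ne_of_mem_erase hj)]

theorem int_val (hC : ∀ c : ℂ, c ≠ 0 → v (algebraMap ℂ K c) = 0) (k : ℤ) (hk : k ≠ 0) :
    v (k : K) = 0 := by
  have := hC (k : ℂ) (by exact_mod_cast hk)
  rwa [map_intCast] at this

/-- the log lemma -/
theorem log_lemma (hC : ∀ c : ℂ, c ≠ 0 → v (algebraMap ℂ K c) = 0) {π : K}
    (hπ : v π = ((1 : ℤ) : WithTop ℤ)) {n : ℕ} (E : Fin n → Derivation ℂ K K) (u : Fin n → K)
    (hu : ∀ j, u j ≠ 0) :
    ∃ y : Fin n → K, (∀ j, 0 ≤ v (y j)) ∧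
      v (jac E y).det ≤ ((1 : ℤ) : WithTop ℤ) + v (ljac E u).det := by
  classical
  have hπn : π ≠ 0 := ne_zero_of_v_eq v hπ
  have hπv : vz v π = 1 := vz_of_eq v hπ
  by_cases hall : ∀ j, vz v (u j) = 0
  · refine ⟨u, fun j => ?_, ?_⟩
    · rw [nonneg_iff v (hu j), hall j]
    · rw [det_jac_eq E u hu, AddValuation.map_mul]
      have h1 : v (∏ j, u j) = 0 := by
        have hne : (∏ j, u j) ≠ 0 := Finset.prod_ne_zero_iff.2 fun j _ => hu j
        rw [eq_zero_iff v hne, vz_prod v _ _ fun j _ => hu j]
        exact Finset.sum_eq_zero fun j _ => hall j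
      rw [h1, zero_add]
      exact le_add_of_nonneg_left (by exact_mod_cast (zero_le_one : (0 : ℤ) ≤ 1))
  · push Not at hall
    obtain ⟨l, hl⟩ := hall
    set e : Fin n → ℤ := fun j => vz v (u j) with he
    have hel : e l ≠ 0 := hl
    -- the units w_j
    set w : Fin n → K := fun j => u j ^ (e l) * (u l ^ (e j))⁻¹ with hw
    have hwn : ∀ j, w j ≠ 0 := fun j =>
      mul_ne_zero (zpow_ne_zero _ (hu j)) (inv_ne_zero (zpow_ne_zero _ (hu l)))
    have hwv : ∀ j, vz v (w j) = 0 := by
      intro j
      rw [hw]
      show vz v (u j ^ (e l) * (u l ^ (e j))⁻¹) = 0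
      rw [vz_mul v (zpow_ne_zero _ (hu j)) (inv_ne_zero (zpow_ne_zero _ (hu l))),
        vz_inv v (zpow_ne_zero _ (hu l)), vz_zpow v (hu j), vz_zpow v (hu l)]
      show e l * e j + - (e j * e l) = 0
      ring
    -- determinant comparison
    have hdet : (ljac E (Function.update w l (u l))).det
        = (∏ j, (if j = l then (1 : K) else (e l : K))) * (ljac E u).det := by
      rw [← Matrix.det_mul_row]
      apply det_col (fun j => if j = l then 0 else - (e j : K)) l (by simp)
      intro i j
      by_cases hj : j = l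
      · subst hj; simp [ljac]
      · simp only [ljac, Matrix.of_apply, if_neg hj, Function.update_of_ne hj, if_true, one_mul]
        rw [hw]
        show dl (E i) (u j ^ (e l) * (u l ^ (e j))⁻¹) = _
        rw [dl_mul _ (zpow_ne_zero _ (hu j)) (inv_ne_zero (zpow_ne_zero _ (hu l))),
          dl_inv _ (zpow_ne_zero _ (hu l)), dl_zpow _ (hu j), dl_zpow _ (hu l)]
        ring
    have hcv : v (∏ j, (if j = l then (1 : K) else (e l : K))) = 0 := by
      have hc0 : ∀ j, (if j = l then (1 : K) else (e l : K)) ≠ 0 := by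
        intro j
        split_ifs
        · exact one_ne_zero
        · intro h
          have := int_val v hC (e l) hel
          rw [h, AddValuation.map_zero] at this
          exact absurd this (by simp)
      rw [eq_zero_iff v (Finset.prod_ne_zero_iff.2 fun j _ => hc0 j),
        vz_prod v _ _ fun j _ => hc0 j]
      refine Finset.sum_eq_zero fun j _ => ?_
      rw [← eq_zero_iff v (hc0 j)]
      split_ifs
      · exact AddValuation.map_one v
      · exact int_val v hC (e l) hel
    -- split u_l
    set u' : K := u l * (π ^ (e l))⁻¹ with hu'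
    have hu'n : u' ≠ 0 := mul_ne_zero (hu l) (inv_ne_zero (zpow_ne_zero _ hπn))
    have hu'v : vz v u' = 0 := by
      rw [hu', vz_mul v (hu l) (inv_ne_zero (zpow_ne_zero _ hπn)), vz_inv v (zpow_ne_zero _ hπn),
        vz_zpow v hπn, hπv]
      show e l + -(e l * 1) = 0
      ring
    have hul : u l = π ^ (e l) * u' := by
      rw [hu']; field_simp
    have hsplit : (ljac E (Function.update w l (u l))).det
        = (e l : K) * (ljac E (Function.update w l π)).det
          + (ljac E (Function.update w l u')).det := by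
      rw [hul, det_ljac_update E w l _ _ (zpow_ne_zero _ hπn) hu'n,
        det_ljac_update_zpow E w l π hπn]
    -- valuations
    have hP : v (∏ j ∈ Finset.univ.erase l, w j) = 0 := by
      have hne : (∏ j ∈ Finset.univ.erase l, w j) ≠ 0 :=
        Finset.prod_ne_zero_iff.2 fun j _ => hwn j
      rw [eq_zero_iff v hne, vz_prod v _ _ fun j _ => hwn j]
      exact Finset.sum_eq_zero fun j _ => hwv j
    have hy : ∀ x : K, x ≠ 0 → v (jac E (Function.update w l x)).det
        = v x + v (ljac E (Function.update w l x)).det := by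
      intro x hx
      rw [det_jac_eq, prod_update, AddValuation.map_mul, AddValuation.map_mul, hP, add_zero]
      intro j
      by_cases hj : j = l
      · subst hj; simpa using hx
      · rw [Function.update_of_ne hj]; exact hwn j
    have hmin := AddValuation.map_add v ((e l : K) * (ljac E (Function.update w l π)).det)
      (ljac E (Function.update w l u')).det
    rw [← hsplit, hdet, AddValuation.map_mul, AddValuation.map_mul, hcv, zero_add,
      int_val v hC (e l) hel, zero_add] at hmin
    have hwnn : ∀ x : K, 0 ≤ v x → ∀ j, 0 ≤ v (Function.update w l x j) := by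
      intro x hx j
      by_cases hj : j = l
      · subst hj; simpa using hx
      · rw [Function.update_of_ne hj, nonneg_iff v (hwn j), hwv j]
    rcases min_le_iff.1 hmin with h1 | h2
    · refine ⟨Function.update w l π, hwnn π (by rw [nonneg_iff v hπn, hπv]; norm_num), ?_⟩
      rw [hy π hπn, hπ]
      exact add_le_add_right h1 _
    · refine ⟨Function.update w l u', hwnn u' (by rw [nonneg_iff v hu'n, hu'v]), ?_⟩
      rw [hy u' hu'n, (eq_zero_iff v hu'n).2 hu'v, zero_add]
      exact le_trans h2 (le_add_of_nonneg_left (by exact_mod_cast (zero_le_one : (0 : ℤ) ≤ 1)))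

end TriIdx
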