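import Pool.Agent.TriIdx.MerDefs

/-!
PROJECT TRI, module MER2 (Liouville). Import `MerDefs` as a black box.
Write `f` as the class of a meromorphic function `g`; its normal form `toMeromorphicNFOn g univ`
is analytic at every point (orders are nonnegative: `MeromorphicNFAt.meromorphicOrderAt_nonneg_iff_analyticAt`)
and has the same class; it is periodic, because two entire functions equal off a discrete set are
equal (continuity); an entire function with two real-independent periods is bounded
(Mathlib: `IsZLattice.isCompact_range_of_periodic`, lattice `PeriodPair.lattice`), hence constant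
(`Differentiable.apply_eq_apply_of_bounded`).
-/

namespace TriIdx

open Topology Filter

theorem mer_liou (ω₁ ω₂ : ℂ) (f : Mer) (hind : LinearIndependent ℝ ![ω₁, ω₂])
    (h1 : mtr ω₁ f = f) (h2 : mtr ω₂ f = f) (h : ∀ z, 0 ≤ mord z f) :
    ∃ c : ℂ, f = algebraMap ℂ Mer c := by
  obtain ⟨g, hg, rfl⟩ := mk_surj f
  have hgU : MeromorphicOn g Set.univ := fun z _ => hg z
  set G := toMeromorphicNFOn g Set.univ with hG
  have hGg : ∀ z, G =ᶠ[𝓝[≠] z] g := fun z =>
    hgU.toMeromorphicNFOn_eq_self_on_nhdsNE (Set.mem_univ z)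
  have hGan : ∀ z, AnalyticAt ℂ G z := by
    intro z
    have hNF := meromorphicNFOn_toMeromorphicNFOn g Set.univ (Set.mem_univ z)
    rw [← hNF.meromorphicOrderAt_nonneg_iff_analyticAt,
      meromorphicOrderAt_toMeromorphicNFOn hgU (Set.mem_univ z)]
    have := h z
    rwa [mord_mk] at this
  have hGd : Differentiable ℂ G := fun z => (hGan z).differentiableAt
  have hper : ∀ ω, mtr ω (mk g hg) = mk g hg → ∀ z, G (z + ω) = G z := by
    intro ω hω z
    rw [mtr_mk ω hg (mero_add hg ω), mk_eq_iff] at hω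
    have e1 := hω z
    have e2 := hGg z
    have ht : Tendsto (fun w : ℂ => w + ω) (𝓝[≠] z) (𝓝[≠] (z + ω)) := by
      apply tendsto_nhdsWithin_of_tendsto_nhds_of_eventually_within
      · exact ((continuous_id.add continuous_const).tendsto z).mono_left nhdsWithin_le_nhds
      · filter_upwards [self_mem_nhdsWithin] with w hw
        simp only [Set.mem_compl_iff, Set.mem_singleton_iff, add_left_inj] at hw ⊢
        exact hw
    have e3 : ∀ᶠ w in 𝓝[≠] z, G (w + ω) = g (w + ω) := ht.eventually (hGg (z + ω))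
    have e4 : ∀ᶠ w in 𝓝[≠] z, G (w + ω) = G w := by
      filter_upwards [e1, e2, e3] with w h1 h2 h3
      rw [h3, h2, ← h1]
    have l1 : Tendsto (fun w => G (w + ω)) (𝓝[≠] z) (𝓝 (G (z + ω))) :=
      ((hGd.continuous.comp (continuous_id.add continuous_const)).tendsto z).mono_left
        nhdsWithin_le_nhds
    have l2 : Tendsto G (𝓝[≠] z) (𝓝 (G z)) :=
      (hGd.continuous.tendsto z).mono_left nhdsWithin_le_nhds
    exact tendsto_nhds_unique l1 ((tendsto_congr' e4).2 l2)
  let L : PeriodPair := ⟨ω₁, ω₂, hind⟩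
  have p1 := hper ω₁ h1
  have p2 := hper ω₂ h2
  have z1 : ∀ (ω : ℂ), (∀ z, G (z + ω) = G z) → ∀ (m : ℤ) (z : ℂ), G (z + m * ω) = G z := by
    intro ω hω m
    induction m using Int.induction_on with
    | zero => intro z; simp
    | succ n ih =>
      intro z
      have : z + ((n : ℤ) + 1 : ℤ) * ω = (z + (n : ℤ) * ω) + ω := by push_cast; ring
      rw [this, hω, ih]
    | pred n ih =>
      intro z
      have h3 := hω (z + ((-(n : ℤ) - 1 : ℤ)) * ω)
      have : z + (-(n : ℤ) - 1 : ℤ) * ω + ω = z + (-(n : ℤ) : ℤ) * ω := by push_cast; ring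
      rw [this, ih] at h3
      exact h3.symm
  have hlat : ∀ z w, w ∈ L.lattice → G (z + w) = G z := by
    intro z w hw
    obtain ⟨m, n, rfl⟩ := PeriodPair.mem_lattice.1 hw
    rw [← add_assoc]
    have q1 : L.ω₁ = ω₁ := rfl
    have q2 : L.ω₂ = ω₂ := rfl
    rw [q1, q2, z1 ω₂ p2, z1 ω₁ p1]
  have hcst : ∀ z, G z = G 0 := fun z =>
    hGd.apply_eq_apply_of_bounded (IsZLattice.isCompact_range_of_periodic L.lattice _
      hGd.continuous hlat).isBounded z 0
  refine ⟨G 0, ?_⟩
  rw [mk_const, mk_eq_iff]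
  intro z
  filter_upwards [hGg z] with w hw
  rw [← hw, hcst w]

end TriIdx
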