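import Pool.Agent.TriIdx.MerDefs

/-!
PROJECT TRI, module MER3 (Weierstrass function). Import `MerDefs` as a black box.
Use `PeriodPair` with `ω₁, ω₂`, `℘[L]`, `PeriodPair.meromorphic_weierstrassP`,
`PeriodPair.order_weierstrassP`, `PeriodPair.derivWeierstrassP_sq` (valid off the lattice, a set with
discrete topology, closed), `deriv_weierstrassP`, `weierstrassP_add_coe`, `weierstrassP_neg`,
`analyticOnNhd_weierstrassP`, `mem_lattice`.
-/

namespace TriIdx

open PeriodPair in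
theorem mer_wp (ω₁ ω₂ : ℂ) (hind : LinearIndependent ℝ ![ω₁, ω₂]) :
    ∃ (P : Mer) (g₂ g₃ : ℂ),
    (mder P) ^ 2 = 4 * P ^ 3 - algebraMap ℂ Mer g₂ * P - algebraMap ℂ Mer g₃ ∧
    mtr ω₁ P = P ∧ mtr ω₂ P = P ∧ mneg P = P ∧
    (∀ z : ℂ, (∃ i j : ℤ, z = i * ω₁ + j * ω₂) → mord z P = ((-2 : ℤ) : WithTop ℤ)) ∧
    (∀ z : ℂ, (¬ ∃ i j : ℤ, z = i * ω₁ + j * ω₂) → 0 ≤ mord z P) := by
  let L : PeriodPair := ⟨ω₁, ω₂, hind⟩
  have hP : Meromorphic L.weierstrassP := L.meromorphic_weierstrassP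
  have hd : deriv L.weierstrassP = L.derivWeierstrassP := L.deriv_weierstrassP
  have hP' : Meromorphic (deriv L.weierstrassP) := by
    rw [hd]; exact L.meromorphic_derivWeierstrassP
  have hmem : ∀ z : ℂ, z ∈ L.lattice ↔ ∃ i j : ℤ, z = i * ω₁ + j * ω₂ := by
    intro z
    rw [PeriodPair.mem_lattice]
    constructor
    · rintro ⟨m, n, h⟩; exact ⟨m, n, h.symm⟩
    · rintro ⟨m, n, h⟩; exact ⟨m, n, h.symm⟩
  have hev : ∀ z : ℂ, ∀ᶠ w in nhdsWithin z {z}ᶜ, w ∉ L.lattice := by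
    intro z
    have h := L.compl_lattice_sdiff_singleton_mem_nhds z
    filter_upwards [mem_nhdsWithin_of_mem_nhds h, self_mem_nhdsWithin] with w hw hw2 hw3
    exact hw ⟨hw3, hw2⟩
  refine ⟨mk L.weierstrassP hP, L.g₂, L.g₃, ?_, ?_, ?_, ?_, ?_, ?_⟩
  · rw [mder_mk hP hP']
    have h4 : (4 : Mer) = algebraMap ℂ Mer 4 := (map_ofNat (algebraMap ℂ Mer) 4).symm
    have key : mk (deriv L.weierstrassP) hP' * mk (deriv L.weierstrassP) hP' +
        (algebraMap ℂ Mer L.g₂ * mk L.weierstrassP hP + algebraMap ℂ Mer L.g₃) =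
        algebraMap ℂ Mer 4 * (mk L.weierstrassP hP *
          (mk L.weierstrassP hP * mk L.weierstrassP hP)) := by
      simp only [mk_const, mk_mul, mk_add]
      rw [mk_eq_iff]
      intro z
      filter_upwards [hev z] with w hw
      have := L.derivWeierstrassP_sq w hw
      simp only [Pi.add_apply, Pi.mul_apply, hd]
      linear_combination this
    rw [h4]
    linear_combination key
  · rw [mtr_mk ω₁ hP (mero_add hP ω₁), mk_eq_iff]
    intro z
    refine Filter.Eventually.of_forall fun w => ?_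
    exact L.weierstrassP_add_coe w ⟨ω₁, L.ω₁_mem_lattice⟩
  · rw [mtr_mk ω₂ hP (mero_add hP ω₂), mk_eq_iff]
    intro z
    refine Filter.Eventually.of_forall fun w => ?_
    exact L.weierstrassP_add_coe w ⟨ω₂, L.ω₂_mem_lattice⟩
  · rw [mneg_mk hP (mero_neg hP), mk_eq_iff]
    intro z
    refine Filter.Eventually.of_forall fun w => ?_
    exact L.weierstrassP_neg w
  · intro z hz
    rw [mord_mk, L.order_weierstrassP z ((hmem z).2 hz)]
    rfl
  · intro z hz
    rw [mord_mk]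
    have h : z ∈ ((L.lattice : Set ℂ))ᶜ := fun h => hz ((hmem z).1 h)
    exact (L.analyticOnNhd_weierstrassP z h).meromorphicOrderAt_nonneg

end TriIdx
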