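import Pool.Agent.TriIdx.MerA
import Pool.Agent.TriIdx.MerB
import Pool.Agent.TriIdx.MerC
import Pool.Agent.TriIdx.MerData

/-!
The field of meromorphic functions on the plane provides the interface `MerData`.
-/

namespace TriIdx

/-- the data for the field of meromorphic functions -/
noncomputable def merData : MerData Mer where
  ord := mord
  d := mder
  tr := mtr
  neg := mneg
  ord_const := mer_ord_const
  resid := mer_resid
  ord_d := mer_ord_d
  ord_d' := mer_ord_d'
  ord_tr := mer_ord_tr
  tr_tr := mer_tr_tr
  tr_d := mer_tr_d
  ord_neg := mer_ord_neg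
  neg_neg := mer_neg_neg
  neg_tr := mer_neg_tr
  neg_d := mer_neg_d
  liou := mer_liou
  wp := mer_wp

end TriIdx
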