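import Pool.Agent.TriIdx.Upper
import Pool.Agent.TriIdx.IdxA
import Pool.Agent.TriIdx.IdxE
import Pool.Agent.TriIdx.EllMain
import Pool.Agent.TriIdx.MerEx
import Pool.Agent.TriIdx.Arith

/-!
The varieties of index exactly `m`.
-/

namespace TriIdx

section

variable {K : Type} [Field K] [Algebra ℂ K] {n m N : ℕ} (G : Geo K n m N)

theorem nsmul_coe (k : ℕ) (c : ℤ) : k • ((c : ℤ) : WithTop ℤ) = ((k * c : ℤ) : WithTop ℤ) := by
  rw [← WithTop.coe_nsmul]
  simp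

/-- the canonicity estimate for the function field data -/
theorem lower {v : AddValuation K (WithTop ℤ)} (V : VP G v) {ρ : ℤ} (hρ : vz v G.τ = m * ρ) :
    ∃ y : Fin (n + 1) → K, (∀ j, 0 ≤ v (y j)) ∧
      v (jac G.D y).det ≤ ((-((m - 1 : ℤ) * ρ) : ℤ) : WithTop ℤ) := by
  obtain ⟨π, hπ⟩ := V.hsurj
  have hr : ∃ r ∈ G.F₀, 0 ≤ v r ∧ v (G.D₀ r) = 0 := by
    rcases V.hell with htriv | ⟨_, _, hr, _⟩
    · refine ⟨G.ξ, G.hξ, ?_, ?_⟩
      · rw [htriv _ G.hξ (xi_ne G)]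
      · rw [G.hD₀ξ]; exact htriv _ G.hy G.hy0
    · exact hr
  obtain ⟨r, hrF, hr0, hrD⟩ := hr
  exact canon v G.E G.x G.hEx G.ha G.hab G.hsum V.hC hπ G.hx G.hτ G.hNm hρ G.D₀ hr0
    (fun i => E_F₀ G i hrF) hrD

/-- the value of `τ` is a multiple of `m` -/
theorem tau_mult {v : AddValuation K (WithTop ℤ)} (V : VP G v) :
    ∃ ρ : ℤ, vz v G.τ = m * ρ := by
  obtain ⟨u, _, hu0, huv⟩ := val_tau G V
  rw [vz_div v G.hh0 (pow_ne_zero _ hu0), vz_pow v hu0] at huv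
  refine ⟨vz v u + vz v G.t, ?_⟩
  rw [tau_eq, vz_rel (v := v) G]
  linarith

/-- the pluricanonical form of weight `m k` -/
noncomputable def Geo.form (k : ℕ) : K := ((G.τ ^ (m - 1))⁻¹) ^ k

theorem form_ne (k : ℕ) : G.form k ≠ 0 := pow_ne_zero _ (inv_ne_zero (pow_ne_zero _ (tau_ne G)))

theorem vz_form {v : AddValuation K (WithTop ℤ)} (k : ℕ) {ρ : ℤ} (hρ : vz v G.τ = m * ρ) :
    vz v (G.form k) = (m * k : ℕ) * (-((m - 1 : ℤ) * ρ)) := by
  have hm := G.mpos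
  rw [Geo.form, vz_pow v (inv_ne_zero (pow_ne_zero _ (tau_ne G))),
    vz_inv v (pow_ne_zero _ (tau_ne G)), vz_pow v (tau_ne G), hρ]
  have h1 : ((m - 1 : ℕ) : ℤ) = m - 1 := by omega
  rw [h1]; push_cast; ring

theorem form_ordNonneg {v : AddValuation K (WithTop ℤ)} (V : VP G v) (k : ℕ) :
    OrdNonneg (m * k) G.D (G.form k) v := by
  obtain ⟨ρ, hρ⟩ := tau_mult G V
  obtain ⟨y, hy, hyv⟩ := lower G V hρ
  refine ⟨y, hy, ?_⟩
  have h1 := nsmul_le_nsmul_right hyv (m * k)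
  rw [nsmul_coe, ← vz_form G k hρ, ← v_eq v (form_ne G k)] at h1
  exact h1

theorem form_ordNonpos {v : AddValuation K (WithTop ℤ)} (V : VP G v)
    (hP : IsPrimeDivisor n G.fam v) (k : ℕ) : OrdNonpos (m * k) G.D (G.form k) v := by
  obtain ⟨ρ, hρ, hup⟩ := upper G V hP
  intro y hy
  have h1 := nsmul_le_nsmul_right (hup y hy) (m * k)
  rw [nsmul_coe, ← vz_form G k hρ, ← v_eq v (form_ne G k)] at h1
  exact h1

theorem place_VP (hG : Full G) {v : AddValuation K (WithTop ℤ)} (hv : IsPlace v) : VP G v :=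
  hG.vp v hv.1 hv.2

theorem form_trivialises (hG : Full G) (k : ℕ) : Trivialises G.fam (m * k) G.D (G.form k) :=
  ⟨D_indep G, form_ne G k, fun v hv => ⟨form_ordNonneg G (place_VP G hG hv.1) k,
    form_ordNonpos G (place_VP G hG hv.1) hv k⟩⟩

theorem canonicalTorsion (hG : Full G) : CanonicalTorsion n G.fam := by
  refine ⟨m * 1, G.D, G.form 1, by have := G.mpos; omega, form_trivialises G hG 1, ?_⟩
  intro v hv
  exact form_ordNonneg G (place_VP G hG hv.1) 1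

theorem index_iff (hG : Full G) (I : ℕ) : IsIndex n G.fam I ↔ m ∣ I := by
  constructor
  · rintro ⟨D', g', hD', hg', hv⟩
    obtain ⟨c, hc, hcd⟩ := der_matrix G hG D' hD'
    refine index_dvd G hG I (g' / c ^ I) (div_ne_zero hg' (pow_ne_zero _ hc)) ?_
    intro v hP
    have V := place_VP G hG hP.1
    obtain ⟨ρ, hρ, hup⟩ := upper G V hP
    obtain ⟨y₀, hy₀, hy₀v⟩ := lower G V hρ
    obtain ⟨⟨y, hy, hyv⟩, h2⟩ := hv v hP
    have h3 := h2 y₀ hy₀
    rw [hcd] at hyv h3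
    rw [AddValuation.map_mul, v_eq v hc] at hyv h3
    have h4 : ((I * (vz v c + -((m - 1 : ℤ) * ρ)) : ℤ) : WithTop ℤ) ≤ v g' := by
      refine le_trans ?_ hyv
      rw [← nsmul_coe]
      apply nsmul_le_nsmul_right
      rw [WithTop.coe_add]
      exact add_le_add_right (hup y hy) _
    have h5 : v g' ≤ ((I * (vz v c + -((m - 1 : ℤ) * ρ)) : ℤ) : WithTop ℤ) := by
      refine le_trans h3 ?_
      rw [← nsmul_coe]
      apply nsmul_le_nsmul_right
      rw [WithTop.coe_add]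
      exact add_le_add_right hy₀v _
    have h6 : vz v g' = I * (vz v c + -((m - 1 : ℤ) * ρ)) := vz_of_eq v (le_antisymm h5 h4)
    rw [vz_div v hg' (pow_ne_zero _ hc), vz_pow v hc, h6, hρ]
    ring
  · rintro ⟨k, rfl⟩
    exact ⟨G.D, G.form k, form_trivialises G hG k⟩

end

/-- for every `m` with `N < m ≤ 2 N` there is a variety of index exactly `m` -/
theorem exists_variety (n : ℕ) (hn : 2 ≤ n) (m : ℕ) (h1 : syl n - 1 < m)
    (h2 : m ≤ 2 * (syl n - 1)) :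
    ∃ (K : Type) (_ : Field K) (_ : Algebra ℂ K) (f : FI n → K), IsModel n f ∧
      CanonicalTorsion n f ∧ ∀ I, IsIndex n f I ↔ m ∣ I := by
  obtain ⟨F, _, _, ⟨E⟩⟩ := exists_ellData merData m (by omega)
  obtain ⟨b, hb, hsum⟩ := syl_sum n
  obtain ⟨K, _, _, G, hG, _, _⟩ := exists_geo E hn h1 h2 (fun i : Fin n => syl i) b
    (fun i => by have := syl_pos i; omega) hb hsum
  exact ⟨K, _, _, G.fam, isModel G hG, canonicalTorsion G hG, index_iff G hG⟩

end TriIdx
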