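import Pool.Agent.TriIdx.MerDefs

/-!
PROJECT TRI, module MER1. Elementary facts on `Mer`. Import `MerDefs` as a black box.
Use `mk_surj` to write elements as classes of functions.
`mer_resid`: `meromorphicOrderAt f z ≥ 0` gives a limit `c` (`tendsto_nhds_of_meromorphicOrderAt_nonneg`
or the normal form), then `f - c` tends to `0`, `tendsto_zero_iff_meromorphicOrderAt_pos`.
`mer_ord_d`: `meromorphicOrderAt_deriv_eq_sub_one`. `mer_ord_d'`: order at least `0` means that the
function agrees with an analytic function on a punctured neighbourhood.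
-/

namespace TriIdx

private theorem mk_congr {f g : ℂ → ℂ} (hf : Meromorphic f) (hg : Meromorphic g) (h : f = g) :
    mk f hf = mk g hg := by
  subst h
  rfl

theorem mer_ord_const (z : ℂ) (c : ℂ) (hc : c ≠ 0) : mord z (algebraMap ℂ Mer c) = 0 := by
  classical
  rw [mk_const, mord_mk, meromorphicOrderAt_const, if_neg hc]

theorem mer_resid (z : ℂ) (f : Mer) (hf : 0 ≤ mord z f) :
    ∃ c : ℂ, 0 < mord z (f - algebraMap ℂ Mer c) := by
  obtain ⟨g, hg, rfl⟩ := mk_surj f
  rw [mord_mk] at hf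
  obtain ⟨c, hc⟩ := tendsto_nhds_of_meromorphicOrderAt_nonneg (hg z) hf
  refine ⟨c, ?_⟩
  rw [sub_eq_add_neg, ← map_neg, mk_const, mk_add, mord_mk,
    ← tendsto_zero_iff_meromorphicOrderAt_pos ((hg.add (Meromorphic.const (-c))) z)]
  have h1 := hc.add_const (-c)
  rw [add_neg_cancel] at h1
  exact h1

theorem mer_ord_d (z : ℂ) (f : Mer) (hf : f ≠ 0) (h : vz (mord z) f ≠ 0) :
    mder f ≠ 0 ∧ vz (mord z) (mder f) = vz (mord z) f - 1 := by
  have h0 := v_eq (mord z) hf
  obtain ⟨g, hg, rfl⟩ := mk_surj f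
  set n := vz (mord z) (mk g hg) with hn
  rw [mord_mk] at h0
  have h1 : meromorphicOrderAt (deriv g) z = ((n - 1 : ℤ) : WithTop ℤ) :=
    meromorphicOrderAt_deriv_eq_sub_one (by exact_mod_cast h) h0
  have h2 : mord z (mder (mk g hg)) = ((n - 1 : ℤ) : WithTop ℤ) := by
    rw [mder_mk hg hg.deriv, mord_mk]
    exact h1
  exact ⟨ne_zero_of_v_eq (mord z) h2, vz_of_eq (mord z) h2⟩

theorem mer_ord_d' (z : ℂ) (f : Mer) (hf : 0 ≤ mord z f) : 0 ≤ mord z (mder f) := by
  obtain ⟨g, hg, rfl⟩ := mk_surj f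
  rw [mord_mk] at hf
  obtain ⟨a, ha, hga⟩ := (MeromorphicAt.meromorphicOrderAt_nonneg_iff (hg z)).1 hf
  rw [mder_mk hg hg.deriv, mord_mk, meromorphicOrderAt_congr hga.nhdsNE_deriv]
  exact ha.deriv.meromorphicOrderAt_nonneg

theorem mer_ord_tr (z a : ℂ) (f : Mer) : mord z (mtr a f) = mord (z + a) f := by
  obtain ⟨g, hg, rfl⟩ := mk_surj f
  rw [mtr_mk a hg (mero_add hg a), mord_mk, mord_mk]
  exact meromorphicOrderAt_fun_comp_add_const_eq_meromorphicOrderAt

theorem mer_tr_tr (a b : ℂ) (f : Mer) : mtr a (mtr b f) = mtr (a + b) f := by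
  obtain ⟨g, hg, rfl⟩ := mk_surj f
  rw [mtr_mk b hg (mero_add hg b), mtr_mk a (mero_add hg b) (mero_add (mero_add hg b) a),
    mtr_mk (a + b) hg (mero_add hg (a + b))]
  apply mk_congr
  funext z
  rw [add_assoc]

theorem mer_tr_d (a : ℂ) (f : Mer) : mtr a (mder f) = mder (mtr a f) := by
  obtain ⟨g, hg, rfl⟩ := mk_surj f
  rw [mder_mk hg hg.deriv, mtr_mk a hg.deriv (mero_add hg.deriv a), mtr_mk a hg (mero_add hg a),
    mder_mk (mero_add hg a) (mero_add hg a).deriv]
  apply mk_congr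
  funext z
  rw [deriv_comp_add_const]

theorem mer_ord_neg (z : ℂ) (f : Mer) : mord z (mneg f) = mord (-z) f := by
  obtain ⟨g, hg, rfl⟩ := mk_surj f
  rw [mneg_mk hg (mero_neg hg), mord_mk, mord_mk]
  have h : deriv (fun z : ℂ => -z) z ≠ 0 := by
    rw [deriv_neg]
    exact neg_ne_zero.2 one_ne_zero
  exact meromorphicOrderAt_comp_of_deriv_ne_zero (f := g) (g := fun z : ℂ => -z) (x := z)
    analyticAt_id.neg h

theorem mer_neg_neg (f : Mer) : mneg (mneg f) = f := by
  obtain ⟨g, hg, rfl⟩ := mk_surj f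
  rw [mneg_mk hg (mero_neg hg), mneg_mk (mero_neg hg) (mero_neg (mero_neg hg))]
  apply mk_congr
  funext z
  rw [neg_neg]

theorem mer_neg_tr (a : ℂ) (f : Mer) : mneg (mtr a f) = mtr (-a) (mneg f) := by
  obtain ⟨g, hg, rfl⟩ := mk_surj f
  rw [mtr_mk a hg (mero_add hg a), mneg_mk (mero_add hg a) (mero_neg (mero_add hg a)),
    mneg_mk hg (mero_neg hg), mtr_mk (-a) (mero_neg hg) (mero_add (mero_neg hg) (-a))]
  apply mk_congr
  funext z
  congr 1
  ring

theorem mer_neg_d (f : Mer) : mneg (mder f) = - mder (mneg f) := by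
  obtain ⟨g, hg, rfl⟩ := mk_surj f
  rw [mder_mk hg hg.deriv, mneg_mk hg.deriv (mero_neg hg.deriv), mneg_mk hg (mero_neg hg),
    mder_mk (mero_neg hg) (mero_neg hg).deriv]
  have e : mk (fun z => deriv g (-z)) (mero_neg hg.deriv) =
      algebraMap ℂ Mer (-1) * mk (deriv fun z => g (-z)) (mero_neg hg).deriv := by
    rw [mk_const, mk_mul]
    apply mk_congr
    funext z
    show deriv g (-z) = -1 * deriv (fun z => g (-z)) z
    rw [deriv_comp_neg]
    ring
  rw [e, map_neg, map_one]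
  ring

end TriIdx
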