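import Pool.Agent.TriIdx.Val

/-!
PROJECT TRI, module MER0. The field of meromorphic functions on the plane, modulo functions
vanishing off a discrete set.

Ideas. A function in `MF` not in `MI` has order `≠ ⊤` at one point, hence at every point
(`MeromorphicOn.exists_meromorphicOrderAt_ne_top_iff_forall`, or
`MeromorphicOn.meromorphicOrderAt_ne_top_of_isPreconnected`, the plane is preconnected); its
pointwise inverse is then an inverse modulo `MI`, because `f * f⁻¹ - 1` vanishes near every point
outside that point. `mord z` is well defined since functions of `MI` vanish near every point outside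
that point (`meromorphicOrderAt_congr`, `meromorphicOrderAt_eq_top_iff`), `deriv` preserves `MI`
since the function vanishes on a punctured neighbourhood, and similarly for composition with
translations and with `z ↦ -z` (`meromorphicOrderAt_comp_of_deriv_ne_zero`,
`meromorphicOrderAt_comp_add_const_eq_meromorphicOrderAt`).
For the derivation: `deriv` is only additive, multiplicative (Leibniz) outside the poles, and this is
enough (`MeromorphicAt.eventually_analyticAt`).
-/

namespace TriIdx

/-- functions meromorphic on the plane -/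
def MF : Subalgebra ℂ (ℂ → ℂ) where
  carrier := {f | Meromorphic f}
  mul_mem' := fun hf hg => hf.mul hg
  add_mem' := fun hf hg => hf.add hg
  algebraMap_mem' := fun c => Meromorphic.const c

/-- functions that vanish off a discrete set -/
def MI : Ideal MF where
  carrier := {f | ∀ z, meromorphicOrderAt (f : ℂ → ℂ) z = ⊤}
  add_mem' := by
    intro a b ha hb z
    rw [meromorphicOrderAt_eq_top_iff]
    filter_upwards [meromorphicOrderAt_eq_top_iff.1 (ha z),
      meromorphicOrderAt_eq_top_iff.1 (hb z)] with w h1 h2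
    change (a : ℂ → ℂ) w + (b : ℂ → ℂ) w = 0
    rw [h1, h2, add_zero]
  zero_mem' := by
    intro z
    rw [meromorphicOrderAt_eq_top_iff]
    exact Filter.Eventually.of_forall fun w => rfl
  smul_mem' := by
    intro c a ha z
    rw [meromorphicOrderAt_eq_top_iff]
    filter_upwards [meromorphicOrderAt_eq_top_iff.1 (ha z)] with w h1
    change (c : ℂ → ℂ) w * (a : ℂ → ℂ) w = 0
    rw [h1, mul_zero]

theorem MER0_mem (f : MF) : f ∈ MI ↔ ∀ z, ∀ᶠ w in nhdsWithin z {z}ᶜ, (f : ℂ → ℂ) w = 0 := by
  constructor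
  · intro h z
    exact meromorphicOrderAt_eq_top_iff.1 (h z)
  · intro h z
    exact meromorphicOrderAt_eq_top_iff.2 (h z)

/-- a meromorphic function that does not vanish identically has finite order everywhere -/
theorem MER0_ne (f : MF) (hf : f ∉ MI) (z : ℂ) :
    ∀ᶠ w in nhdsWithin z {z}ᶜ, (f : ℂ → ℂ) w ≠ 0 := by
  have h1 : ∃ z₀, meromorphicOrderAt (f : ℂ → ℂ) z₀ ≠ ⊤ := by
    by_contra hcon
    push Not at hcon
    exact hf hcon
  obtain ⟨z₀, hz₀⟩ := h1
  have h2 : Meromorphic (f : ℂ → ℂ) := f.2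
  have h3 : meromorphicOrderAt (f : ℂ → ℂ) z ≠ ⊤ :=
    MeromorphicOn.meromorphicOrderAt_ne_top_of_isPreconnected (U := Set.univ)
      h2.meromorphicOn isPreconnected_univ (Set.mem_univ z₀) (Set.mem_univ z) hz₀
  exact (meromorphicOrderAt_ne_top_iff_eventually_ne_zero (h2 z)).1 h3

instance MI_max : MI.IsMaximal := by
  rw [Ideal.isMaximal_iff]
  constructor
  · intro h
    rw [MER0_mem] at h
    obtain ⟨w, hw⟩ := (h 0).exists
    exact one_ne_zero hw
  · intro J x hJ hx hxJ
    have hx2 : Meromorphic (x : ℂ → ℂ) := x.2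
    let y : MF := ⟨(x : ℂ → ℂ)⁻¹, hx2.inv⟩
    have h1 : x * y - 1 ∈ MI := by
      rw [MER0_mem]
      intro z
      filter_upwards [MER0_ne x hx z] with w hw
      change (x : ℂ → ℂ) w * ((x : ℂ → ℂ) w)⁻¹ - 1 = 0
      rw [mul_inv_cancel₀ hw, sub_self]
    have h2 : (1 : MF) = x * y - (x * y - 1) := by ring
    rw [h2]
    exact J.sub_mem (J.mul_mem_right y hxJ) (hJ h1)

/-- meromorphic functions on the plane, as a field -/
abbrev Mer : Type := MF ⧸ MI

noncomputable instance : Field Mer := Ideal.Quotient.field MI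

/-- the class of a meromorphic function -/
def mk (f : ℂ → ℂ) (hf : Meromorphic f) : Mer := Ideal.Quotient.mk MI ⟨f, hf⟩

theorem mk_surj (F : Mer) : ∃ f hf, F = mk f hf := by
  obtain ⟨f, hf⟩ := Ideal.Quotient.mk_surjective F
  exact ⟨f, f.2, hf.symm⟩

theorem mk_eq_iff {f g : ℂ → ℂ} (hf : Meromorphic f) (hg : Meromorphic g) :
    mk f hf = mk g hg ↔ ∀ z, ∀ᶠ w in nhdsWithin z {z}ᶜ, f w = g w := by
  unfold mk
  rw [Ideal.Quotient.eq, MER0_mem]
  refine forall_congr' fun z => Filter.eventually_congr (Filter.Eventually.of_forall fun w => ?_)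
  change f w - g w = 0 ↔ f w = g w
  exact sub_eq_zero

theorem mk_add {f g : ℂ → ℂ} (hf : Meromorphic f) (hg : Meromorphic g) :
    mk f hf + mk g hg = mk (f + g) (hf.add hg) := by
  rfl

theorem mk_mul {f g : ℂ → ℂ} (hf : Meromorphic f) (hg : Meromorphic g) :
    mk f hf * mk g hg = mk (f * g) (hf.mul hg) := by
  rfl

theorem mk_const (c : ℂ) : algebraMap ℂ Mer c = mk (fun _ => c) (Meromorphic.const c) := by
  rfl

theorem MER0_zero : (0 : Mer) = mk (fun _ => 0) (Meromorphic.const 0) := by
  rw [← mk_const, map_zero]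

theorem MER0_one : (1 : Mer) = mk (fun _ => 1) (Meromorphic.const 1) := by
  rw [← mk_const, map_one]

theorem mk_inv {f : ℂ → ℂ} (hf : Meromorphic f) : (mk f hf)⁻¹ = mk f⁻¹ hf.inv := by
  by_cases h : (⟨f, hf⟩ : MF) ∈ MI
  · have h1 : mk f hf = 0 := by
      rw [MER0_zero, mk_eq_iff]
      exact (MER0_mem _).1 h
    rw [h1, inv_zero, MER0_zero, mk_eq_iff]
    intro z
    filter_upwards [(MER0_mem _).1 h z] with w hw
    rw [Pi.inv_apply]
    have hw' : f w = 0 := hw
    rw [hw', inv_zero]
  · have h1 : mk f hf * mk f⁻¹ hf.inv = 1 := by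
      rw [mk_mul, MER0_one, mk_eq_iff]
      intro z
      filter_upwards [MER0_ne _ h z] with w hw
      rw [Pi.mul_apply, Pi.inv_apply]
      exact mul_inv_cancel₀ hw
    exact inv_eq_of_mul_eq_one_right h1

/-- the order at a point -/
noncomputable def mord (z : ℂ) : AddValuation Mer (WithTop ℤ) :=
  AddValuation.of (fun F => Quotient.liftOn' F (fun f : MF => meromorphicOrderAt (f : ℂ → ℂ) z)
    (by
      intro a b hab
      have h1 : a - b ∈ MI := (Submodule.quotientRel_def _).1 hab
      rw [MER0_mem] at h1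
      refine meromorphicOrderAt_congr ?_
      filter_upwards [h1 z] with w hw
      exact sub_eq_zero.1 hw))
    (by
      change meromorphicOrderAt ((0 : MF) : ℂ → ℂ) z = ⊤
      rw [meromorphicOrderAt_eq_top_iff]
      exact Filter.Eventually.of_forall fun w => rfl)
    (by
      classical
      change meromorphicOrderAt (fun _ : ℂ => (1 : ℂ)) z = 0
      rw [meromorphicOrderAt_const, if_neg one_ne_zero])
    (by
      intro x y
      obtain ⟨f, rfl⟩ := Ideal.Quotient.mk_surjective x
      obtain ⟨g, rfl⟩ := Ideal.Quotient.mk_surjective y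
      have hf : Meromorphic (f : ℂ → ℂ) := f.2
      have hg : Meromorphic (g : ℂ → ℂ) := g.2
      exact meromorphicOrderAt_add (hf z) (hg z))
    (by
      intro x y
      obtain ⟨f, rfl⟩ := Ideal.Quotient.mk_surjective x
      obtain ⟨g, rfl⟩ := Ideal.Quotient.mk_surjective y
      have hf : Meromorphic (f : ℂ → ℂ) := f.2
      have hg : Meromorphic (g : ℂ → ℂ) := g.2
      exact meromorphicOrderAt_mul (hf z) (hg z))

theorem mord_mk (z : ℂ) {f : ℂ → ℂ} (hf : Meromorphic f) :
    mord z (mk f hf) = meromorphicOrderAt f z := by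
  rfl

/-- `deriv` of equal classes -/
theorem MER0_deriv {f g : ℂ → ℂ} (hf : Meromorphic f) (hg : Meromorphic g)
    (h : mk f hf = mk g hg) : mk (deriv f) hf.deriv = mk (deriv g) hg.deriv := by
  rw [mk_eq_iff] at h ⊢
  intro z
  exact Filter.EventuallyEq.nhdsNE_deriv (h z)

theorem MER0_diff {f : ℂ → ℂ} (hf : Meromorphic f) (z : ℂ) :
    ∀ᶠ w in nhdsWithin z {z}ᶜ, DifferentiableAt ℂ f w := by
  filter_upwards [(hf z).eventually_analyticAt] with w hw
  exact hw.differentiableAt

theorem MER0_smul (c : ℂ) {f : ℂ → ℂ} (hf : Meromorphic f) :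
    c • mk f hf = mk (fun z => c * f z) ((Meromorphic.const c).mul hf) := by
  rw [Algebra.smul_def, mk_const, mk_mul]
  rfl

/-- there is a derivation given by differentiation -/
theorem exists_mder : ∃ d : Derivation ℂ Mer Mer,
    ∀ (f : ℂ → ℂ) (hf : Meromorphic f) (hf' : Meromorphic (deriv f)),
      d (mk f hf) = mk (deriv f) hf' := by
  choose r hr hr' using mk_surj
  have key : ∀ (f : ℂ → ℂ) (hf : Meromorphic f),
      mk (deriv (r (mk f hf))) (hr (mk f hf)).deriv = mk (deriv f) hf.deriv :=
    fun f hf => MER0_deriv _ hf (hr' (mk f hf)).symm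
  let D : Mer →ₗ[ℂ] Mer :=
    { toFun := fun F => mk (deriv (r F)) (hr F).deriv
      map_add' := by
        intro x y
        obtain ⟨f, hf, rfl⟩ := mk_surj x
        obtain ⟨g, hg, rfl⟩ := mk_surj y
        rw [key f hf, key g hg]
        have h1 := key (f + g) (hf.add hg)
        have h2 : mk f hf + mk g hg = mk (f + g) (hf.add hg) := mk_add hf hg
        simp only [h2]
        rw [h1, mk_add, mk_eq_iff]
        intro z
        filter_upwards [MER0_diff hf z, MER0_diff hg z] with w hw1 hw2
        rw [Pi.add_apply, deriv_add hw1 hw2]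
      map_smul' := by
        intro c x
        obtain ⟨f, hf, rfl⟩ := mk_surj x
        rw [key f hf, RingHom.id_apply]
        have h1 := key (fun z => c * f z) ((Meromorphic.const c).mul hf)
        simp only [MER0_smul c hf]
        rw [h1, MER0_smul c hf.deriv, mk_eq_iff]
        intro z
        filter_upwards [MER0_diff hf z] with w hw1
        rw [deriv_const_mul c hw1] }
  have hD : ∀ (f : ℂ → ℂ) (hf : Meromorphic f), D (mk f hf) = mk (deriv f) hf.deriv := key
  refine ⟨Derivation.mk' D ?_, fun f hf hf' => hD f hf⟩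
  intro x y
  obtain ⟨f, hf, rfl⟩ := mk_surj x
  obtain ⟨g, hg, rfl⟩ := mk_surj y
  rw [mk_mul, hD, hD, hD, smul_eq_mul, smul_eq_mul, mk_mul, mk_mul, mk_add, mk_eq_iff]
  intro z
  filter_upwards [MER0_diff hf z, MER0_diff hg z] with w hw1 hw2
  rw [deriv_mul hw1 hw2]
  simp only [Pi.add_apply, Pi.mul_apply]
  ring

/-- differentiation -/
noncomputable def mder : Derivation ℂ Mer Mer := exists_mder.choose

theorem mder_mk {f : ℂ → ℂ} (hf : Meromorphic f) (hf' : Meromorphic (deriv f)) :
    mder (mk f hf) = mk (deriv f) hf' := exists_mder.choose_spec f hf hf'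

/-- composition with a map `g` which preserves meromorphic functions and null functions -/
theorem MER0_comp (g : ℂ → ℂ) (hg : ∀ f : ℂ → ℂ, Meromorphic f → Meromorphic (fun z => f (g z)))
    (hg0 : ∀ f : ℂ → ℂ, ∀ z, meromorphicOrderAt (fun z => f (g z)) z = meromorphicOrderAt f (g z)) :
    ∃ φ : Mer →ₐ[ℂ] Mer,
    ∀ (f : ℂ → ℂ) (hf : Meromorphic f) (hf' : Meromorphic (fun z => f (g z))),
      φ (mk f hf) = mk (fun z => f (g z)) hf' := by
  let ψ : MF →ₐ[ℂ] Mer :=
    { toFun := fun f => mk (fun z => (f : ℂ → ℂ) (g z)) (hg f f.2)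
      map_one' := rfl
      map_mul' := fun a b => rfl
      map_zero' := rfl
      map_add' := fun a b => rfl
      commutes' := fun c => rfl }
  refine ⟨Ideal.Quotient.liftₐ MI ψ ?_, fun f hf hf' => rfl⟩
  intro f hf
  change mk (fun z => (f : ℂ → ℂ) (g z)) (hg f f.2) = 0
  rw [MER0_zero, mk_eq_iff]
  intro z
  have h1 : meromorphicOrderAt (fun z => (f : ℂ → ℂ) (g z)) z = ⊤ := by
    rw [hg0]
    exact hf (g z)
  exact meromorphicOrderAt_eq_top_iff.1 h1

theorem exists_mtr (a : ℂ) : ∃ φ : Mer →ₐ[ℂ] Mer,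
    ∀ (f : ℂ → ℂ) (hf : Meromorphic f) (hf' : Meromorphic (fun z => f (z + a))),
      φ (mk f hf) = mk (fun z => f (z + a)) hf' := by
  refine MER0_comp (fun z => z + a) ?_ ?_
  · intro f hf z
    exact (hf (z + a)).comp_analyticAt (g := fun z => z + a) (by fun_prop)
  · intro f z
    exact meromorphicOrderAt_comp_add_const_eq_meromorphicOrderAt

/-- translation -/
noncomputable def mtr (a : ℂ) : Mer →ₐ[ℂ] Mer := (exists_mtr a).choose

theorem mtr_mk (a : ℂ) {f : ℂ → ℂ} (hf : Meromorphic f) (hf' : Meromorphic (fun z => f (z + a))) :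
    mtr a (mk f hf) = mk (fun z => f (z + a)) hf' := (exists_mtr a).choose_spec f hf hf'

theorem exists_mneg : ∃ φ : Mer →ₐ[ℂ] Mer,
    ∀ (f : ℂ → ℂ) (hf : Meromorphic f) (hf' : Meromorphic (fun z => f (-z))),
      φ (mk f hf) = mk (fun z => f (-z)) hf' := by
  refine MER0_comp (fun z => -z) ?_ ?_
  · intro f hf z
    exact (hf (-z)).comp_analyticAt (g := fun z => -z) (by fun_prop)
  · intro f z
    refine meromorphicOrderAt_comp_of_deriv_ne_zero (g := fun z : ℂ => -z) (by fun_prop) ?_
    simp

/-- reflection -/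
noncomputable def mneg : Mer →ₐ[ℂ] Mer := exists_mneg.choose

theorem mneg_mk {f : ℂ → ℂ} (hf : Meromorphic f) (hf' : Meromorphic (fun z => f (-z))) :
    mneg (mk f hf) = mk (fun z => f (-z)) hf' := exists_mneg.choose_spec f hf hf'

/-- `z ↦ f (z + a)` is meromorphic -/
theorem mero_add {f : ℂ → ℂ} (hf : Meromorphic f) (a : ℂ) : Meromorphic (fun z => f (z + a)) := by
  intro z
  exact (hf (z + a)).comp_analyticAt (g := fun z => z + a) (by fun_prop)

theorem mero_neg {f : ℂ → ℂ} (hf : Meromorphic f) : Meromorphic (fun z => f (-z)) := by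
  intro z
  exact (hf (-z)).comp_analyticAt (g := fun z => -z) (by fun_prop)

end TriIdx
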