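import Pool.Agent.TriIdx.Val

/-!
Residue fields and transcendence degrees.
-/

namespace TriIdx

open AlgebraicIndependent

section abstract

variable {κ : Type*} [Field κ] [Algebra ℂ κ] {n : ℕ}

theorem mat_indep {ι : Type*} {z : ι → κ} (hz : AlgebraicIndependent ℂ z) :
    (matroid ℂ κ).Indep (Set.range z) := by
  rw [matroid_indep_iff]
  exact hz.to_subtype_range

theorem mem_closure_iff (s : Set κ) (a : κ) :
    a ∈ (matroid ℂ κ).closure s ↔ IsAlgebraic (Algebra.adjoin ℂ s) a := by
  rw [matroid_closure_eq]
  exact Iff.rfl

theorem rank_le {z : Fin n → κ} (hz : AlgebraicIndependent ℂ z) (s : Set κ)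
    (h : ∀ l, IsAlgebraic (Algebra.adjoin ℂ s) (z l)) :
    (n : ℕ∞) ≤ (matroid ℂ κ).eRk s := by
  rw [← Matroid.eRk_closure_eq]
  have hsub : Set.range z ⊆ (matroid ℂ κ).closure s := by
    rintro _ ⟨l, rfl⟩
    exact (mem_closure_iff s _).2 (h l)
  have h1 := (mat_indep hz).encard_le_eRk_of_subset hsub
  have h2 : (Set.range z).encard = n := by
    rw [← Set.image_univ, hz.injective.encard_image]
    simp
  rwa [h2] at h1

theorem T1_le {k : ℕ} {z : Fin n → κ} (hz : AlgebraicIndependent ℂ z) (g : Fin k → κ)
    (h : ∀ l, IsAlgebraic (Algebra.adjoin ℂ (Set.range g)) (z l)) : n ≤ k := by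
  have h1 := rank_le hz _ h
  have h2 := (matroid ℂ κ).eRk_le_encard (Set.range g)
  have h3 : (Set.range g).encard ≤ k := by
    rw [← Set.image_univ]
    refine le_trans (Set.encard_image_le _ _) ?_
    simp
  exact_mod_cast le_trans h1 (le_trans h2 h3)

theorem T1_indep {z : Fin n → κ} (hz : AlgebraicIndependent ℂ z) (g : Fin n → κ)
    (h : ∀ l, IsAlgebraic (Algebra.adjoin ℂ (Set.range g)) (z l)) :
    AlgebraicIndependent ℂ g := by
  have h1 := rank_le hz _ h
  have h2 := (matroid ℂ κ).eRk_le_encard (Set.range g)
  have h3 : (Set.range g).encard ≤ n := by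
    rw [← Set.image_univ]
    refine le_trans (Set.encard_image_le _ _) ?_
    simp
  have hfin : (Set.range g).Finite := Set.finite_range g
  have hcard : (Set.range g).encard = n := le_antisymm h3 (le_trans h1 h2)
  have hind : (matroid ℂ κ).Indep (Set.range g) := by
    obtain ⟨B, hB⟩ := (matroid ℂ κ).exists_isBasis (Set.range g)
    have h4 : (n : ℕ∞) ≤ B.encard := by rw [hB.encard_eq_eRk]; exact h1
    have h5 : B = Set.range g := by
      apply (hfin.subset hB.subset).eq_of_subset_of_encard_le hB.subset
      rw [hcard]; exact h4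
    rw [← h5]; exact hB.indep
  have hinj : Function.Injective g := by
    classical
    have hc : (Finset.univ.image g).card = (Finset.univ : Finset (Fin n)).card := by
      have h6 : ((Finset.univ.image g : Finset κ) : Set κ) = Set.range g := by simp
      have h7 : (((Finset.univ.image g).card : ℕ) : ℕ∞) = n := by
        rw [← Set.encard_coe_eq_coe_finsetCard, h6, hcard]
      have h8 : (Finset.univ.image g).card = n := by exact_mod_cast h7
      rw [h8]; simp
    have := Finset.card_image_iff.1 hc
    intro a b hab
    exact this (by simp) (by simp) hab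
  rw [matroid_indep_iff] at hind
  exact (algebraicIndependent_subtype_range hinj).1 hind

/-- replacing one of the generators by a transcendental element -/
theorem T2 (hn : 0 < n) {z : Fin n → κ} (hz : AlgebraicIndependent ℂ z) (g : Fin n → κ) (e : κ)
    (he : Transcendental ℂ e)
    (h : ∀ l, IsAlgebraic (Algebra.adjoin ℂ (insert e (Set.range g))) (z l)) :
    ∃ l, AlgebraicIndependent ℂ (Function.update g l e) := by
  classical
  have h1 := rank_le hz _ h
  have hei : (matroid ℂ κ).Indep {e} := by
    rw [matroid_indep_iff]
    have h2 : AlgebraicIndependent ℂ (fun _ : Unit => e) :=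
      (algebraicIndependent_unique_type_iff (ι := Unit)).2 he
    have h3 := h2.to_subtype_range
    have h4 : Set.range (fun _ : Unit => e) = {e} := by simp
    rw [h4] at h3
    exact h3
  obtain ⟨B, hB, heB⟩ := hei.subset_isBasis_of_subset (X := insert e (Set.range g))
    (by simp) (by simp)
  have hcard : (n : ℕ∞) ≤ B.encard := by rw [hB.encard_eq_eRk]; exact h1
  have hfin : B.Finite := (Set.finite_range g).insert e |>.subset hB.subset
  have heB' : e ∈ B := heB (Set.mem_singleton e)
  -- choose indices
  have hsub : ∀ b ∈ B \ {e}, ∃ i, g i = b := by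
    rintro b ⟨hb, hbe⟩
    have := hB.subset hb
    rcases this with h | h
    · exact absurd h hbe
    · exact h
  have : Nonempty (Fin n) := ⟨⟨0, hn⟩⟩
  choose! φ hφ using hsub
  have hφinj : Set.InjOn φ (B \ {e}) := by
    intro a ha b hb hab
    rw [← hφ a ha, ← hφ b hb, hab]
  set T : Finset (Fin n) := (hfin.toFinset.erase e).image φ with hT
  have hTcard : n ≤ T.card + 1 := by
    rw [hT, Finset.card_image_of_injOn]
    · have h5 : n ≤ hfin.toFinset.card := by
        rw [← hfin.coe_toFinset, Set.encard_coe_eq_coe_finsetCard] at hcard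
        exact_mod_cast hcard
      have h6 := Finset.card_erase_add_one (s := hfin.toFinset) (a := e) (by simpa using heB')
      omega
    · intro a ha b hb hab
      apply hφinj _ _ hab
      · simpa [and_comm] using ha
      · simpa [and_comm] using hb
  obtain ⟨l, hl⟩ : ∃ l : Fin n, ∀ i, i ≠ l → i ∈ T := by
    by_cases hall : ∀ i, i ∈ T
    · exact ⟨⟨0, hn⟩, fun i _ => hall i⟩
    · push Not at hall
      obtain ⟨l, hl⟩ := hall
      refine ⟨l, fun i hi => ?_⟩
      by_contra hiT
      have h7 : T ⊆ (Finset.univ.erase l).erase i := by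
        intro j hj
        rw [Finset.mem_erase, Finset.mem_erase]
        refine ⟨?_, ?_, Finset.mem_univ j⟩
        · rintro rfl; exact hiT hj
        · rintro rfl; exact hl hj
      have h8 := Finset.card_le_card h7
      rw [Finset.card_erase_of_mem (Finset.mem_erase.2 ⟨hi, Finset.mem_univ i⟩),
        Finset.card_erase_of_mem (Finset.mem_univ l), Finset.card_univ, Fintype.card_fin] at h8
      omega
  have hgT : ∀ i ∈ T, g i ∈ B ∧ g i ≠ e ∧ φ (g i) = i := by
    intro i hi
    rw [hT, Finset.mem_image] at hi
    obtain ⟨b, hb, hbi⟩ := hi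
    rw [Finset.mem_erase] at hb
    have hbB : b ∈ B := by simpa using hb.2
    have hgb : g i = b := by rw [← hbi]; exact hφ b ⟨hbB, hb.1⟩
    rw [hgb]
    exact ⟨hbB, hb.1, hbi⟩
  refine ⟨l, ?_⟩
  have hinj : Function.Injective (Function.update g l e) := by
    intro i j hij
    by_cases hi : i = l
    · by_cases hj : j = l
      · rw [hi, hj]
      · rw [hi, Function.update_self, Function.update_of_ne hj] at hij
        exact absurd hij.symm (hgT j (hl j hj)).2.1
    · by_cases hj : j = l
      · rw [hj, Function.update_self, Function.update_of_ne hi] at hij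
        exact absurd hij (hgT i (hl i hi)).2.1
      · rw [Function.update_of_ne hi, Function.update_of_ne hj] at hij
        rw [← (hgT i (hl i hi)).2.2, ← (hgT j (hl j hj)).2.2, hij]
  have hrange : Set.range (Function.update g l e) ⊆ B := by
    rintro _ ⟨i, rfl⟩
    by_cases hi : i = l
    · rw [hi, Function.update_self]; exact heB'
    · rw [Function.update_of_ne hi]; exact (hgT i (hl i hi)).1
  have hind := hB.indep.subset hrange
  rw [matroid_indep_iff] at hind
  exact (algebraicIndependent_subtype_range hinj).1 hind

end abstract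

end TriIdx
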