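import Pool.Agent.TriIdx.Up1

/-!
Upper bounds for the order: chart at infinity.
-/

namespace TriIdx

section

variable {K : Type} [Field K] [Algebra ℂ K] {n m N : ℕ} (G : Geo K n m N)
  {v : AddValuation K (WithTop ℤ)} (V : VP G v)

/-- elements of `F₀` have residues algebraic over that of `ξ` when `v` is trivial on `F₀` -/
theorem F₀_AR (hC : ∀ c : ℂ, c ≠ 0 → v (algebraMap ℂ K c) = 0)
    (htriv : ∀ f ∈ G.F₀, f ≠ 0 → v f = 0) {ι : Type*} (w : ι → OA v hC)
    (hξ : ∃ i, (w i : K) = G.ξ) {f : K} (hf : f ∈ G.F₀) : AR v hC w f := by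
  have hnn : ∀ f ∈ G.F₀, 0 ≤ v f := by
    intro f hf
    by_cases h : f = 0
    · rw [h]; simp
    · rw [htriv f hf h]
  refine ⟨hnn f hf, ?_⟩
  obtain ⟨i, hi⟩ := hξ
  -- the ring hom from adjoin ℂ {ξ}
  have hle : ∀ a ∈ Algebra.adjoin ℂ {G.ξ}, a ∈ G.F₀ := by
    intro a ha
    induction ha using Algebra.adjoin_induction with
    | mem x hx => rw [Set.mem_singleton_iff.1 hx]; exact G.hξ
    | algebraMap r => exact G.hconst r
    | add x y _ _ hx hy => exact add_mem hx hy
    | mul x y _ _ hx hy => exact mul_mem hx hy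
  obtain ⟨p, hp, hpf⟩ := G.hFalg f hf
  set S := Algebra.adjoin ℂ (Set.range fun i => res v hC (w i)) with hS
  -- inclusion of adjoin ℂ {ξ} into OA
  let inc : Algebra.adjoin ℂ {G.ξ} →ₐ[ℂ] OA v hC :=
    { toFun := fun a => ⟨a, hnn _ (hle _ a.2)⟩
      map_one' := rfl
      map_mul' := fun _ _ => rfl
      map_zero' := rfl
      map_add' := fun _ _ => rfl
      commutes' := fun _ => rfl }
  have hmem : ∀ a : Algebra.adjoin ℂ {G.ξ}, ((res v hC).comp inc) a ∈ S := by
    intro a
    have h1 : (⊤ : Subalgebra ℂ (Algebra.adjoin ℂ {G.ξ})).map ((res v hC).comp inc) ≤ S := by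
      have h2 : (⊤ : Subalgebra ℂ (Algebra.adjoin ℂ {G.ξ}))
          = Algebra.adjoin ℂ {⟨G.ξ, Algebra.subset_adjoin (Set.mem_singleton _)⟩} := by
        rw [eq_comm, eq_top_iff]
        rintro ⟨a, ha⟩ -
        have h3 : ∀ a (ha : a ∈ Algebra.adjoin ℂ {G.ξ}), (⟨a, ha⟩ : Algebra.adjoin ℂ {G.ξ}) ∈
            Algebra.adjoin ℂ {(⟨G.ξ, Algebra.subset_adjoin (Set.mem_singleton _)⟩ :
              Algebra.adjoin ℂ {G.ξ})} := by
          intro a ha
          induction ha using Algebra.adjoin_induction with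
          | mem x hx =>
            have := Set.mem_singleton_iff.1 hx
            subst this
            exact Algebra.subset_adjoin (Set.mem_singleton _)
          | algebraMap r => exact Subalgebra.algebraMap_mem _ r
          | add x y hx' hy' hx hy => exact Subalgebra.add_mem _ hx hy
          | mul x y hx' hy' hx hy => exact Subalgebra.mul_mem _ hx hy
        exact h3 a ha
      rw [h2, AlgHom.map_adjoin]
      apply Algebra.adjoin_le
      rintro _ ⟨b, hb, rfl⟩
      rw [Set.mem_singleton_iff.1 hb]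
      apply Algebra.subset_adjoin
      refine ⟨i, ?_⟩
      show res v hC (w i) = res v hC _
      congr 1
      exact Subtype.ext hi
    exact h1 ⟨a, trivial, rfl⟩
  let φ : Algebra.adjoin ℂ {G.ξ} →ₐ[ℂ] S := ((res v hC).comp inc).codRestrict S hmem
  have hφ : Function.Injective φ := by
    rw [injective_iff_map_eq_zero]
    intro a ha
    have h1 : res v hC (inc a) = 0 := congrArg Subtype.val ha
    rw [res_eq_zero] at h1
    by_contra hne
    have h2 : v (a : K) = 0 := htriv _ (hle _ a.2) (fun h => hne (Subtype.ext h))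
    have h3 : 0 < v (a : K) := h1
    rw [h2] at h3
    exact lt_irrefl _ h3
  refine ⟨p.map φ.toRingHom, ?_, ?_⟩
  · rw [Ne, Polynomial.map_eq_zero_iff hφ]; exact hp
  · rw [Polynomial.aeval_def, Polynomial.eval₂_map]
    have h1 : (algebraMap S (kap v hC)).comp φ.toRingHom = (res v hC).toRingHom.comp inc.toRingHom :=
      rfl
    rw [h1]
    have h2 : Polynomial.eval₂ ((res v hC).toRingHom.comp inc.toRingHom)
        (res v hC ⟨f, hnn f hf⟩) p = res v hC (Polynomial.eval₂ inc.toRingHom ⟨f, hnn f hf⟩ p) := by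
      rw [← Polynomial.eval₂_map]
      have := Polynomial.hom_eval₂ p inc.toRingHom (res v hC).toRingHom ⟨f, hnn f hf⟩
      rw [Polynomial.eval₂_map]
      exact this.symm
    rw [h2]
    have h3 : Polynomial.eval₂ inc.toRingHom ⟨f, hnn f hf⟩ p = 0 := by
      apply Subtype.ext
      have h4 := Polynomial.hom_eval₂ p inc.toRingHom (OA v hC).val.toRingHom ⟨f, hnn f hf⟩
      have h5 : (OA v hC).val.toRingHom (Polynomial.eval₂ inc.toRingHom ⟨f, hnn f hf⟩ p)
          = ((Polynomial.eval₂ inc.toRingHom ⟨f, hnn f hf⟩ p : OA v hC) : K) := rfl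
      rw [← h5, h4]
      exact hpf
    rw [h3, map_zero]

end

end TriIdx
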