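import Pool.Agent.TriIdx.Up2

/-!
Upper bounds for the order: chart at infinity, the computation.
-/

namespace TriIdx

section

variable {K : Type} [Field K] [Algebra ℂ K] {n m N : ℕ} (G : Geo K n m N)
  {v : AddValuation K (WithTop ℤ)} (V : VP G v)

/-- the coordinates at infinity -/
noncomputable def Geo.w (G : Geo K n m N) (i : Fin n) : K := G.x i * (G.t⁻¹) ^ (2 * G.b i)

theorem w_rel (i : Fin n) : G.w i ^ G.a i = G.x i ^ G.a i * (G.t⁻¹) ^ (2 * N) := by
  rw [Geo.w, mul_pow, ← pow_mul]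
  congr 2
  have h := G.hab i
  rw [mul_assoc, h]

/-- the relation at infinity -/
theorem rel_inf : G.h * (G.t⁻¹) ^ (2 * N - m) = (G.t⁻¹) ^ (2 * N) + ∑ i, G.w i ^ G.a i := by
  have h1 : (G.t⁻¹) ^ (2 * N) + ∑ i, G.w i ^ G.a i = (G.h * G.t ^ m) * (G.t⁻¹) ^ (2 * N) := by
    rw [G.hrel, add_mul, one_mul, Finset.sum_mul]
    congr 1
    exact Finset.sum_congr rfl fun i _ => w_rel G i
  rw [h1]
  have h2 : 2 * N = m + (2 * N - m) := by have := G.hm2; omega
  have h3 : G.t ^ m * (G.t⁻¹) ^ (2 * N) = (G.t⁻¹) ^ (2 * N - m) := by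
    conv_lhs => rw [h2]
    rw [pow_add, ← mul_assoc, ← mul_pow, mul_inv_cancel₀ G.t_ne, one_pow, one_mul]
  rw [mul_assoc, h3]

theorem w_ne (i : Fin n) : G.w i ≠ 0 :=
  mul_ne_zero (G.hx i) (pow_ne_zero _ (inv_ne_zero G.t_ne))

/-- the Jacobian in the coordinates at infinity -/
theorem det_inf (l : Fin n) : (jac G.E (Function.update G.w l G.t⁻¹)).det
    = (∏ j ∈ Finset.univ.erase l, (G.t⁻¹) ^ (2 * G.b j)) * G.E l G.t⁻¹ := by
  classical
  set s : K := G.t⁻¹ with hs
  rw [← det_jac_update G.E G.x G.hEx l s]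
  have h1 : (∏ j ∈ Finset.univ.erase l, s ^ (2 * G.b j))
      = ∏ j, (if j = l then (1 : K) else s ^ (2 * G.b j)) := by
    rw [← Finset.mul_prod_erase Finset.univ _ (Finset.mem_univ l), if_pos rfl, one_mul]
    refine Finset.prod_congr rfl fun j hj => ?_
    rw [if_neg (Finset.ne_of_mem_erase hj)]
  rw [h1, ← Matrix.det_mul_row]
  apply det_col (fun j => if j = l then 0 else G.x j * (((2 * G.b j : ℕ) : K)
    * s ^ (2 * G.b j - 1))) l (by simp)
  intro i j
  by_cases hj : j = l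
  · subst hj; simp [jac]
  · simp only [jac, Matrix.of_apply, if_neg hj, Function.update_of_ne hj, if_true, one_mul,
      Function.update_self]
    show G.E i (G.x j * s ^ (2 * G.b j)) = _
    rw [Derivation.leibniz, Derivation.leibniz_pow]
    simp only [smul_eq_mul, nsmul_eq_mul]
    ring

include V in
/-- chart at infinity, valuation trivial on `F₀` -/
theorem upB2 (htriv : ∀ f ∈ G.F₀, f ≠ 0 → v f = 0)
    (hτ0 : vz v (1 + ∑ i, G.x i ^ G.a i : K) < 0) (hw0 : ∀ i, 0 ≤ v (G.w i)) {l : Fin n}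
    (hR : Rindep v (Function.update G.w l G.ξ)) :
    vz v (1 + ∑ i, G.x i ^ G.a i : K) = -m ∧
    ∀ (r : Fin (n + 1) → K), (∀ j, 0 ≤ v (r j)) →
      ((m - 1 : ℤ) : WithTop ℤ) ≤ v (jac G.D r).det := by
  classical
  set s : K := G.t⁻¹ with hs
  have hsn : s ≠ 0 := inv_ne_zero G.t_ne
  set z : Fin (n + 1) → K := Fin.cons G.ξ (Function.update G.w l s) with hz
  have hz0 : z 0 = G.ξ := rfl
  have hzs : ∀ i : Fin n, z i.succ = Function.update G.w l s i := fun i => by
    rw [hz, Fin.cons_succ]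
  have hvh : vz v G.h = 0 := (eq_zero_iff v G.hh0).1 (htriv _ G.hh G.hh0)
  have hvs : 0 < vz v s := by
    have h1 := vz_rel (v := v) G
    rw [hvh, zero_add] at h1
    rw [h1] at hτ0
    rw [hs, vz_inv v G.t_ne]
    have h2 : 0 < (m : ℤ) * (- vz v G.t) := by linarith
    exact pos_right (by positivity) h2
  have hvs' : 0 < v s := (pos_iff v hsn).2 hvs
  have hwO : ∀ i, i ≠ l → G.w i ∈ OZ v z := by
    intro i hi
    have h1 : z i.succ = G.w i := by rw [hzs, Function.update_of_ne hi]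
    rw [← h1]
    exact z_mem_OZ v i.succ (by rw [h1]; exact hw0 i)
  have hsO : s ∈ OZ v z := by
    have h1 : z l.succ = s := by rw [hzs, Function.update_self]
    rw [← h1]
    exact z_mem_OZ v l.succ (by rw [h1]; exact hvs'.le)
  set K₁ := Subfield.closure ((G.M G.w l : Set K) ∪ {s}) with hK₁
  have hMle : ∀ c ∈ G.M G.w l, c ∈ K₁ := fun c hc => Subfield.subset_closure (Or.inl hc)
  have hsK : s ∈ K₁ := Subfield.subset_closure (Or.inr rfl)
  have hMv : ∀ c ∈ G.M G.w l, c ≠ 0 → v c = 0 := fun c hc h => M_triv G hR hc h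
  have hbase : ∀ c ∈ K₁, 0 ≤ v c → c ∈ OZ v z := fun c hc hc0 =>
    base_triv v hMv hvs'.le
      (fun r hr => frac_of_closure hr) (OZ v z) (fun r hr h => OZ_inv v hr h)
      (fun c hc => M_OZ G htriv hR z hz0 (fun i hi => hwO i hi) hc) hsO hc hc0
  -- the relation
  have hrel := rel_inf G
  rw [← hs, ← Finset.add_sum_erase Finset.univ (fun i => G.w i ^ G.a i) (Finset.mem_univ l)]
    at hrel
  have hsplit : G.w l ^ G.a l = G.h * s ^ (2 * N - m) - s ^ (2 * N)
      - ∑ i ∈ Finset.univ.erase l, G.w i ^ G.a i := by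
    rw [hrel]; ring
  -- w_l is a unit
  have hθv : v (G.w l) = 0 := by
    by_contra hne
    have hpos : 0 < v (G.w l) := lt_of_le_of_ne (hw0 l) (Ne.symm hne)
    obtain ⟨i₁, hi₁⟩ : ∃ i₁ : Fin n, i₁ ≠ l := by
      have h2 := G.hn
      have : Nontrivial (Fin n) := Fin.nontrivial_iff_two_le.2 h2
      exact exists_ne l
    set u : Fin n → K := Function.update (Function.update G.w l G.ξ) i₁ 1 with hu
    have hu0 : ∀ i, 0 ≤ v (u i) := by
      intro i
      by_cases h : i = i₁
      · rw [h, hu, Function.update_self]; simp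
      · rw [hu, Function.update_of_ne h]
        exact (rindep_nonneg v hR i).symm.le
    have hgen : ∀ j, j ≠ i₁ → AR v V.hC (fun i => ⟨u i, hu0 i⟩)
        (Function.update G.w l G.ξ j) := by
      intro j hj
      have h3 := AR.gen (v := v) (hC := V.hC) (w := fun i => (⟨u i, hu0 i⟩ : OA v V.hC)) j
      have h4 : u j = Function.update G.w l G.ξ j := by rw [hu, Function.update_of_ne hj]
      rw [← h4]; exact h3
    have hξAR : ∃ i, ((⟨u i, hu0 i⟩ : OA v V.hC) : K) = G.ξ :=
      ⟨l, by show u l = G.ξ; rw [hu, Function.update_of_ne (Ne.symm hi₁), Function.update_self]⟩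
    have hAll : ∀ j, AR v V.hC (fun i => ⟨u i, hu0 i⟩) (Function.update G.w l G.ξ j) := by
      intro j
      by_cases hj : j = i₁
      · subst hj
        rw [Function.update_of_ne hi₁]
        apply AR.root (G.ha j) (hw0 j)
        have h5 : G.w j ^ G.a j = G.h * s ^ (2 * N - m) - s ^ (2 * N)
            - ∑ i ∈ (Finset.univ.erase l).erase j, G.w i ^ G.a i - G.w l ^ G.a l := by
          rw [hsplit, ← Finset.add_sum_erase (Finset.univ.erase l) (fun i => G.w i ^ G.a i)
            (Finset.mem_erase.2 ⟨hi₁, Finset.mem_univ j⟩)]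
          ring
        rw [h5]
        refine AR.sub (AR.sub (AR.sub (AR.mul ?_ (AR.pow (AR.of_pos hvs') _))
          (AR.pow (AR.of_pos hvs') _)) (AR.sum _ _ fun i hi => AR.pow ?_ _))
          (AR.pow (AR.of_pos hpos) _)
        · exact F₀_AR G V.hC htriv _ hξAR G.hh
        · have h6 := Finset.mem_erase.1 hi
          have h7 := Finset.mem_erase.1 h6.2
          have h8 := hgen i h6.1
          rwa [Function.update_of_ne h7.1] at h8
      · exact hgen j hj
    have hRu := T1' v V.hC hR u hu0 hAll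
    have h9 := hRu (MvPolynomial.X i₁ - 1) (by
      intro h
      have h10 := congrArg (MvPolynomial.eval (fun _ => (0 : ℂ))) h
      simp at h10)
    rw [map_sub, MvPolynomial.aeval_X, map_one, hu, Function.update_self, sub_self,
      AddValuation.map_zero] at h9
    exact absurd h9 (by simp)
  have hθK : G.w l ^ G.a l ∈ K₁ := by
    rw [hsplit]
    refine K₁.sub_mem (K₁.sub_mem (K₁.mul_mem (hMle _ (G.F₀_le_M G.w l G.hh))
      (K₁.pow_mem hsK _)) (K₁.pow_mem hsK _)) (K₁.sum_mem fun i hi => ?_)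
    exact K₁.pow_mem (hMle _ (G.w_mem_M G.w (Finset.ne_of_mem_erase hi))) _
  have hθO : G.w l ∈ OZ v z := by
    apply root_mem_OZ v (G.ha l).ne' (natv G V (G.ha l)) hθv
    apply hbase _ hθK
    rw [AddValuation.map_pow, hθv]; simp
  have hgen : ∀ c : K, c ∈ Subfield.closure ((K₁ : Set K) ∪ {G.w l}) := by
    intro c
    set S := Subfield.closure ((K₁ : Set K) ∪ {G.w l}) with hS
    have hK : ∀ c ∈ K₁, c ∈ S := fun c hc => Subfield.subset_closure (Or.inl hc)
    have hwS : ∀ i, G.w i ∈ S := by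
      intro i
      by_cases hi : i = l
      · rw [hi]; exact Subfield.subset_closure (Or.inr rfl)
      · exact hK _ (hMle _ (G.w_mem_M G.w hi))
    have hsS : s ∈ S := hK _ hsK
    refine Subfield.closure_le.2 ?_ (G.hgen c)
    rintro c (hc | hc)
    · exact hK _ (hMle _ (G.F₀_le_M G.w l hc))
    · rcases hc with ⟨i, rfl⟩ | hc
      · have h1 : G.x i = G.w i * (s ^ (2 * G.b i))⁻¹ := by
          rw [Geo.w, ← hs, mul_assoc, mul_inv_cancel₀ (pow_ne_zero _ hsn), mul_one]
        rw [h1]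
        exact S.mul_mem (hwS i) (S.inv_mem (S.pow_mem hsS _))
      · rw [Set.mem_singleton_iff.1 hc]
        have h1 : G.t = s⁻¹ := by rw [hs, inv_inv]
        rw [h1]
        exact S.inv_mem hsS
  have hall := KU' v (G.ha l) (natv G V (G.ha l)) hθK hθv hgen V.hsurj (OZ v z)
    (fun r hr h => OZ_inv v hr h) hbase hθO
  have hs1 : vz v s = 1 := KU_val' v (G.ha l) (natv G V (G.ha l)) hθK hθv hgen V.hsurj hsK
    hsn hvs (fun r hr hr0 => val_triv v hMv hvs' hsn (fun r hr => frac_of_closure hr) hr hr0)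
  have ht1 : vz v G.t = -1 := by
    have := vz_inv v G.t_ne
    rw [← hs, hs1] at this
    linarith
  constructor
  · rw [vz_rel (v := v) G, hvh, ht1]; ring
  · intro r hr
    have hle := jac_le v G.D z r (fun j => hall _ (hr j))
    refine le_trans ?_ hle
    obtain ⟨hne, hEt⟩ := vz_E_t G V l
    have hEs : G.E l s = - (G.E l G.t * (s ^ 2)) := by
      rw [hs, Derivation.leibniz_inv, smul_eq_mul, inv_pow]; ring
    have hEsn : G.E l s ≠ 0 := by
      rw [hEs]; exact neg_ne_zero.2 (mul_ne_zero hne (pow_ne_zero _ hsn))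
    have hPn : (∏ j ∈ Finset.univ.erase l, s ^ (2 * G.b j)) ≠ 0 :=
      Finset.prod_ne_zero_iff.2 fun j _ => pow_ne_zero _ hsn
    have hPv : vz v (∏ j ∈ Finset.univ.erase l, s ^ (2 * G.b j))
        = 2 * ∑ j ∈ Finset.univ.erase l, (G.b j : ℤ) := by
      rw [vz_prod v _ _ fun j _ => pow_ne_zero _ hsn, Finset.mul_sum]
      refine Finset.sum_congr rfl fun j _ => ?_
      rw [vz_pow v hsn, hs1]; push_cast; ring
    have hxl : vz v (G.x l) = - (2 * G.b l) := by
      have h1 := (eq_zero_iff v (w_ne G l)).1 hθv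
      rw [Geo.w, ← hs, vz_mul v (G.hx l) (pow_ne_zero _ hsn), vz_pow v hsn, hs1] at h1
      push_cast at h1
      linarith
    rw [Geo.D, hz, det_cons _ _ _ _ G.hEξ, G.hD₀ξ, hs, det_inf G l, ← hs,
      v_eq v (mul_ne_zero G.hy0 (mul_ne_zero hPn hEsn)), vz_mul v G.hy0 (mul_ne_zero hPn hEsn),
      vz_mul v hPn hEsn, hPv, (eq_zero_iff v G.hy0).1 (htriv _ G.hy G.hy0), hEs, vz_neg,
      vz_mul v hne (pow_ne_zero _ hsn), vz_pow v hsn, hs1, hEt, hvh, ht1, hxl]
    apply WithTop.coe_le_coe.2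
    have h2 : (G.b l : ℤ) + ∑ j ∈ Finset.univ.erase l, (G.b j : ℤ) + 1 = N := by
      rw [Finset.add_sum_erase Finset.univ (fun j => (G.b j : ℤ)) (Finset.mem_univ l)]
      exact_mod_cast G.hsum
    have h3 : (G.b l : ℤ) * G.a l = N := by exact_mod_cast G.hab l
    push_cast
    nlinarith [h2, h3]

end

end TriIdx
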