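import Pool.Agent.TriIdx.Up2b

/-!
Upper bounds for the order: valuations nontrivial on `F₀`.
-/

namespace TriIdx

section

variable {K : Type} [Field K] [Algebra ℂ K] {n m N : ℕ} (G : Geo K n m N)
  {v : AddValuation K (WithTop ℤ)} (V : VP G v)

/-- if the residue classes of the `x_i` are independent then `τ` is a unit -/
theorem tau_unit (hR : Rindep v G.x) : v (1 + ∑ i, G.x i ^ G.a i : K) = 0 := by
  set P : MvPolynomial (Fin n) ℂ := 1 + ∑ i, MvPolynomial.X i ^ G.a i with hP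
  have hP0 : P ≠ 0 := by
    intro h
    have h1 := congrArg MvPolynomial.constantCoeff h
    rw [hP, map_add, map_one, map_sum, map_zero] at h1
    rw [Finset.sum_eq_zero (fun i _ => by
      rw [map_pow, MvPolynomial.constantCoeff_X, zero_pow (G.ha i).ne'])] at h1
    simp at h1
  have h1 := hR P hP0
  have h2 : MvPolynomial.aeval G.x P = 1 + ∑ i, G.x i ^ G.a i := by
    rw [hP, map_add, map_one, map_sum]
    congr 1
    refine Finset.sum_congr rfl fun i _ => ?_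
    rw [map_pow, MvPolynomial.aeval_X]
  rwa [h2] at h1

include V in
theorem upA (hres : ∀ f ∈ G.F₀, 0 ≤ v f → ∃ c : ℂ, 0 < v (f - algebraMap ℂ K c))
    (hD₀ : ∀ f ∈ G.F₀, 0 ≤ v f → 0 ≤ v (G.D₀ f))
    (hr₀ : ∃ r ∈ G.F₀, 0 ≤ v r ∧ v (G.D₀ r) = 0)
    (hu : ∃ u ∈ G.F₀, u ≠ 0 ∧ (m : ℤ) * vz v u = vz v G.h)
    (hR : Rindep v G.x) :
    vz v (1 + ∑ i, G.x i ^ G.a i : K) = 0 ∧
    ∀ (r : Fin (n + 1) → K), (∀ j, 0 ≤ v (r j)) → 0 ≤ v (jac G.D r).det := by
  classical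
  obtain ⟨r₀, hr₀F, hr₀v, hr₀D⟩ := hr₀
  obtain ⟨u, huF, hu0, huv⟩ := hu
  have hτ := tau_unit G hR
  have hτz : vz v (1 + ∑ i, G.x i ^ G.a i : K) = 0 := (eq_zero_iff v G.hτ).1 hτ
  refine ⟨hτz, ?_⟩
  set z : Fin (n + 1) → K := Fin.cons r₀ G.x with hz
  have hz0 : z 0 = r₀ := rfl
  have hzs : ∀ i : Fin n, z i.succ = G.x i := fun i => by simp [hz]
  have hx0 : ∀ i, 0 ≤ v (G.x i) := fun i => (rindep_nonneg v hR i).symm.le
  have hxO : ∀ i, G.x i ∈ OZ v z := by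
    intro i
    rw [← hzs i]
    exact z_mem_OZ v i.succ (by rw [hzs i]; exact hx0 i)
  have hDr₀ : G.D₀ r₀ ≠ 0 := ne_zero_of_v_zero hr₀D
  have hF₀O : ∀ f ∈ G.F₀, 0 ≤ v f → f ∈ OZ v z := by
    intro f hf hf0
    obtain ⟨c, hc, hcD⟩ := G.hFD f hf
    obtain ⟨c', hc', hcD'⟩ := G.hFD r₀ hr₀F
    refine ⟨hf0, fun l => if l = 0 then G.D₀ f / G.D₀ r₀ else 0, ?_, ?_⟩
    · intro l
      show 0 ≤ v (if l = 0 then G.D₀ f / G.D₀ r₀ else 0)
      by_cases h : l = 0
      · rw [if_pos h]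
        by_cases hDf : G.D₀ f = 0
        · rw [hDf, zero_div]; simp
        · rw [nonneg_iff v (div_ne_zero hDf hDr₀), vz_div v hDf hDr₀,
            (eq_zero_iff v hDr₀).1 hr₀D, sub_zero]
          exact (nonneg_iff v hDf).1 (hD₀ f hf hf0)
      · rw [if_neg h]; simp
    · intro D
      have h1 : ∑ l : Fin (n + 1), (if l = 0 then G.D₀ f / G.D₀ r₀ else 0) * D (z l)
          = G.D₀ f / G.D₀ r₀ * D r₀ := by
        simp [hz0]
      rw [h1, hcD D, hcD' D, hcD G.D₀, hcD' G.D₀, G.hD₀ξ]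
      have h2 : c' ≠ 0 := by
        rintro rfl
        apply hDr₀
        rw [hcD' G.D₀, zero_mul]
      have h3 := G.hy0
      field_simp
  set K₁ := Subfield.closure ((G.F₀ : Set K) ∪ Set.range G.x) with hK₁
  have hFK : ∀ c ∈ G.F₀, c ∈ K₁ := fun c hc => Subfield.subset_closure (Or.inl hc)
  have hxK : ∀ i, G.x i ∈ K₁ := fun i => Subfield.subset_closure (Or.inr ⟨i, rfl⟩)
  have hbase : ∀ c ∈ K₁, 0 ≤ v c → c ∈ OZ v z := fun c hc hc0 =>
    base_gauss v V.hC hx0 hres hR (OZ v z) (fun r hr h => OZ_inv v hr h) hF₀O hxO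
      (fun r hr => mvfrac_of_closure hr) hc hc0
  -- the element t'' = u t
  set θ : K := u * G.t with hθ
  have hθn : θ ≠ 0 := mul_ne_zero hu0 G.t_ne
  have hθv : v θ = 0 := by
    rw [eq_zero_iff v hθn, hθ, vz_mul v hu0 G.t_ne]
    have h1 := vz_rel (v := v) G
    rw [hτz] at h1
    have hm : (m : ℤ) ≠ 0 := by have := G.mpos; omega
    have h2 : (m : ℤ) * (vz v u + vz v G.t) = 0 := by rw [mul_add, huv]; linarith
    exact (mul_eq_zero.1 h2).resolve_left hm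
  have hθK : θ ^ m ∈ K₁ := by
    rw [hθ, mul_pow, t_pow G]
    exact K₁.mul_mem (K₁.pow_mem (hFK _ huF) _)
      (K₁.div_mem (tau_mem G hxK) (hFK _ G.hh))
  have hθO : θ ∈ OZ v z := by
    apply root_mem_OZ v G.mpos.ne' (natv G V G.mpos) hθv
    apply hbase _ hθK
    rw [AddValuation.map_pow, hθv]; simp
  have hgen : ∀ w : K, w ∈ Subfield.closure ((K₁ : Set K) ∪ {θ}) := by
    intro w
    set S := Subfield.closure ((K₁ : Set K) ∪ {θ}) with hS
    refine Subfield.closure_le.2 ?_ (G.hgen w)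
    rintro c (hc | hc)
    · exact Subfield.subset_closure (Or.inl (hFK _ hc))
    · rcases hc with ⟨i, rfl⟩ | hc
      · exact Subfield.subset_closure (Or.inl (hxK i))
      · rw [Set.mem_singleton_iff.1 hc]
        have h1 : G.t = θ * u⁻¹ := by rw [hθ]; field_simp
        rw [h1]
        exact S.mul_mem (Subfield.subset_closure (Or.inr rfl))
          (S.inv_mem (Subfield.subset_closure (Or.inl (hFK _ huF))))
  have hall := KU' v G.mpos (natv G V G.mpos) hθK hθv hgen V.hsurj (OZ v z)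
    (fun r hr h => OZ_inv v hr h) hbase hθO
  intro r hr
  have hle := jac_le v G.D z r (fun j => hall _ (hr j))
  refine le_trans ?_ hle
  rw [Geo.D, hz, det_cons _ _ _ _ (fun i => E_F₀ G i hr₀F), jac_x G.E G.x G.hEx,
    Matrix.det_one, mul_one, hr₀D]

end

end TriIdx
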