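import Pool.Agent.TriIdx.Chart

/-!
The upper bound for the order at all prime divisors of the model.
-/

namespace TriIdx

section

variable {K : Type} [Field K] [Algebra ℂ K] {n m N : ℕ} (G : Geo K n m N)
  {v : AddValuation K (WithTop ℤ)} (V : VP G v)

include V in
theorem upper (hP : IsPrimeDivisor n G.fam v) :
    ∃ ρ : ℤ, vz v G.τ = m * ρ ∧ ∀ r : Fin (n + 1) → K, (∀ j, 0 ≤ v (r j)) →
      ((-((m - 1 : ℤ) * ρ) : ℤ) : WithTop ℤ) ≤ v (jac G.D r).det := by
  classical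
  obtain ⟨_, ⟨α₀, β₀⟩, hmin, s, hs⟩ := hP
  have hC := V.hC
  have hn := G.hn
  have hα : ∀ α, 0 ≤ v (G.fa α / G.fa α₀) := by
    intro α
    have h := hmin (α, β₀)
    have h1 : G.fam (α, β₀) / G.fam (α₀, β₀) = G.fa α / G.fa α₀ := by
      show G.fa α * G.fb β₀ / (G.fa α₀ * G.fb β₀) = _
      exact mul_div_mul_right _ _ (fb_ne G β₀)
    rwa [h1] at h
  have hβ : ∀ β, 0 ≤ v (G.fb β / G.fb β₀) := by
    intro β
    have h := hmin (α₀, β)
    have h1 : G.fam (α₀, β) / G.fam (α₀, β₀) = G.fb β / G.fb β₀ := by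
      show G.fa α₀ * G.fb β / (G.fa α₀ * G.fb β₀) = _
      exact mul_div_mul_left _ _ (fa_ne G α₀)
    rwa [h1] at h
  have hs' : Rindep v (fun l => G.fa (s l).1 / G.fa α₀ * (G.fb (s l).2 / G.fb β₀)) := by
    have h1 : (fun l => G.fa (s l).1 / G.fa α₀ * (G.fb (s l).2 / G.fb β₀))
        = fun l => G.fam (s l) / G.fam (α₀, β₀) := by
      funext l
      show _ = G.fa (s l).1 * G.fb (s l).2 / (G.fa α₀ * G.fb β₀)
      rw [mul_div_mul_comm]
    rw [h1]; exact hs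
  have hrel : G.h * G.t ^ m = G.τ := by rw [G.hrel, tau_eq]
  rcases V.hell with htriv | ⟨hres, hD₀, hr₀, hu⟩
  · -- valuation trivial on `F₀`
    have hξv : v G.ξ = 0 := htriv _ G.hξ (xi_ne G)
    have hE : ∀ {ι : Type} (w : ι → OA v hC), (∃ i, (w i : K) = G.ξ) → ∀ l,
        AR v hC w (G.fb (s l).2 / G.fb β₀) := by
      intro ι w hw l
      exact F₀_AR G hC htriv w hw (G.F₀.div_mem (fb_mem G _) (fb_mem G _))
    rcases trichotomy G α₀ hα with ⟨hx, hτ, h0⟩ | ⟨hτ, h0, hj⟩ | ⟨p, hp, h0, hmin', hτ⟩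
    · -- finite chart
      have hx0 : ∀ j, 0 ≤ v (G.x j) := fun j => (nonneg_iff v (G.hx j)).2 (hx j)
      obtain ⟨l, hl⟩ := T2' v hC (by omega) hs' G.x G.ξ hx0 hξv.symm.le
        (xi_trans G hC htriv hξv.symm.le) (fun l => by
        have hw : ∀ j, AR v hC (fun i : Option (Fin n) => i.elim ⟨G.ξ, hξv.symm.le⟩
            fun i => ⟨G.x i, hx0 i⟩) (G.x j) := fun j =>
          AR.gen (v := v) (hC := hC) (w := fun i : Option (Fin n) => i.elim ⟨G.ξ, hξv.symm.le⟩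
            fun i => (⟨G.x i, hx0 i⟩ : OA v hC)) (some j)
        refine AR.mul ?_ (hE _ ⟨none, rfl⟩ l)
        refine ar_ratio G (one_ne_zero : (1 : K) ≠ 0) α₀ _ ?_ (fun α => ar_chart1 G hw α)
        rw [h0, eq_comm, ← eq_zero_iff v one_ne_zero, AddValuation.map_one])
      rcases hτ.lt_or_eq with hτ | hτ
      · obtain ⟨h1, h2⟩ := upB1 G V htriv hx0 hl hτ
        refine ⟨1, by rw [tau_eq, h1]; ring, fun r hr => ?_⟩
        have := h2 r hr
        rw [mul_one]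
        exact this
      · refine ⟨0, by rw [← hτ]; ring, fun r hr => ?_⟩
        rw [mul_zero, neg_zero]
        exact upB0 G V htriv hx0 hl hτ.symm r hr
    · -- chart at infinity
      have hvh : v G.h = 0 := htriv _ G.hh G.hh0
      have hut : vz v G.τ = m * vz v (1 * G.t) := by
        rw [tau_eq, vz_rel (v := v) G, (eq_zero_iff v G.hh0).1 hvh, zero_add, one_mul]
      have hw' : ∀ j, G.w j = G.x j * ((1 * G.t)⁻¹) ^ (2 * G.b j) := by
        intro j; rw [Geo.w, one_mul]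
      have hw0 : ∀ j, 0 ≤ v (G.w j) := by
        intro j
        rw [hw' j]
        exact w_nonneg G one_ne_zero hut (hj j)
      obtain ⟨l, hl⟩ := T2' v hC (by omega) hs' G.w G.ξ hw0 hξv.symm.le
        (xi_trans G hC htriv hξv.symm.le) (fun l => by
        have hw : ∀ j, AR v hC (fun i : Option (Fin n) => i.elim ⟨G.ξ, hξv.symm.le⟩
            fun i => ⟨G.w i, hw0 i⟩) (G.x j * ((1 * G.t)⁻¹) ^ (2 * G.b j)) := by
          intro j
          rw [← hw' j]
          exact AR.gen (v := v) (hC := hC) (w := fun i : Option (Fin n) =>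
            i.elim ⟨G.ξ, hξv.symm.le⟩ fun i => (⟨G.w i, hw0 i⟩ : OA v hC)) (some j)
        refine AR.mul ?_ (hE _ ⟨none, rfl⟩ l)
        refine ar_ratio G (pow_ne_zero _ (tau_ne G) : G.τ ^ (2 * N) ≠ 0) α₀ _ ?_
          (fun α => ar_chart2 G one_ne_zero (by rw [one_mul]; exact hrel) hvh
            (F₀_AR G hC htriv _ ⟨none, rfl⟩ G.hh) hτ hw α)
        rw [h0, vz_pow v (tau_ne G)]; push_cast; ring)
      obtain ⟨h1, h2⟩ := upB2 G V htriv hτ hw0 hl
      refine ⟨-1, by rw [tau_eq, h1]; ring, fun r hr => ?_⟩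
      have h3 := h2 r hr
      have h4 : -((m - 1 : ℤ) * -1) = (m - 1 : ℤ) := by ring
      rw [h4]
      exact h3
    · exact (no_chart3 G hC hp hτ hmin' α₀ h0 G.ξ hξv.symm.le _ (fun w hw l => hE w hw l) _
        hs').elim
  · -- valuation nontrivial on `F₀`
    have hEc : ∀ l, ∃ c : ℂ, 0 < v (G.fb (s l).2 / G.fb β₀ - algebraMap ℂ K c) := fun l =>
      hres _ (G.F₀.div_mem (fb_mem G _) (fb_mem G _)) (hβ _)
    obtain ⟨u, huF, hu0, huv⟩ := hu
    have hup : u ^ m ≠ 0 := pow_ne_zero _ hu0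
    set κ : K := G.h / u ^ m with hκd
    have hκn : κ ≠ 0 := div_ne_zero G.hh0 hup
    have hκv : v κ = 0 := by
      rw [eq_zero_iff v hκn, hκd, vz_div v G.hh0 hup, vz_pow v hu0, huv, sub_self]
    have hκF : κ ∈ G.F₀ := G.F₀.div_mem G.hh (G.F₀.pow_mem huF _)
    have hκ : κ * (u * G.t) ^ m = G.τ := by
      rw [hκd, mul_pow, ← hrel]; field_simp
    rcases trichotomy G α₀ hα with ⟨hx, hτ, h0⟩ | ⟨hτ, h0, hj⟩ | ⟨p, hp, h0, hmin', hτ⟩
    · have hx0 : ∀ j, 0 ≤ v (G.x j) := fun j => (nonneg_iff v (G.hx j)).2 (hx j)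
      have hR := T1' v hC hs' G.x hx0 (fun l => by
        have hw : ∀ j, AR v hC (fun i : Fin n => ⟨G.x i, hx0 i⟩) (G.x j) := fun j =>
          AR.gen (v := v) (hC := hC) (w := fun i : Fin n => (⟨G.x i, hx0 i⟩ : OA v hC)) j
        refine AR.mul ?_ (AR_of_const (hEc l))
        refine ar_ratio G (one_ne_zero : (1 : K) ≠ 0) α₀ _ ?_ (fun α => ar_chart1 G hw α)
        rw [h0, eq_comm, ← eq_zero_iff v one_ne_zero, AddValuation.map_one])
      obtain ⟨h1, h2⟩ := upA G V hres hD₀ hr₀ ⟨u, huF, hu0, huv⟩ hR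
      refine ⟨0, by rw [tau_eq, h1]; ring, fun r hr => ?_⟩
      rw [mul_zero, neg_zero]
      exact h2 r hr
    · exact (no_chart2 G hC hu0 hκ hκv (hres κ hκF hκv.symm.le) hτ hj α₀ h0 _ hEc _
        hs').elim
    · exact (no_chart3 G hC hp hτ hmin' α₀ h0 1 (by simp) _
        (fun w _ l => AR_of_const (hEc l)) _ hs').elim

end

end TriIdx
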