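import Mathlib

/-!
Integer valued additive valuations of a field: small helpers.
-/

namespace TriIdx

variable {K : Type*} [Field K] (v : AddValuation K (WithTop ℤ))

/-- integer value of a nonzero element -/
noncomputable def vz (x : K) : ℤ := (v x).untopD 0

theorem v_eq {x : K} (hx : x ≠ 0) : v x = ((vz v x : ℤ) : WithTop ℤ) := by
  have h : v x ≠ ⊤ := (AddValuation.ne_top_iff v).2 hx
  obtain ⟨k, hk⟩ := WithTop.ne_top_iff_exists.1 h
  rw [vz, ← hk]; rfl

theorem vz_of_eq {x : K} {k : ℤ} (h : v x = (k : WithTop ℤ)) : vz v x = k := by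
  rw [vz, h]; rfl

theorem ne_zero_of_v_eq {x : K} {k : ℤ} (h : v x = (k : WithTop ℤ)) : x ≠ 0 := by
  rintro rfl
  rw [AddValuation.map_zero] at h
  exact absurd h.symm (WithTop.coe_ne_top)

@[simp] theorem vz_one : vz v (1 : K) = 0 := by
  apply vz_of_eq; rw [AddValuation.map_one]; rfl

theorem vz_mul {x y : K} (hx : x ≠ 0) (hy : y ≠ 0) : vz v (x * y) = vz v x + vz v y := by
  apply vz_of_eq
  rw [AddValuation.map_mul, v_eq v hx, v_eq v hy]; rfl

theorem vz_pow {x : K} (hx : x ≠ 0) (n : ℕ) : vz v (x ^ n) = n * vz v x := by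
  induction n with
  | zero => simp
  | succ n ih => rw [pow_succ, vz_mul v (pow_ne_zero _ hx) hx, ih]; push_cast; ring

theorem vz_inv {x : K} (hx : x ≠ 0) : vz v x⁻¹ = - vz v x := by
  have h := vz_mul v hx (inv_ne_zero hx)
  rw [mul_inv_cancel₀ hx, vz_one] at h
  linarith

theorem vz_div {x y : K} (hx : x ≠ 0) (hy : y ≠ 0) : vz v (x / y) = vz v x - vz v y := by
  rw [div_eq_mul_inv, vz_mul v hx (inv_ne_zero hy), vz_inv v hy]; ring

theorem vz_zpow {x : K} (hx : x ≠ 0) (n : ℤ) : vz v (x ^ n) = n * vz v x := by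
  cases n with
  | ofNat n => simpa using vz_pow v hx n
  | negSucc n =>
    rw [zpow_negSucc, vz_inv v (pow_ne_zero _ hx), vz_pow v hx, Int.negSucc_eq]
    push_cast; ring

theorem vz_neg (x : K) : vz v (-x) = vz v x := by
  rw [vz, AddValuation.map_neg, vz]

theorem vz_add {x y : K} (hx : x ≠ 0) (hy : y ≠ 0) (hxy : x + y ≠ 0) :
    min (vz v x) (vz v y) ≤ vz v (x + y) := by
  have h := AddValuation.map_add v x y
  rw [v_eq v hx, v_eq v hy, v_eq v hxy] at h
  have h2 : ((min (vz v x) (vz v y) : ℤ) : WithTop ℤ) ≤ (vz v (x + y) : ℤ) := by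
    simpa using h
  exact_mod_cast h2

theorem le_v_iff {x : K} (hx : x ≠ 0) (k : ℤ) : (k : WithTop ℤ) ≤ v x ↔ k ≤ vz v x := by
  rw [v_eq v hx]; exact WithTop.coe_le_coe

theorem nonneg_iff {x : K} (hx : x ≠ 0) : 0 ≤ v x ↔ 0 ≤ vz v x := by
  have := le_v_iff v hx 0
  simpa using this

theorem pos_iff {x : K} (hx : x ≠ 0) : 0 < v x ↔ 0 < vz v x := by
  rw [v_eq v hx]
  constructor <;> intro h <;> exact_mod_cast h

theorem eq_zero_iff {x : K} (hx : x ≠ 0) : v x = 0 ↔ vz v x = 0 := by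
  rw [v_eq v hx]
  exact WithTop.coe_eq_coe (a := _) (b := (0 : ℤ))

theorem vz_prod {ι : Type*} (s : Finset ι) (f : ι → K) (h : ∀ i ∈ s, f i ≠ 0) :
    vz v (∏ i ∈ s, f i) = ∑ i ∈ s, vz v (f i) := by
  classical
  induction s using Finset.induction_on with
  | empty => simp
  | insert i s hi ih =>
    rw [Finset.prod_insert hi, Finset.sum_insert hi, vz_mul v (h i (Finset.mem_insert_self _ _))
      (Finset.prod_ne_zero_iff.2 fun j hj => h j (Finset.mem_insert_of_mem hj)),
      ih fun j hj => h j (Finset.mem_insert_of_mem hj)]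

/-- the valuation ring as a subring -/
def OV : Subring K where
  carrier := {x | 0 ≤ v x}
  mul_mem' := by
    intro a b ha hb
    simp only [Set.mem_ofPred_eq] at *
    rw [AddValuation.map_mul]; exact add_nonneg ha hb
  one_mem' := by simp
  add_mem' := by
    intro a b ha hb
    exact AddValuation.map_le_add v ha hb
  zero_mem' := by simp
  neg_mem' := by
    intro a ha
    simpa using ha

theorem mem_OV {x : K} : x ∈ OV v ↔ 0 ≤ v x := Iff.rfl

/-- valuation rings are integrally closed -/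
theorem nonneg_of_integral {A : Type*} [CommRing A] [Algebra A K]
    (hA : ∀ a : A, 0 ≤ v (algebraMap A K a)) {z : K} (hz : IsIntegral A z) : 0 ≤ v z := by
  by_cases hz0 : z = 0
  · rw [hz0]; simp
  rw [nonneg_iff v hz0]
  by_contra hneg
  push Not at hneg
  obtain ⟨p, hp, hev⟩ := hz
  rw [Polynomial.eval₂_eq_sum_range, Finset.sum_range_succ, hp.coeff_natDegree, map_one,
    one_mul] at hev
  set n := p.natDegree with hn
  have h1 : z ^ n = - ∑ i ∈ Finset.range n, (algebraMap A K) (p.coeff i) * z ^ i := by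
    linear_combination hev
  have h2 : (((n - 1 : ℤ) * vz v z : ℤ) : WithTop ℤ) ≤ v (z ^ n) := by
    rw [h1, AddValuation.map_neg]
    apply AddValuation.map_le_sum
    intro i hi
    have hi' : i < n := Finset.mem_range.1 hi
    have h3 : (((n - 1 : ℤ) * vz v z : ℤ) : WithTop ℤ) ≤ v (z ^ i) := by
      rw [le_v_iff v (pow_ne_zero _ hz0), vz_pow v hz0]
      have : (i : ℤ) ≤ n - 1 := by omega
      nlinarith
    rw [AddValuation.map_mul]
    exact le_trans h3 (le_add_of_nonneg_left (hA _))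
  rw [le_v_iff v (pow_ne_zero _ hz0), vz_pow v hz0] at h2
  nlinarith

/-- a valuation trivial on a subfield is trivial on algebraic elements -/
theorem vz_zero_of_algebraic {A : Type*} [Field A] [Algebra A K]
    (hA : ∀ a : A, a ≠ 0 → v (algebraMap A K a) = 0) {z : K} (hz : IsAlgebraic A z)
    (hz0 : z ≠ 0) : vz v z = 0 := by
  have hA' : ∀ a : A, 0 ≤ v (algebraMap A K a) := by
    intro a
    by_cases ha : a = 0
    · rw [ha]; simp
    · rw [hA a ha]
  have h1 := (nonneg_iff v hz0).1 (nonneg_of_integral v hA' hz.isIntegral)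
  have h2 := (nonneg_iff v (inv_ne_zero hz0)).1
    (nonneg_of_integral v hA' (hz.inv).isIntegral)
  rw [vz_inv v hz0] at h2
  omega

/-- a generator of the value group on a subfield -/
theorem exists_min (K₁ : Subfield K) (h : ∃ r ∈ K₁, r ≠ 0 ∧ vz v r ≠ 0) :
    ∃ π ∈ K₁, π ≠ 0 ∧ 0 < vz v π ∧ ∀ r ∈ K₁, r ≠ 0 → ∃ j : ℤ, vz v r = j * vz v π := by
  classical
  have hex : ∃ k : ℕ, 0 < k ∧ ∃ r ∈ K₁, r ≠ 0 ∧ vz v r = k := by
    obtain ⟨r, hr, hr0, hrv⟩ := h
    rcases lt_or_gt_of_ne hrv with hlt | hgt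
    · refine ⟨(-(vz v r)).toNat, by omega, r⁻¹, K₁.inv_mem hr, inv_ne_zero hr0, ?_⟩
      rw [vz_inv v hr0]; omega
    · exact ⟨(vz v r).toNat, by omega, r, hr, hr0, by omega⟩
  obtain ⟨hpos, π, hπ, hπ0, hπv⟩ := Nat.find_spec hex
  have hmin := fun k (hk : k < Nat.find hex) => Nat.find_min hex hk
  set e := Nat.find hex with he
  refine ⟨π, hπ, hπ0, by omega, ?_⟩
  intro r hr hr0
  refine ⟨vz v r / e, ?_⟩
  rw [hπv]
  have hmod : vz v r % e = 0 := by
    by_contra hne
    have h1 : 0 ≤ vz v r % e := Int.emod_nonneg _ (by omega)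
    have h2 : vz v r % e < e := Int.emod_lt_of_pos _ (by omega)
    have h3 := Int.emod_add_mul_ediv (vz v r) e
    apply hmin (vz v r % e).toNat (by omega)
    refine ⟨by omega, r * (π ^ (vz v r / e))⁻¹,
      K₁.mul_mem hr (K₁.inv_mem (zpow_mem hπ _)),
      mul_ne_zero hr0 (inv_ne_zero (zpow_ne_zero _ hπ0)), ?_⟩
    rw [vz_mul v hr0 (inv_ne_zero (zpow_ne_zero _ hπ0)), vz_inv v (zpow_ne_zero _ hπ0),
      vz_zpow v hπ0, hπv]
    have h4 : ((vz v r % e).toNat : ℤ) = vz v r % e := Int.toNat_of_nonneg h1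
    rw [h4]
    linarith [mul_comm (e : ℤ) (vz v r / e)]
  have h3 := Int.emod_add_mul_ediv (vz v r) e
  rw [hmod] at h3
  linarith [mul_comm (e : ℤ) (vz v r / e)]

end TriIdx
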